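import Pool.Agent.PmX.Defs

/-!
# Polymatroids: closure, conditional rank, splitting at complementary literals
-/

namespace Pool.PmX

variable {E : Type} [DecidableEq E]

/-- `X` lies in the closure of `Y` -/
def Cl (f : Finset E → ℝ) (X Y : Finset E) : Prop := f (X ∪ Y) = f Y

/-- conditional rank of `Z` given `T` -/
def cr (f : Finset E → ℝ) (T Z : Finset E) : ℝ := f (Z ∪ T) - f T

/-- `X` splits at the (complementary) elements `a`, `b` -/
def Split (f : Finset E → ℝ) (a b : E) (X : Finset E) : Prop :=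
  ∃ X1 X0, Cl f X1 {a} ∧ Cl f X0 {b} ∧ Cl f X (X1 ∪ X0) ∧ Cl f (X1 ∪ X0) X

/-! ### module a1: closure -/

section a1

variable {f : Finset E → ℝ} (hf : Polymatroid f) {X X' Y Y' Z : Finset E}
include hf

/-- a1. By definition (`X ∪ Y = Y`). -/
theorem cl_of_subset (h : X ⊆ Y) : Cl f X Y := by
  unfold Cl
  rw [Finset.union_eq_right.mpr h]

/-- a1. Submodularity for `X ∪ Y` and `Y'` (their intersection contains `Y`):
`f (X ∪ Y') + f Y ≤ f (X ∪ Y) + f Y'`; the other inequality is monotonicity. -/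
theorem cl_mono (h : Cl f X Y) (hY : Y ⊆ Y') : Cl f X Y' := by
  unfold Cl at *
  apply le_antisymm
  · have h1 := hf.submod (X ∪ Y) Y'
    have h2 : X ∪ Y ∪ Y' = X ∪ Y' := by
      rw [Finset.union_assoc, Finset.union_eq_right.mpr hY]
    have h3 : f Y ≤ f ((X ∪ Y) ∩ Y') :=
      hf.mono _ _ (Finset.subset_inter Finset.subset_union_right hY)
    rw [h2] at h1
    linarith
  · exact hf.mono _ _ Finset.subset_union_right

/-- a1. Monotonicity: `f Y ≤ f (X' ∪ Y) ≤ f (X ∪ Y) = f Y`. -/
theorem cl_sub (h : Cl f X Y) (hX : X' ⊆ X) : Cl f X' Y := by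
  unfold Cl at *
  apply le_antisymm
  · rw [← h]
    exact hf.mono _ _ (Finset.union_subset_union hX (Finset.Subset.refl _))
  · exact hf.mono _ _ Finset.subset_union_right

/-- a1. `f (X ∪ X' ∪ Y) = f (X' ∪ Y) = f Y` by `cl_mono` for `Y ⊆ X' ∪ Y`. -/
theorem cl_union (h : Cl f X Y) (h' : Cl f X' Y) : Cl f (X ∪ X') Y := by
  have h1 := cl_mono hf h (Finset.subset_union_right : Y ⊆ X' ∪ Y)
  unfold Cl at *
  rw [Finset.union_assoc, h1, h']

/-- a1. `X ≤ Y ∪ Z`, `Y ≤ Z` imply `X ≤ Z`: `f (X ∪ Z) ≤ f (X ∪ (Y ∪ Z)) = f (Y ∪ Z) = f Z`. -/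
theorem cl_trans (h : Cl f X (Y ∪ Z)) (h' : Cl f Y Z) : Cl f X Z := by
  unfold Cl at *
  apply le_antisymm
  · calc f (X ∪ Z) ≤ f (X ∪ (Y ∪ Z)) :=
          hf.mono _ _ (Finset.union_subset_union (Finset.Subset.refl _) Finset.subset_union_right)
      _ = f Z := by rw [h, h']
  · exact hf.mono _ _ Finset.subset_union_right

/-- a1. `f (X ∪ Z) = f (X ∪ Y ∪ Z) = f (Y ∪ Z)`. -/
theorem eq_of_cl (h : Cl f X Y) (h' : Cl f Y X) (Z : Finset E) : f (X ∪ Z) = f (Y ∪ Z) := by
  have h1 := cl_mono hf h (Finset.subset_union_left : Y ⊆ Y ∪ Z)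
  have h2 := cl_mono hf h' (Finset.subset_union_left : X ⊆ X ∪ Z)
  unfold Cl at *
  rw [← h1, ← h2, Finset.union_left_comm]

/-- a1. -/
theorem cl_empty_of_zero (h : f X = 0) : Cl f X ∅ := by
  unfold Cl
  rw [Finset.union_empty, h, hf.empty]

/-- a1. Induction on `X` with `cl_union`. -/
theorem cl_of_forall (h : ∀ e ∈ X, Cl f {e} Y) : Cl f X Y := by
  induction X using Finset.induction_on with
  | empty => exact cl_of_subset hf (Finset.empty_subset _)
  | insert a s ha ih =>
    rw [Finset.insert_eq]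
    exact cl_union hf (h a (Finset.mem_insert_self _ _))
      (ih (fun e he => h e (Finset.mem_insert_of_mem he)))

end a1

/-! ### module a2: joins and splitting -/

section a2

variable {f : Finset E → ℝ} (hf : Polymatroid f)
include hf

/-- a2. -/
theorem IsJoin.cl_b {r : E → ℕ} {A B C : E} (h : IsJoin f r A B C) : Cl f {B} {A} := by
  unfold Cl
  rw [Finset.union_comm, ← Finset.insert_eq, h.ab, h.a]

/-- a2. -/
theorem IsJoin.cl_c {r : E → ℕ} {A B C : E} (h : IsJoin f r A B C) : Cl f {C} {A} := by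
  unfold Cl
  rw [Finset.union_comm, ← Finset.insert_eq, h.ac, h.a]

/-- a2. -/
theorem IsJoin.cl_a {r : E → ℕ} {A B C : E} (h : IsJoin f r A B C) : Cl f {A} ({B} ∪ {C}) := by
  unfold Cl
  rw [← Finset.insert_eq, ← Finset.insert_eq, h.abc, h.bc]

variable {a b : E} {X Y : Finset E}

/-- a2. `X1 = X0 = ∅`. -/
theorem Split.empty : Split f a b ∅ := by
  refine ⟨∅, ∅, ?_, ?_, ?_, ?_⟩ <;> exact cl_of_subset hf (by simp)

/-- a2. `X1 = X`, `X0 = ∅`. -/
theorem Split.left (h : Cl f X {a}) : Split f a b X := by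
  refine ⟨X, ∅, h, ?_, ?_, ?_⟩ <;> exact cl_of_subset hf (by simp)

/-- a2. Unions of the parts. -/
theorem Split.union (hX : Split f a b X) (hY : Split f a b Y) : Split f a b (X ∪ Y) := by
  obtain ⟨X1, X0, h1, h2, h3, h4⟩ := hX
  obtain ⟨Y1, Y0, k1, k2, k3, k4⟩ := hY
  refine ⟨X1 ∪ Y1, X0 ∪ Y0, cl_union hf h1 k1, cl_union hf h2 k2, ?_, ?_⟩
  · apply cl_union hf
    · apply cl_mono hf h3
      intro x hx
      simp only [Finset.mem_union] at hx ⊢
      tauto
    · apply cl_mono hf k3
      intro x hx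
      simp only [Finset.mem_union] at hx ⊢
      tauto
  · have e : (X1 ∪ Y1) ∪ (X0 ∪ Y0) = (X1 ∪ X0) ∪ (Y1 ∪ Y0) := by
      ext x
      simp only [Finset.mem_union]
      tauto
    rw [e]
    exact cl_union hf (cl_mono hf h4 Finset.subset_union_left)
      (cl_mono hf k4 Finset.subset_union_right)

/-- a2. `Finset.induction` and `Split.union`. -/
theorem Split.of_forall (h : ∀ e ∈ X, Split f a b {e}) : Split f a b X := by
  induction X using Finset.induction_on with
  | empty => exact Split.empty hf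
  | insert c s hc ih =>
    rw [Finset.insert_eq]
    exact Split.union hf (h c (Finset.mem_insert_self _ _))
      (ih (fun e he => h e (Finset.mem_insert_of_mem he)))

/-- a2. -/
theorem Split.swap (h : Split f a b X) : Split f b a X := by
  obtain ⟨X1, X0, h1, h2, h3, h4⟩ := h
  exact ⟨X0, X1, h2, h1, by rwa [Finset.union_comm X0 X1], by rwa [Finset.union_comm X0 X1]⟩

/-- a2. -/
theorem Split.of_join {r : E → ℕ} {A B C : E} (h : IsJoin f r A B C) (hB : Cl f {B} {a})
    (hC : Cl f {C} {b}) : Split f a b {A} := by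
  exact ⟨{B}, {C}, hB, hC, IsJoin.cl_a hf h,
    cl_union hf (IsJoin.cl_b hf h) (IsJoin.cl_c hf h)⟩

end a2

/-! ### module a3: the key identity -/

section a3

variable {f : Finset E → ℝ} (hf : Polymatroid f) {a b : E} {T X Z : Finset E}
include hf

/-- a3. With `X1 ≤ a`, `X0 ≤ b`, `X ≡ X1 ∪ X0`: (1) `f (X0 ∪ {a}) = f {a} + f X0`: `≤` submodularity;
`≥`: `f (X0 ∪ {a}) + f {b} = f (X0 ∪ {a}) + f (X0 ∪ {b}) ≥ f (X0 ∪ {a, b}) + f X0 = f {a, b} + f X0`.
(2) the same for `X1`, `b`.  (3) `f (X1 ∪ X0) = f X1 + f X0`: `f (X1 ∪ X0) + f (X1 ∪ {a}) ≥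
f (X1 ∪ X0 ∪ {a}) + f X1 = f (X0 ∪ {a}) + f X1`.  Sum up: `f (X ∪ {a}) = f (X0 ∪ {a})`,
`f (X ∪ {b}) = f (X1 ∪ {b})`. -/
theorem star (hab : f {a, b} = f {a} + f {b}) (h : Split f a b X) :
    f (X ∪ {a}) + f (X ∪ {b}) = f {a} + f {b} + f X := by
  obtain ⟨X1, X0, h1, h2, h3, h4⟩ := h
  -- general facts
  have nonneg : ∀ S : Finset E, 0 ≤ f S := fun S => by
    rw [← hf.empty]
    exact hf.mono _ _ (Finset.empty_subset _)
  have sub : ∀ S T : Finset E, f (S ∪ T) ≤ f S + f T := fun S T => by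
    have := hf.submod S T
    have := nonneg (S ∩ T)
    linarith
  -- (1)
  have e1 : f (X0 ∪ {a}) = f {a} + f X0 := by
    apply le_antisymm
    · have := sub X0 {a}
      linarith
    · have k1 := hf.submod (X0 ∪ {a}) (X0 ∪ {b})
      have k2 : f (X0 ∪ {b}) = f {b} := h2
      have k3 : f X0 ≤ f ((X0 ∪ {a}) ∩ (X0 ∪ {b})) :=
        hf.mono _ _ (Finset.subset_inter Finset.subset_union_left Finset.subset_union_left)
      have k4 : f {a, b} ≤ f ((X0 ∪ {a}) ∪ (X0 ∪ {b})) := by
        apply hf.mono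
        intro x hx
        simp only [Finset.mem_insert, Finset.mem_singleton] at hx
        simp only [Finset.mem_union, Finset.mem_singleton]
        tauto
      linarith
  have e2 : f (X1 ∪ {b}) = f {b} + f X1 := by
    apply le_antisymm
    · have := sub X1 {b}
      linarith
    · have k1 := hf.submod (X1 ∪ {a}) (X1 ∪ {b})
      have k2 : f (X1 ∪ {a}) = f {a} := h1
      have k3 : f X1 ≤ f ((X1 ∪ {a}) ∩ (X1 ∪ {b})) :=
        hf.mono _ _ (Finset.subset_inter Finset.subset_union_left Finset.subset_union_left)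
      have k4 : f {a, b} ≤ f ((X1 ∪ {a}) ∪ (X1 ∪ {b})) := by
        apply hf.mono
        intro x hx
        simp only [Finset.mem_insert, Finset.mem_singleton] at hx
        simp only [Finset.mem_union, Finset.mem_singleton]
        tauto
      linarith
  have e3 : f (X1 ∪ X0) = f X1 + f X0 := by
    apply le_antisymm (sub _ _)
    have k1 := hf.submod (X1 ∪ X0) (X1 ∪ {a})
    have k2 : f (X1 ∪ {a}) = f {a} := h1
    have k3 : f X1 ≤ f ((X1 ∪ X0) ∩ (X1 ∪ {a})) :=
      hf.mono _ _ (Finset.subset_inter Finset.subset_union_left Finset.subset_union_left)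
    have k4 : f (X0 ∪ {a}) ≤ f ((X1 ∪ X0) ∪ (X1 ∪ {a})) := by
      apply hf.mono
      intro x hx
      simp only [Finset.mem_union] at hx ⊢
      tauto
    linarith
  have eX : f X = f (X1 ∪ X0) := by
    have := eq_of_cl hf h3 h4 ∅
    simpa using this
  have ea : f (X ∪ {a}) = f (X0 ∪ {a}) := by
    rw [eq_of_cl hf h3 h4 {a}]
    have k := cl_mono hf h1 (Finset.subset_union_right : ({a} : Finset E) ⊆ X0 ∪ {a})
    unfold Cl at k
    rw [Finset.union_assoc]
    exact k
  have eb : f (X ∪ {b}) = f (X1 ∪ {b}) := by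
    rw [eq_of_cl hf h3 h4 {b}]
    have k := cl_mono hf h2 (Finset.subset_union_right : ({b} : Finset E) ⊆ X1 ∪ {b})
    unfold Cl at k
    rw [Finset.union_assoc, Finset.union_left_comm]
    exact k
  rw [ea, eb, eX, e1, e2, e3]
  ring

/-- a3. `star` for `T` and for `Z ∪ T`. -/
theorem star_cr (hab : f {a, b} = f {a} + f {b}) (hT : Split f a b T) (hZ : Split f a b Z) :
    cr f (insert a T) Z + cr f (insert b T) Z = cr f T Z := by
  have h1 := star hf hab hT
  have h2 := star hf hab (Split.union hf hZ hT)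
  unfold cr
  have e1 : Z ∪ insert a T = Z ∪ T ∪ {a} := by
    ext x
    simp only [Finset.mem_union, Finset.mem_insert, Finset.mem_singleton]
    tauto
  have e2 : Z ∪ insert b T = Z ∪ T ∪ {b} := by
    ext x
    simp only [Finset.mem_union, Finset.mem_insert, Finset.mem_singleton]
    tauto
  have e3 : insert a T = T ∪ {a} := by
    rw [Finset.insert_eq, Finset.union_comm]
  have e4 : insert b T = T ∪ {b} := by
    rw [Finset.insert_eq, Finset.union_comm]
  rw [e1, e2, e3, e4]
  linarith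

/-- a3. `cr f (insert a T) Z = 0` since `Z ≤ a`, and `star_cr`. -/
theorem one_sided (hab : f {a, b} = f {a} + f {b}) (hT : Split f a b T) (hZ : Cl f Z {a}) :
    cr f (insert b T) Z = cr f T Z := by
  have h1 := star_cr hf hab hT (Split.left hf hZ)
  have h2 : cr f (insert a T) Z = 0 := by
    have k := cl_mono hf hZ (by simp : ({a} : Finset E) ⊆ insert a T)
    unfold Cl at k
    unfold cr
    rw [k, sub_self]
  linarith

private theorem a3_cr_union (T P Q : Finset E) :
    cr f T (P ∪ Q) ≤ cr f T P + cr f T Q := by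
  unfold cr
  have h := hf.submod (P ∪ T) (Q ∪ T)
  have e : P ∪ T ∪ (Q ∪ T) = P ∪ Q ∪ T := by
    ext x
    simp only [Finset.mem_union]
    tauto
  have h2 : f T ≤ f ((P ∪ T) ∩ (Q ∪ T)) :=
    hf.mono _ _ (Finset.subset_inter Finset.subset_union_right Finset.subset_union_right)
  rw [e] at h
  linarith

/-- a3. Always `cr f T (s.image e) ≤ ∑ i ∈ s, cr f T {e i}` (subadditivity of conditional rank). -/
theorem cr_le_sum {ι : Type} [DecidableEq ι] (s : Finset ι) (e : ι → E) :
    cr f T (s.image e) ≤ ∑ i ∈ s, cr f T {e i} := by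
  induction s using Finset.induction_on with
  | empty => simp [cr]
  | insert i s hi ih =>
    rw [Finset.image_insert, Finset.insert_eq, Finset.sum_insert hi]
    exact (a3_cr_union hf T _ _).trans (by linarith)

/-- a3. Sum the inequalities `cr_le_sum` for `insert a T` and `insert b T`; by `star_cr` the sum is
the equality for `T`, so both are equalities. -/
theorem fam_step {ι : Type} [DecidableEq ι] (s : Finset ι) (e : ι → E)
    (hab : f {a, b} = f {a} + f {b}) (hT : Split f a b T) (he : ∀ i ∈ s, Split f a b {e i})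
    (h : cr f T (s.image e) = ∑ i ∈ s, cr f T {e i}) :
    cr f (insert a T) (s.image e) = ∑ i ∈ s, cr f (insert a T) {e i} := by
  have h1 := cr_le_sum (T := insert a T) hf s e
  have h2 := cr_le_sum (T := insert b T) hf s e
  have hs : Split f a b (s.image e) := by
    apply Split.of_forall hf
    intro x hx
    obtain ⟨i, hi, rfl⟩ := Finset.mem_image.mp hx
    exact he i hi
  have h3 := star_cr hf hab hT hs
  have h4 : ∑ i ∈ s, cr f (insert a T) {e i} + ∑ i ∈ s, cr f (insert b T) {e i}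
      = ∑ i ∈ s, cr f T {e i} := by
    rw [← Finset.sum_add_distrib]
    exact Finset.sum_congr rfl (fun i hi => star_cr hf hab hT (he i hi))
  linarith

/-- a3. Sub-families of independent families are independent: `cr_le_sum` for `s'` and for the rest,
and `cr f T (s.image e) ≤ cr f T (s'.image e) + ∑ i ∈ s \ s', cr f T {e i}`. -/
theorem fam_sub {ι : Type} [DecidableEq ι] {s s' : Finset ι} (hs : s' ⊆ s) (e : ι → E)
    (h : cr f T (s.image e) = ∑ i ∈ s, cr f T {e i}) :
    cr f T (s'.image e) = ∑ i ∈ s', cr f T {e i} := by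
  apply le_antisymm (cr_le_sum hf s' e)
  have h1 := cr_le_sum (T := T) hf (s \ s') e
  have h2 := a3_cr_union hf T (s'.image e) ((s \ s').image e)
  rw [← Finset.image_union, Finset.union_sdiff_of_subset hs, h] at h2
  have h3 := Finset.sum_sdiff (f := fun i => cr f T {e i}) hs
  linarith

/-- a3. Modular intersection: by `fam_sub`, with `P = s₁.image e`, `Q = s₂.image e`,
`R = (s₁ ∩ s₂).image e`: `cr P + cr Q = cr (P ∪ Q) + cr R`; submodularity for `Z ∪ P ∪ T` and
`Z ∪ Q ∪ T` gives `f (P ∪ T) + f (Q ∪ T) ≥ f (P ∪ Q ∪ T) + f (Z ∪ R ∪ T)`. -/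
theorem fam_inter {ι : Type} [DecidableEq ι] {s s₁ s₂ : Finset ι} (e : ι → E)
    (h : cr f T (s.image e) = ∑ i ∈ s, cr f T {e i}) (h₁ : s₁ ⊆ s) (h₂ : s₂ ⊆ s)
    (hZ₁ : Cl f Z (s₁.image e ∪ T)) (hZ₂ : Cl f Z (s₂.image e ∪ T)) :
    Cl f Z ((s₁ ∩ s₂).image e ∪ T) := by
  have k1 := fam_sub hf h₁ e h
  have k2 := fam_sub hf h₂ e h
  have k3 := fam_sub hf (Finset.union_subset h₁ h₂) e h
  have k4 := fam_sub hf (Finset.inter_subset_left.trans h₁ : s₁ ∩ s₂ ⊆ s) e h
  have k5 := Finset.sum_union_inter (s₁ := s₁) (s₂ := s₂) (f := fun i => cr f T {e i})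
  have k6 := hf.submod (Z ∪ (s₁.image e ∪ T)) (Z ∪ (s₂.image e ∪ T))
  have k7 : f ((s₁ ∪ s₂).image e ∪ T) ≤
      f ((Z ∪ (s₁.image e ∪ T)) ∪ (Z ∪ (s₂.image e ∪ T))) := by
    apply hf.mono
    rw [Finset.image_union]
    intro x hx
    simp only [Finset.mem_union] at hx ⊢
    tauto
  have k8 : f (Z ∪ ((s₁ ∩ s₂).image e ∪ T)) ≤
      f ((Z ∪ (s₁.image e ∪ T)) ∩ (Z ∪ (s₂.image e ∪ T))) := by
    apply hf.mono
    have k9 : (s₁ ∩ s₂).image e ⊆ s₁.image e := Finset.image_subset_image Finset.inter_subset_left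
    have k10 : (s₁ ∩ s₂).image e ⊆ s₂.image e := Finset.image_subset_image Finset.inter_subset_right
    apply Finset.subset_inter
    · exact Finset.union_subset_union (Finset.Subset.refl _)
        (Finset.union_subset_union k9 (Finset.Subset.refl _))
    · exact Finset.union_subset_union (Finset.Subset.refl _)
        (Finset.union_subset_union k10 (Finset.Subset.refl _))
  unfold Cl at *
  rw [hZ₁, hZ₂] at k6
  unfold cr at *
  apply le_antisymm
  · linarith
  · exact hf.mono _ _ Finset.subset_union_right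

end a3

/-! ### module a4: iteration over the bits -/

section a4

variable {N : ℕ}

/-- the literals `l true j`, `l false j` are independent and split at the other bits -/
structure Lits (f : Finset E → ℝ) (l : Bool → Fin N → E) : Prop where
  ind : ∀ j, f {l true j, l false j} = f {l true j} + f {l false j}
  split : ∀ b i j, i ≠ j → Split f (l true j) (l false j) {l b i}

/-- the literals at the bits `j ∈ J` which are false at `x` -/
def TT (l : Bool → Fin N → E) (x : Fin N → Bool) (J : Finset (Fin N)) : Finset E :=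
  J.image (fun j => l (!(x j)) j)

variable {f : Finset E → ℝ} (hf : Polymatroid f) {l : Bool → Fin N → E} (hl : Lits f l)
include hf hl

/-- a4. `Split.of_forall`. -/
theorem split_TT (x : Fin N → Bool) (J : Finset (Fin N)) (j : Fin N) (hj : j ∉ J) :
    Split f (l true j) (l false j) (TT l x J) := by
  apply Split.of_forall hf
  intro e he
  obtain ⟨i, hi, rfl⟩ := Finset.mem_image.mp he
  exact hl.split _ i j (fun h => hj (h ▸ hi))

private theorem a4_ind (b : Bool) (j : Fin N) :
    f {l (!b) j, l b j} = f {l (!b) j} + f {l b j} := by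
  cases b
  · exact hl.ind j
  · rw [Finset.pair_comm]
    have := hl.ind j
    simp only [Bool.not_true]
    linarith

omit hl in
private theorem a4_swap (b : Bool) (j : Fin N) {X : Finset E}
    (h : Split f (l true j) (l false j) X) : Split f (l (!b) j) (l b j) X := by
  cases b
  · exact h
  · exact Split.swap hf h

/-- a4. Induction on `J` with `fam_step` (`Split.swap` if the false literal is `l false j`);
start: `TT l x ∅ = ∅`. -/
theorem fam_TT {ι : Type} [DecidableEq ι] (s : Finset ι) (e : ι → E) (x : Fin N → Bool)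
    (J : Finset (Fin N)) (he : ∀ i ∈ s, ∀ j ∈ J, Split f (l true j) (l false j) {e i})
    (h : f (s.image e) = ∑ i ∈ s, f {e i}) :
    cr f (TT l x J) (s.image e) = ∑ i ∈ s, cr f (TT l x J) {e i} := by
  induction J using Finset.induction_on with
  | empty =>
    simp only [cr, TT, Finset.image_empty, Finset.union_empty, hf.empty, sub_zero]
    exact h
  | insert j J hj ih =>
    have h1 : TT l x (insert j J) = insert (l (!(x j)) j) (TT l x J) := by
      unfold TT
      rw [Finset.image_insert]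
    rw [h1]
    exact fam_step hf s e (a4_ind hf hl (x j) j) (a4_swap hf (x j) j (split_TT hf hl x J j hj))
      (fun i hi => a4_swap hf (x j) j (he i hi j (Finset.mem_insert_self _ _)))
      (ih (fun i hi k hk => he i hi k (Finset.mem_insert_of_mem hk)))

/-- a4. Induction on `J' \ J` with `one_sided` (or its mirror image). -/
theorem one_TT (Z : Finset E) (x : Fin N → Bool) {J J' : Finset (Fin N)} (hJ : J ⊆ J')
    (hZ : ∀ j ∈ J', j ∉ J → Cl f Z {l (x j) j}) :
    cr f (TT l x J') Z = cr f (TT l x J) Z := by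
  obtain ⟨D, hD, rfl⟩ : ∃ D : Finset (Fin N), Disjoint D J ∧ J' = D ∪ J :=
    ⟨J' \ J, Finset.sdiff_disjoint, (Finset.sdiff_union_of_subset hJ).symm⟩
  clear hJ
  induction D using Finset.induction_on with
  | empty => rw [Finset.empty_union]
  | insert j D hj ih =>
    rw [Finset.disjoint_insert_left] at hD
    have h0 : j ∉ D ∪ J := by
      rw [Finset.mem_union]
      tauto
    have h1 : TT l x (insert j D ∪ J) = insert (l (!(x j)) j) (TT l x (D ∪ J)) := by
      unfold TT
      rw [Finset.insert_union, Finset.image_insert]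
    rw [h1]
    have h2 : Cl f Z {l (x j) j} := hZ j (by simp) hD.1
    have h3 : f {l (x j) j, l (!(x j)) j} = f {l (x j) j} + f {l (!(x j)) j} := by
      have := a4_ind hf hl (x j) j
      rw [Finset.pair_comm]
      linarith
    rw [one_sided hf h3 (Split.swap hf (a4_swap hf (x j) j (split_TT hf hl x (D ∪ J) j h0))) h2]
    refine ih hD.2 ?_
    intro k hk hk'
    refine hZ k ?_ hk'
    rw [Finset.insert_union]
    exact Finset.mem_insert_of_mem hk

end a4

/-! ### module a5: the wire step -/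

/-- a5. Submodularity for `{k, l, e'} ∪ T` and `{w, l, e'} ∪ T` (rank `f ({w} ∪ T)`):
`f ({l, e'} ∪ T) ≤ f ({k, e'} ∪ T) + f ({w} ∪ T) - f ({k, w} ∪ T)`, and
`f ({k, e'} ∪ T) ≤ f ({k} ∪ T) + f ({e'} ∪ T) - f T`; insert `hind`. -/
theorem wire_abs {f : Finset E → ℝ} (hf : Polymatroid f) (T : Finset E) (k w l e' : E)
    (h1 : Cl f {l} ({k} ∪ ({e'} ∪ T))) (hl : Cl f {l} {w}) (he : Cl f {e'} {w})
    (hind : cr f T ({k} ∪ {w}) = cr f T {k} + cr f T {w}) : Cl f {l} ({e'} ∪ T) := by
  apply le_antisymm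
  · have a1 := hf.submod ({l} ∪ ({k} ∪ ({e'} ∪ T))) ({l} ∪ ({e'} ∪ ({w} ∪ T)))
    have a2 : f ({l} ∪ ({k} ∪ ({e'} ∪ T))) = f ({k} ∪ ({e'} ∪ T)) := h1
    have a3 : f ({l} ∪ ({e'} ∪ ({w} ∪ T))) = f ({w} ∪ T) := by
      have b1 := cl_mono hf he (Finset.subset_union_left : ({w} : Finset E) ⊆ {w} ∪ T)
      have b2 := cl_mono hf hl (Finset.subset_union_left : ({w} : Finset E) ⊆ {w} ∪ T)
      have b3 := cl_union hf b2 b1
      unfold Cl at b3
      rw [← Finset.union_assoc]
      exact b3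
    have a4 : f ({k} ∪ {w} ∪ T) ≤
        f (({l} ∪ ({k} ∪ ({e'} ∪ T))) ∪ ({l} ∪ ({e'} ∪ ({w} ∪ T)))) := by
      apply hf.mono
      intro x hx
      simp only [Finset.mem_union] at hx ⊢
      tauto
    have a5 : f ({l} ∪ ({e'} ∪ T)) ≤
        f (({l} ∪ ({k} ∪ ({e'} ∪ T))) ∩ ({l} ∪ ({e'} ∪ ({w} ∪ T)))) := by
      apply hf.mono
      intro x hx
      simp only [Finset.mem_union, Finset.mem_inter] at hx ⊢
      tauto
    have a6 := a3_cr_union hf T {k} {e'}
    have a7 : ({k} : Finset E) ∪ {e'} ∪ T = {k} ∪ ({e'} ∪ T) := Finset.union_assoc _ _ _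
    unfold cr at a6 hind
    rw [a7] at a6
    linarith
  · exact hf.mono _ _ Finset.subset_union_right

end Pool.PmX
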