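import Pool.Agent.PmX.Inj

/-!
# Polymatroid extendability: polymatroids, join systems, wire systems

A wire system `S` (alphabet `Fin q`, cells `{0,1}^N`) describes two unknown functions
`val true, val false : {0,1}^N → Fin q` (the left and the right port of a cell).  To `S` belongs a
list of joins `(A; B, C)` of elements of `El q` with prescribed ranks `S.rk`.
-/

namespace Pool.PmX

/-- `A` is the join of `B` and `C`, with the prescribed ranks -/
structure IsJoin {E : Type} [DecidableEq E] (f : Finset E → ℝ) (r : E → ℕ) (A B C : E) : Prop where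
  a : f {A} = r A
  b : f {B} = r B
  c : f {C} = r C
  ab : f {A, B} = r A
  ac : f {A, C} = r A
  bc : f {B, C} = r A
  abc : f {A, B, C} = r A

/-- wire systems with alphabet `Fin q` on the cells `{0,1}^N`.
Patterns (partial assignments): `pat w` (source of the wire `w < nW`), `pat (nW + w)` (its target),
`pat (2 * nW + c)` (place of the constant `c < nC`).  Side `true` = left port, `false` = right. -/
structure Sys (q : ℕ) where
  N : ℕ
  nW : ℕ
  nC : ℕ
  sW : ℕ → Bool
  sC : ℕ → Bool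
  vC : ℕ → Fin q
  pat : ℕ → ℕ → Option Bool
  δ : Fin q → Fin q → Fin q

/-- objects with one vector over every cell -/
inductive Base (q : ℕ)
  | e (ω : Fin q × Fin q)
  | port (s : Bool) (m : Fin q)
  | tt
  deriving DecidableEq

/-- the ground set -/
inductive El (q : ℕ)
  | lit (b : Bool) (j : ℕ)
  | lit2 (b : Bool) (i : ℕ) (b' : Bool) (j : ℕ)
  | base (β : Base q)
  | eb (ω : Fin q × Fin q) (b : Bool) (j : ℕ)
  | ch (s : ℕ)
  | pch (s : Bool) (k : ℕ)
  | cmp (c i : ℕ)
  | res (β : Base q) (c : ℕ)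
  | cor (β : Base q) (c : ℕ)
  | K (m : Fin q) (w : ℕ)
  | Ksh (m : Fin q) (b : Bool) (w j : ℕ)
  | W (m : Fin q) (w : ℕ)
  | Wsh (m : Fin q) (b : Bool) (w j : ℕ)
  | Y (m : Fin q) (β : Option (Fin q × Fin q)) (w : ℕ)
  | J (m : Fin q) (w : ℕ)
  deriving DecidableEq

variable {q : ℕ}

/-- the pair with coordinate `i` at the side `s` and `m` at the other side -/
def pr (s : Bool) (i m : Fin q) : Fin q × Fin q := if s then (i, m) else (m, i)

/-- the number of a pair -/
def idx (ω : Fin q × Fin q) : ℕ := ω.1 * q + ω.2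

/-- `none` stands for the gate, `some ω` for the vector `ω` -/
def bU : Option (Fin q × Fin q) → Base q
  | none => .tt
  | some ω => .e ω

namespace Sys

variable (S : Sys q)

/-- number of patterns -/
def nP : ℕ := 2 * S.nW + S.nC

/-- number of bits among the first `i` ones fixed by the pattern `c` -/
def dn (c i : ℕ) : ℕ := (List.range i).countP (fun j => (S.pat c j).isSome)

/-- what the wire `w` with free port value `m` makes of `bU β` -/
def bD (m : Fin q) (w : ℕ) : Option (Fin q × Fin q) → Base q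
  | none => .port (S.sW w) m
  | some ω => .e (pr (S.sW w) (S.δ ω.1 ω.2) m)

/-- the ranks -/
def rk : El q → ℕ
  | .lit _ _ => q * q * 2 ^ (S.N - 1)
  | .lit2 _ _ _ _ => q * q * 2 ^ (S.N - 2)
  | .base _ => 2 ^ S.N
  | .eb _ _ _ => 2 ^ (S.N - 1)
  | .ch s => s * 2 ^ S.N
  | .pch _ k => k * 2 ^ S.N
  | .cmp c i => q * q * (2 ^ S.N - 2 ^ (S.N - S.dn c i))
  | .res _ c => 2 ^ (S.N - S.dn c S.N)
  | .cor _ c => 2 ^ S.N - 2 ^ (S.N - S.dn c S.N)
  | .K _ w => q * q * 2 ^ (S.N - S.dn w S.N)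
  | .Ksh _ _ w _ => q * q * 2 ^ (S.N - S.dn w S.N - 1)
  | .W _ w => q * 2 ^ (S.N - S.dn w S.N)
  | .Wsh _ _ w _ => q * 2 ^ (S.N - S.dn w S.N - 1)
  | .Y _ _ w => (q * q + 1) * 2 ^ (S.N - S.dn w S.N)
  | .J _ w => (q * q + q) * 2 ^ (S.N - S.dn w S.N)

/-- the joins `(A; B, C)` -/
inductive Jn : El q → El q → El q → Prop
  | top (j) (hj : j < S.N) : Jn (.ch (q * q)) (.lit true j) (.lit false j)
  | lit2 (b i j) (hi : i < S.N) (hj : j < S.N) (hij : i ≠ j) :
      Jn (.lit b i) (.lit2 b i true j) (.lit2 b i false j)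
  | lit2le (b i b' j) (hi : i < S.N) (hj : j < S.N) (hij : i ≠ j) :
      Jn (.lit b' j) (.lit b' j) (.lit2 b i b' j)
  | eb (ω j) (hj : j < S.N) : Jn (.base (.e ω)) (.eb ω true j) (.eb ω false j)
  | eble (ω b j) (hj : j < S.N) : Jn (.lit b j) (.lit b j) (.eb ω b j)
  | ch (ω : Fin q × Fin q) : Jn (.ch (idx ω + 1)) (.ch (idx ω)) (.base (.e ω))
  | pch (s) (k : Fin q) : Jn (.pch s (k + 1)) (.pch s k) (.base (.port s k))
  | tt (s) : Jn (.pch s q) (.pch s q) (.base .tt)
  | cmpS (c i b) (hc : c < S.nP) (hi : i < S.N) (h : S.pat c i = some b) :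
      Jn (.cmp c (i + 1)) (.cmp c i) (.lit (!b) i)
  | cmpN (c i) (hc : c < S.nP) (hi : i < S.N) (h : S.pat c i = none) :
      Jn (.cmp c i) (.cmp c i) (.cmp c (i + 1))
  | part (β c) (hc : c < S.nP) : Jn (.base β) (.res β c) (.cor β c)
  | corle (β c) (hc : c < S.nP) : Jn (.cmp c S.N) (.cmp c S.N) (.cor β c)
  | resle (β c j b) (hc : c < S.nP) (hj : j < S.N) (h : S.pat c j = some b) :
      Jn (.lit b j) (.lit b j) (.res β c)
  | Ksh (m w j) (hw : w < S.nW) (hj : j < S.N) (h : S.pat w j = none) :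
      Jn (.K m w) (.Ksh m true w j) (.Ksh m false w j)
  | Kle (m b w j) (hw : w < S.nW) (hj : j < S.N) (h : S.pat w j = none) :
      Jn (.lit b j) (.lit b j) (.Ksh m b w j)
  | Wsh (m w j) (hw : w < S.nW) (hj : j < S.N) (h : S.pat w j = none) :
      Jn (.W m w) (.Wsh m true w j) (.Wsh m false w j)
  | Wle (m b w j) (hw : w < S.nW) (hj : j < S.N) (h : S.pat w j = none) :
      Jn (.lit b j) (.lit b j) (.Wsh m b w j)
  | YU (m β w) (hw : w < S.nW) : Jn (.Y m β w) (.K m w) (.res (bU β) w)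
  | YD (m β w) (hw : w < S.nW) : Jn (.Y m β w) (.K m w) (.res (S.bD m w β) (S.nW + w))
  | J (m w) (hw : w < S.nW) : Jn (.J m w) (.K m w) (.W m w)
  | Wp (m w) (hw : w < S.nW) : Jn (.W m w) (.W m w) (.res (.port (S.sW w) m) (S.nW + w))
  | We (m i w) (hw : w < S.nW) :
      Jn (.W m w) (.W m w) (.res (.e (pr (S.sW w) i m)) (S.nW + w))
  | con (m c) (hc : c < S.nC) :
      Jn (.res (.e (pr (S.sC c) (S.vC c) m)) (2 * S.nW + c))
        (.res (.e (pr (S.sC c) (S.vC c) m)) (2 * S.nW + c)) (.res (.port (S.sC c) m) (2 * S.nW + c))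

/-- the cell `x` matches the pattern `c` -/
def In (c : ℕ) (x : Fin S.N → Bool) : Prop := ∀ (j : Fin S.N) (b : Bool), S.pat c j = some b → x j = b

/-- the wire `w` leads from the cell `x` to this cell -/
def move (w : ℕ) (x : Fin S.N → Bool) : Fin S.N → Bool := fun j => (S.pat (S.nW + w) j).getD (x j)

/-- source and target of a wire fix the same bits and are disjoint -/
structure Good : Prop where
  dom : ∀ w < S.nW, ∀ j < S.N, (S.pat w j).isSome = (S.pat (S.nW + w) j).isSome
  dis : ∀ w < S.nW, ∃ j < S.N, ∃ b, S.pat w j = some b ∧ S.pat (S.nW + w) j = some (!b)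

/-- `val` is consistent with all wires and with the first `n` constants -/
structure Sol (n : ℕ) (val : Bool → (Fin S.N → Bool) → Fin q) : Prop where
  wire : ∀ w < S.nW, ∀ x, S.In w x → val (S.sW w) (S.move w x) = S.δ (val true x) (val false x)
  con : ∀ c < n, ∀ x, S.In (2 * S.nW + c) x → val (S.sC c) x = S.vC c

/-- every port is determined by one of the first `n` constants or by a wire from a lower cell -/
def Cov (n : ℕ) : Prop := ∃ h : (Fin S.N → Bool) → ℕ, ∀ (s : Bool) (x : Fin S.N → Bool),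
  (∃ c < n, S.sC c = s ∧ S.In (2 * S.nW + c) x) ∨
  (∃ w < S.nW, S.sW w = s ∧ ∃ x0, S.In w x0 ∧ S.move w x0 = x ∧ h x0 < h x)

end Sys

end Pool.PmX
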