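import Pool.Agent.PmX.Defs

/-!
# Completeness: the linear model of a wire system with a solution
-/

namespace Pool.PmX

open Module

variable {q : ℕ} (S : Sys q)

/-- points: a cell and a pair of symbols -/
abbrev Pt : Type := (Fin S.N → Bool) × (Fin q × Fin q)

/-- the ambient vector space -/
abbrev Vs : Type := Pt S →₀ ℚ

/-- coordinate subspaces -/
noncomputable def co (A : Set (Pt S)) : Submodule ℚ (Vs S) := Finsupp.supported ℚ ℚ A

/-- bits with index in `ℕ` -/
def bt (x : Fin S.N → Bool) (j : ℕ) : Bool := if h : j < S.N then x ⟨j, h⟩ else false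

/-- the shift along the wire `w` with free port value `m` -/
def sft (m : Fin q) (w : ℕ) : Pt S → Pt S :=
  fun p => (S.move w p.1, pr (S.sW w) (S.δ p.2.1 p.2.2) m)

/-- `v ↦ v - shift v` -/
noncomputable def df (m : Fin q) (w : ℕ) : Vs S →ₗ[ℚ] Vs S :=
  LinearMap.id - Finsupp.lmapDomain ℚ ℚ (sft S m w)

/-- the subspaces `K` -/
noncomputable def Km (m : Fin q) (w : ℕ) (A : Set (Pt S)) : Submodule ℚ (Vs S) := (co S A).map (df S m w)

variable (val : Bool → (Fin S.N → Bool) → Fin q)

/-- the symbol pair of `β` at the cell `x` -/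
def phi (x : Fin S.N → Bool) : Base q → Fin q × Fin q
  | .e ω => ω
  | .port s m => pr s (val s x) m
  | .tt => (val true x, val false x)

/-- the model -/
noncomputable def V : El q → Submodule ℚ (Vs S)
  | .lit b j => co S {p | bt S p.1 j = b}
  | .lit2 b i b' j => co S {p | bt S p.1 i = b ∧ bt S p.1 j = b'}
  | .base β => co S {p | p.2 = phi S val p.1 β}
  | .eb ω b j => co S {p | p.2 = ω ∧ bt S p.1 j = b}
  | .ch s => co S {p | idx p.2 < s}
  | .pch s k => co S {p | ∃ m : Fin q, m.val < k ∧ p.2 = pr s (val s p.1) m}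
  | .cmp c i => co S {p | ∃ j < i, ∃ b, S.pat c j = some b ∧ bt S p.1 j ≠ b}
  | .res β c => co S {p | p.2 = phi S val p.1 β ∧ S.In c p.1}
  | .cor β c => co S {p | p.2 = phi S val p.1 β ∧ ¬ S.In c p.1}
  | .K m w => Km S m w {p | S.In w p.1}
  | .Ksh m b w j => Km S m w {p | S.In w p.1 ∧ bt S p.1 j = b}
  | .W m w => co S {p | S.In (S.nW + w) p.1 ∧ ∃ i, p.2 = pr (S.sW w) i m}
  | .Wsh m b w j => co S {p | S.In (S.nW + w) p.1 ∧ (∃ i, p.2 = pr (S.sW w) i m) ∧ bt S p.1 j = b}
  | .Y m β w => Km S m w {p | S.In w p.1} ⊔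
      co S {p | p.2 = phi S val p.1 (S.bD m w β) ∧ S.In (S.nW + w) p.1}
  | .J m w => Km S m w {p | S.In w p.1} ⊔ co S {p | S.In (S.nW + w) p.1 ∧ ∃ i, p.2 = pr (S.sW w) i m}

/-! ### module m1: counting cells -/

section m1

/-- m1. Cells matching a partial assignment: `2 ^ (number of free bits)`.  E.g. the bijection with
functions on the free bits, or induction. -/
theorem card_pattern {N : ℕ} (p : Fin N → Option Bool) :
    Nat.card {x : Fin N → Bool // ∀ j b, p j = some b → x j = b} =
      2 ^ (N - (Finset.univ.filter (fun j => (p j).isSome)).card) := by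

  classical
  rw [Nat.card_congr (Equiv.subtypePiEquivPi (β := fun _ : Fin N => Bool)
    (p := fun j y => ∀ b, p j = some b → y = b)), Nat.card_pi]
  have h : ∀ j, Nat.card {y : Bool // ∀ b, p j = some b → y = b} =
      if (p j).isSome then 1 else 2 := by
    intro j
    rcases hp : p j with _ | b
    · rw [if_neg (by simp)]
      rw [Nat.card_congr (Equiv.subtypeUnivEquiv (fun y b h => absurd h (by simp))),
        Nat.card_eq_fintype_card, Fintype.card_bool]
    · rw [if_pos (by simp)]
      have : Unique {y : Bool // ∀ b', some b = some b' → y = b'} :=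
        { default := ⟨b, fun b' h => Option.some_injective _ h⟩
          uniq := fun y => Subtype.ext (y.2 b rfl) }
      exact Nat.card_unique
  rw [Finset.prod_congr rfl fun j _ => h j, Finset.prod_ite, Finset.prod_const_one, one_mul,
    Finset.prod_const]
  congr 1
  have h2 := Finset.card_filter_add_card_filter_not (s := (Finset.univ : Finset (Fin N)))
    (fun j => (p j).isSome)
  rw [Finset.card_univ, Fintype.card_fin] at h2
  omega

/-- m1. `dn` as a cardinality. -/
theorem dn_card (c i : ℕ) (hi : i ≤ S.N) :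
    S.dn c i = (Finset.univ.filter (fun j : Fin S.N => j.val < i ∧ (S.pat c j).isSome)).card := by

  classical
  induction i with
  | zero =>
    have h1 : S.dn c 0 = 0 := rfl
    rw [h1]
    symm
    rw [Finset.card_eq_zero, Finset.filter_eq_empty_iff]
    intro j _ hj
    exact absurd hj.1 (Nat.not_lt_zero _)
  | succ i ih =>
    have hlt : i < S.N := hi
    have h1 : S.dn c (i + 1) = S.dn c i + if (S.pat c i).isSome then 1 else 0 := by
      unfold Sys.dn
      rw [List.range_succ, List.countP_append, List.countP_singleton]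
    have h2 : (Finset.univ.filter (fun j : Fin S.N => j.val < i + 1 ∧ (S.pat c j).isSome)) =
        (Finset.univ.filter (fun j : Fin S.N => j.val < i ∧ (S.pat c j).isSome)) ∪
          (if (S.pat c i).isSome then {⟨i, hlt⟩} else ∅) := by
      ext j
      rw [Finset.mem_union, Finset.mem_filter, Finset.mem_filter]
      constructor
      · rintro ⟨_, h3, h4⟩
        rcases Nat.lt_or_ge j.val i with h5 | h5
        · exact Or.inl ⟨Finset.mem_univ _, h5, h4⟩
        · right
          have h6 : j.val = i := by omega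
          rw [h6] at h4
          rw [if_pos h4, Finset.mem_singleton]
          exact Fin.ext h6
      · rintro (⟨_, h3, h4⟩ | h3)
        · exact ⟨Finset.mem_univ _, by omega, h4⟩
        · by_cases h4 : (S.pat c i).isSome
          · rw [if_pos h4, Finset.mem_singleton] at h3
            subst h3
            exact ⟨Finset.mem_univ _, Nat.lt_succ_self i, h4⟩
          · rw [if_neg h4] at h3
            exact absurd h3 (Finset.notMem_empty _)
    rw [h1, h2, Finset.card_union_of_disjoint, ih hlt.le]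
    · congr 1
      by_cases h4 : (S.pat c i).isSome
      · rw [if_pos h4, if_pos h4, Finset.card_singleton]
      · rw [if_neg h4, if_neg h4, Finset.card_empty]
    · rw [Finset.disjoint_left]
      intro j h3 h5
      rw [Finset.mem_filter] at h3
      by_cases h4 : (S.pat c i).isSome
      · rw [if_pos h4, Finset.mem_singleton] at h5
        rw [h5] at h3
        exact absurd h3.2.1 (lt_irrefl _)
      · rw [if_neg h4] at h5
        exact absurd h5 (Finset.notMem_empty _)

private theorem m1b_bt (x : Fin S.N → Bool) (j : ℕ) (hj : j < S.N) : bt S x j = x ⟨j, hj⟩ := by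
  unfold bt
  rw [dif_pos hj]

/-- a pattern with the additional bit `j` -/
private theorem m1b_add (p : Fin S.N → Option Bool) (b : Bool) (j : ℕ) (hj : j < S.N)
    (h : p ⟨j, hj⟩ = none) :
    Nat.card {x : Fin S.N → Bool // (∀ j b, p j = some b → x j = b) ∧ bt S x j = b} =
      2 ^ (S.N - (Finset.univ.filter (fun j => (p j).isSome)).card - 1) := by
  classical
  have h0 := card_pattern (fun j' : Fin S.N => if j' = ⟨j, hj⟩ then some b else p j')
  have h1 : (Finset.univ.filter (fun j' : Fin S.N =>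
      ((if j' = ⟨j, hj⟩ then some b else p j' : Option Bool)).isSome)) =
      insert ⟨j, hj⟩ (Finset.univ.filter (fun j => (p j).isSome)) := by
    ext j'
    rw [Finset.mem_filter, Finset.mem_insert, Finset.mem_filter]
    by_cases h2 : j' = ⟨j, hj⟩
    · simp [h2]
    · simp [h2]
  have h2 : (⟨j, hj⟩ : Fin S.N) ∉ Finset.univ.filter (fun j => (p j).isSome) := by
    rw [Finset.mem_filter]
    rintro ⟨_, h3⟩
    rw [h] at h3
    exact absurd h3 (by simp)
  rw [h1, Finset.card_insert_of_notMem h2, ← Nat.sub_sub] at h0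
  rw [← h0]
  refine Nat.card_congr (Equiv.subtypeEquivRight fun x => ?_)
  rw [m1b_bt S x j hj]
  constructor
  · rintro ⟨h2, h3⟩ j' b' h4
    by_cases h5 : j' = ⟨j, hj⟩
    · rw [if_pos h5] at h4
      rw [h5, h3]
      exact Option.some_injective _ h4
    · rw [if_neg h5] at h4
      exact h2 j' b' h4
  · intro h2
    refine ⟨fun j' b' h4 => ?_, h2 ⟨j, hj⟩ b (if_pos rfl)⟩
    have h5 : j' ≠ ⟨j, hj⟩ := by
      rintro rfl
      rw [h] at h4
      exact absurd h4 (by simp)
    exact h2 j' b' (by rw [if_neg h5]; exact h4)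

private theorem m1b_compl (P : (Fin S.N → Bool) → Prop) :
    Nat.card {x : Fin S.N → Bool // ¬ P x} = 2 ^ S.N - Nat.card {x : Fin S.N → Bool // P x} := by
  classical
  rw [Nat.card_eq_fintype_card, Nat.card_eq_fintype_card, Fintype.card_subtype_compl,
    Fintype.card_fun, Fintype.card_bool, Fintype.card_fin]

/-- m1. -/
theorem card_lit (b : Bool) (j : ℕ) (hj : j < S.N) :
    Nat.card {x : Fin S.N → Bool // bt S x j = b} = 2 ^ (S.N - 1) := by

  classical
  have h := card_pattern (fun j' : Fin S.N => if j' = ⟨j, hj⟩ then some b else none)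
  have h1 : (Finset.univ.filter (fun j' : Fin S.N =>
      ((if j' = ⟨j, hj⟩ then some b else none : Option Bool)).isSome)) = {⟨j, hj⟩} := by
    ext j'
    rw [Finset.mem_filter, Finset.mem_singleton]
    by_cases h2 : j' = ⟨j, hj⟩
    · simp [h2]
    · simp [h2]
  rw [h1, Finset.card_singleton] at h
  rw [← h]
  refine Nat.card_congr (Equiv.subtypeEquivRight fun x => ?_)
  have hb := m1b_bt S x j hj
  rw [hb]
  constructor
  · intro h2 j' b' h3
    by_cases h4 : j' = ⟨j, hj⟩
    · rw [if_pos h4] at h3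
      rw [h4, h2]
      exact Option.some_injective _ h3
    · rw [if_neg h4] at h3
      exact absurd h3 (by simp)
  · intro h2
    exact h2 ⟨j, hj⟩ b (if_pos rfl)

/-- m1. -/
theorem card_lit2 (b b' : Bool) (i j : ℕ) (hi : i < S.N) (hj : j < S.N) (hij : i ≠ j) :
    Nat.card {x : Fin S.N → Bool // bt S x i = b ∧ bt S x j = b'} = 2 ^ (S.N - 2) := by

  classical
  have h := m1b_add S (fun j' : Fin S.N => if j' = ⟨i, hi⟩ then some b else none) b' j hj
    (if_neg fun h => hij (Fin.mk.inj_iff.1 h).symm)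
  have h1 : (Finset.univ.filter (fun j' : Fin S.N =>
      ((if j' = ⟨i, hi⟩ then some b else none : Option Bool)).isSome)) = {⟨i, hi⟩} := by
    ext j'
    rw [Finset.mem_filter, Finset.mem_singleton]
    by_cases h2 : j' = ⟨i, hi⟩
    · simp [h2]
    · simp [h2]
  rw [h1, Finset.card_singleton, Nat.sub_sub] at h
  rw [← h]
  refine Nat.card_congr (Equiv.subtypeEquivRight fun x => and_congr_left fun _ => ?_)
  rw [m1b_bt S x i hi]
  constructor
  · intro h2 j' b'' h3
    by_cases h4 : j' = ⟨i, hi⟩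
    · rw [if_pos h4] at h3
      rw [h4, h2]
      exact Option.some_injective _ h3
    · rw [if_neg h4] at h3
      exact absurd h3 (by simp)
  · intro h2
    exact h2 ⟨i, hi⟩ b (if_pos rfl)

/-- m1. -/
theorem card_In (c : ℕ) : Nat.card {x : Fin S.N → Bool // S.In c x} = 2 ^ (S.N - S.dn c S.N) := by

  have h := card_pattern (fun j : Fin S.N => S.pat c j)
  have h1 := dn_card S c S.N le_rfl
  have h2 : (Finset.univ.filter (fun j : Fin S.N => j.val < S.N ∧ (S.pat c j).isSome)) =
      Finset.univ.filter (fun j : Fin S.N => (S.pat c j).isSome) := by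
    refine Finset.filter_congr fun j _ => ?_
    exact ⟨fun h => h.2, fun h => ⟨j.2, h⟩⟩
  rw [h2] at h1
  rw [← h1] at h
  exact h

/-- m1. Complement. -/
theorem card_not_In (c : ℕ) :
    Nat.card {x : Fin S.N → Bool // ¬ S.In c x} = 2 ^ S.N - 2 ^ (S.N - S.dn c S.N) := by

  rw [m1b_compl, card_In]

/-- m1. -/
theorem card_In_bt (c : ℕ) (b : Bool) (j : ℕ) (hj : j < S.N) (h : S.pat c j = none) :
    Nat.card {x : Fin S.N → Bool // S.In c x ∧ bt S x j = b} = 2 ^ (S.N - S.dn c S.N - 1) := by

  have h0 := m1b_add S (fun j : Fin S.N => S.pat c j) b j hj h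
  have h1 := dn_card S c S.N le_rfl
  have h2 : (Finset.univ.filter (fun j : Fin S.N => j.val < S.N ∧ (S.pat c j).isSome)) =
      Finset.univ.filter (fun j : Fin S.N => (S.pat c j).isSome) := by
    refine Finset.filter_congr fun j _ => ?_
    exact ⟨fun h => h.2, fun h => ⟨j.2, h⟩⟩
  rw [h2] at h1
  rw [← h1] at h0
  exact h0

/-- m1. Complement of a pattern. -/
theorem card_cmp (c i : ℕ) (hi : i ≤ S.N) :
    Nat.card {x : Fin S.N → Bool // ∃ j < i, ∃ b, S.pat c j = some b ∧ bt S x j ≠ b} =
      2 ^ S.N - 2 ^ (S.N - S.dn c i) := by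

  classical
  have h := card_pattern (fun j : Fin S.N => if j.val < i then S.pat c j else none)
  have h1 : (Finset.univ.filter (fun j : Fin S.N =>
      ((if j.val < i then S.pat c j else none : Option Bool)).isSome)) =
      Finset.univ.filter (fun j : Fin S.N => j.val < i ∧ (S.pat c j).isSome) := by
    refine Finset.filter_congr fun j _ => ?_
    by_cases h2 : j.val < i
    · simp [h2]
    · simp [h2]
  rw [h1, ← dn_card S c i hi] at h
  rw [← h, ← m1b_compl]
  refine Nat.card_congr (Equiv.subtypeEquivRight fun x => ?_)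
  constructor
  · rintro ⟨j, hj, b, hp, hne⟩ h2
    have hjN : j < S.N := by omega
    apply hne
    rw [m1b_bt S x j hjN]
    exact h2 ⟨j, hjN⟩ b (by rw [if_pos hj]; exact hp)
  · intro h2
    push Not at h2
    obtain ⟨j, b, h3, h4⟩ := h2
    by_cases h5 : j.val < i
    · rw [if_pos h5] at h3
      refine ⟨j.val, h5, b, h3, ?_⟩
      rw [m1b_bt S x j.val j.2]
      exact h4
    · rw [if_neg h5] at h3
      exact absurd h3 (by simp)

end m1

/-! ### module m2: dimensions of coordinate subspaces -/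

section m2

/-- m2. `Finsupp.supportedEquivFinsupp`, `finrank_finsupp`. -/
theorem finrank_co (A : Set (Pt S)) : finrank ℚ (co S A) = Nat.card A := by

  classical
  have _ := Fintype.ofFinite A
  unfold co
  rw [LinearEquiv.finrank_eq (Finsupp.supportedEquivFinsupp A), Module.finrank_finsupp_self,
    Nat.card_eq_fintype_card]

/-- m2. -/
theorem co_union (A B : Set (Pt S)) : co S (A ∪ B) = co S A ⊔ co S B := by

  exact Finsupp.supported_union A B

/-- m2. -/
theorem co_mono {A B : Set (Pt S)} (h : A ⊆ B) : co S A ≤ co S B := by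

  exact Finsupp.supported_mono h

/-- m2. The fibres are all of `Fin q × Fin q`. -/
theorem finrank_co_full (P : (Fin S.N → Bool) → Prop) :
    finrank ℚ (co S {p | P p.1}) = q * q * Nat.card {x : Fin S.N → Bool // P x} := by

  rw [finrank_co]
  have e : ({p : Pt S | P p.1} : Set (Pt S)) ≃ {x : Fin S.N → Bool // P x} × (Fin q × Fin q) :=
    Equiv.prodSubtypeFstEquivSubtypeProd
  rw [Nat.card_congr e, Nat.card_prod, Nat.card_prod, Nat.card_eq_fintype_card (α := Fin q),
    Fintype.card_fin]
  ring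

/-- m2. Graph of a function. -/
theorem finrank_co_graph (P : (Fin S.N → Bool) → Prop) (g : (Fin S.N → Bool) → Fin q × Fin q) :
    finrank ℚ (co S {p | p.2 = g p.1 ∧ P p.1}) = Nat.card {x : Fin S.N → Bool // P x} := by

  rw [finrank_co]
  refine Nat.card_congr
    { toFun := fun p => ⟨p.1.1, p.2.2⟩
      invFun := fun x => ⟨(x.1, g x.1), rfl, x.2⟩
      left_inv := fun p => Subtype.ext (Prod.ext rfl p.2.1.symm)
      right_inv := fun x => rfl }

private theorem m2b_pr {s : Bool} {i m m' : Fin q} (h : pr s i m = pr s i m') : m = m' := by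
  unfold pr at h
  rcases s with _ | _
  · simp only [Bool.false_eq_true, if_false, Prod.mk.injEq, and_true] at h
    exact h
  · simp only [if_true, Prod.mk.injEq, true_and] at h
    exact h

private theorem m2b_pr' {s : Bool} {i i' m : Fin q} (h : pr s i m = pr s i' m) : i = i' := by
  unfold pr at h
  rcases s with _ | _
  · simp only [Bool.false_eq_true, if_false, Prod.mk.injEq, true_and] at h
    exact h
  · simp only [if_true, Prod.mk.injEq, and_true] at h
    exact h

/-- m2. For every cell a family of `k ≤ q` pairs (`m ↦ pr s (v x) m` is injective). -/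
theorem finrank_co_pch (s : Bool) (v : (Fin S.N → Bool) → Fin q) (k : ℕ) (hk : k ≤ q) :
    finrank ℚ (co S {p | ∃ m : Fin q, m.val < k ∧ p.2 = pr s (v p.1) m}) = k * 2 ^ S.N := by

  rw [finrank_co]
  have h1 : Nat.card ((Fin S.N → Bool) × Fin k) = k * 2 ^ S.N := by
    rw [Nat.card_eq_fintype_card, Fintype.card_prod, Fintype.card_fun, Fintype.card_bool,
      Fintype.card_fin, Fintype.card_fin, mul_comm]
  rw [← h1]
  symm
  refine Nat.card_congr (Equiv.ofBijective (fun y : (Fin S.N → Bool) × Fin k =>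
    (⟨(y.1, pr s (v y.1) ⟨y.2.val, by omega⟩), ⟨y.2.val, by omega⟩, y.2.2, rfl⟩ :
      ({p : Pt S | ∃ m : Fin q, m.val < k ∧ p.2 = pr s (v p.1) m} : Set (Pt S)))) ⟨?_, ?_⟩)
  · rintro ⟨x, m⟩ ⟨x', m'⟩ he
    have h2 := congrArg Subtype.val he
    have h3 : x = x' := (Prod.ext_iff.1 h2).1
    have h4 : pr s (v x) ⟨m.val, by omega⟩ = pr s (v x') ⟨m'.val, by omega⟩ :=
      (Prod.ext_iff.1 h2).2
    subst h3
    have h5 := m2b_pr h4
    have h6 : m = m' := Fin.ext (Fin.mk.inj_iff.1 h5)
    rw [h6]
  · rintro ⟨⟨x, ω⟩, m, hm, hp⟩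
    refine ⟨(x, ⟨m.val, hm⟩), ?_⟩
    apply Subtype.ext
    exact Prod.ext rfl hp.symm

/-- m2. `idx` is a bijection onto `{0, ..., q q - 1}`. -/
theorem finrank_co_ch (s : ℕ) (hs : s ≤ q * q) :
    finrank ℚ (co S {p | idx p.2 < s}) = s * 2 ^ S.N := by

  rw [finrank_co]
  have h1 : Nat.card ((Fin S.N → Bool) × Fin s) = s * 2 ^ S.N := by
    rw [Nat.card_eq_fintype_card, Fintype.card_prod, Fintype.card_fun, Fintype.card_bool,
      Fintype.card_fin, Fintype.card_fin, mul_comm]
  rw [← h1]
  refine Nat.card_congr (Equiv.ofBijective (fun p :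
    ({p : Pt S | idx p.2 < s} : Set (Pt S)) => (p.1.1, (⟨idx p.1.2, p.2⟩ : Fin s))) ⟨?_, ?_⟩)
  · rintro ⟨⟨x, ω⟩, hp⟩ ⟨⟨x', ω'⟩, hp'⟩ he
    have h2 := (Prod.ext_iff.1 he).1
    have h3 : idx ω = idx ω' := Fin.mk.inj_iff.1 (Prod.ext_iff.1 he).2
    have h2' : x = x' := h2
    have h4 : ω = ω' := by
      unfold idx at h3
      have hq : 0 < q := lt_of_le_of_lt (Nat.zero_le _) ω.1.2
      have h5 : (ω.1 : ℕ) = ω'.1 := by
        have h6 : ((ω.1 : ℕ) * q + ω.2) / q = ((ω'.1 : ℕ) * q + ω'.2) / q := by rw [h3]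
        rw [Nat.add_comm, Nat.add_mul_div_right _ _ hq, Nat.div_eq_of_lt ω.2.2, Nat.zero_add,
          Nat.add_comm, Nat.add_mul_div_right _ _ hq, Nat.div_eq_of_lt ω'.2.2, Nat.zero_add] at h6
        exact h6
      have h6 : (ω.2 : ℕ) = ω'.2 := by
        rw [h5] at h3
        omega
      exact Prod.ext (Fin.ext h5) (Fin.ext h6)
    subst h2'
    subst h4
    rfl
  · rintro ⟨x, t⟩
    have ht : t.val < q * q := lt_of_lt_of_le t.2 hs
    have hq : 0 < q := by
      rcases Nat.eq_zero_or_pos q with h | h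
      · rw [h] at ht
        omega
      · exact h
    have hidx : idx ((⟨t.val / q, Nat.div_lt_of_lt_mul ht⟩, ⟨t.val % q, Nat.mod_lt _ hq⟩) :
        Fin q × Fin q) = t.val := Nat.div_add_mod' _ _
    refine ⟨⟨(x, (⟨t.val / q, Nat.div_lt_of_lt_mul ht⟩, ⟨t.val % q, Nat.mod_lt _ hq⟩)), ?_⟩, ?_⟩
    · show idx _ < s
      rw [hidx]
      exact t.2
    · exact Prod.ext rfl (Fin.ext hidx)

/-- m2. For every cell in `P` the `q` pairs `pr s i m`, `i : Fin q`. -/
theorem finrank_co_W (s : Bool) (m : Fin q) (P : (Fin S.N → Bool) → Prop) :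
    finrank ℚ (co S {p | P p.1 ∧ ∃ i, p.2 = pr s i m}) =
      q * Nat.card {x : Fin S.N → Bool // P x} := by

  rw [finrank_co]
  have h1 : Nat.card ({x : Fin S.N → Bool // P x} × Fin q) =
      q * Nat.card {x : Fin S.N → Bool // P x} := by
    rw [Nat.card_prod, Nat.card_eq_fintype_card (α := Fin q), Fintype.card_fin, mul_comm]
  rw [← h1]
  symm
  refine Nat.card_congr (Equiv.ofBijective (fun y : {x : Fin S.N → Bool // P x} × Fin q =>
    (⟨(y.1.1, pr s y.2 m), y.1.2, y.2, rfl⟩ :
      ({p : Pt S | P p.1 ∧ ∃ i, p.2 = pr s i m} : Set (Pt S)))) ⟨?_, ?_⟩)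
  · rintro ⟨⟨x, hx⟩, i⟩ ⟨⟨x', hx'⟩, i'⟩ he
    have h2 := congrArg Subtype.val he
    have h3 : x = x' := (Prod.ext_iff.1 h2).1
    have h4 : pr s i m = pr s i' m := (Prod.ext_iff.1 h2).2
    subst h3
    rw [m2b_pr' h4]
  · rintro ⟨⟨x, ω⟩, hP, i, hp⟩
    exact ⟨(⟨x, hP⟩, i), Subtype.ext (Prod.ext rfl hp.symm)⟩

end m2

/-! ### module m3: the subspaces `K` -/

section m3

variable (hg : S.Good)
include hg

omit hg in
private theorem m3a_move (w : ℕ) (x : Fin S.N → Bool) : S.In (S.nW + w) (S.move w x) := by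
  intro j b h
  show (S.pat (S.nW + w) j).getD (x j) = b
  rw [h]
  rfl

private theorem m3a_dis (w : ℕ) (hw : w < S.nW) (x : Fin S.N → Bool) (h1 : S.In w x)
    (h2 : S.In (S.nW + w) x) : False := by
  obtain ⟨j, hj, b, h3, h4⟩ := hg.dis w hw
  have h5 := h1 ⟨j, hj⟩ b h3
  have h6 := h2 ⟨j, hj⟩ (!b) h4
  rw [h5] at h6
  cases b <;> simp at h6

omit hg in
private theorem m3a_shift (m : Fin q) (w : ℕ) (v : Vs S) (A : Set (Pt S)) (hv : v ∈ co S A) :
    Finsupp.lmapDomain ℚ ℚ (sft S m w) v ∈ co S (sft S m w '' A) := by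
  have h1 : Finsupp.lmapDomain ℚ ℚ (sft S m w) v ∈
      (Finsupp.supported ℚ ℚ A).map (Finsupp.lmapDomain ℚ ℚ (sft S m w)) := ⟨v, hv, rfl⟩
  rw [Finsupp.lmapDomain_supported] at h1
  exact h1

private theorem m3a_zero (m : Fin q) (w : ℕ) (hw : w < S.nW) (A : Set (Pt S))
    (hA : ∀ p ∈ A, S.In w p.1) (v : Vs S) (hv : v ∈ co S A)
    (h : df S m w v ∈ co S {p | S.In (S.nW + w) p.1}) : v = 0 := by
  have h1 := m3a_shift S m w v A hv
  have h2 : Finsupp.lmapDomain ℚ ℚ (sft S m w) v ∈ co S {p | S.In (S.nW + w) p.1} := by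
    refine Finsupp.supported_mono ?_ h1
    rintro _ ⟨p, _, rfl⟩
    exact m3a_move S w p.1
  have h3 : v = df S m w v + Finsupp.lmapDomain ℚ ℚ (sft S m w) v := by
    show v = (v - Finsupp.lmapDomain ℚ ℚ (sft S m w) v) + Finsupp.lmapDomain ℚ ℚ (sft S m w) v
    rw [sub_add_cancel]
  have h4 : v ∈ co S {p | S.In (S.nW + w) p.1} := by
    rw [h3]
    exact Submodule.add_mem _ h h2
  have h5 : Disjoint A {p : Pt S | S.In (S.nW + w) p.1} := by
    rw [Set.disjoint_left]
    intro p hp hp'
    exact m3a_dis S hg w hw p.1 (hA p hp) hp'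
  have h6 : Disjoint (co S A) (co S {p | S.In (S.nW + w) p.1}) :=
    Finsupp.disjoint_supported_supported h5
  exact (Submodule.disjoint_def.1 h6) v hv h4

/-- m3. `df` is injective on `co {p | In w p.1}`: if `v = shift v` and `v` lives over cells in `w`,
then `shift v` lives over cells in `nW + w`, disjoint from those in `w` by `Good.dis`; so `v = 0`. -/
theorem finrank_Km (m : Fin q) (w : ℕ) (hw : w < S.nW) (A : Set (Pt S))
    (hA : ∀ p ∈ A, S.In w p.1) : finrank ℚ (Km S m w A) = finrank ℚ (co S A) := by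
  have hinj : Function.Injective ((df S m w).domRestrict (co S A)) := by
    rw [← LinearMap.ker_eq_bot, LinearMap.ker_eq_bot']
    intro v hv
    apply Subtype.ext
    have h1 : df S m w v = 0 := hv
    refine m3a_zero S hg m w hw A hA v.1 v.2 ?_
    rw [h1]
    exact Submodule.zero_mem _
  have h1 := LinearMap.finrank_range_of_inj hinj
  rw [LinearMap.range_domRestrict] at h1
  exact h1

/-- m3. A vector `v - shift v` living over cells in `nW + w` has `v = 0`. -/
theorem Km_inf (m : Fin q) (w : ℕ) (hw : w < S.nW) (A B : Set (Pt S))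
    (hA : ∀ p ∈ A, S.In w p.1) (hB : ∀ p ∈ B, S.In (S.nW + w) p.1) :
    Km S m w A ⊓ co S B = ⊥ := by
  rw [Submodule.eq_bot_iff]
  rintro _ ⟨⟨v, hv, rfl⟩, h2⟩
  have h3 : v = 0 := m3a_zero S hg m w hw A hA v hv (Finsupp.supported_mono (fun p hp => hB p hp) h2)
  rw [h3, map_zero]

/-- m3. `Submodule.finrank_sup_add_finrank_inf_eq`, `Km_inf`, `finrank_Km`. -/
theorem finrank_Km_sup (m : Fin q) (w : ℕ) (hw : w < S.nW) (A B : Set (Pt S))
    (hA : ∀ p ∈ A, S.In w p.1) (hB : ∀ p ∈ B, S.In (S.nW + w) p.1) :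
    finrank ℚ (Km S m w A ⊔ co S B : Submodule ℚ (Vs S)) =
      finrank ℚ (co S A) + finrank ℚ (co S B) := by
  have h1 := Submodule.finrank_sup_add_finrank_inf_eq (Km S m w A) (co S B)
  rw [Km_inf S hg m w hw A B hA hB, finrank_bot, add_zero, finrank_Km S hg m w hw A hA] at h1
  exact h1

omit hg in
/-- m3. `Submodule.map_sup`. -/
theorem Km_union (m : Fin q) (w : ℕ) (A B : Set (Pt S)) :
    Km S m w (A ∪ B) = Km S m w A ⊔ Km S m w B := by
  unfold Km
  rw [co_union, Submodule.map_sup]

private theorem m3b_none (w j : ℕ) (hw : w < S.nW) (hj : j < S.N) (h : S.pat w j = none) :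
    S.pat (S.nW + w) j = none := by
  have h1 := hg.dom w hw j hj
  rw [h] at h1
  cases h2 : S.pat (S.nW + w) j with
  | none => rfl
  | some b =>
    rw [h2] at h1
    simp at h1

private theorem m3b_inv (w : ℕ) (hw : w < S.nW) (y : Fin S.N → Bool) (hy : S.In (S.nW + w) y) :
    ∃ x, S.In w x ∧ S.move w x = y := by
  refine ⟨fun j => (S.pat w j).getD (y j), ?_, ?_⟩
  · intro j b h
    show (S.pat w j).getD (y j) = b
    rw [h]
    rfl
  · funext j
    show (S.pat (S.nW + w) j).getD ((S.pat w j).getD (y j)) = y j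
    cases h2 : S.pat (S.nW + w) j with
    | some b =>
      rw [hy j b h2]
      rfl
    | none =>
      have h1 := hg.dom w hw j j.2
      rw [h2] at h1
      cases h3 : S.pat w j with
      | none => rfl
      | some b =>
        rw [h3] at h1
        simp at h1

omit hg in
private theorem m3b_df (m : Fin q) (w : ℕ) (p : Pt S) :
    df S m w (Finsupp.single p 1) = Finsupp.single p 1 - Finsupp.single (sft S m w p) 1 := by
  show Finsupp.single p 1 - Finsupp.lmapDomain ℚ ℚ (sft S m w) (Finsupp.single p 1) = _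
  rw [Finsupp.lmapDomain_apply, Finsupp.mapDomain_single]

omit hg in
private theorem m3b_le (A : Set (Pt S)) (W : Submodule ℚ (Vs S))
    (h : ∀ p ∈ A, (Finsupp.single p 1 : Vs S) ∈ W) : co S A ≤ W := by
  unfold co
  rw [Finsupp.supported_eq_span_single, Submodule.span_le]
  rintro _ ⟨p, hp, rfl⟩
  exact h p hp

/-- m3. If `pat w j = none` then (by `Good.dom`) `move w` keeps the bit `j`, so `v - shift v` lives
over cells with bit `j` equal to `b` if `v` does. -/
theorem Km_le_lit (m : Fin q) (b : Bool) (w j : ℕ) (hw : w < S.nW) (hj : j < S.N)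
    (h : S.pat w j = none) :
    Km S m w {p | S.In w p.1 ∧ bt S p.1 j = b} ≤ co S {p | bt S p.1 j = b} := by
  rintro _ ⟨v, hv, rfl⟩
  have hv' : v ∈ co S {p | S.In w p.1 ∧ bt S p.1 j = b} := hv
  have h1 := m3a_shift S m w v _ hv'
  show v - Finsupp.lmapDomain ℚ ℚ (sft S m w) v ∈ co S {p | bt S p.1 j = b}
  refine Submodule.sub_mem _ (Finsupp.supported_mono (fun p hp => hp.2) hv')
    (Finsupp.supported_mono ?_ h1)
  rintro _ ⟨p, hp, rfl⟩
  have h2 : S.pat (S.nW + w) j = none := m3b_none S hg w j hw hj h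
  have h3 : bt S p.1 j = b := hp.2
  show bt S (S.move w p.1) j = b
  rw [← h3]
  unfold bt
  rw [dif_pos hj, dif_pos hj]
  show (S.pat (S.nW + w) j).getD (p.1 ⟨j, hj⟩) = p.1 ⟨j, hj⟩
  rw [h2]
  rfl

/-- m3. Modulo `K` the vector at `(x, ω)`, `x` in `w`, equals the one at
`(move w x, pr (sW w) (δ ω) m)`, and `move w` is a bijection from the cells in `w` to the cells in
`nW + w`.  Both inclusions on basis vectors (`co S A` is spanned by the `single p 1`, `p ∈ A`). -/
theorem Km_sup_graph (m : Fin q) (w : ℕ) (hw : w < S.nW) (g g' : (Fin S.N → Bool) → Fin q × Fin q)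
    (h : ∀ x, S.In w x → g' (S.move w x) = pr (S.sW w) (S.δ (g x).1 (g x).2) m) :
    Km S m w {p | S.In w p.1} ⊔ co S {p | p.2 = g p.1 ∧ S.In w p.1} =
      Km S m w {p | S.In w p.1} ⊔ co S {p | p.2 = g' p.1 ∧ S.In (S.nW + w) p.1} := by
  have hK : ∀ x, S.In w x → ∀ ω, (Finsupp.single (x, ω) 1 -
      Finsupp.single (sft S m w (x, ω)) 1 : Vs S) ∈ Km S m w {p | S.In w p.1} := by
    intro x hx ω
    rw [← m3b_df]
    exact ⟨_, Finsupp.single_mem_supported ℚ 1 hx, rfl⟩
  have hs : ∀ x, S.In w x → sft S m w (x, g x) = (S.move w x, g' (S.move w x)) := by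
    intro x hx
    rw [h x hx]
    rfl
  apply le_antisymm
  · refine sup_le le_sup_left (m3b_le S _ _ ?_)
    rintro ⟨x, ω⟩ ⟨h1, h2⟩
    have h1' : ω = g x := h1
    subst h1'
    have h3 := hK x h2 (g x)
    rw [hs x h2] at h3
    have h4 : (Finsupp.single (x, g x) 1 : Vs S) = (Finsupp.single (x, g x) 1 -
        Finsupp.single (S.move w x, g' (S.move w x)) 1) +
        Finsupp.single (S.move w x, g' (S.move w x)) 1 := by rw [sub_add_cancel]
    rw [h4]
    exact Submodule.add_mem_sup h3 (Finsupp.single_mem_supported ℚ 1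
      (show (S.move w x, g' (S.move w x)) ∈ {p : Pt S | p.2 = g' p.1 ∧ S.In (S.nW + w) p.1} from
        ⟨rfl, m3a_move S w x⟩))
  · refine sup_le le_sup_left (m3b_le S _ _ ?_)
    rintro ⟨y, ω⟩ ⟨h1, h2⟩
    have h1' : ω = g' y := h1
    subst h1'
    obtain ⟨x, hx, rfl⟩ := m3b_inv S hg w hw y h2
    have h3 := hK x hx (g x)
    rw [hs x hx] at h3
    have h4 : (Finsupp.single (S.move w x, g' (S.move w x)) 1 : Vs S) =
        -(Finsupp.single (x, g x) 1 - Finsupp.single (S.move w x, g' (S.move w x)) 1) +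
        Finsupp.single (x, g x) 1 := by
      abel
    rw [h4]
    exact Submodule.add_mem_sup (Submodule.neg_mem _ h3) (Finsupp.single_mem_supported ℚ 1
      (show (x, g x) ∈ {p : Pt S | p.2 = g p.1 ∧ S.In w p.1} from ⟨rfl, hx⟩))

end m3

/-! ### module m4: the joins in the model -/

section m4

variable {S} {val}
variable (hg : S.Good) (hs : S.Sol S.nC val)
include hg hs

omit hg hs in
private theorem m4_idx (ω : Fin q × Fin q) : idx ω < q * q := by
  unfold idx
  have h1 := ω.1.2
  have h2 := ω.2.2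
  calc (ω.1 : ℕ) * q + ω.2 < ω.1 * q + q := by omega
    _ = (ω.1 + 1) * q := by ring
    _ ≤ q * q := Nat.mul_le_mul_right q h1

omit hg hs in
private theorem m4_idx_inj {ω ω' : Fin q × Fin q} (h : idx ω = idx ω') : ω = ω' := by
  unfold idx at h
  have hq : 0 < q := lt_of_le_of_lt (Nat.zero_le _) ω.1.2
  have h1 : (ω.1 : ℕ) = ω'.1 := by
    have h2 : ((ω.1 : ℕ) * q + ω.2) / q = (ω'.1 * q + ω'.2) / q := by rw [h]
    rwa [Nat.add_comm, Nat.add_mul_div_right _ _ hq, Nat.div_eq_of_lt ω.2.2, Nat.zero_add,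
      Nat.add_comm, Nat.add_mul_div_right _ _ hq, Nat.div_eq_of_lt ω'.2.2, Nat.zero_add] at h2
  have h3 : (ω.2 : ℕ) = ω'.2 := by
    rw [h1] at h
    exact Nat.add_left_cancel h
  exact Prod.ext (Fin.ext h1) (Fin.ext h3)

/-- m4. Case by case: `co_union`, `co_mono`, `Km_union`, `Km_le_lit`; `YU` is `Km_sup_graph` (with
the wire equation of `hs` for `β = none`); `con` uses the constants of `hs`. -/
theorem V_join {A B C : El q} (h : S.Jn A B C) : V S val A = V S val B ⊔ V S val C := by
  have hbool : ∀ b : Bool, b = true ∨ b = false := by decide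
  cases h with
  | top j hj =>
    show co S _ = co S _ ⊔ co S _
    rw [← co_union]
    congr 1
    ext p
    simp only [Set.mem_ofPred_eq, Set.mem_union]
    exact ⟨fun _ => hbool _, fun _ => m4_idx p.2⟩
  | lit2 b i j hi hj hij =>
    show co S _ = co S _ ⊔ co S _
    rw [← co_union]
    congr 1
    ext p
    simp only [Set.mem_ofPred_eq, Set.mem_union]
    rcases hbool (bt S p.1 j) with h1 | h1 <;> simp [h1]
  | lit2le b i b' j hi hj hij =>
    exact (sup_eq_left.2 (co_mono S (fun p hp => hp.2))).symm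
  | eb ω j hj =>
    show co S _ = co S _ ⊔ co S _
    rw [← co_union]
    congr 1
    ext p
    simp only [Set.mem_ofPred_eq, Set.mem_union, phi]
    rcases hbool (bt S p.1 j) with h1 | h1 <;> simp [h1]
  | eble ω b j hj =>
    exact (sup_eq_left.2 (co_mono S (fun p hp => hp.2))).symm
  | ch ω =>
    show co S _ = co S _ ⊔ co S _
    rw [← co_union]
    congr 1
    ext p
    simp only [Set.mem_ofPred_eq, Set.mem_union, phi]
    rw [Nat.lt_succ_iff, le_iff_lt_or_eq]
    constructor
    · rintro (h1 | h1)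
      · exact Or.inl h1
      · exact Or.inr (m4_idx_inj h1)
    · rintro (h1 | h1)
      · exact Or.inl h1
      · exact Or.inr (by rw [h1])
  | pch s k =>
    show co S _ = co S _ ⊔ co S _
    rw [← co_union]
    congr 1
    ext p
    simp only [Set.mem_ofPred_eq, Set.mem_union, phi]
    constructor
    · rintro ⟨m, h1, h2⟩
      rcases Nat.lt_succ_iff_lt_or_eq.1 h1 with h3 | h3
      · exact Or.inl ⟨m, h3, h2⟩
      · right
        have h4 : m = k := Fin.ext h3
        rw [h2, h4]
    · rintro (⟨m, h1, h2⟩ | h2)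
      · exact ⟨m, by omega, h2⟩
      · exact ⟨k, by omega, h2⟩
  | tt s =>
    refine (sup_eq_left.2 (co_mono S (fun p hp => ?_))).symm
    have h1 : p.2 = (val true p.1, val false p.1) := hp
    refine ⟨val (!s) p.1, (val (!s) p.1).2, ?_⟩
    rw [h1]
    cases s <;> rfl
  | cmpS c i b hc hi h =>
    show co S _ = co S _ ⊔ co S _
    rw [← co_union]
    congr 1
    ext p
    simp only [Set.mem_ofPred_eq, Set.mem_union]
    constructor
    · rintro ⟨j, h1, b', h2, h3⟩
      rcases Nat.lt_succ_iff_lt_or_eq.1 h1 with h4 | h4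
      · exact Or.inl ⟨j, h4, b', h2, h3⟩
      · subst h4
        rw [h] at h2
        have h5 : b = b' := Option.some.inj h2
        subst h5
        right
        revert h3
        generalize bt S p.1 j = t
        cases t <;> cases b <;> simp
    · rintro (⟨j, h1, b', h2, h3⟩ | h3)
      · exact ⟨j, by omega, b', h2, h3⟩
      · refine ⟨i, by omega, b, h, ?_⟩
        rw [h3]
        cases b <;> simp
  | cmpN c i hc hi h =>
    refine (sup_eq_left.2 (co_mono S ?_)).symm
    rintro p ⟨j, h1, b', h2, h3⟩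
    rcases Nat.lt_succ_iff_lt_or_eq.1 h1 with h4 | h4
    · exact ⟨j, h4, b', h2, h3⟩
    · subst h4
      rw [h] at h2
      exact absurd h2 (by simp)
  | part β c hc =>
    show co S _ = co S _ ⊔ co S _
    rw [← co_union]
    congr 1
    ext p
    simp only [Set.mem_ofPred_eq, Set.mem_union]
    tauto
  | corle β c hc =>
    refine (sup_eq_left.2 (co_mono S ?_)).symm
    rintro p ⟨h1, h2⟩
    unfold Sys.In at h2
    push Not at h2
    obtain ⟨j, b, h3, h4⟩ := h2
    refine ⟨j, j.2, b, h3, ?_⟩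
    unfold bt
    rw [dif_pos j.2]
    exact h4
  | resle β c j b hc hj h =>
    refine (sup_eq_left.2 (co_mono S ?_)).symm
    rintro p ⟨h1, h2⟩
    show bt S p.1 j = b
    unfold bt
    rw [dif_pos hj]
    exact h2 ⟨j, hj⟩ b h
  | Ksh m w j hw hj h =>
    show Km S m w _ = Km S m w _ ⊔ Km S m w _
    rw [← Km_union]
    congr 1
    ext p
    simp only [Set.mem_ofPred_eq, Set.mem_union]
    rcases hbool (bt S p.1 j) with h1 | h1 <;> simp [h1]
  | Kle m b w j hw hj h =>
    exact (sup_eq_left.2 (Km_le_lit S hg m b w j hw hj h)).symm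
  | Wsh m w j hw hj h =>
    show co S _ = co S _ ⊔ co S _
    rw [← co_union]
    congr 1
    ext p
    simp only [Set.mem_ofPred_eq, Set.mem_union]
    rcases hbool (bt S p.1 j) with h1 | h1 <;> simp [h1]
  | Wle m b w j hw hj h =>
    exact (sup_eq_left.2 (co_mono S (fun p hp => hp.2.2))).symm
  | YU m β w hw =>
    refine (Km_sup_graph S hg m w hw (fun x => phi S val x (bU β))
      (fun x => phi S val x (S.bD m w β)) (fun x hx => ?_)).symm
    cases β with
    | none =>
      show pr (S.sW w) (val (S.sW w) (S.move w x)) m = _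
      rw [hs.wire w hw x hx]
      rfl
    | some ω => rfl
  | YD m β w hw => rfl
  | J m w hw => rfl
  | Wp m w hw =>
    refine (sup_eq_left.2 (co_mono S ?_)).symm
    rintro p ⟨h1, h2⟩
    exact ⟨h2, _, h1⟩
  | We m i w hw =>
    refine (sup_eq_left.2 (co_mono S ?_)).symm
    rintro p ⟨h1, h2⟩
    exact ⟨h2, _, h1⟩
  | con m c hc =>
    refine (sup_eq_left.2 (co_mono S ?_)).symm
    rintro p ⟨h1, h2⟩
    refine ⟨?_, h2⟩
    have h3 : p.2 = pr (S.sC c) (val (S.sC c) p.1) m := h1
    show p.2 = pr (S.sC c) (S.vC c) m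
    rw [h3, hs.con c hc p.1 h2]

end m4

/-! ### module m5: the ranks in the model -/

section m5

variable {S} {val}
variable (hg : S.Good)
include hg

omit hg in
private theorem m5_idx (ω : Fin q × Fin q) : idx ω + 1 ≤ q * q := by
  unfold idx
  have h1 := ω.1.2
  have h2 := ω.2.2
  calc (ω.1 : ℕ) * q + ω.2 + 1 ≤ ω.1 * q + q := by omega
    _ = (ω.1 + 1) * q := by ring
    _ ≤ q * q := Nat.mul_le_mul_right q h1

/-- The conditions on the indices. -/
private def m5_ok (S : Sys q) : El q → Prop
  | .lit _ j => j < S.N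
  | .lit2 _ i _ j => i < S.N ∧ j < S.N ∧ i ≠ j
  | .base _ => True
  | .eb _ _ j => j < S.N
  | .ch s => s ≤ q * q
  | .pch _ k => k ≤ q
  | .cmp _ i => i ≤ S.N
  | .res _ _ => True
  | .cor _ _ => True
  | .K _ w => w < S.nW
  | .Ksh _ _ w j => w < S.nW ∧ j < S.N ∧ S.pat w j = none
  | .W _ w => w < S.nW
  | .Wsh _ _ w j => w < S.nW ∧ j < S.N ∧ S.pat w j = none
  | .Y _ _ w => w < S.nW
  | .J _ w => w < S.nW

private theorem m5_dn (w : ℕ) (hw : w < S.nW) : S.dn (S.nW + w) S.N = S.dn w S.N := by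
  unfold Sys.dn
  apply List.countP_congr
  intro j hj
  rw [hg.dom w hw j (List.mem_range.1 hj)]

private theorem m5_none (w j : ℕ) (hw : w < S.nW) (hj : j < S.N) (h : S.pat w j = none) :
    S.pat (S.nW + w) j = none := by
  have h1 := hg.dom w hw j hj
  rw [h] at h1
  cases h2 : S.pat (S.nW + w) j with
  | none => rfl
  | some b =>
    rw [h2] at h1
    simp at h1

private theorem m5_rank {A : El q} (h : m5_ok S A) : finrank ℚ (V S val A) = S.rk A := by
  cases A with
  | lit b j =>
    exact (finrank_co_full S (fun x => bt S x j = b)).trans (by rw [card_lit S b j h]; rfl)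
  | lit2 b i b' j =>
    exact (finrank_co_full S (fun x => bt S x i = b ∧ bt S x j = b')).trans
      (by rw [card_lit2 S b b' i j h.1 h.2.1 h.2.2]; rfl)
  | base β =>
    have h1 := finrank_co_graph S (fun _ => True) (fun x => phi S val x β)
    have h2 : {p : Pt S | p.2 = phi S val p.1 β ∧ True} = {p | p.2 = phi S val p.1 β} := by
      ext p
      simp
    have h3 : Nat.card {x : Fin S.N → Bool // True} = 2 ^ S.N := by
      rw [Nat.card_congr (Equiv.subtypeUnivEquiv (fun _ => trivial)), Nat.card_eq_fintype_card,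
        Fintype.card_fun, Fintype.card_bool, Fintype.card_fin]
    rw [h2, h3] at h1
    exact h1
  | eb ω b j =>
    exact (finrank_co_graph S (fun x => bt S x j = b) (fun _ => ω)).trans (card_lit S b j h)
  | ch s => exact finrank_co_ch S s h
  | pch s k => exact finrank_co_pch S s (val s) k h
  | cmp c i =>
    exact (finrank_co_full S (fun x => ∃ j < i, ∃ b, S.pat c j = some b ∧ bt S x j ≠ b)).trans
      (by rw [card_cmp S c i h]; rfl)
  | res β c =>
    exact (finrank_co_graph S (fun x => S.In c x) (fun x => phi S val x β)).trans (card_In S c)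
  | cor β c =>
    exact (finrank_co_graph S (fun x => ¬ S.In c x) (fun x => phi S val x β)).trans
      (card_not_In S c)
  | K m w =>
    have h1 := finrank_Km S hg m w h {p | S.In w p.1} (fun p hp => hp)
    rw [finrank_co_full S (fun x => S.In w x), card_In] at h1
    exact h1
  | Ksh m b w j =>
    have h1 := finrank_Km S hg m w h.1 {p | S.In w p.1 ∧ bt S p.1 j = b} (fun p hp => hp.1)
    rw [finrank_co_full S (fun x => S.In w x ∧ bt S x j = b), card_In_bt S w b j h.2.1 h.2.2] at h1
    exact h1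
  | W m w =>
    have h1 := finrank_co_W S (S.sW w) m (fun x => S.In (S.nW + w) x)
    rw [card_In, m5_dn hg w h] at h1
    exact h1
  | Wsh m b w j =>
    have h1 := finrank_co_W S (S.sW w) m (fun x => S.In (S.nW + w) x ∧ bt S x j = b)
    rw [card_In_bt S (S.nW + w) b j h.2.1 (m5_none hg w j h.1 h.2.1 h.2.2), m5_dn hg w h.1] at h1
    have h2 : {p : Pt S | (S.In (S.nW + w) p.1 ∧ bt S p.1 j = b) ∧ ∃ i, p.2 = pr (S.sW w) i m} =
        {p | S.In (S.nW + w) p.1 ∧ (∃ i, p.2 = pr (S.sW w) i m) ∧ bt S p.1 j = b} := by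
      ext p
      simp only [Set.mem_ofPred_eq]
      tauto
    rw [h2] at h1
    exact h1
  | Y m β w =>
    have h1 := finrank_Km_sup S hg m w h {p | S.In w p.1}
      {p | p.2 = phi S val p.1 (S.bD m w β) ∧ S.In (S.nW + w) p.1} (fun p hp => hp)
      (fun p hp => hp.2)
    rw [finrank_co_full S (fun x => S.In w x), card_In,
      finrank_co_graph S (fun x => S.In (S.nW + w) x) (fun x => phi S val x (S.bD m w β)), card_In,
      m5_dn hg w h] at h1
    refine h1.trans ?_
    show _ = (q * q + 1) * 2 ^ (S.N - S.dn w S.N)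
    ring
  | J m w =>
    have h1 := finrank_Km_sup S hg m w h {p | S.In w p.1}
      {p | S.In (S.nW + w) p.1 ∧ ∃ i, p.2 = pr (S.sW w) i m} (fun p hp => hp)
      (fun p hp => hp.1)
    rw [finrank_co_full S (fun x => S.In w x), card_In,
      finrank_co_W S (S.sW w) m (fun x => S.In (S.nW + w) x), card_In,
      m5_dn hg w h] at h1
    refine h1.trans ?_
    show _ = (q * q + q) * 2 ^ (S.N - S.dn w S.N)
    ring

/-- m5. Case by case with m1, m2, m3 (only the sizes matter, not the solution property).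
For `Y`, `J`: `finrank_Km_sup`. -/
theorem V_rank_a {A B C : El q} (h : S.Jn A B C) : finrank ℚ (V S val A) = S.rk A := by
  apply m5_rank hg
  cases h with
  | ch ω => exact m5_idx ω
  | pch s k => exact k.2
  | top j hj => exact le_rfl
  | tt s => exact le_rfl
  | _ => first | trivial | assumption | (simp only [m5_ok]; first | omega | (constructor <;> first | assumption | omega | (constructor <;> assumption)))

/-- m5. -/
theorem V_rank_b {A B C : El q} (h : S.Jn A B C) : finrank ℚ (V S val B) = S.rk B := by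
  apply m5_rank hg
  cases h with
  | ch ω => exact (Nat.le_succ _).trans (m5_idx ω)
  | pch s k => exact k.2.le
  | tt s => exact le_rfl
  | _ => first | trivial | assumption | (simp only [m5_ok]; first | omega | (constructor <;> first | assumption | omega | (constructor <;> assumption)))

/-- m5. -/
theorem V_rank_c {A B C : El q} (h : S.Jn A B C) : finrank ℚ (V S val C) = S.rk C := by
  apply m5_rank hg
  cases h with
  | _ => first | trivial | assumption | (simp only [m5_ok]; first | omega | (constructor <;> first | assumption | omega | (constructor <;> assumption)))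

end m5

/-! ### module m6: assembly -/

section m6

/-- m6. Ranks of sums of subspaces of a finite-dimensional space form a polymatroid
(`Submodule.finrank_sup_add_finrank_inf_eq`, `Submodule.finrank_mono`). -/
theorem polymatroid_of_subspaces {E : Type} [DecidableEq E] {W : Type} [AddCommGroup W]
    [Module ℚ W] [FiniteDimensional ℚ W] (U : E → Submodule ℚ W) :
    Polymatroid (fun Z : Finset E => (finrank ℚ (Z.sup U : Submodule ℚ W) : ℝ)) := by
  refine ⟨?_, fun A B h => ?_, fun A B => ?_⟩
  · show ((finrank ℚ ((∅ : Finset E).sup U : Submodule ℚ W) : ℕ) : ℝ) = 0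
    rw [Finset.sup_empty, finrank_bot]
    exact Nat.cast_zero
  · have h1 : finrank ℚ (A.sup U : Submodule ℚ W) ≤ finrank ℚ (B.sup U : Submodule ℚ W) :=
      Submodule.finrank_mono (Finset.sup_mono h)
    exact_mod_cast h1
  · have h1 := Submodule.finrank_sup_add_finrank_inf_eq (A.sup U) (B.sup U)
    have h2 : finrank ℚ ((A ∩ B).sup U : Submodule ℚ W) ≤
        finrank ℚ (A.sup U ⊓ B.sup U : Submodule ℚ W) :=
      Submodule.finrank_mono (le_inf (Finset.sup_mono Finset.inter_subset_left)
        (Finset.sup_mono Finset.inter_subset_right))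
    have h3 : finrank ℚ ((A ∪ B).sup U : Submodule ℚ W) +
        finrank ℚ ((A ∩ B).sup U : Submodule ℚ W) ≤
        finrank ℚ (A.sup U : Submodule ℚ W) + finrank ℚ (B.sup U : Submodule ℚ W) := by
      rw [Finset.sup_union]
      omega
    exact_mod_cast h3

/-- m6. -/
theorem isJoin_of_subspaces {E : Type} [DecidableEq E] {W : Type} [AddCommGroup W]
    [Module ℚ W] [FiniteDimensional ℚ W] (U : E → Submodule ℚ W) (r : E → ℕ) (A B C : E)
    (h : U A = U B ⊔ U C) (hA : finrank ℚ (U A) = r A) (hB : finrank ℚ (U B) = r B)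
    (hC : finrank ℚ (U C) = r C) :
    IsJoin (fun Z : Finset E => (finrank ℚ (Z.sup U : Submodule ℚ W) : ℝ)) r A B C := by
  have hB' : U B ≤ U A := by
    rw [h]
    exact le_sup_left
  have hC' : U C ≤ U A := by
    rw [h]
    exact le_sup_right
  refine ⟨?_, ?_, ?_, ?_, ?_, ?_, ?_⟩
  · show ((finrank ℚ (({A} : Finset E).sup U : Submodule ℚ W) : ℕ) : ℝ) = r A
    rw [Finset.sup_singleton, hA]
  · show ((finrank ℚ (({B} : Finset E).sup U : Submodule ℚ W) : ℕ) : ℝ) = r B
    rw [Finset.sup_singleton, hB]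
  · show ((finrank ℚ (({C} : Finset E).sup U : Submodule ℚ W) : ℕ) : ℝ) = r C
    rw [Finset.sup_singleton, hC]
  · show ((finrank ℚ (({A, B} : Finset E).sup U : Submodule ℚ W) : ℕ) : ℝ) = r A
    rw [Finset.sup_insert, Finset.sup_singleton, sup_eq_left.2 hB', hA]
  · show ((finrank ℚ (({A, C} : Finset E).sup U : Submodule ℚ W) : ℕ) : ℝ) = r A
    rw [Finset.sup_insert, Finset.sup_singleton, sup_eq_left.2 hC', hA]
  · show ((finrank ℚ (({B, C} : Finset E).sup U : Submodule ℚ W) : ℕ) : ℝ) = r A
    rw [Finset.sup_insert, Finset.sup_singleton, ← h, hA]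
  · show ((finrank ℚ (({A, B, C} : Finset E).sup U : Submodule ℚ W) : ℕ) : ℝ) = r A
    rw [Finset.sup_insert, Finset.sup_insert, Finset.sup_singleton, ← h, sup_idem, hA]

/-- m6. **Completeness.** -/
theorem complete (hg : S.Good) (hs : S.Sol S.nC val) :
    ∃ f : Finset (El q) → ℝ, Polymatroid f ∧ ∀ A B C, S.Jn A B C → IsJoin f S.rk A B C :=
  ⟨_, polymatroid_of_subspaces (V S val), fun A B C h =>
    isJoin_of_subspaces (V S val) S.rk A B C (V_join hg hs h) (V_rank_a hg h) (V_rank_b hg h)
      (V_rank_c hg h)⟩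

end m6

end Pool.PmX
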