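import Pool.Agent.PmX.Snd
import Pool.Agent.PmX.Mdl

/-!
# The entries of the instance and their consistency
-/

namespace Pool.PmX

/-- the entries of a join: all subsets of `{A, B, C}` with their values -/
def ents {E : Type} [DecidableEq E] (r : E → ℕ) (A B C : E) : List (Finset E × ℕ) :=
  [(∅, 0), ({A}, r A), ({B}, r B), ({C}, r C), ({A, B}, r A), ({A, C}, r A), ({B, C}, r A),
    ({A, B, C}, r A)]

/-- g1. -/
theorem isJoin_iff {E : Type} [DecidableEq E] (f : Finset E → ℝ) (hf : f ∅ = 0) (r : E → ℕ)
    (A B C : E) : IsJoin f r A B C ↔ ∀ p ∈ ents r A B C, f p.1 = p.2 := by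

  constructor
  · intro h p hp
    simp only [ents, List.mem_cons, List.not_mem_nil, or_false] at hp
    rcases hp with rfl | rfl | rfl | rfl | rfl | rfl | rfl | rfl
    · show f ∅ = ((0 : ℕ) : ℝ)
      rw [hf, Nat.cast_zero]
    · exact h.a
    · exact h.b
    · exact h.c
    · exact h.ab
    · exact h.ac
    · exact h.bc
    · exact h.abc
  · intro h
    exact
      { a := h ({A}, r A) (by simp [ents])
        b := h ({B}, r B) (by simp [ents])
        c := h ({C}, r C) (by simp [ents])
        ab := h ({A, B}, r A) (by simp [ents])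
        ac := h ({A, C}, r A) (by simp [ents])
        bc := h ({B, C}, r A) (by simp [ents])
        abc := h ({A, B, C}, r A) (by simp [ents]) }

private theorem g1_sub {E : Type} [DecidableEq E] (r : E → ℕ) (A B C : E) (p : Finset E × ℕ)
    (hp : p ∈ ents r A B C) : p.1 ⊆ {A, B, C} := by
  simp only [ents, List.mem_cons, List.not_mem_nil, or_false] at hp
  rcases hp with rfl | rfl | rfl | rfl | rfl | rfl | rfl | rfl <;> intro e he <;>
    simp at he ⊢ <;> tauto

/-- g1. Every subset of a listed set is listed. -/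
theorem ents_closed {E : Type} [DecidableEq E] (r : E → ℕ) (A B C : E) (p : Finset E × ℕ)
    (hp : p ∈ ents r A B C) (T : Finset E) (hT : T ⊆ p.1) : ∃ v, (T, v) ∈ ents r A B C := by

  have hT' : T ⊆ {A, B, C} := hT.trans (g1_sub r A B C p hp)
  have h1 : T = ({A, B, C} : Finset E).filter (fun e => e ∈ T) := by
    ext e
    rw [Finset.mem_filter]
    exact ⟨fun h => ⟨hT' h, h⟩, fun h => h.2⟩
  by_cases hA : A ∈ T <;> by_cases hB : B ∈ T <;> by_cases hC : C ∈ T
  · exact ⟨r A, by rw [h1]; simp [Finset.filter_insert, Finset.filter_singleton, hA, hB, hC, ents]⟩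
  · exact ⟨r A, by rw [h1]; simp [Finset.filter_insert, Finset.filter_singleton, hA, hB, hC, ents]⟩
  · exact ⟨r A, by rw [h1]; simp [Finset.filter_insert, Finset.filter_singleton, hA, hB, hC, ents]⟩
  · exact ⟨r A, by rw [h1]; simp [Finset.filter_insert, Finset.filter_singleton, hA, hB, hC, ents]⟩
  · exact ⟨r A, by rw [h1]; simp [Finset.filter_insert, Finset.filter_singleton, hA, hB, hC, ents]⟩
  · exact ⟨r B, by rw [h1]; simp [Finset.filter_insert, Finset.filter_singleton, hA, hB, hC, ents]⟩
  · exact ⟨r C, by rw [h1]; simp [Finset.filter_insert, Finset.filter_singleton, hA, hB, hC, ents]⟩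
  · exact ⟨0, by rw [h1]; simp [Finset.filter_insert, Finset.filter_singleton, hA, hB, hC, ents]⟩

/-- g1. -/
theorem ents_card {E : Type} [DecidableEq E] (r : E → ℕ) (A B C : E) (p : Finset E × ℕ)
    (hp : p ∈ ents r A B C) : p.1.card ≤ 3 := by

  exact (Finset.card_le_card (g1_sub r A B C p hp)).trans Finset.card_le_three

variable {q : ℕ} {S : Sys q}

/-- The joins which contain two restrictions `res (e ω) c0`, `res (port s m) c0`. -/
private theorem g2_two {c0 : ℕ} {ω : Fin q × Fin q} {s : Bool} {m : Fin q} {A B C : El q}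
    (h : S.Jn A B C) (h1 : El.res (.e ω) c0 ∈ ({A, B, C} : Finset (El q)))
    (h2 : El.res (.port s m) c0 ∈ ({A, B, C} : Finset (El q))) :
    ∃ m' c, c < S.nC ∧ c0 = 2 * S.nW + c ∧
      A = El.res (.e (pr (S.sC c) (S.vC c) m')) (2 * S.nW + c) ∧ B = A ∧
      C = El.res (.port (S.sC c) m') (2 * S.nW + c) := by
  have key : ∀ X : El q, X = El.res (.e ω) c0 → X = El.res (.port s m) c0 → False := by
    intro X h3 h4
    rw [h3] at h4
    exact absurd (El.res.inj h4).1 (by simp)
  simp only [Finset.mem_insert, Finset.mem_singleton] at h1 h2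
  cases h with
  | con m' c hc =>
    refine ⟨m', c, hc, ?_, rfl, rfl, rfl⟩
    rcases h1 with h1 | h1 | h1
    · exact (El.res.inj h1).2
    · exact (El.res.inj h1).2
    · exact (El.res.inj h1).2
  | _ =>
    exfalso
    rcases h1 with h1 | h1 | h1 <;> rcases h2 with h2 | h2 | h2 <;>
      first
        | exact key _ h1.symm h2.symm
        | (cases h1; done)
        | (cases h2; done)

private theorem g2_cases {n : ℕ} {v : Fin q} (S' : Sys q)
    (hS' : S' = { S with vC := Function.update S.vC n v }) {A B C : El q} (h : S.Jn A B C) :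
    S'.Jn A B C ∨ ∃ m, A = El.res (.e (pr (S.sC n) (S.vC n) m)) (2 * S.nW + n) ∧ A = B ∧
      C = El.res (.port (S.sC n) m) (2 * S.nW + n) := by
  subst hS'
  cases h with
  | con m c hc =>
    by_cases hcn : c = n
    · right
      subst hcn
      exact ⟨m, rfl, rfl, rfl⟩
    · left
      have h1 := Sys.Jn.con (S := { S with vC := Function.update S.vC n v }) m c hc
      have h2 : Function.update S.vC n v c = S.vC c := Function.update_of_ne hcn _ _
      have h3 : ({ S with vC := Function.update S.vC n v } : Sys q).vC c = S.vC c := h2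
      rw [h3] at h1
      exact h1
  | top j hj => exact Or.inl (Sys.Jn.top j hj)
  | lit2 b i j hi hj hij => exact Or.inl (Sys.Jn.lit2 b i j hi hj hij)
  | lit2le b i b' j hi hj hij => exact Or.inl (Sys.Jn.lit2le b i b' j hi hj hij)
  | eb ω j hj => exact Or.inl (Sys.Jn.eb ω j hj)
  | eble ω b j hj => exact Or.inl (Sys.Jn.eble ω b j hj)
  | ch ω => exact Or.inl (Sys.Jn.ch ω)
  | pch s k => exact Or.inl (Sys.Jn.pch s k)
  | tt s => exact Or.inl (Sys.Jn.tt s)
  | cmpS c i b hc hi h => exact Or.inl (Sys.Jn.cmpS c i b hc hi h)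
  | cmpN c i hc hi h => exact Or.inl (Sys.Jn.cmpN c i hc hi h)
  | part β c hc => exact Or.inl (Sys.Jn.part β c hc)
  | corle β c hc => exact Or.inl (Sys.Jn.corle β c hc)
  | resle β c j b hc hj h => exact Or.inl (Sys.Jn.resle β c j b hc hj h)
  | Ksh m w j hw hj h => exact Or.inl (Sys.Jn.Ksh m w j hw hj h)
  | Kle m b w j hw hj h => exact Or.inl (Sys.Jn.Kle m b w j hw hj h)
  | Wsh m w j hw hj h => exact Or.inl (Sys.Jn.Wsh m w j hw hj h)
  | Wle m b w j hw hj h => exact Or.inl (Sys.Jn.Wle m b w j hw hj h)
  | YU m β w hw => exact Or.inl (Sys.Jn.YU m β w hw)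
  | YD m β w hw => exact Or.inl (Sys.Jn.YD m β w hw)
  | J m w hw => exact Or.inl (Sys.Jn.J m w hw)
  | Wp m w hw => exact Or.inl (Sys.Jn.Wp m w hw)
  | We m i w hw => exact Or.inl (Sys.Jn.We m i w hw)

/-- g2. **Consistency.**  Let `v = val (sC n) x` and `S' = {S with vC := Function.update S.vC n v}`.
Then `S'.Sol (n + 1) val` (`x` is the only cell matching the full pattern `2 nW + n`), so `complete`
gives `f` with all joins of `S'`.  Every join of `S` except `con m n` is a join of `S'` (same
ranks), so its entries are values of `f` (`isJoin_iff`).  For the join `con m n` of `S`,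
`A = B = res (e ..) (2 nW + n)`, `C = res (port ..) (2 nW + n)` have rank `1` also in `S'` (join
`part`), and the pair `{A, C}` is contained in no other join of `S` than this one (cases), with
value `1`. -/
theorem cons (hg : S.Good) (n : ℕ) (hn : S.nC = n + 1) (val : Bool → (Fin S.N → Bool) → Fin q)
    (hs : S.Sol n val) (x : Fin S.N → Bool) (hx : S.In (2 * S.nW + n) x)
    (hfull : ∀ j < S.N, (S.pat (2 * S.nW + n) j).isSome)
    {A B C A' B' C' : El q} (h : S.Jn A B C) (h' : S.Jn A' B' C') (p p' : Finset (El q) × ℕ)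
    (hp : p ∈ ents S.rk A B C) (hp' : p' ∈ ents S.rk A' B' C') (he : p.1 = p'.1) : p.2 = p'.2 := by

  set c0 := 2 * S.nW + n with hc0
  set v := val (S.sC n) x with hv
  obtain ⟨S', hS'⟩ : ∃ S' : Sys q, S' = { S with vC := Function.update S.vC n v } := ⟨_, rfl⟩
  have hdn : S.dn c0 S.N = S.N := by
    unfold Sys.dn
    rw [List.countP_eq_length.2, List.length_range]
    intro j hj
    exact hfull j (List.mem_range.1 hj)
  have hrk : ∀ β : Base q, S.rk (.res β c0) = 1 := by
    intro β
    show 2 ^ (S.N - S.dn c0 S.N) = 1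
    rw [hdn, Nat.sub_self, pow_zero]
  have hc0P : c0 < S.nP := by
    unfold Sys.nP
    omega
  have hgood : S'.Good := by
    rw [hS']
    exact ⟨hg.dom, hg.dis⟩
  have huniq : ∀ y, S.In c0 y → y = x := by
    intro y hy
    funext j
    have h1 := hfull j j.2
    obtain ⟨b, hb⟩ := Option.isSome_iff_exists.1 h1
    rw [hy j b hb, hx j b hb]
  have hsol : S'.Sol S'.nC (hS' ▸ val) := by
    subst hS'
    refine ⟨hs.wire, fun c hc y hy => ?_⟩
    have hc' : c < n + 1 := by
      rw [← hn]
      exact hc
    rcases Nat.lt_or_ge c n with h1 | h1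
    · have h2 := hs.con c h1 y hy
      show val (S.sC c) y = Function.update S.vC n v c
      rw [Function.update_of_ne (by omega)]
      exact h2
    · have h2 : c = n := by omega
      subst h2
      show val (S.sC c) y = Function.update S.vC c v c
      rw [Function.update_self, huniq y hy]
  obtain ⟨f, hf, hJ⟩ := complete S' _ hgood hsol
  have hrk' : S'.rk = S.rk := by
    subst hS'
    funext e
    cases e <;> rfl
  rw [hrk'] at hJ
  have hfe : f ∅ = 0 := hf.empty
  -- the entries of the joins
  have key : ∀ {A B C : El q}, S.Jn A B C → ∀ p ∈ ents S.rk A B C, f p.1 = p.2 ∨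
      (∃ m, p.1 = {El.res (.e (pr (S.sC n) (S.vC n) m)) c0, El.res (.port (S.sC n) m) c0} ∧
        p.2 = 1) := by
    intro A B C h p hp
    rcases g2_cases S' hS' h with h1 | ⟨m, hA, hB, hC⟩
    · exact Or.inl ((isJoin_iff f hfe S.rk A B C).1 (hJ A B C h1) p hp)
    · have hbase : ∀ β : Base q, f {El.res β c0} = 1 := by
        intro β
        have h2 : S'.Jn (.base β) (.res β c0) (.cor β c0) := by
          subst hS'
          exact Sys.Jn.part β c0 hc0P
        have h3 := (hJ _ _ _ h2).b
        rw [hrk β, Nat.cast_one] at h3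
        exact h3
      have hrA : S.rk A = 1 := by rw [hA, hrk]
      have hrC : S.rk C = 1 := by rw [hC, hrk]
      have hfA : f {A} = 1 := by rw [hA, hbase]
      have hfC : f {C} = 1 := by rw [hC, hbase]
      subst hB
      simp only [ents, List.mem_cons, List.not_mem_nil, or_false] at hp
      rcases hp with rfl | rfl | rfl | rfl | rfl | rfl | rfl | rfl
      · left
        show f ∅ = ((0 : ℕ) : ℝ)
        rw [hfe, Nat.cast_zero]
      · left
        show f {A} = ((S.rk A : ℕ) : ℝ)
        rw [hfA, hrA, Nat.cast_one]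
      · left
        show f {A} = ((S.rk A : ℕ) : ℝ)
        rw [hfA, hrA, Nat.cast_one]
      · left
        show f {C} = ((S.rk C : ℕ) : ℝ)
        rw [hfC, hrC, Nat.cast_one]
      · left
        show f {A, A} = ((S.rk A : ℕ) : ℝ)
        rw [Finset.pair_eq_singleton, hfA, hrA, Nat.cast_one]
      · right
        exact ⟨m, by rw [← hA, ← hC], hrA⟩
      · right
        exact ⟨m, by rw [← hA, ← hC], hrA⟩
      · right
        refine ⟨m, ?_, hrA⟩
        rw [← hA, ← hC]
        show ({A, A, C} : Finset (El q)) = {A, C}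
        rw [Finset.insert_eq_of_mem (Finset.mem_insert_self _ _)]
  have key2 : ∀ {A B C : El q}, S.Jn A B C → ∀ p ∈ ents S.rk A B C, ∀ m,
      p.1 = {El.res (.e (pr (S.sC n) (S.vC n) m)) c0, El.res (.port (S.sC n) m) c0} →
        p.2 = 1 := by
    intro A B C h p hp m hm
    have hsub := g1_sub S.rk A B C p hp
    rw [hm] at hsub
    obtain ⟨m', c, hc, hc0c, hA, hB, hC⟩ := g2_two h
      (hsub (Finset.mem_insert_self _ _))
      (hsub (Finset.mem_insert_of_mem (Finset.mem_singleton_self _)))
    have hrA : S.rk A = 1 := by rw [hA, ← hc0c, hrk]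
    have hrB : S.rk B = 1 := by rw [hB, hrA]
    have hrC : S.rk C = 1 := by rw [hC, ← hc0c, hrk]
    simp only [ents, List.mem_cons, List.not_mem_nil, or_false] at hp
    rcases hp with rfl | rfl | rfl | rfl | rfl | rfl | rfl | rfl
    · exfalso
      have h1 : El.res (.port (S.sC n) m) c0 ∈ (∅ : Finset (El q)) := by
        have h2 : (∅ : Finset (El q)) = {El.res (.e (pr (S.sC n) (S.vC n) m)) c0,
          El.res (.port (S.sC n) m) c0} := hm
        rw [h2]
        exact Finset.mem_insert_of_mem (Finset.mem_singleton_self _)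
      exact absurd h1 (Finset.notMem_empty _)
    · exact hrA
    · exact hrB
    · exact hrC
    · exact hrA
    · exact hrA
    · exact hrA
    · exact hrA
  rcases key h p hp with h1 | ⟨m, h1, h2⟩
  · rcases key h' p' hp' with h3 | ⟨m, h3, h4⟩
    · rw [he, h3] at h1
      exact_mod_cast h1.symm
    · rw [h4]
      exact key2 h p hp m (he.trans h3)
  · rw [h2]
    exact (key2 h' p' hp' m (he.symm.trans h1)).symm

end Pool.PmX
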