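import Pool.Agent.PmX.Lang
import Pool.Agent.NPC.Sat
import Pool.Agent.NPC.Machine

/-!
# The runs of a stack machine as rows of a transducer grid

`cel y d`: what a micro configuration `y` has at depth `d` (a symbol of each stack; at depth `0`
also the control state).  The next content at depth `d` is a function of the contents at the
depths `0`, `d - 1`, `d`, `d + 1`.  Row `t` of the grid describes time `t + 1`; the depth `d` at
time `τ` sits in column `d + τ`.
-/

namespace Pool.PmX

open Turing Turing.TM2 Pool.NPC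

section cells

variable {K : Type} {Γ : K → Type} {Λ σ : Type} [DecidableEq K]

/-- contents of a depth -/
abbrev Cel (Γ : K → Type) (Λ σ : Type) : Type := (∀ k, Option (Γ k)) × Option (Ctrl Γ Λ σ)

/-- the contents of the depth `d` -/
def cel (y : MCfg Γ Λ σ) (d : ℕ) : Cel Γ Λ σ :=
  (fun k => (y.2 k)[d]?, if d = 0 then some y.1 else none)

/-- the new contents of a depth: `a` = depth `0`, `p` = the depth above (`none` at depth `0`),
`z` = this depth, `zn` = the depth below -/
def upd (M : Λ → Stmt Γ Λ σ) (a : Cel Γ Λ σ) (p : Option (Cel Γ Λ σ)) (z zn : Cel Γ Λ σ) :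
    Cel Γ Λ σ :=
  match a.2 with
  | none => z
  | some c =>
    match eff M c with
    | .stay c' => (z.1, if p.isNone then some c' else none)
    | .push k g c' => (Function.update z.1 k (match p with
        | none => some g
        | some y => y.1 k), if p.isNone then some c' else none)
    | .read k d f => ((if d then Function.update z.1 k (zn.1 k) else z.1),
        if p.isNone then some (f (a.1 k)) else none)

/-- r1. Cases on `eff M y.1`; `List.getElem?_cons`, `List.getElem?_tail`, `List.head?_eq_getElem?`. -/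
theorem cel_mstep (M : Λ → Stmt Γ Λ σ) (y : MCfg Γ Λ σ) (d : ℕ) :
    cel (mstep M y) d =
      upd M (cel y 0) (if d = 0 then none else some (cel y (d - 1))) (cel y d) (cel y (d + 1)) := by
  obtain ⟨c, S⟩ := y
  have hc : (cel ((c, S) : MCfg Γ Λ σ) 0).2 = some c := by simp [cel]
  unfold mstep upd
  rw [hc]
  cases he : eff M c with
  | stay c' =>
    by_cases hd : d = 0
    · subst hd
      simp [applyEff, cel, he]
    · simp [applyEff, cel, he, hd]
  | push k g c' =>
    by_cases hd : d = 0
    · subst hd
      simp only [applyEff, cel, he, if_true, Option.isNone_none]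
      refine Prod.ext ?_ rfl
      funext k'
      by_cases h : k' = k
      · subst h
        simp
      · simp [Function.update_of_ne h]
    · obtain ⟨d', rfl⟩ : ∃ d', d = d' + 1 := ⟨d - 1, by omega⟩
      simp only [applyEff, cel, he, if_neg hd, Option.isNone_some, Nat.add_sub_cancel]
      refine Prod.ext ?_ (by simp)
      funext k'
      by_cases h : k' = k
      · subst h
        simp
      · simp [Function.update_of_ne h]
  | read k dd f =>
    have hh : (S k).head? = (S k)[0]? := List.head?_eq_getElem?
    refine Prod.ext ?_ ?_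
    · cases dd with
      | false => simp [applyEff, cel, he]
      | true =>
        simp only [applyEff, cel, he, if_true]
        funext k'
        by_cases h : k' = k
        · subst h
          simp
        · simp [Function.update_of_ne h]
    · by_cases hd : d = 0
      · subst hd
        simp [applyEff, cel, he, hh]
      · simp [applyEff, cel, he, hd]

end cells

section grid

variable {Z : Type}

/-- memory of a grid cell: head, old contents one column to the left, old contents, new contents -/
abbrev Mem (Z : Type) : Type := Option Z × Option Z × Option Z × Option Z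

/-- grid symbols; `none` = accepted -/
abbrev Sy (Z : Type) : Type := Option (Mem Z)

/-- the symbol at the left boundary -/
def bot : Sy Z := some (none, none, none, none)

/-- the symbols above the first row -/
def ini (z : Z) : Sy Z := some (none, none, none, some z)

open Classical in
/-- the local rule: left symbol, upper symbol -/
noncomputable def dl (G : Z → Option Z → Z → Z → Z) (acc : Z → Prop) (l u : Sy Z) : Sy Z :=
  match l, u with
  | some (lh, lm2, lm1, _), some (_, _, _, uz) =>
    let h := if lh.isSome then lh else uz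
    if ∃ a, h = some a ∧ acc a then none
    else some (h, lm1, uz,
      match lh, lm1, uz with
      | some a, some z, some zn => some (G a lm2 z zn)
      | _, _, _ => none)
  | _, _ => none

open Classical in
/-- the grid of the rows `R t` (`R t d` = contents of the depth `d` at time `t`) -/
noncomputable def csym (acc : Z → Prop) (R : ℕ → ℕ → Z) (t p : ℕ) : Sy Z :=
  if ∃ t' ≤ t, t' ≤ p ∧ acc (R t' 0) then none
  else some (if t ≤ p then some (R t 0) else none,
    if t + 1 ≤ p then some (R t (p - (t + 1))) else none,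
    if t ≤ p then some (R t (p - t)) else none,
    if t + 1 ≤ p then some (R (t + 1) (p - (t + 1))) else none)

private theorem r2_left (acc : Z → Prop) (R : ℕ → ℕ → Z) (t p : ℕ) :
    ((p ≠ 0 ∧ ∃ t' ≤ t, t' ≤ p - 1 ∧ acc (R t' 0)) ∧
      (if p = 0 then bot else csym acc R t (p - 1)) = none) ∨
    ((¬ (p ≠ 0 ∧ ∃ t' ≤ t, t' ≤ p - 1 ∧ acc (R t' 0))) ∧ ∃ X : Option Z,
      (if p = 0 then bot else csym acc R t (p - 1)) =
        some (if t + 1 ≤ p then some (R t 0) else none,
          if t + 2 ≤ p then some (R t (p - (t + 2))) else none,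
          if t + 1 ≤ p then some (R t (p - (t + 1))) else none, X)) := by
  classical
  by_cases hp : p = 0
  · subst hp
    right
    refine ⟨fun h => h.1 rfl, none, ?_⟩
    simp [bot]
  · obtain ⟨q, rfl⟩ : ∃ q, p = q + 1 := ⟨p - 1, by omega⟩
    by_cases hH : ∃ t' ≤ t, t' ≤ q ∧ acc (R t' 0)
    · left
      refine ⟨⟨hp, by simpa using hH⟩, ?_⟩
      rw [if_neg hp, Nat.add_sub_cancel, csym, if_pos hH]
    · right
      refine ⟨fun h => hH (by simpa using h.2),
        if t + 1 ≤ q then some (R (t + 1) (q - (t + 1))) else none, ?_⟩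
      rw [if_neg hp, Nat.add_sub_cancel, csym, if_neg hH]
      have e1 : (t ≤ q) = (t + 1 ≤ q + 1) := by rw [Nat.add_le_add_iff_right]
      have e2 : (t + 1 ≤ q) = (t + 2 ≤ q + 1) := by
        rw [show t + 2 = t + 1 + 1 from rfl, Nat.add_le_add_iff_right]
      have e3 : q - (t + 1) = q + 1 - (t + 2) := by omega
      have e4 : q - t = q + 1 - (t + 1) := by omega
      rw [← e3, ← e4]
      simp only [e1, e2]

private theorem r2_up (acc : Z → Prop) (R : ℕ → ℕ → Z) (t p : ℕ) :
    ((t ≠ 0 ∧ ∃ t' ≤ t - 1, t' ≤ p ∧ acc (R t' 0)) ∧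
      (if t = 0 then ini (R 0 p) else csym acc R (t - 1) p) = none) ∨
    ((¬ (t ≠ 0 ∧ ∃ t' ≤ t - 1, t' ≤ p ∧ acc (R t' 0))) ∧ ∃ X Y W : Option Z,
      (if t = 0 then ini (R 0 p) else csym acc R (t - 1) p) =
        some (X, Y, W, if t ≤ p then some (R t (p - t)) else none)) := by
  classical
  by_cases ht : t = 0
  · subst ht
    right
    exact ⟨fun h => h.1 rfl, none, none, none, by simp [ini]⟩
  · obtain ⟨s, rfl⟩ : ∃ s, t = s + 1 := ⟨t - 1, by omega⟩
    by_cases hH : ∃ t' ≤ s, t' ≤ p ∧ acc (R t' 0)
    · left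
      refine ⟨⟨ht, by simpa using hH⟩, ?_⟩
      rw [if_neg ht, Nat.add_sub_cancel, csym, if_pos hH]
    · right
      refine ⟨fun h => hH (by simpa using h.2), if s ≤ p then some (R s 0) else none,
        if s + 1 ≤ p then some (R s (p - (s + 1))) else none,
        if s ≤ p then some (R s (p - s)) else none, ?_⟩
      rw [if_neg ht, Nat.add_sub_cancel, csym, if_neg hH]

/-- r2. The grid obeys the local rule.  Acceptance: `{t' ≤ t, t' ≤ p}` is the union of
`{t' ≤ t, t' ≤ p - 1}`, `{t' ≤ t - 1, t' ≤ p}` and `{t}` if `t ≤ p`.  Otherwise componentwise: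
`lh = some (R t 0)` iff `t ≤ p - 1`; `uz = some (R t (p - t))` iff `t ≤ p`. -/
theorem csym_rec (G : Z → Option Z → Z → Z → Z) (acc : Z → Prop) (R : ℕ → ℕ → Z)
    (hR : ∀ t d, R (t + 1) d =
      G (R t 0) (if d = 0 then none else some (R t (d - 1))) (R t d) (R t (d + 1)))
    (t p : ℕ) :
    csym acc R t p = dl G acc (if p = 0 then bot else csym acc R t (p - 1))
      (if t = 0 then ini (R 0 p) else csym acc R (t - 1) p) := by
  classical
  have hH : (∃ t' ≤ t, t' ≤ p ∧ acc (R t' 0)) ↔
      ((p ≠ 0 ∧ ∃ t' ≤ t, t' ≤ p - 1 ∧ acc (R t' 0)) ∨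
        (t ≠ 0 ∧ ∃ t' ≤ t - 1, t' ≤ p ∧ acc (R t' 0)) ∨ (t ≤ p ∧ acc (R t 0))) := by
    constructor
    · rintro ⟨t', h1, h2, h3⟩
      by_cases h4 : t' = t
      · subst h4
        exact Or.inr (Or.inr ⟨h2, h3⟩)
      · exact Or.inr (Or.inl ⟨by omega, t', by omega, h2, h3⟩)
    · rintro (⟨h0, t', h1, h2, h3⟩ | ⟨h0, t', h1, h2, h3⟩ | ⟨h1, h2⟩)
      · exact ⟨t', h1, by omega, h3⟩
      · exact ⟨t', by omega, h2, h3⟩
      · exact ⟨t, le_rfl, h1, h2⟩
  rcases r2_left acc R t p with ⟨hL, eL⟩ | ⟨hL, X, eL⟩
  · rw [eL, csym, if_pos (hH.2 (Or.inl hL))]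
    simp [dl]
  · rcases r2_up acc R t p with ⟨hU, eU⟩ | ⟨hU, X', Y', W', eU⟩
    · rw [eU, csym, if_pos (hH.2 (Or.inr (Or.inl hU)))]
      cases (if p = 0 then bot else csym acc R t (p - 1)) <;> simp [dl]
    · rw [eL, eU]
      have hh : (if ((if t + 1 ≤ p then some (R t 0) else none : Option Z)).isSome then
          (if t + 1 ≤ p then some (R t 0) else none : Option Z) else
            (if t ≤ p then some (R t (p - t)) else none)) =
          if t ≤ p then some (R t 0) else none := by
        by_cases h1 : t + 1 ≤ p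
        · have h2 : t ≤ p := by omega
          simp [h1, h2]
        · by_cases h2 : t ≤ p
          · have h3 : p - t = 0 := by omega
            simp [h1, h2, h3]
          · simp [h1, h2]
      unfold dl
      simp only [hh]
      by_cases hA : t ≤ p ∧ acc (R t 0)
      · rw [csym, if_pos (hH.2 (Or.inr (Or.inr hA)))]
        rw [if_pos ⟨R t 0, by rw [if_pos hA.1], hA.2⟩]
      · have hn : ¬ ∃ t' ≤ t, t' ≤ p ∧ acc (R t' 0) := by
          rw [hH]
          rintro (h | h | h)
          · exact hL h
          · exact hU h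
          · exact hA h
        rw [csym, if_neg hn]
        have hneg : ¬ ∃ a, (if t ≤ p then some (R t 0) else none) = some a ∧ acc a := by
          rintro ⟨a, h1, h2⟩
          by_cases h3 : t ≤ p
          · rw [if_pos h3] at h1
            exact hA ⟨h3, by rw [Option.some.inj h1]; exact h2⟩
          · rw [if_neg h3] at h1
            cases h1
        rw [if_neg hneg]
        by_cases h1 : t + 1 ≤ p
        · have h2 : t ≤ p := by omega
          simp only [if_pos h1, if_pos h2]
          rw [hR]
          have e1 : p - (t + 1) + 1 = p - t := by omega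
          rw [e1]
          have e2 : (if p - (t + 1) = 0 then none else some (R t (p - (t + 1) - 1))) =
              (if t + 2 ≤ p then some (R t (p - (t + 2))) else none : Option Z) := by
            by_cases h3 : t + 2 ≤ p
            · rw [if_pos h3, if_neg (by omega)]
              congr 2
            · rw [if_neg h3, if_pos (by omega)]
          rw [e2]
        · simp only [if_neg h1]

/-- r3. By definition. -/
theorem csym_none (acc : Z → Prop) (R : ℕ → ℕ → Z) (t p : ℕ) :
    csym acc R t p = none ↔ ∃ t' ≤ t, t' ≤ p ∧ acc (R t' 0) := by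

  unfold csym
  constructor
  · intro h
    by_contra hcon
    rw [if_neg hcon] at h
    exact absurd h (by simp)
  · intro h
    rw [if_pos h]

/-- symbols with all components in `A` -/
def SyIn (A : Set Z) : Set (Sy Z) :=
  {s | ∀ m, s = some m → (∀ z, m.1 = some z → z ∈ A) ∧ (∀ z, m.2.1 = some z → z ∈ A) ∧
    (∀ z, m.2.2.1 = some z → z ∈ A) ∧ (∀ z, m.2.2.2 = some z → z ∈ A)}

/-- r3. -/
theorem finite_SyIn {A : Set Z} (hA : A.Finite) : (SyIn A).Finite := by

  have hO : ({o : Option Z | ∀ z, o = some z → z ∈ A}).Finite := by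
    refine ((hA.image some).insert none).subset ?_
    intro o ho
    cases o with
    | none => exact Set.mem_insert _ _
    | some z => exact Set.mem_insert_of_mem _ ⟨z, ho z rfl, rfl⟩
  refine (((hO.prod (hO.prod (hO.prod hO))).image some).insert none).subset ?_
  intro s hs
  cases s with
  | none => exact Set.mem_insert _ _
  | some m =>
    obtain ⟨h1, h2, h3, h4⟩ := hs m rfl
    exact Set.mem_insert_of_mem _ ⟨m, ⟨h1, h2, h3, h4⟩, rfl⟩

/-- r3. -/
theorem csym_mem {A : Set Z} (acc : Z → Prop) (R : ℕ → ℕ → Z) (hR : ∀ t d, R t d ∈ A) (t p : ℕ) :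
    csym acc R t p ∈ SyIn A := by

  intro m hm
  unfold csym at hm
  split_ifs at hm with h0
  all_goals
    have hm2 := Option.some.inj hm
    subst hm2
    refine ⟨fun z hz => ?_, fun z hz => ?_, fun z hz => ?_, fun z hz => ?_⟩ <;>
      first
        | (cases hz; done)
        | (have hz2 := Option.some.inj hz
           rw [← hz2]
           exact hR _ _)

/-- r3. -/
theorem ini_mem {A : Set Z} {z : Z} (hz : z ∈ A) : ini z ∈ SyIn A := by

  intro m hm
  have hm2 := Option.some.inj hm
  subst hm2
  refine ⟨fun z' hz' => ?_, fun z' hz' => ?_, fun z' hz' => ?_, fun z' hz' => ?_⟩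
  · cases hz'
  · cases hz'
  · cases hz'
  · have hz2 := Option.some.inj hz'
    rw [← hz2]
    exact hz

/-- r3. -/
theorem bot_mem (A : Set Z) : (bot : Sy Z) ∈ SyIn A := by

  intro m hm
  have hm2 := Option.some.inj hm
  subst hm2
  refine ⟨fun z' hz' => ?_, fun z' hz' => ?_, fun z' hz' => ?_, fun z' hz' => ?_⟩ <;> cases hz'

/-- r4. Coding of finitely many symbols by `Fin q`: an injection `e` on the finite set `Q`, and a
table `δ` (defined from the left inverse of `e` on `Q`). -/
theorem exists_table {X : Type} (Q : Set X) (hQ : Q.Finite) (hne : Q.Nonempty) (f : X → X → X) :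
    ∃ (q : ℕ) (_ : 0 < q) (e : X → Fin q) (δ : Fin q → Fin q → Fin q), Set.InjOn e Q ∧
      ∀ l ∈ Q, ∀ u ∈ Q, f l u ∈ Q → δ (e l) (e u) = e (f l u) := by

  classical
  have : Finite Q := hQ
  have : Nonempty Q := hne.to_subtype
  have hpos : 0 < Nat.card Q := Nat.card_pos
  let E : Q ≃ Fin (Nat.card Q) := Finite.equivFin Q
  let e : X → Fin (Nat.card Q) := fun x => if h : x ∈ Q then E ⟨x, h⟩ else ⟨0, hpos⟩
  have he : ∀ x (h : x ∈ Q), e x = E ⟨x, h⟩ := fun x h => dif_pos h
  refine ⟨Nat.card Q, hpos, e, fun a b => e (f (E.symm a) (E.symm b)), ?_, ?_⟩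
  · intro x hx y hy hxy
    rw [he x hx, he y hy] at hxy
    exact congrArg Subtype.val (E.injective hxy)
  · intro l hl u hu _
    simp only [he l hl, he u hu, Equiv.symm_apply_apply]

end grid

section machine

/-- the decision version of a `FinTM2` machine as a micro machine: `A` is decided in time `T`, in the
form used below: a finite set `Q` of contents, independent of the input `x`, a predicate `acc` and
for every input `x` rows `R x`. -/
structure RowSys (A : Set (List Bool)) (T : List Bool → ℕ) where
  /-- contents of cells -/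
  Z : Type
  /-- the occurring contents -/
  Q : Set Z
  /-- finitely many contents occur -/
  fin : Q.Finite
  /-- update rule -/
  G : Z → Option Z → Z → Z → Z
  /-- accepting heads -/
  acc : Z → Prop
  /-- contents of the depth `0` initially, given the first input bit -/
  z0 : Option Bool → Z
  /-- contents of the depths `≥ 1` initially, given the input bit -/
  z1 : Option Bool → Z
  /-- the rows -/
  R : List Bool → ℕ → ℕ → Z
  /-- initial row -/
  R_zero : ∀ x d, R x 0 d = if d = 0 then z0 x[0]? else z1 x[d]?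
  /-- next row -/
  R_succ : ∀ x t d, R x (t + 1) d =
    G (R x t 0) (if d = 0 then none else some (R x t (d - 1))) (R x t d) (R x t (d + 1))
  /-- only contents in `Q` -/
  R_mem : ∀ x t d, R x t d ∈ Q
  /-- acceptance -/
  accept : ∀ x N, T x ≤ N → (x ∈ A ↔ ∃ t ≤ N, acc (R x t 0))

private theorem r5_slen {K : Type} {Γ : K → Type} {Λ σ : Type} [Finite Λ]
    (M : Λ → Stmt Γ Λ σ) : ∃ s, ∀ l, slen (M l) ≤ s := by
  obtain ⟨s, hs⟩ := (Set.finite_range fun l => slen (M l)).bddAbove
  exact ⟨s, fun l => hs ⟨l, rfl⟩⟩

/-- r5. The micro run of the machine: `R x t d = cel ((mstep M)^[t] (c₀, stacks)) d`, with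
`c₀ = (some (m main), initialState)`, the input on the stack `k₀`; `G = upd M`;
`acc z` = (`z.2 = some (none, v)` for some `v` and `z.1 k₁ = some (the symbol for true)`);
`Q` = contents with symbols in `GG` and control state in `FF` (see `Pool.NPC.Finite`, `Closed.inv`).
A halted configuration is a fixed point of `mstep`; `mstep_halts` gives halting within
`T x = time * s` micro-steps, `s` a bound for `slen` (`exists_slen_bound` is in
`Pool.NPC.CookLevin`, the proof of `cookLevin` there is a model for all of this). -/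
theorem rowSys_of_time (A : Set (List Bool)) (V : List Bool → Bool)
    (cm : TM2ComputableInTime (Computability.encodingList Bool).encode
      Computability.encodingBoolBool.encode V)
    (hV : ∀ x, x ∈ A ↔ V x = true) :
    ∃ s, Nonempty (RowSys A (fun x => cm.time x.length * s)) := by
  set tm := cm.tm with htm
  have : Fintype tm.K := tm.kFin
  have : Fintype tm.Λ := tm.ΛFin
  have : Fintype tm.σ := tm.σFin
  let inp : Bool ⊕ Bool → tm.Γ tm.k₀ := fun b => cm.inputAlphabet.symm (b.elim id id)
  let out : tm.Γ tm.k₁ := cm.outputAlphabet.symm true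
  let c₀ : Ctrl tm.Γ tm.Λ tm.σ := (some (tm.m tm.main), tm.initialState)
  obtain ⟨s, hs⟩ := r5_slen tm.m
  have hc₀ : c₀ ∈ FF tm.m := by
    intro q hq
    simp only [c₀, Option.some.injEq] at hq
    subst hq
    exact ⟨_, stmts₁_self⟩
  have hinp : ∀ b, inp b ∈ GG tm.m tm.k₀ tm.k₁ inp out tm.k₀ := fun b => Or.inr (Or.inl ⟨b, rfl⟩)
  let st : List Bool → ∀ k, List (tm.Γ k) := fun x =>
    (initList tm (List.map cm.inputAlphabet.invFun x)).stk
  have hst0 : ∀ x, st x tm.k₀ = List.map cm.inputAlphabet.invFun x := fun x =>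
    initList_stk_self _ _
  have hst1 : ∀ x k, k ≠ tm.k₀ → st x k = [] := fun x k hk => initList_stk_ne _ _ _ hk
  let R : List Bool → ℕ → ℕ → Cel tm.Γ tm.Λ tm.σ := fun x t d =>
    cel ((mstep tm.m)^[t] (c₀, st x)) d
  -- the run
  have hrun : ∀ x N, cm.time x.length * s ≤ N →
      (mstep tm.m)^[N] (c₀, st x) = ((none, tm.initialState),
        (haltList tm (List.map cm.outputAlphabet.invFun
          (Computability.encodingBoolBool.encode (V x)))).stk) := by
    intro x N hN
    obtain ⟨⟨steps, hsteps⟩, hle⟩ := cm.outputsFun x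
    have h1 := mstep_halts tm.m s hs steps _ _ _ hsteps N (by
      refine (Nat.mul_le_mul_right _ hle).trans ?_
      exact hN)
    exact h1
  have hhead : ∀ x N, cm.time x.length * s ≤ N →
      (((mstep tm.m)^[N] (c₀, st x)).2 tm.k₁)[0]? = some (cm.outputAlphabet.symm (V x)) := by
    intro x N hN
    rw [hrun x N hN]
    show ((haltList tm (List.map cm.outputAlphabet.invFun
          (Computability.encodingBoolBool.encode (V x)))).stk tm.k₁)[0]? = _
    rw [haltList_stk_self]
    rfl
  have hclosed := closed_FF tm.m tm.k₀ tm.k₁ inp out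
  have hinv : ∀ x t, ((mstep tm.m)^[t] (c₀, st x)).1 ∈ FF tm.m ∧
      ∀ k, ∀ g ∈ ((mstep tm.m)^[t] (c₀, st x)).2 k, g ∈ GG tm.m tm.k₀ tm.k₁ inp out k := by
    intro x t
    induction t with
    | zero =>
      refine ⟨hc₀, fun k g hg => ?_⟩
      have hg2 : g ∈ st x k := hg
      by_cases hk : k = tm.k₀
      · subst hk
        rw [hst0] at hg2
        obtain ⟨b, _, hb⟩ := List.mem_map.mp hg2
        rw [← hb]
        exact hinp (Sum.inl b)
      · rw [hst1 x k hk] at hg2
        exact absurd hg2 (by simp)
    | succ t ih =>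
      rw [Function.iterate_succ_apply']
      exact hclosed.inv _ ih.1 ih.2
  refine ⟨s, ⟨{
    Z := Cel tm.Γ tm.Λ tm.σ
    Q := {z | (∀ k, ∀ g, z.1 k = some g → g ∈ GG tm.m tm.k₀ tm.k₁ inp out k) ∧
      ∀ c, z.2 = some c → c ∈ FF tm.m}
    fin := ?_
    G := upd tm.m
    acc := fun z => (∃ v, z.2 = some (none, v)) ∧ z.1 tm.k₁ = some out
    z0 := fun b => cel (c₀, st b.toList) 0
    z1 := fun b => ((cel (c₀, st b.toList) 0).1, none)
    R := R
    R_zero := ?_
    R_succ := ?_
    R_mem := ?_
    accept := ?_ }⟩⟩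
  · -- finiteness
    have h1 : ∀ k, ({o : Option (tm.Γ k) |
        ∀ g, o = some g → g ∈ GG tm.m tm.k₀ tm.k₁ inp out k}).Finite := by
      intro k
      have h2 : (GG tm.m tm.k₀ tm.k₁ inp out k).Finite := by
        have h3 := (finite_GS tm.m tm.k₀ tm.k₁ inp out).preimage
          (f := fun g : tm.Γ k => (⟨k, g⟩ : Σ k, tm.Γ k)) sigma_mk_injective.injOn
        exact h3
      refine ((h2.image some).insert none).subset ?_
      intro o ho
      cases o with
      | none => exact Set.mem_insert _ _
      | some g => exact Set.mem_insert_of_mem _ ⟨g, ho g rfl, rfl⟩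
    have h4 := Set.Finite.pi (t := fun k => {o : Option (tm.Γ k) |
        ∀ g, o = some g → g ∈ GG tm.m tm.k₀ tm.k₁ inp out k}) h1
    have h5 : (insert none (some '' FF tm.m) : Set (Option (Ctrl tm.Γ tm.Λ tm.σ))).Finite :=
      ((finite_FF tm.m).image _).insert _
    refine (h4.prod h5).subset ?_
    rintro ⟨z1, z2⟩ ⟨hz1, hz2⟩
    refine ⟨fun k _ => hz1 k, ?_⟩
    cases z2 with
    | none => exact Set.mem_insert _ _
    | some c => exact Set.mem_insert_of_mem _ ⟨c, hz2 c rfl, rfl⟩
  · -- initial row
    intro x d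
    have h6 : (fun k => (st x k)[d]?) = fun k => (st (x[d]?).toList k)[0]? := by
      funext k
      by_cases hk : k = tm.k₀
      · subst hk
        rw [hst0, hst0, List.getElem?_map]
        cases x[d]? <;> rfl
      · rw [hst1 x k hk, hst1 _ k hk]
        simp
    show ((fun k => (st x k)[d]?, if d = 0 then some c₀ else none) : Cel tm.Γ tm.Λ tm.σ) = _
    by_cases hd : d = 0
    · subst hd
      rw [if_pos rfl, if_pos rfl]
      exact Prod.ext h6 rfl
    · rw [if_neg hd, if_neg hd]
      exact Prod.ext h6 rfl
  · -- next row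
    intro x t d
    show cel ((mstep tm.m)^[t + 1] (c₀, st x)) d = _
    rw [Function.iterate_succ_apply']
    exact cel_mstep tm.m _ d
  · -- contents
    intro x t d
    obtain ⟨h7, h8⟩ := hinv x t
    refine ⟨fun k g hg => ?_, fun c hc => ?_⟩
    · exact h8 k g (List.mem_of_getElem? hg)
    · have hc2 : (if d = 0 then some ((mstep tm.m)^[t] (c₀, st x)).1 else none) = some c := hc
      split_ifs at hc2
      · rw [← Option.some.inj hc2]
        exact h7
  · -- acceptance
    intro x N hN
    rw [hV]
    constructor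
    · intro h
      refine ⟨N, le_rfl, ⟨tm.initialState, ?_⟩, ?_⟩
      · show (if (0 : ℕ) = 0 then some ((mstep tm.m)^[N] (c₀, st x)).1 else none) = _
        rw [if_pos rfl, hrun x N hN]
      · show (((mstep tm.m)^[N] (c₀, st x)).2 tm.k₁)[0]? = some out
        rw [hhead x N hN, h]
    · rintro ⟨t, ht, ⟨v, hv⟩, h9⟩
      have hv2 : (if (0 : ℕ) = 0 then some ((mstep tm.m)^[t] (c₀, st x)).1 else none) =
        some (none, v) := hv
      rw [if_pos rfl] at hv2
      have hv3 := Option.some.inj hv2
      have h10 : (((mstep tm.m)^[t] (c₀, st x)).2 tm.k₁)[0]? = some out := h9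
      obtain ⟨d, rfl⟩ : ∃ d, N = d + t := ⟨N - t, by omega⟩
      have h11 : (mstep tm.m)^[d + t] (c₀, st x) = (mstep tm.m)^[t] (c₀, st x) := by
        rw [Function.iterate_add_apply]
        have h12 : (mstep tm.m)^[t] (c₀, st x) =
            ((none, v), ((mstep tm.m)^[t] (c₀, st x)).2) := Prod.ext hv3 rfl
        rw [h12]
        exact mstep_iterate_none tm.m v _ d
      have h13 := hhead x (d + t) hN
      rw [h11, h10] at h13
      have h14 := Option.some.inj h13
      exact (cm.outputAlphabet.symm.injective h14).symm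

/-- r5. `rowSys_of_time`, `RowSys.accept` for larger bounds. -/
theorem exists_rowSys (A : Set (List Bool)) (hA : InEXP A) :
    ∃ (p : Polynomial ℕ) (s : ℕ), Nonempty (RowSys A (fun x => 2 ^ p.eval x.length * s)) := by
  obtain ⟨V, p, cm, hp, hV⟩ := hA
  obtain ⟨s, ⟨W⟩⟩ := rowSys_of_time A V cm hV
  exact ⟨p, s, ⟨{ W with
    accept := fun x N hN => W.accept x N
      ((Nat.mul_le_mul_right _ (hp _)).trans hN) }⟩⟩

end machine

end Pool.PmX
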