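import Pool.Agent.PmX.Red
import Pool.Agent.PmX.Row
import Pool.Agent.NPC.CookLevin
import Pool.Agent.NPC.Pair

/-!
# EXT and CON are EXP-hard
-/

namespace Pool.PmX

open Turing Computability Pool.NPC Pool.Agent.PRT

/-- hardness for EXP under polynomial time many-one reductions -/
def EXPHard (B : Set (List Bool)) : Prop := ∀ A, InEXP A → PolyReducible A B

/-- f1. The same machine with the equivalence of the output alphabet followed by negation. -/
theorem InEXP.compl {A : Set (List Bool)} (hA : InEXP A) : InEXP Aᶜ := by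
  obtain ⟨V, p, M, ht, hV⟩ := hA
  refine ⟨fun x => !V x, p,
    { tm := M.tm
      inputAlphabet := M.inputAlphabet
      outputAlphabet := M.outputAlphabet.trans Equiv.boolNot
      time := M.time
      outputsFun := fun x => ?_ }, ht, fun x => ?_⟩
  · have h := M.outputsFun x
    have e : (List.map (M.outputAlphabet.trans Equiv.boolNot).invFun (encodingBoolBool.encode (!V x))) =
        List.map M.outputAlphabet.invFun (encodingBoolBool.encode (V x)) := by
      show [M.outputAlphabet.symm (Equiv.boolNot.symm (!V x))] = [M.outputAlphabet.symm (V x)]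
      cases V x <;> rfl
    rw [e]
    exact h
  · show ¬ (x ∈ A) ↔ (!V x) = true
    rw [hV]
    simp

/-- the parameters of the grid for a row system -/
noncomputable def gp {A : Set (List Bool)} {T : List Bool → ℕ} (W : RowSys A T)
    (P : Polynomial ℕ) (s q : ℕ) (e : Sy W.Z → Fin q) (δ : Fin q → Fin q → Fin q) :
    GP (List Bool) q where
  δ := δ
  bt := e bot
  ac := e none
  n x := (lg (x.length + 1)).1 + P.eval x.length + s + 2
  a x := (lg (x.length + 1)).1
  D x := (lg (x.length + 1)).2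
  Bd x := 6 * ((lg (x.length + 1)).1 + P.eval x.length + s + 2) + (lg (x.length + 1)).2 + q * q + q + 3
  ini x p := e (Pool.PmX.ini (if p = 0 then W.z0 x[0]? else W.z1 x[p]?))

section

variable {A : Set (List Bool)} {P : Polynomial ℕ} {s : ℕ}
  (W : RowSys A (fun x => 2 ^ P.eval x.length * s)) {q : ℕ} (e : Sy W.Z → Fin q)
  (δ : Fin q → Fin q → Fin q)

/-- f2. `PT.lg`, `PT.length`, `PT.polyEval`; `ini` has six possible values, selected by `p = 0`,
`p < x.length` and the bit `x.getD p false`. -/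
theorem gp_ok : (gp W P s q e δ).Ok := by
  have hl : PT (fun x : List Bool => lg (x.length + 1)) := PT.lg (PT.succ (PT.length PT.id))
  have hn : PT (fun x : List Bool => (lg (x.length + 1)).1 + P.eval x.length + s + 2) :=
    PT.add (PT.add (PT.add (PT.fst' hl) (PT.polyEval P (PT.length PT.id))) (PT.const s)) (PT.const 2)
  refine ⟨hn, PT.fst' hl, PT.snd' hl, ?_, ?_⟩
  · exact PT.add (PT.add (PT.add (PT.add (PT.mul (PT.const 6) hn) (PT.snd' hl)) (PT.const (q * q)))
      (PT.const q)) (PT.const 3)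
  · have hx : PT (fun x : List Bool × ℕ => x.1) := PT.fst
    have hp : PT (fun x : List Bool × ℕ => x.2) := PT.snd
    have hget : ∀ {i : List Bool × ℕ → ℕ}, PT i → ∀ f : Option Bool → ℕ,
        PT (fun x : List Bool × ℕ => f x.1[i x]?) := by
      intro i hi f
      refine (PT.ite (PT.lt hi (PT.length hx)) (PT.cond (PT.getD hx hi) (PT.const (f (some true)))
        (PT.const (f (some false)))) (PT.const (f none))).congr fun x => ?_
      by_cases h : i x < x.1.length
      · rw [if_pos h, List.getD_eq_getElem?_getD, List.getElem?_eq_getElem h, Option.getD_some]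
        cases x.1[i x] <;> rfl
      · rw [if_neg h, List.getElem?_eq_none (not_lt.1 h)]
    refine (PT.ite (PT.eq hp (PT.const 0))
      (hget (PT.const 0) (fun o => (e (Pool.PmX.ini (W.z0 o))).val))
      (hget hp (fun o => (e (Pool.PmX.ini (W.z1 o))).val))).congr fun x => ?_
    show (e (Pool.PmX.ini (if x.2 = 0 then W.z0 x.1[0]? else W.z1 x.1[x.2]?))).val = _
    split_ifs <;> rfl

/-- f2. `N = 2 n`, `nP = 4 n + 1 + D + (n - a) + 1`. -/
theorem gp_bd (x : List Bool) : BdOk ((gp W P s q e δ).S x) ((gp W P s q e δ).Bd x) := by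
  refine ⟨?_, ?_, ?_⟩
  · show 2 * ((lg (x.length + 1)).1 + P.eval x.length + s + 2) <
      6 * ((lg (x.length + 1)).1 + P.eval x.length + s + 2) + (lg (x.length + 1)).2 + q * q + q + 3
    omega
  · show 2 * (2 * ((lg (x.length + 1)).1 + P.eval x.length + s + 2)) +
      (1 + (lg (x.length + 1)).2 + (((lg (x.length + 1)).1 + P.eval x.length + s + 2) -
        (lg (x.length + 1)).1) + 1) <
      6 * ((lg (x.length + 1)).1 + P.eval x.length + s + 2) + (lg (x.length + 1)).2 + q * q + q + 3
    omega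
  · show q * q + q < 6 * ((lg (x.length + 1)).1 + P.eval x.length + s + 2) +
      (lg (x.length + 1)).2 + q * q + q + 3
    omega

/-- f2. `2 ^ (p + s + 2) ≥ 4 * 2 ^ p * s`. -/
theorem gp_time (x : List Bool) :
    2 ^ P.eval x.length * s ≤ 2 ^ ((gp W P s q e δ).n x) - 2 := by
  show 2 ^ P.eval x.length * s ≤ 2 ^ ((lg (x.length + 1)).1 + P.eval x.length + s + 2) - 2
  have h1 : s < 2 ^ s := Nat.lt_two_pow_self
  have h2 : 1 ≤ 2 ^ P.eval x.length := Nat.one_le_two_pow
  have h3 : 1 ≤ 2 ^ (lg (x.length + 1)).1 := Nat.one_le_two_pow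
  have h4 : 2 ^ ((lg (x.length + 1)).1 + P.eval x.length + s + 2) =
      2 ^ (lg (x.length + 1)).1 * (2 ^ P.eval x.length * 2 ^ s * 4) := by
    rw [pow_add, pow_add, pow_add]
    ring
  have h5 : 1 * (2 ^ P.eval x.length * 2 ^ s * 4) ≤
      2 ^ (lg (x.length + 1)).1 * (2 ^ P.eval x.length * 2 ^ s * 4) := Nat.mul_le_mul_right _ h3
  have h6 : 2 ^ P.eval x.length * (s + 1) ≤ 2 ^ P.eval x.length * 2 ^ s := Nat.mul_le_mul_left _ h1
  rw [h4]
  have h7 : 2 ^ P.eval x.length * (s + 1) = 2 ^ P.eval x.length * s + 2 ^ P.eval x.length := by ring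
  omega

variable (he : Set.InjOn e (SyIn W.Q))
  (hδ : ∀ l ∈ SyIn W.Q, ∀ u ∈ SyIn W.Q, dl W.G W.acc l u ∈ SyIn W.Q →
    δ (e l) (e u) = e (dl W.G W.acc l u))
include he hδ

/-- f3. With `g t p = e (csym acc (R x) t p)`: `csym_rec`, `hδ`, `csym_mem`, `ini_mem`, `bot_mem`
(`RowSys.R_zero`, `R_succ`, `R_mem`). -/
theorem gp_rec (x : List Bool) (t p : ℕ) :
    e (csym W.acc (W.R x) t p) =
      δ (if p = 0 then e bot else e (csym W.acc (W.R x) t (p - 1)))
        (if t = 0 then (gp W P s q e δ).ini x p else e (csym W.acc (W.R x) (t - 1) p)) := by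
  have h := csym_rec W.G W.acc (W.R x) (W.R_succ x) t p
  have h1 : (if p = 0 then e bot else e (csym W.acc (W.R x) t (p - 1))) =
      e (if p = 0 then bot else csym W.acc (W.R x) t (p - 1)) := by
    split_ifs <;> rfl
  have h2 : (if t = 0 then (gp W P s q e δ).ini x p else e (csym W.acc (W.R x) (t - 1) p)) =
      e (if t = 0 then Pool.PmX.ini (W.R x 0 p) else csym W.acc (W.R x) (t - 1) p) := by
    by_cases h0 : t = 0
    · rw [if_pos h0, if_pos h0, W.R_zero]
      rfl
    · rw [if_neg h0, if_neg h0]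
  rw [h1, h2, hδ _ _ _ _ _, ← h]
  · split_ifs
    · exact bot_mem _
    · exact csym_mem W.acc (W.R x) (W.R_mem x) _ _
  · split_ifs
    · exact ini_mem (W.R_mem x _ _)
    · exact csym_mem W.acc (W.R x) (W.R_mem x) _ _
  · rw [← h]
    exact csym_mem W.acc (W.R x) (W.R_mem x) _ _

omit he hδ in
/-- f3. `D = 2 ^ a ≥ x.length + 1` (`lg_spec`), so `p ≥ D` is positive and beyond the input. -/
theorem gp_ini (x : List Bool) (p : ℕ) (hp : (gp W P s q e δ).D x ≤ p) :
    (gp W P s q e δ).ini x p = (gp W P s q e δ).ini x ((gp W P s q e δ).D x) := by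
  have hD : (gp W P s q e δ).D x = 2 ^ (lg (x.length + 1)).1 := (lg_spec (x.length + 1)).2.1
  have hlen : x.length + 1 ≤ (gp W P s q e δ).D x := by
    rw [hD]
    exact (lg_spec (x.length + 1)).2.2
  have key : ∀ r, (gp W P s q e δ).D x ≤ r → (gp W P s q e δ).ini x r = e (Pool.PmX.ini (W.z1 none)) := by
    intro r hr
    show e (Pool.PmX.ini (if r = 0 then W.z0 x[0]? else W.z1 x[r]?)) = _
    rw [if_neg (by omega), List.getElem?_eq_none (by omega)]
  rw [key p hp, key _ le_rfl]

/-- f3. `grid_main` with `gp_rec`, `gp_ini`, `lg_spec`; the corner symbol is `e none` iff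
`csym .. (2^n - 1) (2^n - 2) = none` (`he`) iff some head up to time `2^n - 2` accepts
(`csym_none`) iff `x ∈ A` (`RowSys.accept`, `gp_time`). -/
theorem gp_main (x : List Bool) :
    (∃ f : Finset (El q) → ℝ, Polymatroid f ∧ AllJ ((gp W P s q e δ).S x) f) ↔ x ∈ A := by
  have h0 := lg_spec (x.length + 1)
  have hm := grid_main δ (e bot) (e none) ((gp W P s q e δ).ini x) ((gp W P s q e δ).n x)
    ((gp W P s q e δ).a x) ((gp W P s q e δ).D x) h0.2.1
    (by
      show (lg (x.length + 1)).1 ≤ (lg (x.length + 1)).1 + P.eval x.length + s + 2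
      omega)
    (by
      show 1 ≤ (lg (x.length + 1)).1 + P.eval x.length + s + 2
      omega)
    (fun t p => e (csym W.acc (W.R x) t p)) (gp_rec W e δ he hδ x) (gp_ini W e δ x)
  refine hm.trans ?_
  have h1 : e (csym W.acc (W.R x) (2 ^ (gp W P s q e δ).n x - 1) (2 ^ (gp W P s q e δ).n x - 2)) = e none ↔
      csym W.acc (W.R x) (2 ^ (gp W P s q e δ).n x - 1) (2 ^ (gp W P s q e δ).n x - 2) = none := by
    refine he.eq_iff (csym_mem W.acc (W.R x) (W.R_mem x) _ _) ?_
    intro m hm
    exact absurd hm (by simp)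
  refine h1.trans ((csym_none _ _ _ _).trans ?_)
  rw [W.accept x (2 ^ (gp W P s q e δ).n x - 2) (gp_time W e δ x)]
  constructor
  · rintro ⟨t, _, ht, ha⟩
    exact ⟨t, ht, ha⟩
  · rintro ⟨t, ht, ha⟩
    exact ⟨t, by omega, ht, ha⟩

/-- f3. `grid_cons`. -/
theorem gp_cons (x : List Bool) {A₁ B₁ C₁ A₂ B₂ C₂ : El q}
    (h : ((gp W P s q e δ).S x).Jn A₁ B₁ C₁) (h' : ((gp W P s q e δ).S x).Jn A₂ B₂ C₂)
    (p p' : Finset (El q) × ℕ) (hp : p ∈ ents ((gp W P s q e δ).S x).rk A₁ B₁ C₁)
    (hp' : p' ∈ ents ((gp W P s q e δ).S x).rk A₂ B₂ C₂) (heq : p.1 = p'.1) : p.2 = p'.2 := by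
  have h0 := lg_spec (x.length + 1)
  exact grid_cons δ (e bot) (e none) ((gp W P s q e δ).ini x) ((gp W P s q e δ).n x)
    ((gp W P s q e δ).a x) ((gp W P s q e δ).D x) h0.2.1
    (by
      show (lg (x.length + 1)).1 ≤ (lg (x.length + 1)).1 + P.eval x.length + s + 2
      omega)
    (by
      show 1 ≤ (lg (x.length + 1)).1 + P.eval x.length + s + 2
      omega)
    (fun t p => e (csym W.acc (W.R x) t p)) (gp_rec W e δ he hδ x) (gp_ini W e δ x) h h' p p' hp hp' heq

end

/-- f4. The reduction: `exists_rowSys`, `exists_table` for `SyIn W.Q` (`finite_SyIn`, `bot_mem`) and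
`dl W.G W.acc`; instance `((gp ..).S x).jd ((gp ..).Bd x)).inst`: `jd_adm` with `gp_cons`,
`valid_inst`, `card_ent`, `nonContextual_inst`, `jd_iff`, `gp_main`, `gp_bd`; polynomial time:
`PT_code`, `PTJ_grid`, `gp_ok`, `PT.polyTime`. -/
theorem reduction (A : Set (List Bool)) (hA : InEXP A) :
    ∃ I : List Bool → Inst, PT (fun x => (I x).code) ∧ ∀ x, (I x).Valid ∧
      (∀ p ∈ (I x).ent, p.1.card ≤ 3 ∧ ∃ k : ℕ, p.2 = (k : ℚ)) ∧ (x ∈ A ↔ (I x).NonContextual) := by
  obtain ⟨P, s, ⟨W⟩⟩ := exists_rowSys A hA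
  obtain ⟨q, hq, e, δ, he, hδ⟩ := exists_table (SyIn W.Q) (finite_SyIn W.fin) ⟨bot, bot_mem _⟩
    (dl W.G W.acc)
  have hB : ∀ x, BdOk ((gp W P s q e δ).S x) ((gp W P s q e δ).Bd x) := gp_bd W e δ
  have hA : ∀ x, (((gp W P s q e δ).S x).jd ((gp W P s q e δ).Bd x)).Adm := fun x =>
    jd_adm _ _ (hB x) (fun h h' p p' hp hp' heq => gp_cons W e δ he hδ x h h' p p' hp hp' heq)
  refine ⟨fun x => (((gp W P s q e δ).S x).jd ((gp W P s q e δ).Bd x)).inst,
    PT_code (PTJ_grid (gp_ok W e δ)), fun x => ⟨valid_inst (hA x), card_ent (hA x), ?_⟩⟩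
  exact ((nonContextual_inst (hA x)).trans ((jd_iff _ _ (hB x)).trans
    (gp_main W e δ he hδ x))).symm

/-- f5. NP is closed under polynomial time reductions (of the class `PT`): by `cookLevin` membership
in `B` is satisfiability of a 3-CNF given by `PT` functions; witness = assignment (a bit string of
length `nv (f x)`), the verifier checks all clauses (`PT.all`, `PT.verifier`). -/
theorem InNP.of_reduction {A B : Set (List Bool)} (hB : InNP B) (f : List Bool → List Bool)
    (hf : PT f) (h : ∀ x, x ∈ A ↔ f x ∈ B) : InNP A := by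
  obtain ⟨nv, nc, lit, hnv, hnc, hlit, hlt, hsat⟩ := cookLevin B hB
  obtain ⟨Q, hQ⟩ := (PT.comp hnv hf).size
  have hfx : ∀ {α : Type} [Enc α] {g : α → List Bool}, PT g → PT (fun a => f (g a)) :=
    fun hg => PT.comp hf hg
  refine ⟨fun y => (List.range (nc (f y.1))).all fun c => (List.range 3).any fun d =>
    litTrue (fun v => y.2.getD v false) (lit (f y.1, (c, d))), Q, PT.verifier ?_, fun x => ?_⟩
  · refine PT.all (p := fun z : (List Bool × List Bool) × ℕ => (List.range 3).any fun d =>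
      litTrue (fun v => z.1.2.getD v false) (lit (f z.1.1, (z.2, d)))) (PT.comp hnc (hfx PT.fst)) ?_
    refine PT.any (p := fun z : ((List Bool × List Bool) × ℕ) × ℕ =>
      litTrue (fun v => z.1.1.2.getD v false) (lit (f z.1.1.1, (z.1.2, z.2)))) (PT.const 3) ?_
    have hl : PT (fun z : ((List Bool × List Bool) × ℕ) × ℕ => lit (f z.1.1.1, (z.1.2, z.2))) :=
      PT.comp hlit (PT.pair (hfx (PT.fst' (PT.fst' PT.fst))) (PT.pair (PT.snd' PT.fst) PT.snd))
    have hg : PT (fun z : ((List Bool × List Bool) × ℕ) × ℕ =>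
        z.1.1.2.getD (lit (f z.1.1.1, (z.1.2, z.2)) / 2) false) :=
      PT.getD (PT.snd' (PT.fst' PT.fst)) (PT.div hl (PT.const 2))
    unfold litTrue
    exact PT.ite (PT.eq (PT.mod hl (PT.const 2)) (PT.const 0)) hg (PT.not hg)
  · rw [h x, hsat (f x)]
    constructor
    · rintro ⟨τ, hτ⟩
      refine ⟨(List.range (nv (f x))).map τ, ?_, ?_⟩
      · rw [List.length_map, List.length_range]
        have := hQ x
        simpa using this
      · simp only [List.all_eq_true, List.any_eq_true, List.mem_range]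
        intro c hc
        obtain ⟨d, hd, h1⟩ := hτ c hc
        refine ⟨d, hd, ?_⟩
        have h2 : lit (f x, (c, d)) / 2 < nv (f x) := by
          have := hlt (f x) c hc d
          omega
        have h3 : ((List.range (nv (f x))).map τ).getD (lit (f x, (c, d)) / 2) false =
            τ (lit (f x, (c, d)) / 2) := by
          rw [List.getD_eq_getElem?_getD, List.getElem?_map, List.getElem?_range h2]
          rfl
        unfold litTrue at h1 ⊢
        simp only [h3]
        exact h1
    · rintro ⟨w, _, hw⟩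
      simp only [List.all_eq_true, List.any_eq_true, List.mem_range] at hw
      exact ⟨fun v => w.getD v false, fun c hc => by
        obtain ⟨d, hd, h1⟩ := hw c hc
        exact ⟨d, hd, h1⟩⟩

end Pool.PmX
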