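import Pool.Agent.PmX.Ent

/-!
# The wire system of a `2^n × 2^n` grid

Cells `x ∈ {0,1}^(2n)`: column `col x` = bits `0, ..., n-1`, row `row x` = bits `n, ..., 2n-1`
(least significant first).  Wires `w < n`: from column `p` to column `p + 1`, when the lowest `w`
bits of `p` are `1` and the bit `w` is `0`; wires `n + k`: the same for rows.  Constants: number `0`:
left boundary; `1 + j`, `j < D = 2^a`: symbols above the first row in the columns `j < D`;
`1 + D + i`, `i < n - a`: the symbol above the first row if the bit `a + i` of the column is `1`;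
`1 + D + (n - a)`: the test at the corner.
-/

namespace Pool.PmX

variable {q : ℕ}

/-- the patterns of the constants -/
def cpat (n a D : ℕ) (c j : ℕ) : Option Bool :=
  if c = 0 then (if j < n then some false else none)
  else if c ≤ D then (if j < n then some ((c - 1).testBit j) else some false)
  else if c ≤ D + (n - a) then
    (if n ≤ j then some false else if j = a + (c - D - 1) then some true else none)
  else some true

/-- the patterns of the wires: `b = true` source, `b = false` target -/
def wpat (n : ℕ) (b : Bool) (w j : ℕ) : Option Bool :=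
  if decide (w < n) = decide (j < n) then
    (if j < w then some b else if j = w then some (!b) else none)
  else none

/-- the grid system -/
def gsys (δ : Fin q → Fin q → Fin q) (bt ac : Fin q) (ini : ℕ → Fin q) (n a D : ℕ) : Sys q where
  N := 2 * n
  nW := 2 * n
  nC := 1 + D + (n - a) + 1
  sW w := decide (w < n)
  sC c := decide (c = 0) || decide (D + (n - a) < c)
  vC c := if c = 0 then bt else if c ≤ D then ini (c - 1) else if c ≤ D + (n - a) then ini D else ac
  pat c j := if c < 2 * n then wpat n true c j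
    else if c < 4 * n then wpat n false (c - 2 * n) j
    else cpat n a D (c - 4 * n) j
  δ := δ

/-- number with the bits `x o, ..., x (o + n - 1)` -/
def num {N : ℕ} (x : Fin N → Bool) (o n : ℕ) : ℕ :=
  ∑ i ∈ Finset.range n, (if h : o + i < N then (x ⟨o + i, h⟩).toNat else 0) * 2 ^ i

/-! ### module h1: binary numbers -/

section h1

private theorem h1_succ {N : ℕ} (x : Fin N → Bool) (o n : ℕ) : num x o (n + 1) =
    2 ^ n * (if h : o + n < N then (x ⟨o + n, h⟩).toNat else 0) + num x o n := by
  unfold num
  rw [Finset.sum_range_succ]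
  ring

private theorem h1_lt {N : ℕ} (x : Fin N → Bool) (o n : ℕ) : num x o n < 2 ^ n := by
  induction n with
  | zero => simp [num]
  | succ n ih =>
    rw [h1_succ]
    have h1 : (if h : o + n < N then (x ⟨o + n, h⟩).toNat else 0) ≤ 1 := by
      split_ifs
      · exact Bool.toNat_le _
      · exact Nat.zero_le _
    have h2 := Nat.mul_le_mul_left (2 ^ n) h1
    rw [pow_succ]
    omega

/-- h1. Induction on `n` (or `Nat.testBit` of a sum of different powers of two). -/
theorem testBit_num {N : ℕ} (x : Fin N → Bool) (o n i : ℕ) (hi : i < n) (h : o + i < N) :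
    (num x o n).testBit i = x ⟨o + i, h⟩ := by

  induction n with
  | zero => omega
  | succ n ih =>
    rw [h1_succ, Nat.testBit_two_pow_mul_add _ (h1_lt x o n)]
    by_cases hin : i < n
    · rw [if_pos hin]
      exact ih hin
    · have he : i = n := by omega
      subst he
      rw [if_neg hin, dif_pos h, Nat.sub_self]
      cases x ⟨o + i, h⟩ <;> rfl

/-- h1. -/
theorem num_lt {N : ℕ} (x : Fin N → Bool) (o n : ℕ) : num x o n < 2 ^ n := by

  exact h1_lt x o n

/-- h1. Carry: the lowest `k` bits `1` and the bit `k` equal to `0`, against the lowest `k` bits `0`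
and the bit `k` equal to `1`, the higher bits equal. -/
theorem succ_of_bits (u v k : ℕ) (hu : ∀ i < k, u.testBit i = true) (hk : u.testBit k = false)
    (hv : ∀ i < k, v.testBit i = false) (hk' : v.testBit k = true)
    (he : ∀ i, k < i → u.testBit i = v.testBit i) : v = u + 1 := by

  induction k generalizing u v with
  | zero =>
    have h2 : u / 2 = v / 2 := by
      apply Nat.eq_of_testBit_eq
      intro i
      rw [← Nat.testBit_succ, ← Nat.testBit_succ]
      exact he (i + 1) (Nat.succ_pos i)
    have h3 : u % 2 = 0 := by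
      rw [Nat.testBit_zero] at hk
      have := Nat.mod_two_eq_zero_or_one u
      rcases this with h | h
      · exact h
      · rw [h] at hk
        exact absurd hk (by decide)
    have h4 : v % 2 = 1 := by
      rw [Nat.testBit_zero] at hk'
      exact of_decide_eq_true hk'
    omega
  | succ k ih =>
    have h1 : v / 2 = u / 2 + 1 := by
      apply ih
      · intro i hi
        rw [← Nat.testBit_succ]
        exact hu (i + 1) (Nat.succ_lt_succ hi)
      · rw [← Nat.testBit_succ]
        exact hk
      · intro i hi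
        rw [← Nat.testBit_succ]
        exact hv (i + 1) (Nat.succ_lt_succ hi)
      · rw [← Nat.testBit_succ]
        exact hk'
      · intro i hi
        rw [← Nat.testBit_succ, ← Nat.testBit_succ]
        exact he (i + 1) (Nat.succ_lt_succ hi)
    have h2 : u % 2 = 1 := by
      have := hu 0 (Nat.succ_pos k)
      rw [Nat.testBit_zero] at this
      exact of_decide_eq_true this
    have h3 : v % 2 = 0 := by
      have := hv 0 (Nat.succ_pos k)
      rw [Nat.testBit_zero] at this
      rcases Nat.mod_two_eq_zero_or_one v with h | h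
      · exact h
      · rw [h] at this
        exact absurd this (by decide)
    omega

/-- h1. The lowest bit equal to `1` of a positive number. -/
theorem exists_low (v : ℕ) (hv : 0 < v) :
    ∃ k, (∀ i < k, v.testBit i = false) ∧ v.testBit k = true := by

  have h : ∃ k, v.testBit k = true := by
    by_contra hcon
    push Not at hcon
    have : v = 0 := by
      apply Nat.eq_of_testBit_eq
      intro i
      rw [Nat.zero_testBit]
      exact Bool.eq_false_iff.mpr (hcon i)
    omega
  refine ⟨Nat.find h, fun i hi => ?_, Nat.find_spec h⟩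
  exact Bool.eq_false_iff.mpr (Nat.find_min h hi)

/-- h1. A number `≥ 2^a` and `< 2^n` has a bit `a + i`, `i < n - a`, equal to `1`. -/
theorem exists_high (v a n : ℕ) (h1 : 2 ^ a ≤ v) (h2 : v < 2 ^ n) :
    ∃ i < n - a, v.testBit (a + i) = true := by

  have h3 : 0 < v / 2 ^ a := Nat.div_pos h1 (by positivity)
  obtain ⟨k, _, hk⟩ := exists_low (v / 2 ^ a) h3
  rw [Nat.testBit_div_two_pow] at hk
  have h4 : k + a < n := by
    by_contra hcon
    have h5 := Nat.ge_two_pow_of_testBit hk
    have h6 : 2 ^ n ≤ 2 ^ (k + a) := Nat.pow_le_pow_right (by norm_num) (by omega)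
    omega
  refine ⟨k, by omega, ?_⟩
  rw [add_comm]
  exact hk

end h1

/-! ### module h2: the grid system -/

section h2

variable (δ : Fin q → Fin q → Fin q) (bt ac : Fin q) (ini : ℕ → Fin q) (n a D : ℕ)

/-- the column of a cell -/
def col (x : Fin (2 * n) → Bool) : ℕ := num x 0 n

/-- the row of a cell -/
def row (x : Fin (2 * n) → Bool) : ℕ := num x n n

/-- the ports, from the symbols `g t p` of the grid -/
def gval (g : ℕ → ℕ → Fin q) (s : Bool) (x : Fin (2 * n) → Bool) : Fin q :=
  if s then (if col n x = 0 then bt else g (row n x) (col n x - 1))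
  else (if row n x = 0 then ini (col n x) else g (row n x - 1) (col n x))

private theorem h2_in (n : ℕ) (b : Bool) (o w j : ℕ) (ho : o = 0 ∨ o = n) (h1 : o ≤ w)
    (h2 : w < o + n) (h3 : o ≤ j) (h4 : j < o + n) :
    wpat n b w j = if j < w then some b else if j = w then some (!b) else none := by
  unfold wpat
  rw [if_pos]
  rcases ho with rfl | rfl
  · rw [decide_eq_decide]
    omega
  · rw [decide_eq_decide]
    omega

private theorem h2_out (n : ℕ) (b : Bool) (o w j : ℕ) (ho : o = 0 ∨ o = n) (h1 : o ≤ w)
    (h2 : w < o + n) (h3 : ¬ (o ≤ j ∧ j < o + n)) (h4 : j < 2 * n) :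
    wpat n b w j = none := by
  unfold wpat
  rw [if_neg]
  rcases ho with rfl | rfl
  · rw [decide_eq_decide]
    omega
  · rw [decide_eq_decide]
    omega

private theorem h2_pS (w j : ℕ) (hw : w < 2 * n) :
    (gsys δ bt ac ini n a D).pat w j = wpat n true w j := by
  simp only [gsys]
  rw [if_pos hw]

private theorem h2_pT (w j : ℕ) (hw : w < 2 * n) :
    (gsys δ bt ac ini n a D).pat ((gsys δ bt ac ini n a D).nW + w) j = wpat n false w j := by
  simp only [gsys]
  rw [if_neg (by omega), if_pos (by omega), show 2 * n + w - 2 * n = w by omega]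

private theorem h2_numeq {N : ℕ} (x y : Fin N → Bool) (o n : ℕ)
    (h : ∀ i (_ : i < n) (h : o + i < N), x ⟨o + i, h⟩ = y ⟨o + i, h⟩) : num x o n = num y o n := by
  unfold num
  refine Finset.sum_congr rfl fun i hi => ?_
  rw [Finset.mem_range] at hi
  by_cases h1 : o + i < N
  · rw [dif_pos h1, dif_pos h1, h i hi h1]
  · rw [dif_neg h1, dif_neg h1]

private theorem h2_In (o w : ℕ) (ho : o = 0 ∨ o = n) (h1 : o ≤ w) (h2 : w < o + n)
    (x : Fin (2 * n) → Bool) : (gsys δ bt ac ini n a D).In w x ↔
      (∀ (j : ℕ) (h : j < 2 * n), o ≤ j → j < w → x ⟨j, h⟩ = true) ∧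
        (∀ h : w < 2 * n, x ⟨w, h⟩ = false) := by
  have hw : w < 2 * n := by rcases ho with h | h <;> omega
  constructor
  · intro hx
    constructor
    · intro j h h3 h4
      refine hx ⟨j, h⟩ true ?_
      rw [h2_pS _ _ _ _ _ _ _ _ _ hw, h2_in n true o w j ho h1 h2 h3 (by omega), if_pos h4]
    · intro h
      refine hx ⟨w, h⟩ false ?_
      rw [h2_pS _ _ _ _ _ _ _ _ _ hw, h2_in n true o w w ho h1 h2 h1 h2, if_neg (by omega),
        if_pos rfl]
      rfl
  · rintro ⟨h3, h4⟩ ⟨j, hj⟩ b hb
    have hj2 : j < 2 * n := hj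
    rw [h2_pS _ _ _ _ _ _ _ _ _ hw] at hb
    simp only at hb
    by_cases h5 : o ≤ j ∧ j < o + n
    · rw [h2_in n true o w j ho h1 h2 h5.1 h5.2] at hb
      split_ifs at hb with h6 h7
      · rw [← Option.some.inj hb]
        exact h3 j hj2 h5.1 h6
      · subst h7
        rw [← Option.some.inj hb]
        exact h4 hj2
    · rw [h2_out n true o w j ho h1 h2 h5 hj2] at hb
      exact absurd hb (by simp)

private theorem h2_mv (o w : ℕ) (ho : o = 0 ∨ o = n) (h1 : o ≤ w) (h2 : w < o + n)
    (x : Fin (2 * n) → Bool) (j : ℕ) (hj : j < 2 * n) :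
    (gsys δ bt ac ini n a D).move w x ⟨j, hj⟩ =
      if o ≤ j ∧ j < o + n then (if j < w then false else if j = w then true else x ⟨j, hj⟩)
      else x ⟨j, hj⟩ := by
  have hw : w < 2 * n := by rcases ho with h | h <;> omega
  unfold Sys.move
  rw [h2_pT _ _ _ _ _ _ _ _ _ hw]
  simp only
  split_ifs with h3 h4 h5
  · rw [h2_in n false o w j ho h1 h2 h3.1 h3.2, if_pos h4]
    rfl
  · rw [h2_in n false o w j ho h1 h2 h3.1 h3.2, if_neg h4, if_pos h5]
    rfl
  · rw [h2_in n false o w j ho h1 h2 h3.1 h3.2, if_neg h4, if_neg h5]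
    rfl
  · rw [h2_out n false o w j ho h1 h2 h3 hj]
    rfl

private theorem h2_inc (n o w o' : ℕ) (ho : o = 0 ∧ o' = n ∨ o = n ∧ o' = 0) (h1 : o ≤ w)
    (h2 : w < o + n) (x y : Fin (2 * n) → Bool)
    (h3 : ∀ (j : ℕ) (h : j < 2 * n), o ≤ j → j < w → x ⟨j, h⟩ = true)
    (h4 : ∀ h : w < 2 * n, x ⟨w, h⟩ = false)
    (hy : ∀ (j : ℕ) (hj : j < 2 * n), y ⟨j, hj⟩ =
      if o ≤ j ∧ j < o + n then (if j < w then false else if j = w then true else x ⟨j, hj⟩)
      else x ⟨j, hj⟩) :
    num y o n = num x o n + 1 ∧ num y o' n = num x o' n := by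
  have ho1 : o = 0 ∨ o = n := by
    rcases ho with h | h
    · exact Or.inl h.1
    · exact Or.inr h.1
  have hw : w < 2 * n := by rcases ho1 with h | h <;> omega
  have hb : ∀ i < n, o + i < 2 * n := by
    intro i hi
    rcases ho1 with h | h <;> omega
  constructor
  · refine succ_of_bits (num x o n) (num y o n) (w - o) ?_ ?_ ?_ ?_ ?_
    · intro i hi
      rw [testBit_num x o n i (by omega) (hb i (by omega))]
      exact h3 _ _ (by omega) (by omega)
    · rw [testBit_num x o n _ (by omega) (hb _ (by omega))]
      have h5 := h4 hw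
      have h6 : o + (w - o) = w := by omega
      simp only [h6]
      exact h5
    · intro i hi
      rw [testBit_num y o n i (by omega) (hb i (by omega)), hy,
        if_pos ⟨by omega, by omega⟩, if_pos (by omega)]
    · rw [testBit_num y o n (w - o) (by omega) (hb _ (by omega)), hy,
        if_pos ⟨by omega, by omega⟩, if_neg (by omega), if_pos (by omega)]
    · intro i hi
      by_cases hin : i < n
      · rw [testBit_num x o n _ hin (hb i hin), testBit_num y o n _ hin (hb i hin),
          hy, if_pos ⟨by omega, by omega⟩, if_neg (by omega), if_neg (by omega)]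
      · have h7 : 2 ^ n ≤ 2 ^ i := Nat.pow_le_pow_right (by norm_num) (by omega)
        rw [Nat.testBit_lt_two_pow (lt_of_lt_of_le (num_lt x o n) h7),
          Nat.testBit_lt_two_pow (lt_of_lt_of_le (num_lt y o n) h7)]
  · refine h2_numeq _ _ o' n fun i hi h => ?_
    rw [hy, if_neg]
    rcases ho with h | h <;> omega

private theorem h2_move (o w o' : ℕ) (ho : o = 0 ∧ o' = n ∨ o = n ∧ o' = 0) (h1 : o ≤ w)
    (h2 : w < o + n) (x : Fin (2 * n) → Bool) (hx : (gsys δ bt ac ini n a D).In w x) :
    num ((gsys δ bt ac ini n a D).move w x) o n = num x o n + 1 ∧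
      num ((gsys δ bt ac ini n a D).move w x) o' n = num x o' n := by
  have ho1 : o = 0 ∨ o = n := by
    rcases ho with h | h
    · exact Or.inl h.1
    · exact Or.inr h.1
  obtain ⟨h3, h4⟩ := (h2_In δ bt ac ini n a D o w ho1 h1 h2 x).mp hx
  exact h2_inc n o w o' ho h1 h2 x ((gsys δ bt ac ini n a D).move w x) h3 h4
    (h2_mv δ bt ac ini n a D o w ho1 h1 h2 x)

private theorem h2_pred (o : ℕ) (ho1 : o = 0 ∨ o = n) (x : Fin (2 * n) → Bool)
    (h : 0 < num x o n) :
    ∃ w, o ≤ w ∧ w < o + n ∧
      ∃ x0, (gsys δ bt ac ini n a D).In w x0 ∧ (gsys δ bt ac ini n a D).move w x0 = x := by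
  have hb : ∀ i < n, o + i < 2 * n := by
    intro i hi
    rcases ho1 with h | h <;> omega
  obtain ⟨k, hk1, hk2⟩ := exists_low _ h
  have hkn : k < n := by
    by_contra hcon
    have h7 : 2 ^ n ≤ 2 ^ k := Nat.pow_le_pow_right (by norm_num) (by omega)
    rw [Nat.testBit_lt_two_pow (lt_of_lt_of_le (num_lt x o n) h7)] at hk2
    exact absurd hk2 (by decide)
  rw [testBit_num x o n k hkn (hb k hkn)] at hk2
  have h1 : o ≤ o + k := Nat.le_add_right _ _
  have h2 : o + k < o + n := by omega
  refine ⟨o + k, h1, h2, fun j => if o ≤ (j : ℕ) ∧ (j : ℕ) < o + k then true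
    else if (j : ℕ) = o + k then false else x j, ?_, ?_⟩
  · rw [h2_In δ bt ac ini n a D o (o + k) ho1 h1 h2]
    constructor
    · intro j hj h3 h4
      simp only
      rw [if_pos ⟨h3, h4⟩]
    · intro hj
      simp
  · funext j
    obtain ⟨j, hj⟩ := j
    have hj2 : j < 2 * n := hj
    have h5 := h2_mv δ bt ac ini n a D o (o + k) ho1 h1 h2
      (fun j => if o ≤ (j : ℕ) ∧ (j : ℕ) < o + k then true
        else if (j : ℕ) = o + k then false else x j) j hj2
    refine h5.trans ?_
    simp only
    by_cases h3 : o ≤ j ∧ j < o + n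
    · rw [if_pos h3]
      by_cases h4 : j < o + k
      · rw [if_pos h4]
        have h6 := hk1 (j - o) (by omega)
        rw [testBit_num x o n _ (by omega) (hb _ (by omega))] at h6
        have h7 : o + (j - o) = j := by omega
        simp only [h7] at h6
        exact h6.symm
      · rw [if_neg h4]
        by_cases h8 : j = o + k
        · rw [if_pos h8]
          subst h8
          exact hk2.symm
        · rw [if_neg h8, if_neg (by omega), if_neg h8]
          rfl
    · rw [if_neg h3, if_neg (by omega), if_neg (by omega)]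
      rfl

/-- h2. Same domain by the definition of `wpat`; the bit `w` itself differs. -/
theorem gsys_good : (gsys δ bt ac ini n a D).Good := by

  constructor
  · intro w hw j hj
    have hw2 : w < 2 * n := hw
    rw [h2_pS _ _ _ _ _ _ _ _ _ hw2, h2_pT _ _ _ _ _ _ _ _ _ hw2]
    unfold wpat
    split_ifs <;> rfl
  · intro w hw
    have hw2 : w < 2 * n := hw
    refine ⟨w, hw, false, ?_, ?_⟩
    · rw [h2_pS _ _ _ _ _ _ _ _ _ hw2]
      unfold wpat
      rw [if_pos rfl, if_neg (lt_irrefl _), if_pos rfl]
      rfl
    · rw [h2_pT _ _ _ _ _ _ _ _ _ hw2]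
      unfold wpat
      rw [if_pos rfl, if_neg (lt_irrefl _), if_pos rfl]

/-- h2. A cell in the source of the wire `w < n` moves to the next column, same row
(`succ_of_bits`, `testBit_num`); for `w = n + k` to the next row. -/
theorem move_col (w : ℕ) (hw : w < n) (x : Fin (2 * n) → Bool)
    (hx : (gsys δ bt ac ini n a D).In w x) :
    col n ((gsys δ bt ac ini n a D).move w x) = col n x + 1 ∧
      row n ((gsys δ bt ac ini n a D).move w x) = row n x := by

  exact h2_move δ bt ac ini n a D 0 w n (Or.inl ⟨rfl, rfl⟩) (Nat.zero_le _) (by omega) x hx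

/-- h2. -/
theorem move_row (w : ℕ) (hw : n ≤ w) (hw' : w < 2 * n) (x : Fin (2 * n) → Bool)
    (hx : (gsys δ bt ac ini n a D).In w x) :
    row n ((gsys δ bt ac ini n a D).move w x) = row n x + 1 ∧
      col n ((gsys δ bt ac ini n a D).move w x) = col n x := by

  exact h2_move δ bt ac ini n a D n w 0 (Or.inr ⟨rfl, rfl⟩) hw (by omega) x hx

/-- h2. `exists_low` for the column; the predecessor cell has the lowest bits flipped. -/
theorem exists_pred_col (x : Fin (2 * n) → Bool) (h : 0 < col n x) :
    ∃ w < n, ∃ x0, (gsys δ bt ac ini n a D).In w x0 ∧ (gsys δ bt ac ini n a D).move w x0 = x := by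

  obtain ⟨w, _, h2, h3⟩ := h2_pred δ bt ac ini n a D 0 (Or.inl rfl) x h
  exact ⟨w, by omega, h3⟩

/-- h2. -/
theorem exists_pred_row (x : Fin (2 * n) → Bool) (h : 0 < row n x) :
    ∃ w, n ≤ w ∧ w < 2 * n ∧
      ∃ x0, (gsys δ bt ac ini n a D).In w x0 ∧ (gsys δ bt ac ini n a D).move w x0 = x := by

  obtain ⟨w, h1, h2, h3⟩ := h2_pred δ bt ac ini n a D n (Or.inr rfl) x h
  exact ⟨w, h1, by omega, h3⟩

end h2

/-! ### module h3: constants -/

section h3

variable (δ : Fin q → Fin q → Fin q) (bt ac : Fin q) (ini : ℕ → Fin q) (n a D : ℕ)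

private theorem h3_pC (c j : ℕ) :
    (gsys δ bt ac ini n a D).pat (2 * (gsys δ bt ac ini n a D).nW + c) j = cpat n a D c j := by
  simp only [gsys]
  rw [if_neg (by omega), if_neg (by omega), show 2 * (2 * n) + c - 4 * n = c by omega]

private theorem h3_num {N : ℕ} (x : Fin N → Bool) (o n m : ℕ) (hN : o + n ≤ N) (hm : m < 2 ^ n) :
    num x o n = m ↔ ∀ i (h : i < n), x ⟨o + i, by omega⟩ = m.testBit i := by
  constructor
  · intro h i hi
    rw [← h]
    exact (testBit_num x o n i hi (by omega)).symm
  · intro h
    apply Nat.eq_of_testBit_eq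
    intro i
    by_cases hin : i < n
    · rw [testBit_num x o n i hin (by omega)]
      exact h i hin
    · have h7 : 2 ^ n ≤ 2 ^ i := Nat.pow_le_pow_right (by norm_num) (by omega)
      rw [Nat.testBit_lt_two_pow (lt_of_lt_of_le (num_lt x o n) h7),
        Nat.testBit_lt_two_pow (lt_of_lt_of_le hm h7)]

private theorem h3_row0 (x : Fin (2 * n) → Bool) :
    row n x = 0 ↔ ∀ (j : ℕ) (h : j < 2 * n), n ≤ j → x ⟨j, h⟩ = false := by
  unfold row
  rw [h3_num x n n 0 (by omega) (by positivity)]
  constructor
  · intro h j hj h1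
    have h2 := h (j - n) (by omega)
    have h3 : n + (j - n) = j := by omega
    simp only [h3] at h2
    rw [h2, Nat.zero_testBit]
  · intro h i hi
    rw [h _ _ (by omega), Nat.zero_testBit]

/-- h3. -/
theorem in_c0 (x : Fin (2 * n) → Bool) :
    (gsys δ bt ac ini n a D).In (2 * (gsys δ bt ac ini n a D).nW + 0) x ↔ col n x = 0 := by

  unfold col
  rw [h3_num x 0 n 0 (by omega) (by positivity)]
  constructor
  · intro hx i hi
    rw [Nat.zero_testBit]
    refine hx ⟨0 + i, by show 0 + i < 2 * n; omega⟩ false ?_
    rw [h3_pC]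
    unfold cpat
    rw [if_pos rfl, if_pos (by simpa using hi)]
  · intro h j b hb
    have hj := j.2
    rw [h3_pC] at hb
    unfold cpat at hb
    rw [if_pos rfl] at hb
    split_ifs at hb with h1
    have h2 := h (j : ℕ) h1
    rw [Nat.zero_testBit] at h2
    simp only [zero_add] at h2
    rw [← Option.some.inj hb]
    exact h2

/-- h3. -/
theorem in_c1 (hD : D = 2 ^ a) (ha : a ≤ n) (c : ℕ) (hc : 1 ≤ c) (hc' : c ≤ D)
    (x : Fin (2 * n) → Bool) :
    (gsys δ bt ac ini n a D).In (2 * (gsys δ bt ac ini n a D).nW + c) x ↔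
      row n x = 0 ∧ col n x = c - 1 := by

  have hcn : c - 1 < 2 ^ n := by
    have : 2 ^ a ≤ 2 ^ n := Nat.pow_le_pow_right (by norm_num) ha
    omega
  unfold col
  rw [h3_row0, h3_num x 0 n (c - 1) (by omega) hcn]
  constructor
  · intro hx
    constructor
    · intro j hj h1
      refine hx ⟨j, hj⟩ false ?_
      rw [h3_pC]
      unfold cpat
      rw [if_neg (by omega), if_pos hc', if_neg (by simpa using h1)]
    · intro i hi
      have h2 : (0 + i : ℕ) < 2 * n := by omega
      refine hx ⟨0 + i, h2⟩ ((c - 1).testBit i) ?_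
      rw [h3_pC]
      unfold cpat
      rw [if_neg (by omega), if_pos hc', if_pos (by simpa using hi)]
      simp
  · rintro ⟨h1, h2⟩ j b hb
    have hj : (j : ℕ) < 2 * n := j.2
    rw [h3_pC] at hb
    unfold cpat at hb
    rw [if_neg (by omega), if_pos hc'] at hb
    split_ifs at hb with h3
    · rw [← Option.some.inj hb]
      have h4 := h2 (j : ℕ) h3
      simp only [zero_add] at h4
      exact h4
    · rw [← Option.some.inj hb]
      exact h1 j hj (by omega)

/-- h3. -/
theorem in_c2 (hD : D = 2 ^ a) (ha : a ≤ n) (c : ℕ) (hc : D < c) (hc' : c ≤ D + (n - a))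
    (x : Fin (2 * n) → Bool) :
    (gsys δ bt ac ini n a D).In (2 * (gsys δ bt ac ini n a D).nW + c) x ↔
      row n x = 0 ∧ (col n x).testBit (a + (c - D - 1)) = true := by

  rw [h3_row0]
  have hk : a + (c - D - 1) < n := by omega
  unfold col
  rw [testBit_num x 0 n _ hk (by omega)]
  constructor
  · intro hx
    constructor
    · intro j hj h1
      refine hx ⟨j, hj⟩ false ?_
      rw [h3_pC]
      unfold cpat
      rw [if_neg (by omega), if_neg (by omega), if_pos hc', if_pos (by simpa using h1)]
    · have h2 : (0 + (a + (c - D - 1)) : ℕ) < 2 * n := by omega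
      refine hx ⟨0 + (a + (c - D - 1)), h2⟩ true ?_
      rw [h3_pC]
      unfold cpat
      rw [if_neg (by omega), if_neg (by omega), if_pos hc', if_neg (by simp; omega),
        if_pos (by simp)]
  · rintro ⟨h1, h2⟩ j b hb
    have hj : (j : ℕ) < 2 * n := j.2
    rw [h3_pC] at hb
    unfold cpat at hb
    rw [if_neg (by omega), if_neg (by omega), if_pos hc'] at hb
    split_ifs at hb with h3 h4
    · rw [← Option.some.inj hb]
      exact h1 j hj h3
    · rw [← Option.some.inj hb]
      simp only [zero_add] at h2
      have h5 : j = ⟨a + (c - D - 1), by show a + (c - D - 1) < 2 * n; omega⟩ := Fin.ext h4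
      rw [h5]
      exact h2

/-- h3. -/
theorem in_c3 (x : Fin (2 * n) → Bool) :
    (gsys δ bt ac ini n a D).In (2 * (gsys δ bt ac ini n a D).nW + (1 + D + (n - a))) x ↔
      x = fun _ => true := by

  constructor
  · intro hx
    funext j
    refine hx j true ?_
    rw [h3_pC]
    unfold cpat
    rw [if_neg (by omega), if_neg (by omega), if_neg (by omega)]
  · intro hx j b hb
    rw [h3_pC] at hb
    unfold cpat at hb
    rw [if_neg (by omega), if_neg (by omega), if_neg (by omega)] at hb
    rw [← Option.some.inj hb, hx]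

/-- h3. -/
theorem corner : col n (fun _ => true) = 2 ^ n - 1 ∧ row n (fun _ => true) = 2 ^ n - 1 := by

  have h0 : 0 < 2 ^ n := by positivity
  constructor
  · unfold col
    rw [h3_num _ 0 n _ (by omega) (by omega)]
    intro i hi
    rw [Nat.testBit_two_pow_sub_one]
    simp [hi]
  · unfold row
    rw [h3_num _ n n _ (by omega) (by omega)]
    intro i hi
    rw [Nat.testBit_two_pow_sub_one]
    simp [hi]

end h3

/-! ### module h4: the grid theorem -/

section h4

variable (δ : Fin q → Fin q → Fin q) (bt ac : Fin q) (ini : ℕ → Fin q) (n a D : ℕ)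
  (hD : D = 2 ^ a) (ha : a ≤ n) (hn : 1 ≤ n)
include hD ha hn

/-- h4. `in_c0` - `in_c2`, `move_col`, `move_row`; columns `≥ D` have the symbol `ini D`. -/
theorem gval_sol (g : ℕ → ℕ → Fin q)
    (hrec : ∀ t p, g t p = δ (if p = 0 then bt else g t (p - 1)) (if t = 0 then ini p else g (t - 1) p))
    (hini : ∀ p, D ≤ p → ini p = ini D) :
    (gsys δ bt ac ini n a D).Sol (1 + D + (n - a)) (gval bt ini n g) := by

  constructor
  · intro w hw x hx
    have hw2 : w < 2 * n := hw
    have hg : g (row n x) (col n x) = δ (gval bt ini n g true x) (gval bt ini n g false x) := by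
      rw [hrec]
      rfl
    by_cases h1 : w < n
    · obtain ⟨h2, h3⟩ := move_col δ bt ac ini n a D w h1 x hx
      have hs : (gsys δ bt ac ini n a D).sW w = true := by
        simp only [gsys]
        exact decide_eq_true h1
      rw [hs]
      show (if col n ((gsys δ bt ac ini n a D).move w x) = 0 then bt
        else g (row n ((gsys δ bt ac ini n a D).move w x))
          (col n ((gsys δ bt ac ini n a D).move w x) - 1)) = _
      rw [h2, h3, if_neg (by omega), Nat.add_sub_cancel]
      exact hg
    · obtain ⟨h2, h3⟩ := move_row δ bt ac ini n a D w (by omega) hw2 x hx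
      have hs : (gsys δ bt ac ini n a D).sW w = false := by
        simp only [gsys]
        exact decide_eq_false h1
      rw [hs]
      show (if row n ((gsys δ bt ac ini n a D).move w x) = 0 then
        ini (col n ((gsys δ bt ac ini n a D).move w x))
        else g (row n ((gsys δ bt ac ini n a D).move w x) - 1)
          (col n ((gsys δ bt ac ini n a D).move w x))) = _
      rw [h2, h3, if_neg (by omega), Nat.add_sub_cancel]
      exact hg
  · intro c hc x hx
    rcases Nat.eq_zero_or_pos c with h0 | h0
    · subst h0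
      rw [in_c0] at hx
      have hs : (gsys δ bt ac ini n a D).sC 0 = true := by
        simp [gsys]
      rw [hs]
      show (if col n x = 0 then bt else g (row n x) (col n x - 1)) = _
      rw [if_pos hx]
      simp [gsys]
    · have hs : (gsys δ bt ac ini n a D).sC c = false := by
        simp only [gsys]
        rw [decide_eq_false (by omega), decide_eq_false (by omega)]
        rfl
      rw [hs]
      show (if row n x = 0 then ini (col n x) else g (row n x - 1) (col n x)) = _
      by_cases h1 : c ≤ D
      · rw [in_c1 δ bt ac ini n a D hD ha c h0 h1] at hx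
        rw [if_pos hx.1, hx.2]
        simp only [gsys]
        rw [if_neg (by omega), if_pos h1]
      · rw [in_c2 δ bt ac ini n a D hD ha c (by omega) (by omega)] at hx
        rw [if_pos hx.1]
        simp only [gsys]
        rw [if_neg (by omega), if_neg h1, if_pos (by omega)]
        apply hini
        have h3 := Nat.ge_two_pow_of_testBit hx.2
        have h4 : 2 ^ a ≤ 2 ^ (a + (c - D - 1)) := Nat.pow_le_pow_right (by norm_num) (by omega)
        omega

/-- h4. Height `row x + col x`; `in_c0` - `in_c2`, `exists_high`, `exists_pred_col`,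
`exists_pred_row`. -/
theorem gsys_cov : (gsys δ bt ac ini n a D).Cov (1 + D + (n - a)) := by

  refine ⟨fun x => row n x + col n x, fun s x => ?_⟩
  cases s
  · rcases Nat.eq_zero_or_pos (row n x) with h0 | h0
    · left
      by_cases h1 : col n x < D
      · refine ⟨col n x + 1, by omega, ?_, ?_⟩
        · simp only [gsys]
          rw [decide_eq_false (by omega), decide_eq_false (by omega)]
          rfl
        · rw [in_c1 δ bt ac ini n a D hD ha _ (by omega) (by omega)]
          exact ⟨h0, by omega⟩
      · obtain ⟨i, hi, hi2⟩ := exists_high (col n x) a n (by omega) (num_lt x 0 n)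
        refine ⟨D + 1 + i, by omega, ?_, ?_⟩
        · simp only [gsys]
          rw [decide_eq_false (by omega), decide_eq_false (by omega)]
          rfl
        · rw [in_c2 δ bt ac ini n a D hD ha _ (by omega) (by omega)]
          refine ⟨h0, ?_⟩
          rw [show D + 1 + i - D - 1 = i by omega]
          exact hi2
    · right
      obtain ⟨w, h1, h2, x0, h3, h4⟩ := exists_pred_row δ bt ac ini n a D x h0
      refine ⟨w, h2, ?_, x0, h3, h4, ?_⟩
      · simp only [gsys]
        exact decide_eq_false (by omega)
      · obtain ⟨h5, h6⟩ := move_row δ bt ac ini n a D w h1 h2 x0 h3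
        rw [h4] at h5 h6
        show row n x0 + col n x0 < row n x + col n x
        omega
  · rcases Nat.eq_zero_or_pos (col n x) with h0 | h0
    · left
      refine ⟨0, by omega, ?_, ?_⟩
      · simp [gsys]
      · rw [in_c0]
        exact h0
    · right
      obtain ⟨w, h1, x0, h3, h4⟩ := exists_pred_col δ bt ac ini n a D x h0
      refine ⟨w, by show w < 2 * n; omega, ?_, x0, h3, h4, ?_⟩
      · simp only [gsys]
        exact decide_eq_true h1
      · obtain ⟨h5, h6⟩ := move_col δ bt ac ini n a D w h1 x0 h3
        rw [h4] at h5 h6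
        show row n x0 + col n x0 < row n x + col n x
        omega

private theorem h4_full (j : ℕ) :
    ((gsys δ bt ac ini n a D).pat (2 * (gsys δ bt ac ini n a D).nW + (1 + D + (n - a))) j).isSome := by
  rw [h3_pC]
  unfold cpat
  rw [if_neg (by omega), if_neg (by omega), if_neg (by omega)]
  rfl

omit hD ha in
private theorem h4_val (g : ℕ → ℕ → Fin q) :
    gval bt ini n g ((gsys δ bt ac ini n a D).sC (1 + D + (n - a))) (fun _ => true) =
      g (2 ^ n - 1) (2 ^ n - 2) := by
  have hs : (gsys δ bt ac ini n a D).sC (1 + D + (n - a)) = true := by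
    simp only [gsys]
    rw [decide_eq_true (p := D + (n - a) < 1 + D + (n - a)) (by omega)]
    simp
  rw [hs]
  show (if col n (fun _ => true) = 0 then bt
    else g (row n (fun _ => true)) (col n (fun _ => true) - 1)) = _
  rw [(corner n).1, (corner n).2]
  have h1 : 2 ^ 1 ≤ 2 ^ n := Nat.pow_le_pow_right (by norm_num) hn
  rw [if_neg (by omega), show 2 ^ n - 1 - 1 = 2 ^ n - 2 by omega]

omit hD ha hn in
private theorem h4_vC : (gsys δ bt ac ini n a D).vC (1 + D + (n - a)) = ac := by
  simp only [gsys]
  rw [if_neg (by omega), if_neg (by omega), if_neg (by omega)]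

/-- h4. `sound` / `complete`, with `gval_sol`, `gsys_cov`, `in_c3`, `corner`; the test is
`gval true corner = g (2^n - 1) (2^n - 2) = ac` (`n ≥ 1`). -/
theorem grid_main (g : ℕ → ℕ → Fin q)
    (hrec : ∀ t p, g t p = δ (if p = 0 then bt else g t (p - 1)) (if t = 0 then ini p else g (t - 1) p))
    (hini : ∀ p, D ≤ p → ini p = ini D) :
    (∃ f : Finset (El q) → ℝ, Polymatroid f ∧ AllJ (gsys δ bt ac ini n a D) f) ↔
      g (2 ^ n - 1) (2 ^ n - 2) = ac := by

  constructor
  · rintro ⟨f, hf, hJ⟩
    have h1 := sound hf hJ (gsys_good δ bt ac ini n a D) (1 + D + (n - a))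
      (by simp only [gsys]; omega) (gsys_cov δ bt ac ini n a D hD ha hn) (gval bt ini n g)
      (gval_sol δ bt ac ini n a D hD ha hn g hrec hini) (fun _ => true)
      ((in_c3 δ bt ac ini n a D _).mpr rfl) (fun j _ => h4_full δ bt ac ini n a D hD ha hn j)
    rw [h4_vC] at h1
    rw [← h1]
    exact (h4_val δ bt ac ini n a D hn g).symm
  · intro h
    apply complete _ (gval bt ini n g) (gsys_good δ bt ac ini n a D)
    have hs := gval_sol δ bt ac ini n a D hD ha hn g hrec hini
    refine ⟨hs.wire, fun c hc x hx => ?_⟩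
    have hc2 : c < 1 + D + (n - a) + 1 := hc
    rcases Nat.lt_or_ge c (1 + D + (n - a)) with h1 | h1
    · exact hs.con c h1 x hx
    · have h2 : c = 1 + D + (n - a) := by omega
      subst h2
      rw [in_c3] at hx
      subst hx
      rw [h4_vC]
      exact (h4_val δ bt ac ini n a D hn g).trans h

/-- h4. `cons`, with `gval_sol`, `in_c3`. -/
theorem grid_cons (g : ℕ → ℕ → Fin q)
    (hrec : ∀ t p, g t p = δ (if p = 0 then bt else g t (p - 1)) (if t = 0 then ini p else g (t - 1) p))
    (hini : ∀ p, D ≤ p → ini p = ini D) {A B C A' B' C' : El q}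
    (h : (gsys δ bt ac ini n a D).Jn A B C) (h' : (gsys δ bt ac ini n a D).Jn A' B' C')
    (p p' : Finset (El q) × ℕ) (hp : p ∈ ents (gsys δ bt ac ini n a D).rk A B C)
    (hp' : p' ∈ ents (gsys δ bt ac ini n a D).rk A' B' C') (he : p.1 = p'.1) : p.2 = p'.2 := by

  exact cons (gsys_good δ bt ac ini n a D) (1 + D + (n - a)) rfl (gval bt ini n g)
    (gval_sol δ bt ac ini n a D hD ha hn g hrec hini) (fun _ => true)
    ((in_c3 δ bt ac ini n a D _).mpr rfl) (fun j _ => h4_full δ bt ac ini n a D hD ha hn j) h h'
    p p' hp hp' he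

end h4

end Pool.PmX
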