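import Pool.Agent.PmX.Fin

/-!
# Time hierarchy through the grid: EXT and CON are not in P

A table machine is a bit string `w`: `hd w` leading `true`s, a `false`, then blocks of length
`hd w`; a block stands for the number of its `true`s.  `gw w x t p` is the symbol at `(t, p)` of the
grid with table `w` and input `x`.  Every language in P is decided by a table machine in a grid of
polynomial size, grids of exponential size are evaluated in exponential time, and
`{w | the grid of size 2^|w| of the machine w with input w does not accept}` separates.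
-/

namespace Pool.PmX

open Turing Computability Pool.NPC Pool.Agent.PRT

/-- number of leading `true`s -/
def hd (w : List Bool) : ℕ :=
  (List.range w.length).countP fun i => (List.range (i + 1)).all fun j => w.getD j false

/-- the value of the block number `i` -/
def blk (w : List Bool) (i : ℕ) : ℕ :=
  (List.range (hd w)).countP fun j => w.getD (hd w + 1 + i * hd w + j) false

/-- which initial symbol belongs to the column `p` -/
def inik (x : List Bool) (p : ℕ) : ℕ :=
  (if p = 0 then 0 else 3) + (if p < x.length then (if x.getD p false = true then 2 else 1) else 0)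

/-- a row from the row above -/
def nxt (w : List Bool) (up : ℕ → ℕ) : ℕ → ℕ
  | 0 => blk w (blk w (hd w * hd w + 6) * hd w + up 0)
  | p + 1 => blk w (nxt w up p * hd w + up (p + 1))

/-- the grid of the table machine `w` with input `x` -/
def gw (w x : List Bool) : ℕ → ℕ → ℕ
  | 0 => nxt w (fun p => blk w (hd w * hd w + inik x p))
  | t + 1 => nxt w (gw w x t)

/-- unary number in a block of length `q` -/
def ub (q s : ℕ) : List Bool := List.replicate s true ++ List.replicate (q - s) false

/-- the string of a table machine: table `d`, eight symbols `z`, padding `L` -/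
def tcode (q : ℕ) (d : ℕ → ℕ → ℕ) (z : ℕ → ℕ) (L : ℕ) : List Bool :=
  List.replicate q true ++ [false] ++ (List.range (q * q)).flatMap (fun i => ub q (d (i / q) (i % q))) ++
    (List.range 8).flatMap (fun k => ub q (z k)) ++ List.replicate L false

/-! ### private lemmas -/

/-- reading in a concatenation of blocks of equal length -/
private theorem i1a_getD_blocks (g : ℕ → List Bool) (q : ℕ) (hg : ∀ i, (g i).length = q)
    (N b j : ℕ) (hb : b < N) (hj : j < q) :
    ((List.range N).flatMap g).getD (b * q + j) false = (g b).getD j false := by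
  have hlen : ∀ M, ((List.range M).flatMap g).length = M * q := by
    intro M
    induction M with
    | zero => simp
    | succ M ih => rw [List.range_succ, List.flatMap_append, List.length_append, ih]; simp [hg]; ring
  induction N with
  | zero => omega
  | succ N ih =>
    rw [List.range_succ, List.flatMap_append]
    by_cases h : b < N
    · rw [List.getD_append _ _ _ _ (by
        rw [hlen]
        calc b * q + j < b * q + q := by omega
          _ = (b + 1) * q := by ring
          _ ≤ N * q := Nat.mul_le_mul_right _ (by omega))]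
      exact ih h
    · have hbN : b = N := by omega
      subst hbN
      rw [List.getD_append_right _ _ _ _ (by rw [hlen]; omega), hlen]
      have e : b * q + j - b * q = j := by omega
      rw [e]
      simp

private theorem i1a_length_blocks (g : ℕ → List Bool) (q : ℕ) (hg : ∀ i, (g i).length = q)
    (N : ℕ) : ((List.range N).flatMap g).length = N * q := by
  induction N with
  | zero => simp
  | succ M ih => rw [List.range_succ, List.flatMap_append, List.length_append, ih]; simp [hg]; ring

private theorem i1a_length_ub (q s : ℕ) (h : s ≤ q) : (ub q s).length = q := by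
  unfold ub
  rw [List.length_append, List.length_replicate, List.length_replicate]
  omega

private theorem i1a_getD_ub (q s j : ℕ) : (ub q s).getD j false = decide (j < s) := by
  unfold ub
  by_cases h : j < s
  · rw [List.getD_append _ _ _ _ (by rw [List.length_replicate]; exact h),
      List.getD_eq_getElem?_getD, List.getElem?_replicate]
    simp [h]
  · rw [List.getD_append_right _ _ _ _ (by rw [List.length_replicate]; omega),
      List.getD_eq_getElem?_getD, List.getElem?_replicate]
    rw [decide_eq_false h]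
    split <;> rfl

private theorem i1a_count_lt (q s : ℕ) (h : s ≤ q) :
    (List.range q).countP (fun j => decide (j < s)) = s := by
  induction q with
  | zero =>
    have : s = 0 := by omega
    subst this
    simp
  | succ q ih =>
    rw [List.range_succ, List.countP_append]
    by_cases hs : s ≤ q
    · rw [ih hs]
      simp
      omega
    · have hs' : s = q + 1 := by omega
      subst hs'
      have e : (List.range q).countP (fun j => decide (j < q + 1)) = q := by
        rw [List.countP_eq_length.2]
        · simp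
        · intro a ha
          rw [List.mem_range] at ha
          simp
          omega
      rw [e]
      simp

private theorem i1a_nxt_le (w : List Bool) (up : ℕ → ℕ) (p : ℕ) (hblk : ∀ i, blk w i ≤ hd w) :
    nxt w up p ≤ hd w := by
  cases p with
  | zero => exact hblk _
  | succ p => exact hblk _

/-! ### module i1: evaluation of grids in polynomial time -/

section i1

/-- i1. -/
theorem blk_le (w : List Bool) (i : ℕ) : blk w i ≤ hd w := by
  unfold blk
  refine List.countP_le_length.trans ?_
  rw [List.length_range]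

/-- i1. -/
theorem gw_le (w x : List Bool) (t p : ℕ) : gw w x t p ≤ hd w := by
  cases t with
  | zero => exact i1a_nxt_le w _ p (blk_le w)
  | succ t => exact i1a_nxt_le w _ p (blk_le w)

/-- the symbols in the order of evaluation, for `N` columns, the initial row first -/
def sq (w x : List Bool) (N k : ℕ) : ℕ :=
  if k < N then blk w (hd w * hd w + inik x k) else gw w x (k / N - 1) (k % N)

/-- i1. Unfold `gw` (cases `(i + N) / N - 1 = i / N = 0` or not, `i % N = 0` or not). -/
theorem sq_rec (w x : List Bool) (N i : ℕ) (hN : 0 < N) :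
    sq w x N (i + N) = blk w ((if i % N = 0 then blk w (hd w * hd w + 6) else sq w x N (i + N - 1)) *
      hd w + sq w x N i) := by
  have h1 : ¬ i + N < N := by omega
  have e1 : (i + N) / N - 1 = i / N := by
    rw [Nat.add_div_right _ hN]
    rfl
  have e2 : (i + N) % N = i % N := Nat.add_mod_right _ _
  have hdm := Nat.div_add_mod i N
  have hml := Nat.mod_lt i hN
  -- the value above
  have hup : ∀ t, i / N = t → (if t = 0 then (fun p => blk w (hd w * hd w + inik x p)) else
      gw w x (t - 1)) (i % N) = sq w x N i := by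
    intro t ht
    unfold sq
    by_cases h0 : t = 0
    · subst h0
      have hi : i < N := by
        by_contra hcon
        have : 1 ≤ i / N := (Nat.one_le_div_iff hN).2 (by omega)
        omega
      rw [if_pos rfl, if_pos hi, Nat.mod_eq_of_lt hi]
    · have hi : ¬ i < N := by
        intro hcon
        rw [Nat.div_eq_of_lt hcon] at ht
        exact h0 ht.symm
      rw [if_neg h0, if_neg hi, ht]
  have hgw : ∀ t, gw w x t = nxt w (if t = 0 then (fun p => blk w (hd w * hd w + inik x p)) else
      gw w x (t - 1)) := by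
    intro t
    cases t with
    | zero => rfl
    | succ t => rfl
  have hL : sq w x N (i + N) = gw w x (i / N) (i % N) := by
    unfold sq
    rw [if_neg h1, e1, e2]
  rw [hL]
  by_cases hc : i % N = 0
  · rw [if_pos hc, hc, hgw, ← hup _ rfl, hc]
    rfl
  · rw [if_neg hc]
    obtain ⟨c, hc'⟩ : ∃ c, i % N = c + 1 := ⟨i % N - 1, by omega⟩
    have hcN : c < N := by
      rw [hc'] at hml
      omega
    have h2 : ¬ i + N - 1 < N := by omega
    have e3 : i + N - 1 = N * (i / N + 1) + c := by
      rw [Nat.mul_add, Nat.mul_one]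
      omega
    have e4 : (i + N - 1) / N - 1 = i / N := by
      rw [e3, Nat.mul_add_div hN, Nat.div_eq_of_lt hcN]
      omega
    have e5 : (i + N - 1) % N = c := by
      rw [e3, Nat.mul_add_mod, Nat.mod_eq_of_lt hcN]
    have hR : sq w x N (i + N - 1) = gw w x (i / N) c := by
      unfold sq
      rw [if_neg h2, e4, e5]
    rw [hR, ← hup _ rfl, hc', hgw]
    rfl

variable {α : Type} [Enc α]

/-- i1. `PT.count`, `PT.all`, `PT.getD`. -/
theorem PT_blk {w : α → List Bool} {i : α → ℕ} (hw : PT w) (hi : PT i) :
    PT (fun a => hd (w a)) ∧ PT (fun a => blk (w a) (i a)) := by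
  have hhd : PT (fun a => hd (w a)) := by
    have h1 : PT (fun x : (α × ℕ) × ℕ => (w x.1.1).getD x.2 false) :=
      PT.getD (PT.comp (g := fun a => w a) hw (PT.fst' PT.fst)) PT.snd
    have h2 : PT (fun x : α × ℕ => (List.range (x.2 + 1)).all fun j => (w x.1).getD j false) :=
      PT.all (n := fun x : α × ℕ => x.2 + 1) (PT.succ PT.snd) h1
    exact PT.count (PT.length hw) h2
  refine ⟨hhd, ?_⟩
  have h1 : PT (fun x : α × ℕ => hd (w x.1)) := PT.comp (g := fun a => hd (w a)) hhd PT.fst
  have h2 : PT (fun x : α × ℕ => (w x.1).getD (hd (w x.1) + 1 + i x.1 * hd (w x.1) + x.2) false) :=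
    PT.getD (PT.comp (g := fun a => w a) hw PT.fst)
      (PT.add (PT.add (PT.succ h1) (PT.mul (PT.comp (g := fun a => i a) hi PT.fst) h1)) PT.snd)
  exact PT.count hhd h2

private theorem i1b_inik {x : α → List Bool} {p : α → ℕ} (hx : PT x) (hp : PT p) :
    PT (fun a => inik (x a) (p a)) := by
  have h1 : PT (fun a => (x a).getD (p a) false) := PT.getD hx hp
  exact PT.add (PT.ite (PT.isZero hp) (PT.const 0) (PT.const 3))
    (PT.ite (PT.lt hp (PT.length hx)) (PT.caseBit h1 (PT.const 2) (PT.const 1)) (PT.const 0))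

private theorem i1b_ub {q s : α → ℕ} (hq : PT q) (hs : PT s) : PT (fun a => ub (q a) (s a)) := by
  have h1 : PT (fun a => (List.range (q a - s a)).flatMap fun _ => [false]) :=
    PT.flatMap (g := fun _ => [false]) (PT.sub hq hs) (PT.const [false])
  refine (PT.append (PT.replicate hs) h1).congr fun a => ?_
  unfold ub
  congr 1
  generalize q a - s a = m
  induction m with
  | zero => rfl
  | succ m ih => rw [List.range_succ, List.flatMap_append, ← ih, List.replicate_succ']; rfl

/-- reading the block `b` of a window -/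
private theorem i1b_read {q b : α → ℕ} {l : α → List Bool} (hq : PT q) (hb : PT b) (hl : PT l) :
    PT (fun a => (List.range (q a)).countP fun j => (l a).getD (b a * q a + j) false) := by
  have h2 : PT (fun x : α × ℕ => (l x.1).getD (b x.1 * q x.1 + x.2) false) :=
    PT.getD (PT.comp (g := fun a => l a) hl PT.fst)
      (PT.add (PT.mul (PT.comp (g := fun a => b a) hb PT.fst) (PT.comp (g := fun a => q a) hq
        PT.fst)) PT.snd)
  exact PT.count hq h2

/-- the window -/
private def i1b_win (f : ℕ → ℕ) (q N k : ℕ) : List Bool :=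
  (List.range N).flatMap fun j => ub q (f (k + j))

private theorem i1b_win_succ (f : ℕ → ℕ) (q N k : ℕ) (hN : 0 < N) (hf : ∀ i, f i ≤ q) :
    i1b_win f q N (k + 1) = (i1b_win f q N k).drop q ++ ub q (f (k + N)) := by
  obtain ⟨M, rfl⟩ : ∃ M, N = M + 1 := ⟨N - 1, by omega⟩
  have e1 : i1b_win f q (M + 1) k = ub q (f k) ++ i1b_win f q M (k + 1) := by
    unfold i1b_win
    rw [List.range_succ_eq_map, List.flatMap_cons, List.flatMap_map]
    congr 1
    apply List.flatMap_congr
    intro j _
    congr 2
    omega
  have e2 : i1b_win f q (M + 1) (k + 1) = i1b_win f q M (k + 1) ++ ub q (f (k + (M + 1))) := by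
    unfold i1b_win
    rw [List.range_succ, List.flatMap_append]
    congr 1
    rw [List.flatMap_singleton]
    congr 2
    omega
  rw [e1, e2, List.drop_left' (i1a_length_ub q _ (hf k))]

private theorem i1b_win_read (f : ℕ → ℕ) (q N k b : ℕ) (hb : b < N) (hf : ∀ i, f i ≤ q) :
    ((List.range q).countP fun j => (i1b_win f q N k).getD (b * q + j) false) = f (k + b) := by
  rw [← i1a_count_lt q (f (k + b)) (hf _)]
  apply List.countP_congr
  intro j hj
  rw [List.mem_range] at hj
  unfold i1b_win
  rw [i1a_getD_blocks (fun j => ub q (f (k + j))) q (fun i => i1a_length_ub q _ (hf _)) N b j hb hj,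
    i1a_getD_ub]

private theorem i1b_sq_le (w x : List Bool) (N i : ℕ) : sq w x N i ≤ hd w := by
  unfold sq
  by_cases h : i < N
  · rw [if_pos h]
    exact blk_le _ _
  · rw [if_neg h]
    exact gw_le _ _ _ _

/-- i1. With `N = p + 1`, `q = hd w`: the window `win i = ub q (sq i) ++ ... ++ ub q (sq (i + N - 1))`
(a bit string of length `N q`, `gw_le`, `blk_le`) is computed by `PT.natRec`:
`win (i + 1) = (win i).drop q ++ ub q (blk w (.. * q + ..))` where the first and the last block of
`win i` are read by `PT.count`, `PT.getD` (`sq_rec`).  `gw w x t p = sq (p + 1) ((t + 1) (p + 1) + p)`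
is the first block of `win ((t + 1) (p + 1) + p)`. -/
theorem PT_gw {w x : α → List Bool} {t p : α → ℕ} (hw : PT w) (hx : PT x) (ht : PT t) (hp : PT p) :
    PT (fun a => gw (w a) (x a) (t a) (p a)) := by
  obtain ⟨hq, -⟩ := PT_blk hw (PT.const 0)
  have hN : PT (fun a => p a + 1) := PT.succ hp
  -- the start
  have hz : PT (fun a => i1b_win (fun k => blk (w a) (hd (w a) * hd (w a) + inik (x a) k)) (hd (w a))
      (p a + 1) 0) := by
    have hw1 : PT (fun y : α × ℕ => w y.1) := PT.comp (g := fun a => w a) hw PT.fst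
    have hx1 : PT (fun y : α × ℕ => x y.1) := PT.comp (g := fun a => x a) hx PT.fst
    have hq1 : PT (fun y : α × ℕ => hd (w y.1)) := PT.comp (g := fun a => hd (w a)) hq PT.fst
    have h1 : PT (fun y : α × ℕ => blk (w y.1) (hd (w y.1) * hd (w y.1) + inik (x y.1) y.2)) :=
      (PT_blk hw1 (PT.add (PT.mul hq1 hq1) (i1b_inik hx1 PT.snd))).2
    refine (PT.flatMap hN (i1b_ub hq1 h1)).congr fun a => ?_
    unfold i1b_win
    apply List.flatMap_congr
    intro j _
    rw [Nat.zero_add]
  -- the step
  have hg : PT (fun y : α × (ℕ × List Bool) => y.2.2.drop (hd (w y.1)) ++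
      ub (hd (w y.1)) (blk (w y.1)
        ((if y.2.1 % (p y.1 + 1) = 0 then blk (w y.1) (hd (w y.1) * hd (w y.1) + 6) else
          (List.range (hd (w y.1))).countP fun j =>
            y.2.2.getD (p y.1 * hd (w y.1) + j) false) * hd (w y.1) +
        (List.range (hd (w y.1))).countP fun j => y.2.2.getD (0 * hd (w y.1) + j) false))) := by
    have hw1 : PT (fun y : α × (ℕ × List Bool) => w y.1) := PT.comp (g := fun a => w a) hw PT.fst
    have hp1 : PT (fun y : α × (ℕ × List Bool) => p y.1) := PT.comp (g := fun a => p a) hp PT.fst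
    have hq1 : PT (fun y : α × (ℕ × List Bool) => hd (w y.1)) :=
      PT.comp (g := fun a => hd (w a)) hq PT.fst
    have hi1 : PT (fun y : α × (ℕ × List Bool) => y.2.1) := PT.fst' PT.snd
    have hl1 : PT (fun y : α × (ℕ × List Bool) => y.2.2) := PT.snd' PT.snd
    refine PT.append (PT.drop hl1 hq1) (i1b_ub hq1 (PT_blk hw1 (PT.add (PT.mul (PT.ite
      (PT.isZero (PT.mod hi1 (PT.succ hp1))) ?_ ?_) hq1) ?_)).2)
    · exact (PT_blk hw1 (PT.add (PT.mul hq1 hq1) (PT.const 6))).2
    · exact i1b_read hq1 hp1 hl1
    · exact i1b_read hq1 (PT.const 0) hl1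
  have key : ∀ a i, (Nat.rec (motive := fun _ => List Bool)
      (i1b_win (fun k => blk (w a) (hd (w a) * hd (w a) + inik (x a) k)) (hd (w a)) (p a + 1) 0)
      (fun i s => s.drop (hd (w a)) ++ ub (hd (w a)) (blk (w a)
        ((if i % (p a + 1) = 0 then blk (w a) (hd (w a) * hd (w a) + 6) else
          (List.range (hd (w a))).countP fun j => s.getD (p a * hd (w a) + j) false) * hd (w a) +
        (List.range (hd (w a))).countP fun j => s.getD (0 * hd (w a) + j) false))) i : List Bool) =
      i1b_win (sq (w a) (x a) (p a + 1)) (hd (w a)) (p a + 1) i := by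
    intro a i
    induction i with
    | zero =>
      show i1b_win _ _ _ 0 = _
      unfold i1b_win
      apply List.flatMap_congr
      intro j hj
      rw [List.mem_range] at hj
      congr 1
      unfold sq
      rw [Nat.zero_add, if_pos hj]
    | succ i ih =>
      show (List.drop _ _ ++ ub _ _ : List Bool) = _
      rw [ih]
      rw [i1b_win_read _ _ _ _ _ (Nat.lt_succ_self (p a)) (i1b_sq_le _ _ _),
        i1b_win_read _ _ _ _ _ (Nat.succ_pos (p a)) (i1b_sq_le _ _ _),
        i1b_win_succ _ _ _ _ (Nat.succ_pos (p a)) (i1b_sq_le _ _ _),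
        sq_rec _ _ _ _ (Nat.succ_pos (p a))]
      rfl
  obtain ⟨Q, hQ⟩ := hq.size
  obtain ⟨R, hR⟩ := hN.size
  have hn : PT (fun a => (t a + 1) * (p a + 1) + p a) := PT.add (PT.mul (PT.succ ht) hN) hp
  have hrec := PT.natRec hn hz hg (R * Q) (by
    intro a i _
    rw [key a i, sz_list]
    unfold i1b_win
    rw [i1a_length_blocks _ (hd (w a)) (fun j => i1a_length_ub _ _ (i1b_sq_le _ _ _ _)),
      Polynomial.eval_mul]
    have h1 := hQ a
    have h2 := hR a
    rw [sz_nat] at h1 h2
    exact Nat.mul_le_mul h2 h1)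
  refine (i1b_read hq (PT.const 0) hrec).congr fun a => ?_
  rw [key, i1b_win_read _ _ _ _ _ (Nat.succ_pos (p a)) (i1b_sq_le _ _ _)]
  unfold sq
  have h1 : ¬ (t a + 1) * (p a + 1) + p a + 0 < p a + 1 := by
    have : p a + 1 ≤ (t a + 1) * (p a + 1) := Nat.le_mul_of_pos_left _ (Nat.succ_pos _)
    omega
  have e1 : ((t a + 1) * (p a + 1) + p a + 0) / (p a + 1) - 1 = t a := by
    rw [Nat.add_zero, Nat.add_comm, Nat.add_mul_div_right _ _ (Nat.succ_pos _),
      Nat.div_eq_of_lt (Nat.lt_succ_self _)]
    omega
  have e2 : ((t a + 1) * (p a + 1) + p a + 0) % (p a + 1) = p a := by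
    rw [Nat.add_zero, Nat.add_comm, Nat.add_mul_mod_self_right, Nat.mod_eq_of_lt
      (Nat.lt_succ_self _)]
  rw [if_neg h1, e1, e2]

end i1

/-! ### module i2: exponential time machines -/

section i2

/-- i2. The proof of `Pool.NPC.polyTime_of_exec` with another time bound. -/
theorem time_of_exec (c : Cmd) (f : List Bool → List Bool) (T : ℕ → ℕ)
    (h : ∀ x : List Bool, ∃ t ≤ T x.length,
      Exec c (Function.update (fun _ => []) 0 x) (Function.update (fun _ => []) 1 (f x)) t) :
    ∃ M : TM2ComputableInTime (id : List Bool → List Bool) (id : List Bool → List Bool) f,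
      M.time = fun n => T n + 1 := by
  have key0 : ∀ x : List Bool, ∃ t ≤ T x.length,
      Reach (machine c c.maxReg).m (t + 1)
        (initList (machine c c.maxReg) (List.map (Equiv.refl _).invFun (id x)))
        (haltList (machine c c.maxReg) (List.map (Equiv.refl _).invFun (id (f x)))) := by
    intro x
    obtain ⟨t, ht, hE⟩ := h x
    have hr := code_correct (c.maxReg + 1) (machine c c.maxReg).m hE (by omega) some none
      (fun p => rfl) none
    obtain ⟨v', hv'⟩ := hr
    have hr2 : Reach (machine c c.maxReg).m (t + 1)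
        ⟨some (some c.entry), none, res (c.maxReg + 1) (Function.update (fun _ => []) 0 x)⟩
        ⟨none, none, res (c.maxReg + 1) (Function.update (fun _ => []) 1 (f x))⟩ := by
      refine hv'.trans (Reach.one ?_)
      rfl
    refine ⟨t, ht, ?_⟩
    have e1 : initList (machine c c.maxReg) (List.map (Equiv.refl _).invFun (id x)) =
      ⟨some (some c.entry), none, res (c.maxReg + 1) (Function.update (fun _ => []) 0 x)⟩ := by
      have key : ∀ k : Fin (c.maxReg + 1 + 1),
          (initList (machine c c.maxReg) (List.map (Equiv.refl _).invFun (id x))).stk k =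
            res (c.maxReg + 1) (Function.update (fun _ => []) 0 x) k := by
        intro k
        by_cases hk : k = 0
        · subst hk
          have : (initList (machine c c.maxReg) (List.map (Equiv.refl _).invFun (id x))).stk
            (0 : Fin (c.maxReg + 1 + 1)) = List.map (Equiv.refl _).invFun (id x) :=
            initList_stk_self _ _
          rw [this]
          show List.map id x = _
          rw [List.map_id]
          simp [res]
        · have : (initList (machine c c.maxReg) (List.map (Equiv.refl _).invFun (id x))).stk k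
              = [] := initList_stk_ne _ _ _ hk
          rw [this]
          have hk' : k.val ≠ 0 := fun h0 => hk (Fin.ext h0)
          simp only [res]
          rw [Function.update_of_ne hk']
          rfl
      have : (initList (machine c c.maxReg) (List.map (Equiv.refl _).invFun (id x))).stk =
          res (c.maxReg + 1) (Function.update (fun _ => []) 0 x) := funext key
      rw [← this]
      rfl
    have e2 : haltList (machine c c.maxReg) (List.map (Equiv.refl _).invFun (id (f x))) =
      ⟨none, none, res (c.maxReg + 1) (Function.update (fun _ => []) 1 (f x))⟩ := by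
      have key : ∀ k : Fin (c.maxReg + 1 + 1),
          (haltList (machine c c.maxReg) (List.map (Equiv.refl _).invFun (id (f x)))).stk k =
            res (c.maxReg + 1) (Function.update (fun _ => []) 1 (f x)) k := by
        intro k
        by_cases hk : k = 1
        · subst hk
          have : (haltList (machine c c.maxReg) (List.map (Equiv.refl _).invFun (id (f x)))).stk
            (1 : Fin (c.maxReg + 1 + 1)) = List.map (Equiv.refl _).invFun (id (f x)) :=
            haltList_stk_self _ _
          rw [this]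
          show List.map id (f x) = _
          rw [List.map_id]
          simp [res]
        · have : (haltList (machine c c.maxReg) (List.map (Equiv.refl _).invFun (id (f x)))).stk k
              = [] := haltList_stk_ne _ _ _ hk
          rw [this]
          have hk' : k.val ≠ 1 := fun h0 => hk (Fin.ext (by rw [h0]; simp))
          simp only [res]
          rw [Function.update_of_ne hk']
          rfl
      have : (haltList (machine c c.maxReg) (List.map (Equiv.refl _).invFun (id (f x)))).stk =
          res (c.maxReg + 1) (Function.update (fun _ => []) 1 (f x)) := funext key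
      rw [← this]
      rfl
    rw [e1, e2]
    exact hr2
  choose t ht hE using key0
  refine ⟨{ tm := machine c c.maxReg
            inputAlphabet := Equiv.refl _
            outputAlphabet := Equiv.refl _
            time := fun n => T n + 1
            outputsFun := fun x => ⟨⟨t x + 1, hE x⟩, ?_⟩ }, rfl⟩
  show t x + 1 ≤ T (id x).length + 1
  have := ht x
  simp only [id]
  omega

private theorem i2b_two_pow_le (n : ℕ) : n ≤ 2 ^ n := le_of_lt Nat.lt_two_pow_self

/-- i2. A program writing `2 ^ x.length` ones: `copy` the input to a work register, push one `true`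
to the register `r`, and for every symbol of the copy double the contents of `r` (loop: for every
symbol push two symbols to another register, then `pour` back). -/
theorem exists_pad : ∃ (c : Cmd) (k : ℕ), ∀ (x : List Bool) (S : State), S 0 = x →
    (∀ r, 1 ≤ r → S r = []) →
    ExecLe c S (Function.update S 3 (List.replicate (2 ^ x.length) true)) (k * 2 ^ (2 * x.length)) := by
  let body : Cmd := .seq (.loop 3 fun _ => .seq (.push 6 true) (.push 6 true)) (pour 6 3)
  refine ⟨.seq (copy 0 4 5) (.seq (.push 3 true) (.loop 4 fun _ => body)), 20, fun x S hS0 hS => ?_⟩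
  obtain ⟨S1, h1, h2, h3⟩ := execLe_copy 0 4 5 (by omega) (by omega) (by omega) S (hS 5 (by omega))
  rw [hS 4 (by omega), List.append_nil, hS0] at h2
  have h4 := execLe_push 3 true S1
  have hbody : ∀ (s : ℕ) (b : Bool) (l : List Bool) (S2 : State),
      (S2 4 = b :: l ∧ S2 3 = List.replicate (2 ^ s) true ∧ s + (b :: l).length = x.length ∧
        S2 6 = [] ∧ ∀ r, r ≠ 3 → r ≠ 4 → S2 r = S r) →
      ∃ S', ExecLe body (Function.update S2 4 l) S' (9 * 2 ^ x.length) ∧
        (S' 4 = l ∧ S' 3 = List.replicate (2 ^ (s + 1)) true ∧ s + 1 + l.length = x.length ∧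
          S' 6 = [] ∧ ∀ r, r ≠ 3 → r ≠ 4 → S' r = S r) := by
    rintro s b l S2 ⟨g1, g2, g3, g4, g5⟩
    obtain ⟨S3, k1, k2, k3, k4⟩ := execLe_loop (σ := ℕ) (r := 3)
      (c := fun _ => Cmd.seq (.push 6 true) (.push 6 true)) (fun s' _ => s' + 1)
      (fun s' l' S4 => S4 3 = l' ∧ S4 6 = List.replicate (2 * s') true ∧
        ∀ r, r ≠ 3 → r ≠ 6 → S4 r = (Function.update S2 4 l) r) 2
      (fun s' l' S4 h => h.1)
      (fun s' b' l' S4 h => ⟨_, (execLe_push _ _ _).seq (execLe_push _ _ _), by
        refine ⟨?_, ?_, ?_⟩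
        · rw [Function.update_of_ne (by omega), Function.update_of_ne (by omega),
            Function.update_self]
        · rw [Function.update_self, Function.update_self, Function.update_of_ne (by omega), h.2.1]
          rw [show 2 * (s' + 1) = 2 * s' + 1 + 1 by ring, List.replicate_succ, List.replicate_succ]
        · intro r hr3 hr6
          rw [Function.update_of_ne hr6, Function.update_of_ne hr6, Function.update_of_ne hr3,
            h.2.2 r hr3 hr6]⟩)
      (List.replicate (2 ^ s) true) 0 (Function.update S2 4 l)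
      ⟨by rw [Function.update_of_ne (by omega), g2],
        by rw [Function.update_of_ne (by omega), g4]; rfl, fun r _ _ => rfl⟩
    have hfold : ∀ (l : List Bool) (m : ℕ), l.foldl (fun s' _ => s' + 1) m = m + l.length := by
      intro l
      induction l with
      | nil => intro m; rfl
      | cons y l ih => intro m; rw [List.foldl_cons, ih, List.length_cons]; omega
    rw [hfold, List.length_replicate, Nat.zero_add] at k3
    obtain ⟨S4, q1, q2, q3, q4⟩ := execLe_pour 6 3 (by omega) S3
    rw [k3, k2, List.append_nil, List.reverse_replicate] at q3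
    rw [List.length_replicate] at k1
    rw [k3, List.length_replicate] at q1
    have hle : s + 1 ≤ x.length := by
      rw [List.length_cons] at g3
      omega
    have hpow : 2 * 2 ^ s ≤ 2 ^ x.length := by
      rw [← pow_succ']
      exact Nat.pow_le_pow_right (by omega) hle
    have hone : 1 ≤ 2 ^ s := Nat.one_le_two_pow
    refine ⟨S4, (k1.seq q1).mono (by omega), ?_, ?_, ?_, q2, ?_⟩
    · rw [q4 4 (by omega) (by omega), k4 4 (by omega) (by omega), Function.update_self]
    · rw [q3, ← pow_succ']
    · rw [List.length_cons] at g3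
      omega
    · intro r hr3 hr4
      by_cases hr6 : r = 6
      · rw [hr6, q2, ← g5 6 (by omega) (by omega), g4]
      · rw [q4 r hr6 hr3, k4 r hr3 hr6, Function.update_of_ne hr4, g5 r hr3 hr4]
  obtain ⟨S2, k1, k2, k3, k4, k5, k6⟩ := execLe_loop (σ := ℕ) (r := 4) (c := fun _ => body)
    (fun s _ => s + 1)
    (fun s l S2 => S2 4 = l ∧ S2 3 = List.replicate (2 ^ s) true ∧ s + l.length = x.length ∧
      S2 6 = [] ∧ ∀ r, r ≠ 3 → r ≠ 4 → S2 r = S r) (9 * 2 ^ x.length)
    (fun s l S2 h => h.1) hbody x 0 (Function.update S1 3 (true :: S1 3))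
    ⟨by rw [Function.update_of_ne (by omega), h2], by
      rw [Function.update_self, h3 3 (by omega), hS 3 (by omega)]; rfl, by omega, by
      rw [Function.update_of_ne (by omega), h3 6 (by omega), hS 6 (by omega)], fun r hr3 hr4 => by
      rw [Function.update_of_ne hr3, h3 r hr4]⟩
  have hfold : ∀ (l : List Bool) (m : ℕ), l.foldl (fun s' _ => s' + 1) m = m + l.length := by
    intro l
    induction l with
    | nil => intro m; rfl
    | cons y l ih => intro m; rw [List.foldl_cons, ih, List.length_cons]; omega
  rw [hfold, Nat.zero_add] at k3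
  have he : S2 = Function.update S 3 (List.replicate (2 ^ x.length) true) := by
    funext r
    by_cases hr3 : r = 3
    · rw [hr3, k3, Function.update_self]
    · rw [Function.update_of_ne hr3]
      by_cases hr4 : r = 4
      · rw [hr4, k2, hS 4 (by omega)]
      · exact k6 r hr3 hr4
  rw [← he]
  refine (h1.seq (h4.seq k1)).mono ?_
  rw [hS0]
  set n := x.length with hn
  have hn2 : n ≤ 2 ^ n := i2b_two_pow_le n
  have hone : 1 ≤ 2 ^ n := Nat.one_le_two_pow
  have hsq : 2 ^ (2 * n) = 2 ^ n * 2 ^ n := by rw [two_mul, pow_add]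
  rw [hsq]
  have e1 : n * (9 * 2 ^ n + 1) ≤ 2 ^ n * (9 * 2 ^ n + 1) := Nat.mul_le_mul_right _ hn2
  have e2 : 2 ^ n * 1 ≤ 2 ^ n * 2 ^ n := Nat.mul_le_mul_left _ hone
  have e3 : 2 ^ n * (9 * 2 ^ n + 1) = 9 * (2 ^ n * 2 ^ n) + 2 ^ n := by ring
  omega

private theorem i2a_eval_le (P : Polynomial ℕ) :
    ∃ c D : ℕ, ∀ m, P.eval m ≤ c * (m + 1) ^ D := by
  refine ⟨(P.support.sum fun i => P.coeff i), P.natDegree, fun m => ?_⟩
  rw [Polynomial.eval_eq_sum, Polynomial.sum, Finset.sum_mul]
  refine Finset.sum_le_sum fun i hi => Nat.mul_le_mul_left _ ?_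
  calc m ^ i ≤ (m + 1) ^ i := Nat.pow_le_pow_left (by omega) _
    _ ≤ (m + 1) ^ P.natDegree :=
      Nat.pow_le_pow_right (by omega) (Polynomial.le_natDegree_of_mem_supp i hi)

/-- i2. -/
theorem exists_expBound (P : Polynomial ℕ) (k : ℕ) :
    ∃ p : Polynomial ℕ, ∀ n, P.eval (n + 2 ^ n) + k * 2 ^ (2 * n) ≤ 2 ^ p.eval n := by
  obtain ⟨c, D, hc⟩ := i2a_eval_le P
  refine ⟨Polynomial.C (c + k) + (Polynomial.X + 1) * Polynomial.C D +
    Polynomial.C 2 * Polynomial.X, fun n => ?_⟩
  simp only [Polynomial.eval_add, Polynomial.eval_mul, Polynomial.eval_C, Polynomial.eval_X,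
    Polynomial.eval_one]
  have h1 : n + 2 ^ n + 1 ≤ 2 ^ (n + 1) := by
    have : n < 2 ^ n := Nat.lt_two_pow_self
    rw [pow_succ]
    omega
  have h2 : P.eval (n + 2 ^ n) ≤ c * 2 ^ ((n + 1) * D) := by
    refine (hc _).trans (Nat.mul_le_mul_left _ ?_)
    rw [pow_mul]
    exact Nat.pow_le_pow_left h1 _
  have h3 : c + k ≤ 2 ^ (c + k) := le_of_lt Nat.lt_two_pow_self
  have h4 : 1 ≤ 2 ^ (2 * n) := Nat.one_le_two_pow
  have h5 : 1 ≤ 2 ^ ((n + 1) * D) := Nat.one_le_two_pow
  calc P.eval (n + 2 ^ n) + k * 2 ^ (2 * n)
      ≤ c * 2 ^ ((n + 1) * D) + k * 2 ^ (2 * n) := Nat.add_le_add_right h2 _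
    _ ≤ c * (2 ^ ((n + 1) * D) * 2 ^ (2 * n)) + k * (2 ^ ((n + 1) * D) * 2 ^ (2 * n)) := by
        apply Nat.add_le_add
        · exact Nat.mul_le_mul_left _ (Nat.le_mul_of_pos_right _ h4)
        · exact Nat.mul_le_mul_left _ (Nat.le_mul_of_pos_left _ h5)
    _ = (c + k) * (2 ^ ((n + 1) * D) * 2 ^ (2 * n)) := by ring
    _ ≤ 2 ^ (c + k) * (2 ^ ((n + 1) * D) * 2 ^ (2 * n)) := Nat.mul_le_mul_right _ h3
    _ = 2 ^ (c + k + (n + 1) * D + 2 * n) := by rw [pow_add, pow_add]; ring

/-- i2. `exists_pad`, then the program of `F` (`PTc` with sources `.pair (.leaf 0) (.leaf 3)`,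
destination `.leaf 1`), then `clear 0`, `clear 3` (compare the proof of `PT.polyTime`);
`time_of_exec` for `x ↦ [F (x, 2 ^ x.length)]`, `exists_expBound`. -/
theorem InEXP.of_pad (F : List Bool × ℕ → Bool) (hF : PT F) :
    InEXP {x | F (x, 2 ^ x.length) = true} := by
  obtain ⟨P, hP⟩ := hF
  obtain ⟨cp, k, hcp⟩ := exists_pad
  obtain ⟨c, hc⟩ := hP (.pair (.leaf 0) (.leaf 3)) (.leaf 1) 4 rfl rfl
    ⟨by simp [Tr.leaves], by simp [Tr.leaves], by simp [Tr.leaves], by simp [Tr.leaves]⟩
  have hex : ∀ x : List Bool, ∃ t ≤ k * 2 ^ (2 * x.length) + (P.eval (x.length + 2 ^ x.length) +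
      ((2 * x.length + 1) + (2 * 2 ^ x.length + 1))),
      Exec (.seq cp (.seq c (.seq (clear 0) (clear 3)))) (Function.update (fun _ => []) 0 x)
        (Function.update (fun _ => []) 1 [F (x, 2 ^ x.length)]) t := by
    intro x
    set S0 : State := Function.update (fun _ => []) 0 x with hS0
    have k1 := hcp x S0 (by rw [hS0, Function.update_self])
      (fun r hr => by rw [hS0, Function.update_of_ne (by omega)])
    set S1 : State := Function.update S0 3 (List.replicate (2 ^ x.length) true) with hS1
    have h10 : S1 0 = x := by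
      rw [hS1, Function.update_of_ne (by omega), hS0, Function.update_self]
    have h13 : S1 3 = List.replicate (2 ^ x.length) true := by rw [hS1, Function.update_self]
    obtain ⟨S2, k2, k3, k4⟩ := hc (x, 2 ^ x.length) S1 ⟨h10, h13⟩
      (fun r hr => by
        simp only [Tr.leaves, List.mem_singleton] at hr
        rw [hr, hS1, Function.update_of_ne (by omega), hS0, Function.update_of_ne (by omega)])
      (fun r hr => by
        rw [hS1, Function.update_of_ne (by omega), hS0, Function.update_of_ne (by omega)])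
    have h20 : S2 0 = x := by rw [k4 0 (by simp [Tr.leaves]), h10]
    have h23 : S2 3 = List.replicate (2 ^ x.length) true := by
      rw [k4 3 (by simp [Tr.leaves]), h13]
    have h21 : S2 1 = [F (x, 2 ^ x.length)] := k3
    have k5 := execLe_clear 0 S2
    have k6 := execLe_clear 3 (Function.update S2 0 [])
    rw [h20] at k5
    rw [Function.update_of_ne (by omega), h23, List.length_replicate] at k6
    rw [sz_prod, sz_list, sz_nat] at k2
    have e : Function.update (Function.update S2 0 []) 3 [] =
        Function.update (fun _ => []) 1 [F (x, 2 ^ x.length)] := by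
      funext r
      by_cases hr3 : r = 3
      · rw [hr3, Function.update_self, Function.update_of_ne (by omega)]
      · rw [Function.update_of_ne hr3]
        by_cases hr0 : r = 0
        · rw [hr0, Function.update_self, Function.update_of_ne (by omega)]
        · rw [Function.update_of_ne hr0]
          by_cases hr1 : r = 1
          · rw [hr1, h21, Function.update_self]
          · rw [k4 r (by simpa [Tr.leaves] using hr1), hS1, Function.update_of_ne hr3, hS0,
              Function.update_of_ne hr0, Function.update_of_ne hr1]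
    rw [← e]
    exact k1.seq (k2.seq (k5.seq k6))
  obtain ⟨M, hM⟩ := time_of_exec _ (fun x => [F (x, 2 ^ x.length)])
    (fun n => k * 2 ^ (2 * n) + (P.eval (n + 2 ^ n) + ((2 * n + 1) + (2 * 2 ^ n + 1)))) hex
  obtain ⟨p, hp⟩ := exists_expBound (P + (Polynomial.C 2 * Polynomial.X + Polynomial.C 3)) k
  refine ⟨fun x => F (x, 2 ^ x.length), p, ⟨M.toTM2ComputableAux, M.time, fun x => M.outputsFun x⟩,
    fun n => ?_, fun x => Iff.rfl⟩
  show M.time n ≤ _
  rw [hM]
  refine le_trans ?_ (hp n)
  simp only [Polynomial.eval_add, Polynomial.eval_mul, Polynomial.eval_C, Polynomial.eval_X]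
  omega

end i2

private theorem i3_getD_body (q : ℕ) (d : ℕ → ℕ → ℕ) (z : ℕ → ℕ) (L n : ℕ) :
    (tcode q d z L).getD (q + 1 + n) false =
      ((List.range (q * q)).flatMap (fun i => ub q (d (i / q) (i % q))) ++
        ((List.range 8).flatMap (fun k => ub q (z k)) ++ List.replicate L false)).getD n false := by
  unfold tcode
  rw [List.append_assoc, List.append_assoc]
  rw [List.getD_append_right _ _ _ _ (by simp)]
  congr 1
  simp

/-- the table part with the lengths corrected outside the range -/
private theorem i3_cut (q : ℕ) (f : ℕ → ℕ) (M : ℕ) (hf : ∀ i < M, f i ≤ q) :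
    (List.range M).flatMap (fun i => ub q (f i)) =
      (List.range M).flatMap (fun i => ub q (min (f i) q)) := by
  apply List.flatMap_congr
  intro i hi
  rw [List.mem_range] at hi
  rw [min_eq_left (hf i hi)]

private theorem i3_blocks (q : ℕ) (f : ℕ → ℕ) (M b j : ℕ) (hf : ∀ i < M, f i ≤ q) (hb : b < M)
    (hj : j < q) :
    ((List.range M).flatMap (fun i => ub q (f i))).getD (b * q + j) false = decide (j < f b) := by
  rw [i3_cut q f M hf, i1a_getD_blocks (fun i => ub q (min (f i) q)) q
    (fun i => i1a_length_ub q _ (min_le_right _ _)) M b j hb hj, i1a_getD_ub,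
    min_eq_left (hf b hb)]

private theorem i3_len (q : ℕ) (f : ℕ → ℕ) (M : ℕ) (hf : ∀ i < M, f i ≤ q) :
    ((List.range M).flatMap (fun i => ub q (f i))).length = M * q := by
  rw [i3_cut q f M hf, i1a_length_blocks _ q (fun i => i1a_length_ub q _ (min_le_right _ _))]

private theorem i3_hd (q : ℕ) (l : List Bool) :
    hd (List.replicate q true ++ (false :: l)) = q := by
  unfold hd
  have hlen : q ≤ (List.replicate q true ++ (false :: l)).length := by
    rw [List.length_append, List.length_replicate]
    omega
  have e : ∀ i, ((List.range (i + 1)).all fun j =>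
      (List.replicate q true ++ (false :: l)).getD j false) = decide (i < q) := by
    intro i
    by_cases h : i < q
    · rw [decide_eq_true h, List.all_eq_true]
      intro j hj
      rw [List.mem_range] at hj
      rw [List.getD_append _ _ _ _ (by rw [List.length_replicate]; omega),
        List.getD_eq_getElem?_getD, List.getElem?_replicate, if_pos (by omega)]
      rfl
    · rw [decide_eq_false h, Bool.eq_false_iff]
      intro hall
      rw [List.all_eq_true] at hall
      have h1 := hall q (List.mem_range.2 (by omega))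
      rw [List.getD_append_right _ _ _ _ (by rw [List.length_replicate])] at h1
      simp at h1
  simp only [e]
  exact i1a_count_lt _ _ hlen

/-! ### module i3: strings of table machines -/

section i3

variable (q : ℕ) (d : ℕ → ℕ → ℕ) (z : ℕ → ℕ) (L : ℕ)

/-- i3. -/
theorem hd_tcode : hd (tcode q d z L) = q := by
  unfold tcode
  rw [List.append_assoc, List.append_assoc, List.append_assoc, List.singleton_append]
  exact i3_hd q _

/-- i3. -/
theorem blk_tcode (hd' : ∀ l < q, ∀ u < q, d l u ≤ q) (l u : ℕ) (hl : l < q) (hu : u < q)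
    (hz : ∀ k < 8, z k ≤ q) : blk (tcode q d z L) (l * q + u) = d l u := by
  have hb : l * q + u < q * q := by
    calc l * q + u < l * q + q := by omega
      _ = (l + 1) * q := by ring
      _ ≤ q * q := Nat.mul_le_mul_right _ (by omega)
  have hf : ∀ i < q * q, d (i / q) (i % q) ≤ q := by
    intro i hi
    exact hd' _ (Nat.div_lt_of_lt_mul hi) _ (Nat.mod_lt _ (by omega))
  have e1 : (l * q + u) / q = l := by
    rw [Nat.add_comm, Nat.add_mul_div_right _ _ (by omega), Nat.div_eq_of_lt hu, Nat.zero_add]
  have e2 : (l * q + u) % q = u := by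
    rw [Nat.add_comm, Nat.add_mul_mod_self_right, Nat.mod_eq_of_lt hu]
  unfold blk
  rw [hd_tcode]
  refine Eq.trans ?_ (i1a_count_lt q (d l u) (hd' l hl u hu))
  apply List.countP_congr
  intro j hj
  rw [List.mem_range] at hj
  rw [Nat.add_assoc, i3_getD_body, List.getD_append _ _ _ _ (by
    rw [i3_len q (fun i => d (i / q) (i % q)) _ hf]
    calc (l * q + u) * q + j < (l * q + u) * q + q := by omega
      _ = (l * q + u + 1) * q := by ring
      _ ≤ q * q * q := Nat.mul_le_mul_right _ (by omega)),
    i3_blocks q (fun i => d (i / q) (i % q)) _ _ j hf hb hj, e1, e2]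

/-- i3. -/
theorem blk_tcode' (hd' : ∀ l < q, ∀ u < q, d l u ≤ q) (k : ℕ) (hk : k < 8)
    (hz : ∀ k < 8, z k ≤ q) : blk (tcode q d z L) (q * q + k) = z k := by
  have hf : ∀ i < q * q, d (i / q) (i % q) ≤ q := by
    intro i hi
    have hq : 0 < q := by
      rcases Nat.eq_zero_or_pos q with h | h
      · subst h
        simp at hi
      · exact h
    exact hd' _ (Nat.div_lt_of_lt_mul hi) _ (Nat.mod_lt _ hq)
  unfold blk
  rw [hd_tcode]
  refine Eq.trans ?_ (i1a_count_lt q (z k) (hz k hk))
  apply List.countP_congr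
  intro j hj
  rw [List.mem_range] at hj
  have hl := i3_len q (fun i => d (i / q) (i % q)) _ hf
  rw [Nat.add_assoc, i3_getD_body, List.getD_append_right _ _ _ _ (by
    rw [hl]
    calc q * q * q ≤ (q * q + k) * q := Nat.mul_le_mul_right _ (by omega)
      _ ≤ (q * q + k) * q + j := by omega), hl]
  have e : (q * q + k) * q + j - q * q * q = k * q + j := by
    have : (q * q + k) * q = q * q * q + k * q := by ring
    omega
  rw [e, List.getD_append _ _ _ _ (by
    rw [i3_len q z 8 hz]
    calc k * q + j < k * q + q := by omega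
      _ = (k + 1) * q := by ring
      _ ≤ 8 * q := Nat.mul_le_mul_right _ (by omega)),
    i3_blocks q z 8 k j hz hk hj]

/-- i3. -/
theorem length_tcode : L ≤ (tcode q d z L).length := by
  unfold tcode
  rw [List.length_append, List.length_replicate]
  omega

end i3

/-! ### module i4: table machines for row systems -/

section i4

variable {A : Set (List Bool)} {T : List Bool → ℕ} (W : RowSys A T) {q : ℕ} (e : Sy W.Z → Fin q)
  (δ : Fin q → Fin q → Fin q)

/-- the eight symbols of the row system -/
def zz : ℕ → ℕ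
  | 0 => e (ini (W.z0 none))
  | 1 => e (ini (W.z0 (some false)))
  | 2 => e (ini (W.z0 (some true)))
  | 3 => e (ini (W.z1 none))
  | 4 => e (ini (W.z1 (some false)))
  | 5 => e (ini (W.z1 (some true)))
  | 6 => e bot
  | _ => e none

/-- the table as a function on numbers -/
def dd : ℕ → ℕ → ℕ := fun l u => if h : l < q ∧ u < q then (δ ⟨l, h.1⟩ ⟨u, h.2⟩).val else 0

variable (hδ : ∀ l ∈ SyIn W.Q, ∀ u ∈ SyIn W.Q, dl W.G W.acc l u ∈ SyIn W.Q →
    δ (e l) (e u) = e (dl W.G W.acc l u))
include hδ

omit hδ in
private theorem i4_dd_le (l : ℕ) (hl : l < q) (u : ℕ) (hu : u < q) : dd δ l u ≤ q := by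
  unfold dd
  rw [dif_pos ⟨hl, hu⟩]
  exact le_of_lt (Fin.is_lt _)

omit hδ in
private theorem i4_zz_le (k : ℕ) (_ : k < 8) : zz W e k ≤ q := by
  unfold zz
  split <;> exact le_of_lt (Fin.is_lt _)

omit hδ in
private theorem i4_zz_inik (x : List Bool) (p : ℕ) :
    zz W e (inik x p) = (e (ini (W.R x 0 p))).val := by
  rw [W.R_zero]
  unfold inik
  by_cases hp : p = 0
  · subst hp
    rw [if_pos rfl, if_pos rfl]
    by_cases hx : 0 < x.length
    · rw [if_pos hx]
      have e1 : x[0]? = some x[0] := List.getElem?_eq_getElem hx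
      rw [List.getD_eq_getElem?_getD, e1]
      cases h : x[0] <;> simp [zz]
    · rw [if_neg hx]
      have e1 : x[0]? = none := List.getElem?_eq_none (by omega)
      rw [e1]
      rfl
  · rw [if_neg hp, if_neg hp]
    by_cases hx : p < x.length
    · rw [if_pos hx]
      have e1 : x[p]? = some x[p] := List.getElem?_eq_getElem hx
      rw [List.getD_eq_getElem?_getD, e1]
      cases h : x[p] <;> simp [zz]
    · rw [if_neg hx]
      have e1 : x[p]? = none := List.getElem?_eq_none (by omega)
      rw [e1]
      rfl

private theorem i4_nxt (L : ℕ) (x : List Bool) (t : ℕ) (up : ℕ → ℕ)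
    (hup : ∀ p, up p = (e (if t = 0 then ini (W.R x 0 p) else csym W.acc (W.R x) (t - 1) p)).val)
    (p : ℕ) :
    nxt (tcode q (dd δ) (zz W e) L) up p = (e (csym W.acc (W.R x) t p)).val := by
  have hq : hd (tcode q (dd δ) (zz W e) L) = q := hd_tcode _ _ _ _
  have hblk : ∀ l u : Fin q, blk (tcode q (dd δ) (zz W e) L) (l.val * q + u.val) = (δ l u).val := by
    intro l u
    rw [blk_tcode _ _ _ _ (fun l hl u hu => i4_dd_le δ l hl u hu) _ _ l.2 u.2
      (fun k hk => i4_zz_le W e k hk)]
    unfold dd
    rw [dif_pos ⟨l.2, u.2⟩]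
  have h6 : blk (tcode q (dd δ) (zz W e) L) (q * q + 6) = (e bot).val :=
    blk_tcode' _ _ _ _ (fun l hl u hu => i4_dd_le δ l hl u hu) 6 (by omega)
      (fun k hk => i4_zz_le W e k hk)
  have hmem : ∀ t p, csym W.acc (W.R x) t p ∈ SyIn W.Q :=
    fun t p => csym_mem W.acc (W.R x) (W.R_mem x) t p
  have hupm : ∀ p, (if t = 0 then ini (W.R x 0 p) else csym W.acc (W.R x) (t - 1) p) ∈ SyIn W.Q := by
    intro p
    by_cases ht : t = 0
    · rw [if_pos ht]
      exact ini_mem (W.R_mem x 0 p)
    · rw [if_neg ht]
      exact hmem _ _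
  have hrec := csym_rec W.G W.acc (W.R x) (W.R_succ x) t
  induction p with
  | zero =>
    show blk _ (blk _ (hd _ * hd _ + 6) * hd _ + up 0) = _
    rw [hq, h6, hup, hblk]
    have h1 := hrec 0
    rw [if_pos rfl] at h1
    rw [hδ _ (bot_mem _) _ (hupm 0) (by rw [← h1]; exact hmem _ _), ← h1]
  | succ p ih =>
    show blk _ (nxt _ up p * hd _ + up (p + 1)) = _
    rw [hq, ih, hup, hblk]
    have h1 := hrec (p + 1)
    rw [if_neg (Nat.succ_ne_zero p), Nat.add_sub_cancel] at h1
    rw [hδ _ (hmem _ _) _ (hupm (p + 1)) (by rw [← h1]; exact hmem _ _), ← h1]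

/-- i4. Induction on `t` and `p`: `csym_rec`, `csym_mem`, `ini_mem`, `bot_mem`, `blk_tcode`,
`blk_tcode'`, `hd_tcode`; `W.R_zero` and `inik` for the initial row. -/
theorem gw_tcode (L : ℕ) (x : List Bool) (t p : ℕ) :
    gw (tcode q (dd δ) (zz W e) L) x t p = (e (csym W.acc (W.R x) t p)).val := by
  induction t generalizing p with
  | zero =>
    show nxt _ _ p = _
    refine i4_nxt W e δ hδ L x 0 _ (fun p => ?_) p
    show blk _ (hd _ * hd _ + inik x p) = _
    have hin : inik x p < 8 := by
      unfold inik
      split <;> split <;> (try split) <;> omega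
    rw [hd_tcode, blk_tcode' _ _ _ _ (fun l hl u hu => i4_dd_le δ l hl u hu) _ hin
      (fun k hk => i4_zz_le W e k hk), i4_zz_inik]
    rfl
  | succ t ih =>
    show nxt _ _ p = _
    refine i4_nxt W e δ hδ L x (t + 1) _ (fun p => ?_) p
    rw [ih p]
    rfl

/-- i4. `csym_none`, `W.accept`, injectivity of `e`. -/
theorem table_accept (he : Set.InjOn e (SyIn W.Q)) (L : ℕ) (x : List Bool) (N : ℕ)
    (hN : T x + 2 ≤ N) :
    x ∈ A ↔ gw (tcode q (dd δ) (zz W e) L) x (N - 1) (N - 2) =
      blk (tcode q (dd δ) (zz W e) L) (q * q + 7) := by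
  have h7 : blk (tcode q (dd δ) (zz W e) L) (q * q + 7) = (e none).val :=
    blk_tcode' _ _ _ _ (fun l hl u hu => i4_dd_le δ l hl u hu) 7 (by omega)
      (fun k hk => i4_zz_le W e k hk)
  rw [h7, gw_tcode W e δ hδ L x, Fin.val_inj]
  have hn : (none : Sy W.Z) ∈ SyIn W.Q := by
    intro m hm
    cases hm
  have hm : csym W.acc (W.R x) (N - 1) (N - 2) ∈ SyIn W.Q :=
    csym_mem W.acc (W.R x) (W.R_mem x) _ _
  rw [he.eq_iff hm hn, csym_none, W.accept x (N - 2) (by omega)]
  constructor
  · rintro ⟨t, ht, ha⟩
    exact ⟨t, by omega, ht, ha⟩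
  · rintro ⟨t, -, ht, ha⟩
    exact ⟨t, ht, ha⟩

end i4

/-! ### module i5: P and the class `PT` -/

section i5

/-- i5. `rowSys_of_time`, `exists_table`, `table_accept` with `N = time * s + 2`, `PT_gw`. -/
theorem InP.pt {A : Set (List Bool)} (hA : InP A) :
    ∃ d : List Bool → Bool, PT d ∧ ∀ x, x ∈ A ↔ d x = true := by
  obtain ⟨V, ⟨M⟩, hV⟩ := hA
  obtain ⟨s, ⟨W⟩⟩ := rowSys_of_time A V M.toTM2ComputableInTime hV
  obtain ⟨q, hq, e, δ, he, hδ⟩ := exists_table (SyIn W.Q) (finite_SyIn W.fin) ⟨bot, bot_mem _⟩
    (dl W.G W.acc)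
  have hN : PT (fun x : List Bool => M.time.eval x.length * s + 2) :=
    PT.add (PT.mul (PT.polyEval M.time (PT.length PT.id)) (PT.const s)) (PT.const 2)
  refine ⟨fun x => decide (gw (tcode q (dd δ) (zz W e) 0) x (M.time.eval x.length * s + 2 - 1)
    (M.time.eval x.length * s + 2 - 2) = blk (tcode q (dd δ) (zz W e) 0) (q * q + 7)), ?_, ?_⟩
  · exact PT.eq (PT_gw (PT.const _) PT.id (PT.sub hN (PT.const 1)) (PT.sub hN (PT.const 2)))
      (PT.const _)
  · intro x
    rw [decide_eq_true_iff]
    exact table_accept W e δ hδ he 0 x (M.time.eval x.length * s + 2) le_rfl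

/-- i5. `PT.polyTime` for `x ↦ [d x]`. -/
theorem InP.of_pt {A : Set (List Bool)} (d : List Bool → Bool) (hd : PT d)
    (h : ∀ x, x ∈ A ↔ d x = true) : InP A := by
  obtain ⟨M⟩ := PT.polyTime (f := fun x => [d x]) (PT.cons hd (PT.const []))
  exact ⟨d, ⟨⟨M.toTM2ComputableAux, M.time, M.outputsFun⟩⟩, h⟩

end i5

/-! ### module i6: the hierarchy theorem -/

section i6

/-- the diagonal language -/
def diag : Set (List Bool) :=
  {w | gw w w (2 ^ w.length - 1) (2 ^ w.length - 2) ≠ blk w (hd w * hd w + 7)}

/-- i6. `InEXP.of_pad`, `PT_gw`, `PT_blk`. -/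
theorem diag_exp : InEXP diag := by
  have hF : PT (fun y : List Bool × ℕ =>
      !(decide (gw y.1 y.1 (y.2 - 1) (y.2 - 2) = blk y.1 (hd y.1 * hd y.1 + 7)))) := by
    have h1 : PT (fun y : List Bool × ℕ => y.1) := PT.fst
    have h2 : PT (fun y : List Bool × ℕ => y.2) := PT.snd
    have h3 : PT (fun y : List Bool × ℕ => hd y.1) := (PT_blk h1 h2).1
    have h4 : PT (fun y : List Bool × ℕ => blk y.1 (hd y.1 * hd y.1 + 7)) :=
      (PT_blk h1 (PT.add (PT.mul h3 h3) (PT.const 7))).2
    exact PT.not (PT.eq (PT_gw h1 h1 (PT.sub h2 (PT.const 1)) (PT.sub h2 (PT.const 2))) h4)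
  have h := InEXP.of_pad _ hF
  have he : diag = {x : List Bool | (fun y : List Bool × ℕ =>
      !(decide (gw y.1 y.1 (y.2 - 1) (y.2 - 2) = blk y.1 (hd y.1 * hd y.1 + 7))))
      (x, 2 ^ x.length) = true} := by
    ext x
    simp [diag]
  rw [he]
  exact h

private theorem i6a_poly (Q : Polynomial ℕ) :
    Filter.Tendsto (fun n : ℕ => ((Q.eval n : ℕ) : ℝ) / 2 ^ n) Filter.atTop (nhds 0) := by
  induction Q using Polynomial.induction_on' with
  | add p q hp hq =>
    have h := hp.add hq
    rw [add_zero] at h
    refine h.congr fun n => ?_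
    rw [Polynomial.eval_add, Nat.cast_add, add_div]
  | monomial k c =>
    have h := (tendsto_pow_const_div_const_pow_of_one_lt k (one_lt_two : (1 : ℝ) < 2)).const_mul
      (c : ℝ)
    rw [mul_zero] at h
    refine h.congr fun n => ?_
    rw [Polynomial.eval_monomial, Nat.cast_mul, Nat.cast_pow, mul_div_assoc]

private theorem i6a_large (P : Polynomial ℕ) (s : ℕ) :
    ∃ n0, ∀ n ≥ n0, P.eval n * s + 2 ≤ 2 ^ n := by
  have h := i6a_poly (P * Polynomial.C s + Polynomial.C 2)
  have h1 := h.eventually (gt_mem_nhds (zero_lt_one : (0 : ℝ) < 1))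
  obtain ⟨n0, hn0⟩ := Filter.eventually_atTop.mp h1
  refine ⟨n0, fun n hn => ?_⟩
  have h2 := hn0 n hn
  rw [div_lt_one (by positivity)] at h2
  have h3 : (P * Polynomial.C s + Polynomial.C 2).eval n < 2 ^ n := by exact_mod_cast h2
  rw [Polynomial.eval_add, Polynomial.eval_mul, Polynomial.eval_C, Polynomial.eval_C] at h3
  exact h3.le

/-- i6. If `diag` is in P then by `rowSys_of_time` and `exists_table` there is a table machine; for
`w = tcode q (dd δ) (zz W e) L` with `L` so large that `time * s + 2 ≤ 2 ^ w.length` (the time is a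
polynomial of `w.length = L + const`), `table_accept` with `x = w` contradicts the definition. -/
theorem diag_not_p : ¬ InP diag := by
  rintro ⟨V, ⟨M⟩, hV⟩
  obtain ⟨s, ⟨W⟩⟩ := rowSys_of_time diag V M.toTM2ComputableInTime hV
  obtain ⟨q, hq, e, δ, he, hδ⟩ := exists_table (SyIn W.Q) (finite_SyIn W.fin) ⟨bot, bot_mem _⟩
    (dl W.G W.acc)
  obtain ⟨L, hL⟩ := i6a_large M.time s
  have h1 := table_accept W e δ hδ he L (tcode q (dd δ) (zz W e) L)
    (2 ^ (tcode q (dd δ) (zz W e) L).length) (hL _ (length_tcode q (dd δ) (zz W e) L))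
  have h2 : hd (tcode q (dd δ) (zz W e) L) = q := hd_tcode q (dd δ) (zz W e) L
  have h3 : tcode q (dd δ) (zz W e) L ∈ diag ↔
      gw (tcode q (dd δ) (zz W e) L) (tcode q (dd δ) (zz W e) L)
        (2 ^ (tcode q (dd δ) (zz W e) L).length - 1)
        (2 ^ (tcode q (dd δ) (zz W e) L).length - 2) ≠
      blk (tcode q (dd δ) (zz W e) L) (q * q + 7) := by
    show _ ≠ blk (tcode q (dd δ) (zz W e) L) (hd (tcode q (dd δ) (zz W e) L) *
      hd (tcode q (dd δ) (zz W e) L) + 7) ↔ _
    rw [h2]
  tauto

/-- i6. `reduction`, `InP.pt`, `InP.of_pt`, `diag_exp`, `diag_not_p`; the code of an instance which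
is valid and (not) non-contextual is in `EXT` (`CON`) and conversely by `code_inj`. -/
theorem ext_not_p : ¬ InP EXT := by
  intro hP
  obtain ⟨d, hd, hd'⟩ := hP.pt
  obtain ⟨I, hI, hI'⟩ := reduction diag diag_exp
  refine diag_not_p (InP.of_pt (fun x => d (I x).code) (PT.comp hd hI) fun x => ?_)
  obtain ⟨h1, _, h3⟩ := hI' x
  rw [h3, ← hd']
  constructor
  · intro h4
    exact ⟨I x, rfl, h1, h4⟩
  · rintro ⟨J, hJ, _, hJ2⟩
    rw [← code_inj hJ]
    exact hJ2

/-- i6. The same with the complement of `diag` (`InEXP.compl`). -/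
theorem con_not_p : ¬ InP CON := by
  intro hP
  obtain ⟨d, hd, hd'⟩ := hP.pt
  obtain ⟨I, hI, hI'⟩ := reduction diag diag_exp
  refine diag_not_p (InP.of_pt (fun x => !(d (I x).code)) (PT.not (PT.comp hd hI)) fun x => ?_)
  obtain ⟨h1, _, h3⟩ := hI' x
  have h4 : (I x).code ∈ CON ↔ ¬ (I x).NonContextual := by
    constructor
    · rintro ⟨J, hJ, _, hJ2⟩
      rw [← code_inj hJ]
      exact hJ2
    · intro h5
      exact ⟨I x, rfl, h1, h5⟩
  have h5 := hd' (I x).code
  rw [h4] at h5
  rw [h3]
  cases h6 : d (I x).code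
  · rw [h6] at h5
    simpa using h5
  · rw [h6] at h5
    simpa using h5

end i6

end Pool.PmX
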