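import Pool.Agent.PmX.Lang

/-!
# The encoding of instances is injective
-/

namespace Pool.PmX

/-- l1. -/
theorem encBits_inj {l l' s s' : List Bool} (h : encBits l ++ s = encBits l' ++ s') :
    l = l' ∧ s = s' := by

  induction l generalizing l' with
  | nil =>
    cases l' with
    | nil =>
      refine ⟨rfl, ?_⟩
      simpa [encBits] using h
    | cons b' l' =>
      exfalso
      simp [encBits] at h
  | cons b l ih =>
    cases l' with
    | nil =>
      exfalso
      simp [encBits] at h
    | cons b' l' =>
      have h1 : true :: b :: (encBits l ++ s) = true :: b' :: (encBits l' ++ s') := by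
        simpa [encBits] using h
      have h2 := (List.cons.inj h1).2
      obtain ⟨h3, h4⟩ := List.cons.inj h2
      obtain ⟨h5, h6⟩ := ih h4
      rw [h3, h5]
      exact ⟨rfl, h6⟩

/-- l1. `Nat.bits` is injective. -/
theorem encNat_inj {n n' : ℕ} {s s' : List Bool} (h : encNat n ++ s = encNat n' ++ s') :
    n = n' ∧ s = s' := by

  obtain ⟨h1, h2⟩ := encBits_inj h
  refine ⟨?_, h2⟩
  have h3 : Nat.digits 2 n = Nat.digits 2 n' := by
    rw [Nat.digits_two_eq_bits, Nat.digits_two_eq_bits, h1]
  exact Nat.digits_inj_iff.mp h3

/-- l1. -/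
theorem encRat_inj {v v' : ℚ} {s s' : List Bool} (h : encRat v ++ s = encRat v' ++ s') :
    v = v' ∧ s = s' := by

  unfold encRat at h
  rw [List.cons_append, List.cons_append, List.append_assoc, List.append_assoc] at h
  obtain ⟨h1, h2⟩ := List.cons.inj h
  obtain ⟨h3, h4⟩ := encNat_inj h2
  obtain ⟨h5, h6⟩ := encNat_inj h4
  refine ⟨?_, h6⟩
  have h7 : v < 0 ↔ v' < 0 := decide_eq_decide.mp h1
  apply Rat.ext
  · by_cases hv : v < 0
    · have a1 := Rat.num_neg.mpr hv
      have a2 := Rat.num_neg.mpr (h7.mp hv)
      omega
    · have a1 : ¬ v.num < 0 := fun a => hv (Rat.num_neg.mp a)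
      have a2 : ¬ v'.num < 0 := fun a => hv (h7.mpr (Rat.num_neg.mp a))
      omega
  · exact h5

/-- l1. -/
theorem mask_inj {m : ℕ} {T T' : Finset (Fin m)} {s s' : List Bool}
    (h : mask m T ++ s = mask m T' ++ s') : T = T' ∧ s = s' := by

  obtain ⟨h1, h2⟩ := List.append_inj h (by simp [mask])
  refine ⟨?_, h2⟩
  unfold mask at h1
  rw [List.map_inj_left] at h1
  ext i
  exact decide_eq_decide.mp (h1 i (List.mem_finRange i))

private theorem l1_rep (m m' : ℕ) (s s' : List Bool)
    (h : List.replicate m true ++ ([false] ++ s) = List.replicate m' true ++ ([false] ++ s')) :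
    m = m' ∧ s = s' := by
  induction m generalizing m' with
  | zero =>
    cases m' with
    | zero =>
      refine ⟨rfl, ?_⟩
      simpa using h
    | succ m' =>
      exfalso
      rw [List.replicate_succ] at h
      simp at h
  | succ m ih =>
    cases m' with
    | zero =>
      exfalso
      rw [List.replicate_succ] at h
      simp at h
    | succ m' =>
      rw [List.replicate_succ, List.replicate_succ, List.cons_append, List.cons_append] at h
      obtain ⟨h1, h2⟩ := ih m' (List.cons.inj h).2
      exact ⟨by rw [h1], h2⟩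

private theorem l1_ent (m : ℕ) (e e' : List (Finset (Fin m) × ℚ))
    (h : e.flatMap (fun p => true :: (mask m p.1 ++ encRat p.2)) ++ [false] =
      e'.flatMap (fun p => true :: (mask m p.1 ++ encRat p.2)) ++ [false]) : e = e' := by
  induction e generalizing e' with
  | nil =>
    cases e' with
    | nil => rfl
    | cons a e' =>
      exfalso
      simp at h
  | cons a e ih =>
    cases e' with
    | nil =>
      exfalso
      simp at h
    | cons a' e' =>
      rw [List.flatMap_cons, List.flatMap_cons, List.append_assoc, List.append_assoc,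
        List.cons_append, List.cons_append, List.append_assoc, List.append_assoc] at h
      obtain ⟨h1, h2⟩ := mask_inj (List.cons.inj h).2
      obtain ⟨h3, h4⟩ := encRat_inj h2
      rw [ih e' h4, Prod.ext h1 h3]

/-- l1. -/
theorem code_inj {I I' : Inst} (h : I.code = I'.code) : I = I' := by

  obtain ⟨m, ent⟩ := I
  obtain ⟨m', ent'⟩ := I'
  unfold Inst.code at h
  simp only [List.append_assoc] at h
  obtain ⟨h1, h2⟩ := l1_rep m m' _ _ h
  subst h1
  have h3 := l1_ent m ent ent' h2
  rw [h3]

end Pool.PmX
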