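import Pool.Agent.NPC.Defs

/-!
# The decision problems EXT and CON as languages
-/

namespace Pool.PmX

/-- polymatroid rank functions -/
structure Polymatroid {E : Type} [DecidableEq E] (f : Finset E → ℝ) : Prop where
  empty : f ∅ = 0
  mono : ∀ S T, S ⊆ T → f S ≤ f T
  submod : ∀ S T, f (S ∪ T) + f (S ∩ T) ≤ f S + f T


/-- instances: ground set `{0, ..., m - 1}` and the list of the members of the scenario, each with
its value -/
structure Inst where
  m : ℕ
  ent : List (Finset (Fin m) × ℚ)

namespace Inst

/-- the listed sets form a marginal scenario (a non-empty family closed under taking subsets), and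
every member is listed once -/
structure Valid (I : Inst) : Prop where
  ne : I.ent ≠ []
  closed : ∀ p ∈ I.ent, ∀ T ⊆ p.1, ∃ v, (T, v) ∈ I.ent
  nodup : (I.ent.map Prod.fst).Nodup

/-- the values are the restriction of a polymatroid -/
def NonContextual (I : Inst) : Prop :=
  ∃ f : Finset (Fin I.m) → ℝ, Polymatroid f ∧ ∀ p ∈ I.ent, f p.1 = (p.2 : ℝ)

end Inst

/-- self-delimiting code of a bit string -/
def encBits (l : List Bool) : List Bool := l.flatMap (fun b => [true, b]) ++ [false]

/-- a natural number in binary -/
def encNat (n : ℕ) : List Bool := encBits n.bits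

/-- a rational number: sign, numerator and denominator in binary -/
def encRat (v : ℚ) : List Bool := decide (v < 0) :: (encNat v.num.natAbs ++ encNat v.den)

/-- a subset of `{0, ..., m - 1}` as a bit string of length `m` -/
def mask (m : ℕ) (T : Finset (Fin m)) : List Bool := (List.finRange m).map (fun i => decide (i ∈ T))

/-- instances as bit strings: `m` in unary, then the members with their values -/
def Inst.code (I : Inst) : List Bool :=
  List.replicate I.m true ++ [false] ++
    I.ent.flatMap (fun p => true :: (mask I.m p.1 ++ encRat p.2)) ++ [false]

/-- EXT: (codes of) the non-contextual instances -/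
def EXT : Set (List Bool) := {w | ∃ I : Inst, I.code = w ∧ I.Valid ∧ I.NonContextual}

/-- CON: (codes of) the contextual instances -/
def CON : Set (List Bool) := {w | ∃ I : Inst, I.code = w ∧ I.Valid ∧ ¬ I.NonContextual}

/-- the class EXP: languages decided by one of Mathlib's multi-stack machines in time
`2 ^ (polynomial in the length of the input)` -/
def InEXP (A : Set (List Bool)) : Prop :=
  ∃ (V : List Bool → Bool) (p : Polynomial ℕ)
    (M : Turing.TM2ComputableInTime (Computability.encodingList Bool).encode
      Computability.encodingBoolBool.encode V),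
    (∀ n, M.time n ≤ 2 ^ p.eval n) ∧ ∀ x, x ∈ A ↔ V x = true

/-- the class P -/
def InP (A : Set (List Bool)) : Prop :=
  ∃ V : List Bool → Bool, Nonempty (Turing.TM2ComputableInPolyTime
    (Computability.encodingList Bool).encode Computability.encodingBoolBool.encode V) ∧
    ∀ x, x ∈ A ↔ V x = true

end Pool.PmX
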