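import Pool.Agent.PmX.Lang
import Pool.Agent.PmX.Ent
import Pool.Agent.PRT.BUn
import Pool.Agent.PRT.BSub

/-!
# Instances from numerically given joins

`JD`: a ground set `{0, ..., m - 1}`, joins with the numbers `i < nJ` (if `ok i`), elements
`A i`, `B i`, `C i`, ranks `r`.  The instance lists every member of the scenario once: the empty set
and the sets `{u, v, w}` contained in some `{A i, B i, C i}`.
-/

namespace Pool.PmX

open Pool.NPC Pool.Agent.PRT

/-- numerical join data -/
structure JD where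
  m : ℕ
  nJ : ℕ
  ok : ℕ → Bool
  A : ℕ → ℕ
  B : ℕ → ℕ
  C : ℕ → ℕ
  r : ℕ → ℕ

namespace JD

variable (J : JD)

/-- `u` is an element of the join `i` -/
def has (i u : ℕ) : Bool := u == J.A i || (u == J.B i || u == J.C i)

/-- `{u, v, w}` is contained in the join `i` -/
def memb (u v w i : ℕ) : Bool := J.ok i && (J.has i u && (J.has i v && J.has i w))

/-- `{u, v, w}` is a member of the scenario -/
def isM (u v w : ℕ) : Bool := (List.range J.nJ).any fun i => J.memb u v w i

/-- the value of `{u, v, w}`: the rank of `u` for a singleton, otherwise the rank of the join -/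
def val (u v w : ℕ) : ℕ :=
  if u = w then J.r u
  else Nat.rec (motive := fun _ => ℕ) 0
    (fun i s => if J.memb u v w i = true then J.r (J.A i) else s) J.nJ

/-- every non-empty set with at most three elements is `{u, v, w}` for one canonical triple -/
def canon (u v w : ℕ) : Bool := decide (u ≤ v) && (decide (v ≤ w) && (!(decide (u = v)) || decide (v = w)))

/-- `{u, v, w}` -/
def fs (m u v w : ℕ) : Finset (Fin m) := Finset.univ.filter fun i => i.val = u ∨ i.val = v ∨ i.val = w

/-- the entries -/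
def ent : List (Finset (Fin J.m) × ℚ) :=
  (∅, 0) :: (List.range J.m).flatMap fun u => (List.range J.m).flatMap fun v =>
    (List.range J.m).flatMap fun w =>
      if (canon u v w && J.isM u v w) = true then [(fs J.m u v w, (J.val u v w : ℚ))] else []

/-- the instance -/
def inst : Inst := ⟨J.m, J.ent⟩

/-- the data are admissible: elements in range, consistent entries -/
structure Adm : Prop where
  lt : ∀ i < J.nJ, J.ok i = true → J.A i < J.m ∧ J.B i < J.m ∧ J.C i < J.m
  cons : ∀ i < J.nJ, J.ok i = true → ∀ i' < J.nJ, J.ok i' = true →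
    ∀ p ∈ ents J.r (J.A i) (J.B i) (J.C i), ∀ p' ∈ ents J.r (J.A i') (J.B i') (J.C i'),
      p.1 = p'.1 → p.2 = p'.2

end JD

/-! ### private lemmas -/

private theorem t1a_mem_fs {m u v w : ℕ} (x : Fin m) :
    x ∈ JD.fs m u v w ↔ x.val = u ∨ x.val = v ∨ x.val = w := by
  simp [JD.fs]

private theorem t1a_has {J : JD} {i u : ℕ} :
    J.has i u = true ↔ u = J.A i ∨ u = J.B i ∨ u = J.C i := by
  simp [JD.has]

private theorem t1a_canon {u v w : ℕ} :
    JD.canon u v w = true ↔ u ≤ v ∧ v ≤ w ∧ (u ≠ v ∨ v = w) := by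
  simp [JD.canon]

private theorem t1a_memb {J : JD} {u v w i : ℕ} : J.memb u v w i = true ↔
    J.ok i = true ∧ J.has i u = true ∧ J.has i v = true ∧ J.has i w = true := by
  simp [JD.memb]

private theorem t1a_isM {J : JD} {u v w : ℕ} : J.isM u v w = true ↔
    ∃ i < J.nJ, J.memb u v w i = true := by
  simp [JD.isM]

private theorem t1a_ent {J : JD} (p : Finset (Fin J.m) × ℚ) : p ∈ J.ent ↔
    p = (∅, 0) ∨ ∃ u < J.m, ∃ v < J.m, ∃ w < J.m, JD.canon u v w = true ∧
      J.isM u v w = true ∧ p = (JD.fs J.m u v w, (J.val u v w : ℚ)) := by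
  unfold JD.ent
  rw [List.mem_cons]
  apply or_congr Iff.rfl
  simp only [List.mem_flatMap, List.mem_range]
  constructor
  · rintro ⟨u, hu, v, hv, w, hw, h⟩
    by_cases hc : (JD.canon u v w && J.isM u v w) = true
    · rw [if_pos hc, List.mem_singleton] at h
      rw [Bool.and_eq_true] at hc
      exact ⟨u, hu, v, hv, w, hw, hc.1, hc.2, h⟩
    · rw [if_neg hc] at h
      exact absurd h (List.not_mem_nil)
  · rintro ⟨u, hu, v, hv, w, hw, h1, h2, h3⟩
    refine ⟨u, hu, v, hv, w, hw, ?_⟩
    rw [if_pos (by rw [Bool.and_eq_true]; exact ⟨h1, h2⟩), List.mem_singleton]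
    exact h3

private theorem t1a_sub {J : JD} {u v w i : ℕ} (h : J.memb u v w i = true) (x : Fin J.m)
    (hx : x ∈ JD.fs J.m u v w) : x.val = J.A i ∨ x.val = J.B i ∨ x.val = J.C i := by
  rw [t1a_memb] at h
  obtain ⟨-, h1, h2, h3⟩ := h
  rw [t1a_has] at h1 h2 h3
  rw [t1a_mem_fs] at hx
  rcases hx with e | e | e
  · rw [e]; exact h1
  · rw [e]; exact h2
  · rw [e]; exact h3

/-- the canonical triple of a nonempty set with at most three elements -/
private theorem t1a_triple {m : ℕ} (T : Finset (Fin m)) (hT : T ≠ ∅) (A B C : ℕ)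
    (h : ∀ x ∈ T, x.val = A ∨ x.val = B ∨ x.val = C) :
    ∃ u < m, ∃ v < m, ∃ w < m, JD.canon u v w = true ∧ T = JD.fs m u v w ∧
      (u = A ∨ u = B ∨ u = C) ∧ (v = A ∨ v = B ∨ v = C) ∧ (w = A ∨ w = B ∨ w = C) := by
  have hne : T.Nonempty := Finset.nonempty_iff_ne_empty.2 hT
  set a := T.min' hne with ha
  set b := T.max' hne with hb
  have haT : a ∈ T := Finset.min'_mem T hne
  have hbT : b ∈ T := Finset.max'_mem T hne
  have hla : ∀ x ∈ T, a.val ≤ x.val := fun x hx => Fin.le_def.1 (Finset.min'_le T x hx)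
  have hlb : ∀ x ∈ T, x.val ≤ b.val := fun x hx => Fin.le_def.1 (Finset.le_max' T x hx)
  by_cases hex : ∃ c ∈ T, c.val ≠ a.val ∧ c.val ≠ b.val
  · obtain ⟨c, hcT, hca, hcb⟩ := hex
    have h1 := hla c hcT
    have h2 := hlb c hcT
    refine ⟨a, a.2, c, c.2, b, b.2, t1a_canon.2 ⟨h1, h2, Or.inl (fun e => hca e.symm)⟩, ?_,
      h a haT, h c hcT, h b hbT⟩
    ext x
    rw [t1a_mem_fs]
    constructor
    · intro hx
      have h3 := h x hx
      have h4 := h a haT
      have h5 := h b hbT
      have h6 := h c hcT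
      have h7 := hla x hx
      have h8 := hlb x hx
      omega
    · rintro (e | e | e)
      · rwa [Fin.ext e]
      · rwa [Fin.ext e]
      · rwa [Fin.ext e]
  · push Not at hex
    refine ⟨a, a.2, b, b.2, b, b.2, t1a_canon.2 ⟨hla b hbT, le_rfl, Or.inr rfl⟩, ?_,
      h a haT, h b hbT, h b hbT⟩
    ext x
    rw [t1a_mem_fs]
    constructor
    · intro hx
      by_cases e : x.val = a.val
      · exact Or.inl e
      · exact Or.inr (Or.inl (hex x hx e))
    · rintro (e | e | e)
      · rwa [Fin.ext e]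
      · rwa [Fin.ext e]
      · rwa [Fin.ext e]

private theorem t1a_fs_ne {m u v w : ℕ} (hu : u < m) : JD.fs m u v w ≠ ∅ := by
  intro h
  have : (⟨u, hu⟩ : Fin m) ∈ JD.fs m u v w := (t1a_mem_fs _).2 (Or.inl rfl)
  rw [h] at this
  exact absurd this (Finset.notMem_empty _)

private theorem t1a_inj {m u v w u' v' w' : ℕ} (hu : u < m) (hv : v < m) (hw : w < m)
    (hu' : u' < m) (hv' : v' < m) (hw' : w' < m) (hc : JD.canon u v w = true)
    (hc' : JD.canon u' v' w' = true) (h : JD.fs m u v w = JD.fs m u' v' w') :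
    u = u' ∧ v = v' ∧ w = w' := by
  rw [t1a_canon] at hc hc'
  have k : ∀ x : Fin m, (x.val = u ∨ x.val = v ∨ x.val = w) ↔
      (x.val = u' ∨ x.val = v' ∨ x.val = w') := by
    intro x
    rw [← t1a_mem_fs, ← t1a_mem_fs, h]
  have k1 := (k ⟨u, hu⟩).1 (Or.inl rfl)
  have k2 := (k ⟨v, hv⟩).1 (Or.inr (Or.inl rfl))
  have k3 := (k ⟨w, hw⟩).1 (Or.inr (Or.inr rfl))
  have k4 := (k ⟨u', hu'⟩).2 (Or.inl rfl)
  have k5 := (k ⟨v', hv'⟩).2 (Or.inr (Or.inl rfl))
  have k6 := (k ⟨w', hw'⟩).2 (Or.inr (Or.inr rfl))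
  simp only at k1 k2 k3 k4 k5 k6
  have e1 : u = u' := by omega
  have e2 : w = w' := by omega
  subst e1 e2
  refine ⟨rfl, ?_, rfl⟩
  omega

/-! ### module t1: the entries -/

section t1

variable {J : JD} (hJ : J.Adm)
include hJ

/-- t1. A nonempty set contained in `{A i, B i, C i}` has at most three elements, in increasing
order `u < v < w`, or `u < v = w`, or `u = v = w`. -/
theorem mem_ent (T : Finset (Fin J.m)) :
    (∃ v, (T, v) ∈ J.ent) ↔ T = ∅ ∨ ∃ i < J.nJ, J.ok i = true ∧
      ∀ x ∈ T, x.val = J.A i ∨ x.val = J.B i ∨ x.val = J.C i := by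
  constructor
  · rintro ⟨q, hq⟩
    rw [t1a_ent] at hq
    rcases hq with hq | ⟨u, hu, v, hv, w, hw, hc, hM, e⟩
    · exact Or.inl (Prod.ext_iff.1 hq).1
    · rw [t1a_isM] at hM
      obtain ⟨i, hi, hm⟩ := hM
      refine Or.inr ⟨i, hi, (t1a_memb.1 hm).1, fun x hx => ?_⟩
      have e1 : T = JD.fs J.m u v w := (Prod.ext_iff.1 e).1
      rw [e1] at hx
      exact t1a_sub hm x hx
  · rintro (rfl | ⟨i, hi, hok, h⟩)
    · exact ⟨0, (t1a_ent _).2 (Or.inl rfl)⟩
    · by_cases hT : T = ∅
      · subst hT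
        exact ⟨0, (t1a_ent _).2 (Or.inl rfl)⟩
      · obtain ⟨u, hu, v, hv, w, hw, hc, e, h1, h2, h3⟩ := t1a_triple T hT _ _ _ h
        refine ⟨(J.val u v w : ℚ), (t1a_ent _).2 (Or.inr ⟨u, hu, v, hv, w, hw, hc, t1a_isM.2
          ⟨i, hi, t1a_memb.2 ⟨hok, t1a_has.2 h1, t1a_has.2 h2, t1a_has.2 h3⟩⟩, ?_⟩)⟩
        rw [e]

/-- t1. Different canonical triples give different nonempty sets. -/
theorem nodup_ent : (J.ent.map Prod.fst).Nodup := by
  have key : ∀ u v w, ∀ T ∈ (if (JD.canon u v w && J.isM u v w) = true then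
      [(JD.fs J.m u v w, (J.val u v w : ℚ))] else []).map Prod.fst,
      JD.canon u v w = true ∧ T = JD.fs J.m u v w := by
    intro u v w T hT
    by_cases hc : (JD.canon u v w && J.isM u v w) = true
    · rw [if_pos hc] at hT
      rw [Bool.and_eq_true] at hc
      rw [List.map_singleton, List.mem_singleton] at hT
      exact ⟨hc.1, hT⟩
    · rw [if_neg hc] at hT
      exact absurd hT (List.not_mem_nil)
  unfold JD.ent
  rw [List.map_cons, List.nodup_cons]
  simp only [List.map_flatMap]
  constructor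
  · simp only [List.mem_flatMap, List.mem_range]
    rintro ⟨u, hu, v, hv, w, hw, h⟩
    exact t1a_fs_ne hu (key u v w _ h).2.symm
  · rw [List.nodup_flatMap]
    constructor
    · intro u hu
      rw [List.mem_range] at hu
      rw [List.nodup_flatMap]
      constructor
      · intro v hv
        rw [List.mem_range] at hv
        rw [List.nodup_flatMap]
        constructor
        · intro w hw
          by_cases hc : (JD.canon u v w && J.isM u v w) = true
          · rw [if_pos hc]; simp
          · rw [if_neg hc]; simp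
        · refine List.Nodup.pairwise_of_forall_ne List.nodup_range ?_
          intro w hw w' hw' hne T hT hT'
          rw [List.mem_range] at hw hw'
          have h1 := key u v w T hT
          have h2 := key u v w' T hT'
          exact hne (t1a_inj hu hv hw hu hv hw' h1.1 h2.1 (h1.2.symm.trans h2.2)).2.2
      · refine List.Nodup.pairwise_of_forall_ne List.nodup_range ?_
        intro v hv v' hv' hne T hT hT'
        rw [List.mem_range] at hv hv'
        simp only [List.mem_flatMap, List.mem_range] at hT hT'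
        obtain ⟨w, hw, hT⟩ := hT
        obtain ⟨w', hw', hT'⟩ := hT'
        have h1 := key u v w T hT
        have h2 := key u v' w' T hT'
        exact hne (t1a_inj hu hv hw hu hv' hw' h1.1 h2.1 (h1.2.symm.trans h2.2)).2.1
    · refine List.Nodup.pairwise_of_forall_ne List.nodup_range ?_
      intro u hu u' hu' hne T hT hT'
      rw [List.mem_range] at hu hu'
      simp only [List.mem_flatMap, List.mem_range] at hT hT'
      obtain ⟨v, hv, w, hw, hT⟩ := hT
      obtain ⟨v', hv', w', hw', hT'⟩ := hT'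
      have h1 := key u v w T hT
      have h2 := key u' v' w' T hT'
      exact hne (t1a_inj hu hv hw hu' hv' hw' h1.1 h2.1 (h1.2.symm.trans h2.2)).1

/-- t1. `mem_ent`, `nodup_ent`. -/
theorem valid_inst : J.inst.Valid := by
  have key : ∀ p ∈ J.ent, ∀ T ⊆ p.1, ∃ v, (T, v) ∈ J.ent := by
    intro p hp T hT
    rw [mem_ent hJ]
    rcases (mem_ent hJ p.1).1 ⟨p.2, hp⟩ with h | ⟨i, hi, hok, h⟩
    · left
      rw [h] at hT
      exact Finset.subset_empty.1 hT
    · exact Or.inr ⟨i, hi, hok, fun x hx => h x (hT hx)⟩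
  refine ⟨?_, key, nodup_ent hJ⟩
  show J.ent ≠ []
  unfold JD.ent
  exact List.cons_ne_nil _ _

/-- t1. -/
theorem card_ent : ∀ p ∈ J.ent, p.1.card ≤ 3 ∧ ∃ k : ℕ, p.2 = (k : ℚ) := by
  intro p hp
  rw [t1a_ent] at hp
  rcases hp with rfl | ⟨u, hu, v, hv, w, hw, hc, hM, rfl⟩
  · exact ⟨by simp, 0, by simp⟩
  · refine ⟨?_, J.val u v w, rfl⟩
    show (JD.fs J.m u v w).card ≤ 3
    rw [← Finset.card_map Fin.valEmbedding]
    refine (Finset.card_le_card (t := {u, v, w}) ?_).trans Finset.card_le_three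
    intro x hx
    rw [Finset.mem_map] at hx
    obtain ⟨y, hy, rfl⟩ := hx
    rw [t1a_mem_fs] at hy
    simp only [Finset.mem_insert, Finset.mem_singleton]
    exact hy

end t1

private theorem t2a_map_fs {m u v w : ℕ} (hu : u < m) (hv : v < m) (hw : w < m) :
    (JD.fs m u v w).map Fin.valEmbedding = {u, v, w} := by
  ext x
  simp only [Finset.mem_map, Finset.mem_insert, Finset.mem_singleton]
  constructor
  · rintro ⟨y, hy, rfl⟩
    exact (t1a_mem_fs y).1 hy
  · rintro (rfl | rfl | rfl)
    · exact ⟨⟨x, hu⟩, (t1a_mem_fs _).2 (Or.inl rfl), rfl⟩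
    · exact ⟨⟨x, hv⟩, (t1a_mem_fs _).2 (Or.inr (Or.inl rfl)), rfl⟩
    · exact ⟨⟨x, hw⟩, (t1a_mem_fs _).2 (Or.inr (Or.inr rfl)), rfl⟩

private theorem t2a_rec (P : ℕ → Bool) (f : ℕ → ℕ) (n : ℕ) (h : ∃ i < n, P i = true) :
    ∃ i < n, P i = true ∧
      Nat.rec (motive := fun _ => ℕ) 0 (fun i s => if P i = true then f i else s) n = f i := by
  induction n with
  | zero =>
    obtain ⟨i, hi, -⟩ := h
    omega
  | succ n ih =>
    by_cases hn : P n = true
    · exact ⟨n, by omega, hn, by
        show (if P n = true then f n else _) = f n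
        rw [if_pos hn]⟩
    · obtain ⟨i, hi, hP⟩ := h
      have hin : i < n := by
        rcases Nat.lt_succ_iff_lt_or_eq.1 hi with h1 | h1
        · exact h1
        · subst h1
          exact absurd hP hn
      obtain ⟨j, hj, hjP, e⟩ := ih ⟨i, hin, hP⟩
      refine ⟨j, by omega, hjP, ?_⟩
      show (if P n = true then f n else _) = f j
      rw [if_neg hn]
      exact e

private theorem t2a_pick {r : ℕ → ℕ} {A B C u v w : ℕ} (hu : u = A ∨ u = B ∨ u = C)
    (hv : v = A ∨ v = B ∨ v = C) (hw : w = A ∨ w = B ∨ w = C) (h : ¬ (u = v ∧ v = w)) :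
    (({u, v, w} : Finset ℕ), r A) ∈ ents r A B C := by
  have k : ({u, v, w} : Finset ℕ) = {A, B} ∨ ({u, v, w} : Finset ℕ) = {A, C} ∨
      ({u, v, w} : Finset ℕ) = {B, C} ∨ ({u, v, w} : Finset ℕ) = {A, B, C} := by
    rcases hu with rfl | rfl | rfl <;> rcases hv with rfl | rfl | rfl <;>
      rcases hw with rfl | rfl | rfl <;>
      first
        | exact absurd ⟨rfl, rfl⟩ h
        | (left; ext x; simp only [Finset.mem_insert, Finset.mem_singleton] <;> tauto)
        | (right; left; ext x; simp only [Finset.mem_insert, Finset.mem_singleton] <;> tauto)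
        | (right; right; left; ext x; simp only [Finset.mem_insert, Finset.mem_singleton] <;> tauto)
        | (right; right; right; ext x; simp only [Finset.mem_insert, Finset.mem_singleton] <;> tauto)
  rcases k with e | e | e | e <;> rw [e] <;> simp [ents]

/-- the entry of a canonical triple comes from a join -/
private theorem t2a_val {J : JD} {u v w : ℕ} (hc : JD.canon u v w = true)
    (hM : J.isM u v w = true) :
    ∃ i < J.nJ, J.ok i = true ∧
      (({u, v, w} : Finset ℕ), J.val u v w) ∈ ents J.r (J.A i) (J.B i) (J.C i) := by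
  rw [t1a_canon] at hc
  rw [t1a_isM] at hM
  by_cases h : u = w
  · obtain ⟨i, hi, hm⟩ := hM
    rw [t1a_memb] at hm
    obtain ⟨hok, h1, -, -⟩ := hm
    rw [t1a_has] at h1
    refine ⟨i, hi, hok, ?_⟩
    have e1 : v = u := by omega
    have e2 : J.val u v w = J.r u := by
      unfold JD.val
      rw [if_pos h]
    rw [e2, ← h, e1]
    have e3 : ({u, u, u} : Finset ℕ) = {u} := by simp
    rw [e3]
    rcases h1 with rfl | rfl | rfl <;> simp [ents]
  · obtain ⟨i, hi, hm, e⟩ := t2a_rec (fun i => J.memb u v w i) (fun i => J.r (J.A i)) J.nJ hM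
    rw [t1a_memb] at hm
    obtain ⟨hok, h1, h2, h3⟩ := hm
    rw [t1a_has] at h1 h2 h3
    refine ⟨i, hi, hok, ?_⟩
    have e2 : J.val u v w = J.r (J.A i) := by
      unfold JD.val
      rw [if_neg h]
      exact e
    rw [e2]
    exact t2a_pick h1 h2 h3 (fun hh => h (hh.1.trans hh.2))

/-! ### module t2: the values -/

section t2

variable {J : JD} (hJ : J.Adm)
include hJ

/-- t2. Every entry of a join is an entry of the instance: for a pair or a triple the value `val` is
the rank of the last join containing it, and `Adm.cons` makes this the rank of every join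
containing it; for the set `{B, C}` with `B = C` etc. note that `ents` lists it as a singleton too,
so `cons` (with `i = i'`) gives `r A = r B`. -/
theorem ent_of_join (i : ℕ) (hi : i < J.nJ) (hok : J.ok i = true) (p : Finset ℕ × ℕ)
    (hp : p ∈ ents J.r (J.A i) (J.B i) (J.C i)) :
    (Finset.univ.filter (fun x : Fin J.m => x.val ∈ p.1), (p.2 : ℚ)) ∈ J.ent := by
  obtain ⟨hA, hB, hC⟩ := hJ.lt i hi hok
  have hsub : ∀ x ∈ p.1, x = J.A i ∨ x = J.B i ∨ x = J.C i := by
    intro x hx
    simp only [ents, List.mem_cons, List.not_mem_nil, or_false] at hp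
    rcases hp with rfl | rfl | rfl | rfl | rfl | rfl | rfl | rfl <;>
      simp only [Finset.mem_insert, Finset.mem_singleton, Finset.notMem_empty] at hx <;> tauto
  have hlt : ∀ x ∈ p.1, x < J.m := by
    intro x hx
    rcases hsub x hx with rfl | rfl | rfl
    · exact hA
    · exact hB
    · exact hC
  by_cases hT : (Finset.univ.filter (fun x : Fin J.m => x.val ∈ p.1)) = ∅
  · have hp1 : p.1 = ∅ := by
      rw [Finset.eq_empty_iff_forall_notMem]
      intro x hx
      have : (⟨x, hlt x hx⟩ : Fin J.m) ∈ Finset.univ.filter (fun x : Fin J.m => x.val ∈ p.1) := by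
        rw [Finset.mem_filter]
        exact ⟨Finset.mem_univ _, hx⟩
      rw [hT] at this
      exact absurd this (Finset.notMem_empty _)
    have hp2 : p.2 = 0 := by
      have := hJ.cons i hi hok i hi hok p hp (∅, 0) (by simp [ents]) hp1
      exact this
    rw [hT, hp2, t1a_ent]
    left
    simp
  · obtain ⟨u, hu, v, hv, w, hw, hc, e, h1, h2, h3⟩ := t1a_triple _ hT (J.A i) (J.B i) (J.C i)
      (fun x hx => hsub x.val (Finset.mem_filter.1 hx).2)
    have hM : J.isM u v w = true := t1a_isM.2 ⟨i, hi,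
      t1a_memb.2 ⟨hok, t1a_has.2 h1, t1a_has.2 h2, t1a_has.2 h3⟩⟩
    obtain ⟨i', hi', hok', hent⟩ := t2a_val hc hM
    have hp1 : p.1 = {u, v, w} := by
      rw [← t2a_map_fs hu hv hw, ← e]
      ext x
      rw [Finset.mem_map]
      constructor
      · intro hx
        exact ⟨⟨x, hlt x hx⟩, Finset.mem_filter.2 ⟨Finset.mem_univ _, hx⟩, rfl⟩
      · rintro ⟨y, hy, rfl⟩
        exact (Finset.mem_filter.1 hy).2
    have hv2 : p.2 = J.val u v w := hJ.cons i hi hok i' hi' hok' p hp _ hent hp1
    rw [e, hv2, t1a_ent]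
    exact Or.inr ⟨u, hu, v, hv, w, hw, hc, hM, rfl⟩

/-- t2. Conversely every entry but `(∅, 0)` comes from a join. -/
theorem join_of_ent (p : Finset (Fin J.m) × ℚ) (hp : p ∈ J.ent) (hne : p.1 ≠ ∅) :
    ∃ i < J.nJ, J.ok i = true ∧ ∃ p' ∈ ents J.r (J.A i) (J.B i) (J.C i),
      p'.1 = p.1.map Fin.valEmbedding ∧ p.2 = (p'.2 : ℚ) := by
  rw [t1a_ent] at hp
  rcases hp with rfl | ⟨u, hu, v, hv, w, hw, hc, hM, rfl⟩
  · exact absurd rfl hne
  · obtain ⟨i, hi, hok, hent⟩ := t2a_val hc hM
    exact ⟨i, hi, hok, _, hent, (t2a_map_fs hu hv hw).symm, rfl⟩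

/-- t2. From `f` on `Fin m` to `T ↦ f {x | x.val ∈ T}` on `ℕ`, and from `f` on `ℕ` to
`T ↦ f (T.map Fin.valEmbedding)`; `ent_of_join`, `join_of_ent`, `isJoin_iff`. -/
theorem nonContextual_inst : J.inst.NonContextual ↔
    ∃ f : Finset ℕ → ℝ, Polymatroid f ∧
      ∀ i < J.nJ, J.ok i = true → IsJoin f J.r (J.A i) (J.B i) (J.C i) := by
  show (∃ f : Finset (Fin J.m) → ℝ, Polymatroid f ∧ ∀ p ∈ J.ent, f p.1 = (p.2 : ℝ)) ↔ _
  constructor
  · rintro ⟨g, hg, hval⟩
    have hfil : ∀ S T : Finset ℕ, Finset.univ.filter (fun x : Fin J.m => x.val ∈ S ∪ T) =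
        Finset.univ.filter (fun x : Fin J.m => x.val ∈ S) ∪
          Finset.univ.filter (fun x : Fin J.m => x.val ∈ T) := by
      intro S T
      ext x
      simp
    have hfil' : ∀ S T : Finset ℕ, Finset.univ.filter (fun x : Fin J.m => x.val ∈ S ∩ T) =
        Finset.univ.filter (fun x : Fin J.m => x.val ∈ S) ∩
          Finset.univ.filter (fun x : Fin J.m => x.val ∈ T) := by
      intro S T
      ext x
      simp
    have h0 : g (Finset.univ.filter (fun x : Fin J.m => x.val ∈ (∅ : Finset ℕ))) = 0 := by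
      have : Finset.univ.filter (fun x : Fin J.m => x.val ∈ (∅ : Finset ℕ)) = ∅ := by
        ext x
        simp
      rw [this]
      exact hg.empty
    refine ⟨fun T => g (Finset.univ.filter (fun x : Fin J.m => x.val ∈ T)), ⟨h0, ?_, ?_⟩, ?_⟩
    · intro S T hST
      apply hg.mono
      intro x hx
      rw [Finset.mem_filter] at hx ⊢
      exact ⟨hx.1, hST hx.2⟩
    · intro S T
      show g _ + g _ ≤ _
      rw [hfil, hfil']
      exact hg.submod _ _
    · intro i hi hok
      rw [isJoin_iff _ h0]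
      intro p hp
      have h1 : g (Finset.univ.filter (fun x : Fin J.m => x.val ∈ p.1)) = (((p.2 : ℚ)) : ℝ) :=
        hval _ (ent_of_join hJ i hi hok p hp)
      show g (Finset.univ.filter (fun x : Fin J.m => x.val ∈ p.1)) = _
      rw [h1]
      simp
  · rintro ⟨f, hf, hjoin⟩
    refine ⟨fun T => f (T.map Fin.valEmbedding), ⟨?_, ?_, ?_⟩, ?_⟩
    · show f (Finset.map _ ∅) = 0
      rw [Finset.map_empty]
      exact hf.empty
    · intro S T hST
      exact hf.mono _ _ (Finset.map_subset_map.2 hST)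
    · intro S T
      show f _ + f _ ≤ f _ + f _
      rw [Finset.map_union, Finset.map_inter]
      exact hf.submod _ _
    · intro p hp
      by_cases hne : p.1 = ∅
      · have hp' : p ∈ J.ent := hp
        rw [t1a_ent] at hp'
        rcases hp' with rfl | ⟨u, hu, v, hv, w, hw, hc, hM, rfl⟩
        · show f (Finset.map _ ∅) = ((0 : ℚ) : ℝ)
          rw [Finset.map_empty, hf.empty]
          simp
        · exact absurd hne (t1a_fs_ne hu)
      · obtain ⟨i, hi, hok, p', hp', h1, h2⟩ := join_of_ent hJ p hp hne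
        have h3 := (isJoin_iff f hf.empty J.r _ _ _).1 (hjoin i hi hok) p' hp'
        show f (p.1.map Fin.valEmbedding) = ((p.2 : ℚ) : ℝ)
        rw [← h1, h3, h2]
        simp

end t2

private theorem t3a_flatMap_range (l : List Bool) (f : Bool → List Bool) :
    l.flatMap f = (List.range l.length).flatMap fun i => f (l.getD i false) := by
  have h : l = (List.range l.length).map fun i => l.getD i false := by
    apply List.ext_getElem
    · simp
    · intro i h1 h2
      simp [List.getD_eq_getElem?_getD, h1]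
  conv_lhs => rw [h]
  rw [List.flatMap_map]

private theorem t3a_mask (m : ℕ) (T : Finset (Fin m)) (g : ℕ → Bool)
    (h : ∀ i : Fin m, decide (i ∈ T) = g i.val) :
    mask m T = (List.range m).flatMap fun i => [g i] := by
  unfold mask
  apply List.ext_getElem
  · simp
  · intro i h1 h2
    have hi : i < m := by simpa using h1
    have e : (List.range m).flatMap (fun i => [g i]) = (List.range m).map g := by
      induction (List.range m) with
      | nil => rfl
      | cons a l ih => rw [List.flatMap_cons, ih]; rfl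
    simp only [e, List.getElem_map, List.getElem_finRange, List.getElem_range]
    exact h ⟨i, hi⟩

private theorem t3a_encRat (n : ℕ) :
    encRat (n : ℚ) = false :: (encBits n.bits ++ encBits (Nat.bits 1)) := by
  unfold encRat encNat
  have h1 : decide ((n : ℚ) < 0) = false := by
    rw [decide_eq_false_iff_not, not_lt]
    exact Nat.cast_nonneg n
  rw [h1, Rat.num_natCast, Rat.den_natCast, Int.natAbs_natCast]

private theorem t3a_encBits {α : Type} [Enc α] {l : α → List Bool} (hl : PT l) :
    PT (fun a => encBits (l a)) := by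
  have h1 : PT (fun x : α × ℕ => [true, (l x.1).getD x.2 false]) := by
    refine PT.cons (PT.const true) (PT.cons ?_ (PT.const []))
    exact PT.getD (PT.comp (g := fun a => l a) hl (PT.fst' PT.id)) (PT.snd' PT.id)
  refine (PT.append (PT.flatMap (PT.length hl) h1) (PT.const [false])).congr fun a => ?_
  unfold encBits
  rw [t3a_flatMap_range (l a) (fun b => [true, b])]

/-! ### module t3: polynomial time -/

section t3

variable {α : Type} [Enc α]

/-- t3. `PT.flatMap` with `[false]` / `[true]`: `mask m (fs m u v w)` is the bit string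
`i ↦ (i = u ∨ i = v ∨ i = w)`, `i < m`. -/
theorem PT_mask {m u v w : α → ℕ} (hm : PT m) (hu : PT u) (hv : PT v) (hw : PT w) :
    PT (fun a => mask (m a) (JD.fs (m a) (u a) (v a) (w a))) := by
  have h : PT (fun x : α × ℕ => [x.2 == u x.1 || (x.2 == v x.1 || x.2 == w x.1)]) := by
    refine PT.cons (PT.or (PT.beq PT.snd (hu.comp PT.fst)) (PT.or (PT.beq PT.snd (hv.comp PT.fst))
      (PT.beq PT.snd (hw.comp PT.fst)))) (PT.const [])
  refine (PT.flatMap hm h).congr fun a => ?_
  apply t3a_mask
  intro i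
  rw [Bool.eq_iff_iff]
  simp only [decide_eq_true_eq, t1a_mem_fs, Bool.or_eq_true, beq_iff_eq]

/-- t3. `encRat (v : ℚ) = false :: (encNat v ++ encNat 1)`; `BT.bits`, `PT.flatMap` over the length
of the bit list (`PT.length`, `PT.getD`), or `PT.foldl`. -/
theorem PT_encRat {v : α → ℕ} (hv : BT v) : PT (fun a => encRat ((v a : ℕ) : ℚ)) := by
  refine (PT.cons (PT.const false) (PT.append (t3a_encBits hv.bits)
    (PT.const (encBits (Nat.bits 1))))).congr fun a => ?_
  exact t3a_encRat (v a)

/-- join data depending on `a : α`, all in polynomial time (`A i` etc. as functions of the pair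
`(a, i)`, the ranks in binary) -/
structure PTJ (J : α → JD) : Prop where
  m : PT (fun a => (J a).m)
  nJ : PT (fun a => (J a).nJ)
  ok : PT (fun a : α × ℕ => (J a.1).ok a.2)
  A : PT (fun a : α × ℕ => (J a.1).A a.2)
  B : PT (fun a : α × ℕ => (J a.1).B a.2)
  C : PT (fun a : α × ℕ => (J a.1).C a.2)
  r : BT (fun a : α × ℕ => (J a.1).r a.2)

/-- t3. `PT.any`, `PT.beq`. -/
theorem PT_isM {J : α → JD} (hJ : PTJ J) {u v w : α → ℕ} (hu : PT u) (hv : PT v) (hw : PT w) :
    PT (fun a => (J a).isM (u a) (v a) (w a)) := by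
  have hhas : ∀ {x : α → ℕ}, PT x → PT (fun y : α × ℕ => (J y.1).has y.2 (x y.1)) := by
    intro x hx
    exact PT.or (PT.beq (hx.comp PT.fst) hJ.A) (PT.or (PT.beq (hx.comp PT.fst) hJ.B)
      (PT.beq (hx.comp PT.fst) hJ.C))
  have h : PT (fun y : α × ℕ => (J y.1).memb (u y.1) (v y.1) (w y.1) y.2) :=
    PT.and hJ.ok (PT.and (hhas hu) (PT.and (hhas hv) (hhas hw)))
  exact PT.any hJ.nJ h

/-- t3. `BT.natRec`, `BT.ite`; the states are `0` or values of `r`, so of polynomial size
(`BT.size` for `fun a => r (A i)`). -/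
theorem BT_val {J : α → JD} (hJ : PTJ J) {u v w : α → ℕ} (hu : PT u) (hv : PT v) (hw : PT w) :
    BT (fun a => (J a).val (u a) (v a) (w a)) := by
  have hhas : ∀ {x : α → ℕ}, PT x → PT (fun y : α × ℕ => (J y.1).has y.2 (x y.1)) := by
    intro x hx
    exact PT.or (PT.beq (hx.comp PT.fst) hJ.A) (PT.or (PT.beq (hx.comp PT.fst) hJ.B)
      (PT.beq (hx.comp PT.fst) hJ.C))
  have h : PT (fun y : α × ℕ => (J y.1).memb (u y.1) (v y.1) (w y.1) y.2) :=
    PT.and hJ.ok (PT.and (hhas hu) (PT.and (hhas hv) (hhas hw)))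
  have hrA : BT (fun y : α × ℕ => (J y.1).r ((J y.1).A y.2)) :=
    BT.comp (F := fun y : α × ℕ => (J y.1).r y.2) hJ.r (PT.pair PT.fst hJ.A)
  have hpr : PT (fun x : α × (ℕ × Bin) => (x.1, x.2.1)) :=
    PT.pair PT.fst (PT.fst' PT.snd)
  have hstep : BT (fun x : α × (ℕ × Bin) =>
      if (J x.1).memb (u x.1) (v x.1) (w x.1) x.2.1 = true then (J x.1).r ((J x.1).A x.2.1)
      else x.2.2.val) := by
    refine BT.ite ?_ (BT.comp hrA hpr) (BT.ofPT (PT.snd' (PT.snd' PT.id)))
    refine (PT.comp h hpr).congr fun x => ?_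
    simp
  obtain ⟨Q, hQ⟩ := hrA.size
  obtain ⟨R, hR⟩ := hJ.nJ.size
  have hrec : BT (fun a => Nat.rec (motive := fun _ => ℕ) 0
      (fun i s => if (J a).memb (u a) (v a) (w a) i = true then (J a).r ((J a).A i) else s)
      (J a).nJ) := by
    refine BT.natRec (z := fun _ => 0) hJ.nJ (BT.const 0) hstep (Q.comp (Polynomial.X + R)) ?_
    intro a i hi
    show Nat.size (Nat.rec (motive := fun _ => ℕ) 0
      (fun i s => if (J a).memb (u a) (v a) (w a) i = true then (J a).r ((J a).A i) else s) i) ≤ _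
    have hb : ∀ j ≤ (J a).nJ, Nat.size ((J a).r ((J a).A j)) ≤
        (Q.comp (Polynomial.X + R)).eval (sz a) := by
      intro j hj
      refine (hQ (a, j)).trans ?_
      rw [Polynomial.eval_comp, Polynomial.eval_add, Polynomial.eval_X]
      apply poly_mono
      rw [sz_prod, sz_nat]
      have := hR a
      rw [sz_nat] at this
      show sz a + j ≤ _
      omega
    induction i with
    | zero => simp
    | succ i ih =>
      show Nat.size (if (J a).memb (u a) (v a) (w a) i = true then (J a).r ((J a).A i) else _) ≤ _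
      by_cases hm : (J a).memb (u a) (v a) (w a) i = true
      · rw [if_pos hm]
        exact hb i (by omega)
      · rw [if_neg hm]
        exact ih (by omega)
  have hru : BT (fun a => (J a).r (u a)) :=
    BT.comp (F := fun y : α × ℕ => (J y.1).r y.2) hJ.r (PT.pair PT.id hu)
  exact BT.ite (PT.eq hu hw) hru hrec

/-- t3. The code is the concatenation (`PT.flatMap` three times) of the codes of the entries. -/
theorem PT_code {J : α → JD} (hJ : PTJ J) : PT (fun a => (J a).inst.code) := by
  have e1 : PT (fun x : α × ℕ => x.1) := PT.fst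
  have hg : PT (fun x : ((α × ℕ) × ℕ) × ℕ =>
      if (JD.canon x.1.1.2 x.1.2 x.2 && (J x.1.1.1).isM x.1.1.2 x.1.2 x.2) = true then
        true :: (mask (J x.1.1.1).m (JD.fs (J x.1.1.1).m x.1.1.2 x.1.2 x.2) ++
          encRat (((J x.1.1.1).val x.1.1.2 x.1.2 x.2 : ℕ) : ℚ)) else []) := by
    have ha : PT (fun x : ((α × ℕ) × ℕ) × ℕ => x.1.1.1) := PT.fst' (PT.fst' PT.fst)
    have hu : PT (fun x : ((α × ℕ) × ℕ) × ℕ => x.1.1.2) := PT.snd' (PT.fst' PT.fst)
    have hv : PT (fun x : ((α × ℕ) × ℕ) × ℕ => x.1.2) := PT.snd' PT.fst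
    have hw : PT (fun x : ((α × ℕ) × ℕ) × ℕ => x.2) := PT.snd
    have hJ' : PTJ (fun x : ((α × ℕ) × ℕ) × ℕ => J x.1.1.1) := by
      have hp : PT (fun y : (((α × ℕ) × ℕ) × ℕ) × ℕ => (y.1.1.1.1, y.2)) :=
        PT.pair (PT.fst' (PT.fst' (PT.fst' PT.fst))) PT.snd
      exact
        { m := PT.comp (g := fun a => (J a).m) hJ.m ha
          nJ := PT.comp (g := fun a => (J a).nJ) hJ.nJ ha
          ok := PT.comp (g := fun y : α × ℕ => (J y.1).ok y.2) hJ.ok hp
          A := PT.comp (g := fun y : α × ℕ => (J y.1).A y.2) hJ.A hp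
          B := PT.comp (g := fun y : α × ℕ => (J y.1).B y.2) hJ.B hp
          C := PT.comp (g := fun y : α × ℕ => (J y.1).C y.2) hJ.C hp
          r := BT.comp (F := fun y : α × ℕ => (J y.1).r y.2) hJ.r hp }
    have hcan : PT (fun x : ((α × ℕ) × ℕ) × ℕ => JD.canon x.1.1.2 x.1.2 x.2) :=
      PT.and (PT.le hu hv) (PT.and (PT.le hv hw) (PT.or (PT.not (PT.eq hu hv)) (PT.eq hv hw)))
    refine PT.caseBit (PT.and hcan (PT_isM hJ' hu hv hw)) ?_ (PT.const [])
    exact PT.cons (PT.const true) (PT.append (PT_mask (PT.comp (g := fun a => (J a).m) hJ.m ha) hu hv hw)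
      (PT_encRat (BT_val hJ' hu hv hw)))
  have h3 := PT.flatMap (n := fun x : (α × ℕ) × ℕ => (J x.1.1).m)
    (PT.comp (g := fun a => (J a).m) hJ.m (PT.fst' PT.fst)) hg
  have h2 := PT.flatMap (n := fun x : α × ℕ => (J x.1).m)
    (PT.comp (g := fun a => (J a).m) hJ.m PT.fst) h3
  have h1 := PT.flatMap (n := fun x : α => (J x).m) hJ.m h2
  have h0 : PT (fun a => true :: (mask (J a).m (∅ : Finset (Fin (J a).m)) ++ encRat (0 : ℚ))) := by
    refine PT.cons (PT.const true) (PT.append ?_ (PT.const _))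
    refine (PT.flatMap hJ.m (g := fun _ => [false]) (PT.const [false])).congr fun a => ?_
    apply t3a_mask
    intro i
    simp
  refine (PT.append (PT.append (PT.append (PT.replicate hJ.m) (PT.const [false]))
    (PT.append h0 h1)) (PT.const [false])).congr fun a => ?_
  unfold Inst.code JD.inst JD.ent
  simp only [List.flatMap_cons, List.flatMap_assoc]
  congr 3
  apply List.flatMap_congr
  intro u _
  apply List.flatMap_congr
  intro v _
  apply List.flatMap_congr
  intro w _
  by_cases hc : (JD.canon u v w && (J a).isM u v w) = true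
  · rw [if_pos hc, if_pos hc]
    simp
  · rw [if_neg hc, if_neg hc]
    rfl

end t3

end Pool.PmX
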