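import Pool.Agent.PmX.Lst
import Pool.Agent.PmX.Grd

/-!
# Numbering the elements and the joins of a wire system

An element is a kind (from the finite type `Kd q`) with two numerical parameters; a join is a kind
(from `JK q`) with two numerical parameters, subject to a condition.
-/

namespace Pool.PmX

/-- kinds of elements -/
inductive Kd (q : ℕ)
  | lit (b : Bool)
  | lit2 (b b' : Bool)
  | base (β : Base q)
  | eb (ω : Fin q × Fin q) (b : Bool)
  | ch
  | pch (s : Bool)
  | cmp
  | res (β : Base q)
  | cor (β : Base q)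
  | K (m : Fin q)
  | Ksh (m : Fin q) (b : Bool)
  | W (m : Fin q)
  | Wsh (m : Fin q) (b : Bool)
  | Y (m : Fin q) (β : Option (Fin q × Fin q))
  | J (m : Fin q)
  deriving DecidableEq

/-- kinds of joins -/
inductive JK (q : ℕ)
  | top
  | lit2 (b : Bool)
  | lit2le (b b' : Bool)
  | eb (ω : Fin q × Fin q)
  | eble (ω : Fin q × Fin q) (b : Bool)
  | ch (ω : Fin q × Fin q)
  | pch (s : Bool) (k : Fin q)
  | tt (s : Bool)
  | cmpS (b : Bool)
  | cmpN
  | part (β : Base q)
  | corle (β : Base q)
  | resle (β : Base q) (b : Bool)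
  | Ksh (m : Fin q)
  | Kle (m : Fin q) (b : Bool)
  | Wsh (m : Fin q)
  | Wle (m : Fin q) (b : Bool)
  | YU (m : Fin q) (β : Option (Fin q × Fin q))
  | YD (m : Fin q) (β : Option (Fin q × Fin q)) (s : Bool)
  | J (m : Fin q)
  | Wp (m : Fin q) (s : Bool)
  | We (m i : Fin q) (s : Bool)
  | con (m v : Fin q) (s : Bool)
  deriving DecidableEq

variable {q : ℕ}

/-! ### module n1: kinds -/

section n1

private theorem n1_idx_base :
    ∃ g : Base q → Fin 3 × Bool × Option (Fin q) × Option (Fin q × Fin q), Function.Injective g :=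
  ⟨fun b => match b with
    | .e ω => (0, false, none, some ω)
    | .port s m => (1, s, some m, none)
    | .tt => (2, false, none, none), by
    intro a b h
    cases a <;> cases b <;> simp_all⟩

/-- n1. -/
instance : Finite (Base q) := by
  obtain ⟨g, hg⟩ := n1_idx_base (q := q)
  exact Finite.of_injective g hg

private abbrev n1_P (q n : ℕ) : Type :=
  Fin n × Bool × Bool × Option (Fin q) × Option (Fin q) × Option (Fin q × Fin q) ×
    Option (Option (Fin q × Fin q)) × Option (Base q)

private def n1_gK : Kd q → n1_P q 15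
  | .lit b => (0, b, false, none, none, none, none, none)
  | .lit2 b b' => (1, b, b', none, none, none, none, none)
  | .base β => (2, false, false, none, none, none, none, some β)
  | .eb ω b => (3, b, false, none, none, some ω, none, none)
  | .ch => (4, false, false, none, none, none, none, none)
  | .pch s => (5, s, false, none, none, none, none, none)
  | .cmp => (6, false, false, none, none, none, none, none)
  | .res β => (7, false, false, none, none, none, none, some β)
  | .cor β => (8, false, false, none, none, none, none, some β)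
  | .K m => (9, false, false, some m, none, none, none, none)
  | .Ksh m b => (10, b, false, some m, none, none, none, none)
  | .W m => (11, false, false, some m, none, none, none, none)
  | .Wsh m b => (12, b, false, some m, none, none, none, none)
  | .Y m β => (13, false, false, some m, none, none, some β, none)
  | .J m => (14, false, false, some m, none, none, none, none)

private theorem n1_gK_inj : Function.Injective (n1_gK (q := q)) := by
  intro a b h
  cases a <;> cases b <;> simp_all [n1_gK]

/-- n1. -/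
instance : Finite (Kd q) := Finite.of_injective n1_gK n1_gK_inj

private def n1_gJ : JK q → n1_P q 23
  | .top => (0, false, false, none, none, none, none, none)
  | .lit2 b => (1, b, false, none, none, none, none, none)
  | .lit2le b b' => (2, b, b', none, none, none, none, none)
  | .eb ω => (3, false, false, none, none, some ω, none, none)
  | .eble ω b => (4, b, false, none, none, some ω, none, none)
  | .ch ω => (5, false, false, none, none, some ω, none, none)
  | .pch s k => (6, s, false, some k, none, none, none, none)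
  | .tt s => (7, s, false, none, none, none, none, none)
  | .cmpS b => (8, b, false, none, none, none, none, none)
  | .cmpN => (9, false, false, none, none, none, none, none)
  | .part β => (10, false, false, none, none, none, none, some β)
  | .corle β => (11, false, false, none, none, none, none, some β)
  | .resle β b => (12, b, false, none, none, none, none, some β)
  | .Ksh m => (13, false, false, some m, none, none, none, none)
  | .Kle m b => (14, b, false, some m, none, none, none, none)
  | .Wsh m => (15, false, false, some m, none, none, none, none)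
  | .Wle m b => (16, b, false, some m, none, none, none, none)
  | .YU m β => (17, false, false, some m, none, none, some β, none)
  | .YD m β s => (18, s, false, some m, none, none, some β, none)
  | .J m => (19, false, false, some m, none, none, none, none)
  | .Wp m s => (20, s, false, some m, none, none, none, none)
  | .We m i s => (21, s, false, some m, some i, none, none, none)
  | .con m v s => (22, s, false, some m, some v, none, none, none)

private theorem n1_gJ_inj : Function.Injective (n1_gJ (q := q)) := by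
  intro a b h
  cases a <;> cases b <;> simp_all [n1_gJ]

/-- n1. -/
instance : Finite (JK q) := Finite.of_injective n1_gJ n1_gJ_inj

noncomputable instance : Fintype (Kd q) := Fintype.ofFinite _
noncomputable instance : Fintype (JK q) := Fintype.ofFinite _

end n1

/-- the number of a member of a finite type -/
noncomputable def nm {κ : Type} [Fintype κ] (k : κ) : ℕ := (Fintype.equivFin κ k).val

/-- the member with a given number (`d` beyond the range) -/
noncomputable def un {κ : Type} [Fintype κ] (d : κ) (j : ℕ) : κ :=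
  if h : j < Fintype.card κ then (Fintype.equivFin κ).symm ⟨j, h⟩ else d

/-- n1. -/
theorem un_nm {κ : Type} [Fintype κ] (d k : κ) : un d (nm k) = k := by
  simp [un, nm]

/-- n1. -/
theorem nm_lt {κ : Type} [Fintype κ] (k : κ) : nm k < Fintype.card κ :=
  (Fintype.equivFin κ k).isLt

/-- the element of a kind with parameters -/
def mk : Kd q → ℕ → ℕ → El q
  | .lit b, x, _ => .lit b x
  | .lit2 b b', x, y => .lit2 b x b' y
  | .base β, _, _ => .base β
  | .eb ω b, x, _ => .eb ω b x
  | .ch, x, _ => .ch x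
  | .pch s, x, _ => .pch s x
  | .cmp, x, y => .cmp x y
  | .res β, x, _ => .res β x
  | .cor β, x, _ => .cor β x
  | .K m, x, _ => .K m x
  | .Ksh m b, x, y => .Ksh m b x y
  | .W m, x, _ => .W m x
  | .Wsh m b, x, y => .Wsh m b x y
  | .Y m β, x, _ => .Y m β x
  | .J m, x, _ => .J m x

/-- kind and parameters of an element -/
def El.par : El q → Kd q × ℕ × ℕ
  | .lit b x => (.lit b, x, 0)
  | .lit2 b x b' y => (.lit2 b b', x, y)
  | .base β => (.base β, 0, 0)
  | .eb ω b x => (.eb ω b, x, 0)
  | .ch x => (.ch, x, 0)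
  | .pch s x => (.pch s, x, 0)
  | .cmp x y => (.cmp, x, y)
  | .res β x => (.res β, x, 0)
  | .cor β x => (.cor β, x, 0)
  | .K m x => (.K m, x, 0)
  | .Ksh m b x y => (.Ksh m b, x, y)
  | .W m x => (.W m, x, 0)
  | .Wsh m b x y => (.Wsh m b, x, y)
  | .Y m β x => (.Y m β, x, 0)
  | .J m x => (.J m, x, 0)

/-- number of kinds of elements -/
noncomputable def nK (q : ℕ) : ℕ := Fintype.card (Kd q)

/-- number of kinds of joins -/
noncomputable def nJK (q : ℕ) : ℕ := Fintype.card (JK q)

/-- the number of an element; `Bd` is a bound for the parameters -/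
noncomputable def code (Bd : ℕ) (e : El q) : ℕ := nm e.par.1 + nK q * (e.par.2.1 + Bd * e.par.2.2)

/-- the element with a given number -/
noncomputable def dec (Bd : ℕ) (u : ℕ) : El q :=
  mk (un (Kd.ch : Kd q) (u % nK q)) (u / nK q % Bd) (u / nK q / Bd)

/-- n2. `nm < nK`, `x < Bd`. -/
theorem dec_code (Bd : ℕ) (e : El q) (h : e.par.2.1 < Bd) : dec Bd (code Bd e) = e := by
  have hk : nm e.par.1 < nK q := nm_lt e.par.1
  have hk0 : 0 < nK q := lt_of_le_of_lt (Nat.zero_le _) hk
  have hB0 : 0 < Bd := lt_of_le_of_lt (Nat.zero_le _) h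
  have e1 : code Bd e % nK q = nm e.par.1 := by
    unfold code
    rw [Nat.add_mul_mod_self_left, Nat.mod_eq_of_lt hk]
  have e2 : code Bd e / nK q = e.par.2.1 + Bd * e.par.2.2 := by
    unfold code
    rw [Nat.add_mul_div_left _ _ hk0, Nat.div_eq_of_lt hk, Nat.zero_add]
  unfold dec
  rw [e1, e2, Nat.add_mul_mod_self_left, Nat.mod_eq_of_lt h, Nat.add_mul_div_left _ _ hB0,
    Nat.div_eq_of_lt h, Nat.zero_add, un_nm]
  cases e <;> rfl

/-- n2. -/
theorem code_lt (Bd : ℕ) (e : El q) (h : e.par.2.1 < Bd) (h' : e.par.2.2 < Bd) :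
    code Bd e < nK q * (Bd * Bd) := by
  have hk : nm e.par.1 < nK q := nm_lt e.par.1
  have h1 : e.par.2.1 + Bd * e.par.2.2 + 1 ≤ Bd * Bd := by
    have h2 : Bd * (e.par.2.2 + 1) ≤ Bd * Bd := Nat.mul_le_mul_left _ h'
    rw [Nat.mul_add, Nat.mul_one] at h2
    omega
  have h3 : nK q * (e.par.2.1 + Bd * e.par.2.2 + 1) ≤ nK q * (Bd * Bd) :=
    Nat.mul_le_mul_left _ h1
  rw [Nat.mul_add, Nat.mul_one] at h3
  unfold code
  omega

/-- conditions for the joins -/
def JK.cond (S : Sys q) : JK q → ℕ → ℕ → Bool
  | .top, x, y => decide (x < S.N) && decide (y = 0)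
  | .lit2 _, x, y => decide (x < S.N) && (decide (y < S.N) && !(decide (x = y)))
  | .lit2le _ _, x, y => decide (x < S.N) && (decide (y < S.N) && !(decide (x = y)))
  | .eb _, x, y => decide (x < S.N) && decide (y = 0)
  | .eble _ _, x, y => decide (x < S.N) && decide (y = 0)
  | .ch _, x, y => decide (x = 0) && decide (y = 0)
  | .pch _ _, x, y => decide (x = 0) && decide (y = 0)
  | .tt _, x, y => decide (x = 0) && decide (y = 0)
  | .cmpS b, x, y => decide (x < S.nP) && (decide (y < S.N) && decide (S.pat x y = some b))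
  | .cmpN, x, y => decide (x < S.nP) && (decide (y < S.N) && decide (S.pat x y = none))
  | .part _, x, y => decide (x < S.nP) && decide (y = 0)
  | .corle _, x, y => decide (x < S.nP) && decide (y = 0)
  | .resle _ b, x, y => decide (x < S.nP) && (decide (y < S.N) && decide (S.pat x y = some b))
  | .Ksh _, x, y => decide (x < S.nW) && (decide (y < S.N) && decide (S.pat x y = none))
  | .Kle _ _, x, y => decide (x < S.nW) && (decide (y < S.N) && decide (S.pat x y = none))
  | .Wsh _, x, y => decide (x < S.nW) && (decide (y < S.N) && decide (S.pat x y = none))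
  | .Wle _ _, x, y => decide (x < S.nW) && (decide (y < S.N) && decide (S.pat x y = none))
  | .YU _ _, x, y => decide (x < S.nW) && decide (y = 0)
  | .YD _ _ s, x, y => decide (x < S.nW) && (decide (y = 0) && decide (S.sW x = s))
  | .J _, x, y => decide (x < S.nW) && decide (y = 0)
  | .Wp _ s, x, y => decide (x < S.nW) && (decide (y = 0) && decide (S.sW x = s))
  | .We _ _ s, x, y => decide (x < S.nW) && (decide (y = 0) && decide (S.sW x = s))
  | .con _ v s, x, y => decide (x < S.nC) && (decide (y = 0) &&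
      (decide (S.sC x = s) && decide (S.vC x = v)))

/-- the elements of the joins -/
def JK.tri (S : Sys q) : JK q → ℕ → ℕ → El q × El q × El q
  | .top, x, _ => (.ch (q * q), .lit true x, .lit false x)
  | .lit2 b, x, y => (.lit b x, .lit2 b x true y, .lit2 b x false y)
  | .lit2le b b', x, y => (.lit b' y, .lit b' y, .lit2 b x b' y)
  | .eb ω, x, _ => (.base (.e ω), .eb ω true x, .eb ω false x)
  | .eble ω b, x, _ => (.lit b x, .lit b x, .eb ω b x)
  | .ch ω, _, _ => (.ch (idx ω + 1), .ch (idx ω), .base (.e ω))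
  | .pch s k, _, _ => (.pch s (k + 1), .pch s k, .base (.port s k))
  | .tt s, _, _ => (.pch s q, .pch s q, .base .tt)
  | .cmpS b, x, y => (.cmp x (y + 1), .cmp x y, .lit (!b) y)
  | .cmpN, x, y => (.cmp x y, .cmp x y, .cmp x (y + 1))
  | .part β, x, _ => (.base β, .res β x, .cor β x)
  | .corle β, x, _ => (.cmp x S.N, .cmp x S.N, .cor β x)
  | .resle β b, x, y => (.lit b y, .lit b y, .res β x)
  | .Ksh m, x, y => (.K m x, .Ksh m true x y, .Ksh m false x y)
  | .Kle m b, x, y => (.lit b y, .lit b y, .Ksh m b x y)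
  | .Wsh m, x, y => (.W m x, .Wsh m true x y, .Wsh m false x y)
  | .Wle m b, x, y => (.lit b y, .lit b y, .Wsh m b x y)
  | .YU m β, x, _ => (.Y m β x, .K m x, .res (bU β) x)
  | .YD m none s, x, _ => (.Y m none x, .K m x, .res (.port s m) (S.nW + x))
  | .YD m (some ω) s, x, _ =>
      (.Y m (some ω) x, .K m x, .res (.e (pr s (S.δ ω.1 ω.2) m)) (S.nW + x))
  | .J m, x, _ => (.J m x, .K m x, .W m x)
  | .Wp m s, x, _ => (.W m x, .W m x, .res (.port s m) (S.nW + x))
  | .We m i s, x, _ => (.W m x, .W m x, .res (.e (pr s i m)) (S.nW + x))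
  | .con m v s, x, _ => (.res (.e (pr s v m)) (2 * S.nW + x), .res (.e (pr s v m)) (2 * S.nW + x),
      .res (.port s m) (2 * S.nW + x))

/-- admissible bounds for the parameters -/
structure BdOk (S : Sys q) (Bd : ℕ) : Prop where
  N : S.N < Bd
  nP : S.nP < Bd
  qq : q * q + q < Bd

/-- n3. Both directions by cases (`23` constructors); the parameters are below `Bd`. -/
theorem jn_iff (S : Sys q) (Bd : ℕ) (hB : BdOk S Bd) (A B C : El q) :
    S.Jn A B C ↔ ∃ (κ : JK q) (x y : ℕ), x < Bd ∧ y < Bd ∧ κ.cond S x y = true ∧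
      κ.tri S x y = (A, B, C) := by
  have hN := hB.N
  have hP := hB.nP
  have hPd : S.nP = 2 * S.nW + S.nC := rfl
  constructor
  · intro h
    cases h with
    | top j hj => exact ⟨.top, j, 0, by omega, by omega, by simp [JK.cond, hj], rfl⟩
    | lit2 b i j hi hj hij =>
      exact ⟨.lit2 b, i, j, by omega, by omega, by simp [JK.cond, hi, hj, hij], rfl⟩
    | lit2le b i b' j hi hj hij =>
      exact ⟨.lit2le b b', i, j, by omega, by omega, by simp [JK.cond, hi, hj, hij], rfl⟩
    | eb ω j hj => exact ⟨.eb ω, j, 0, by omega, by omega, by simp [JK.cond, hj], rfl⟩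
    | eble ω b j hj => exact ⟨.eble ω b, j, 0, by omega, by omega, by simp [JK.cond, hj], rfl⟩
    | ch ω => exact ⟨.ch ω, 0, 0, by omega, by omega, by simp [JK.cond], rfl⟩
    | pch s k => exact ⟨.pch s k, 0, 0, by omega, by omega, by simp [JK.cond], rfl⟩
    | tt s => exact ⟨.tt s, 0, 0, by omega, by omega, by simp [JK.cond], rfl⟩
    | cmpS c i b hc hi h =>
      exact ⟨.cmpS b, c, i, by omega, by omega, by simp [JK.cond, hc, hi, h], rfl⟩
    | cmpN c i hc hi h =>
      exact ⟨.cmpN, c, i, by omega, by omega, by simp [JK.cond, hc, hi, h], rfl⟩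
    | part β c hc => exact ⟨.part β, c, 0, by omega, by omega, by simp [JK.cond, hc], rfl⟩
    | corle β c hc => exact ⟨.corle β, c, 0, by omega, by omega, by simp [JK.cond, hc], rfl⟩
    | resle β c j b hc hj h =>
      exact ⟨.resle β b, c, j, by omega, by omega, by simp [JK.cond, hc, hj, h], rfl⟩
    | Ksh m w j hw hj h =>
      exact ⟨.Ksh m, w, j, by omega, by omega, by simp [JK.cond, hw, hj, h], rfl⟩
    | Kle m b w j hw hj h =>
      exact ⟨.Kle m b, w, j, by omega, by omega, by simp [JK.cond, hw, hj, h], rfl⟩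
    | Wsh m w j hw hj h =>
      exact ⟨.Wsh m, w, j, by omega, by omega, by simp [JK.cond, hw, hj, h], rfl⟩
    | Wle m b w j hw hj h =>
      exact ⟨.Wle m b, w, j, by omega, by omega, by simp [JK.cond, hw, hj, h], rfl⟩
    | YU m β w hw => exact ⟨.YU m β, w, 0, by omega, by omega, by simp [JK.cond, hw], rfl⟩
    | YD m β w hw =>
      refine ⟨.YD m β (S.sW w), w, 0, by omega, by omega, by simp [JK.cond, hw], ?_⟩
      cases β <;> rfl
    | J m w hw => exact ⟨.J m, w, 0, by omega, by omega, by simp [JK.cond, hw], rfl⟩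
    | Wp m w hw => exact ⟨.Wp m (S.sW w), w, 0, by omega, by omega, by simp [JK.cond, hw], rfl⟩
    | We m i w hw =>
      exact ⟨.We m i (S.sW w), w, 0, by omega, by omega, by simp [JK.cond, hw], rfl⟩
    | con m c hc =>
      exact ⟨.con m (S.vC c) (S.sC c), c, 0, by omega, by omega, by simp [JK.cond, hc], rfl⟩
  · rintro ⟨κ, x, y, -, -, hc, ht⟩
    cases κ with
    | top =>
      simp only [JK.cond, JK.tri, Bool.and_eq_true, decide_eq_true_eq, Prod.mk.injEq] at hc ht
      obtain ⟨rfl, rfl, rfl⟩ := ht
      exact .top x hc.1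
    | lit2 b =>
      simp only [JK.cond, JK.tri, Bool.and_eq_true, decide_eq_true_eq, Prod.mk.injEq,
        Bool.not_eq_true', decide_eq_false_iff_not] at hc ht
      obtain ⟨rfl, rfl, rfl⟩ := ht
      exact .lit2 b x y hc.1 hc.2.1 hc.2.2
    | lit2le b b' =>
      simp only [JK.cond, JK.tri, Bool.and_eq_true, decide_eq_true_eq, Prod.mk.injEq,
        Bool.not_eq_true', decide_eq_false_iff_not] at hc ht
      obtain ⟨rfl, rfl, rfl⟩ := ht
      exact .lit2le b x b' y hc.1 hc.2.1 hc.2.2
    | eb ω =>
      simp only [JK.cond, JK.tri, Bool.and_eq_true, decide_eq_true_eq, Prod.mk.injEq] at hc ht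
      obtain ⟨rfl, rfl, rfl⟩ := ht
      exact .eb ω x hc.1
    | eble ω b =>
      simp only [JK.cond, JK.tri, Bool.and_eq_true, decide_eq_true_eq, Prod.mk.injEq] at hc ht
      obtain ⟨rfl, rfl, rfl⟩ := ht
      exact .eble ω b x hc.1
    | ch ω =>
      simp only [JK.tri, Prod.mk.injEq] at ht
      obtain ⟨rfl, rfl, rfl⟩ := ht
      exact .ch ω
    | pch s k =>
      simp only [JK.tri, Prod.mk.injEq] at ht
      obtain ⟨rfl, rfl, rfl⟩ := ht
      exact .pch s k
    | tt s =>
      simp only [JK.tri, Prod.mk.injEq] at ht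
      obtain ⟨rfl, rfl, rfl⟩ := ht
      exact .tt s
    | cmpS b =>
      simp only [JK.cond, JK.tri, Bool.and_eq_true, decide_eq_true_eq, Prod.mk.injEq] at hc ht
      obtain ⟨rfl, rfl, rfl⟩ := ht
      exact .cmpS x y b hc.1 hc.2.1 hc.2.2
    | cmpN =>
      simp only [JK.cond, JK.tri, Bool.and_eq_true, decide_eq_true_eq, Prod.mk.injEq] at hc ht
      obtain ⟨rfl, rfl, rfl⟩ := ht
      exact .cmpN x y hc.1 hc.2.1 hc.2.2
    | part β =>
      simp only [JK.cond, JK.tri, Bool.and_eq_true, decide_eq_true_eq, Prod.mk.injEq] at hc ht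
      obtain ⟨rfl, rfl, rfl⟩ := ht
      exact .part β x hc.1
    | corle β =>
      simp only [JK.cond, JK.tri, Bool.and_eq_true, decide_eq_true_eq, Prod.mk.injEq] at hc ht
      obtain ⟨rfl, rfl, rfl⟩ := ht
      exact .corle β x hc.1
    | resle β b =>
      simp only [JK.cond, JK.tri, Bool.and_eq_true, decide_eq_true_eq, Prod.mk.injEq] at hc ht
      obtain ⟨rfl, rfl, rfl⟩ := ht
      exact .resle β x y b hc.1 hc.2.1 hc.2.2
    | Ksh m =>
      simp only [JK.cond, JK.tri, Bool.and_eq_true, decide_eq_true_eq, Prod.mk.injEq] at hc ht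
      obtain ⟨rfl, rfl, rfl⟩ := ht
      exact .Ksh m x y hc.1 hc.2.1 hc.2.2
    | Kle m b =>
      simp only [JK.cond, JK.tri, Bool.and_eq_true, decide_eq_true_eq, Prod.mk.injEq] at hc ht
      obtain ⟨rfl, rfl, rfl⟩ := ht
      exact .Kle m b x y hc.1 hc.2.1 hc.2.2
    | Wsh m =>
      simp only [JK.cond, JK.tri, Bool.and_eq_true, decide_eq_true_eq, Prod.mk.injEq] at hc ht
      obtain ⟨rfl, rfl, rfl⟩ := ht
      exact .Wsh m x y hc.1 hc.2.1 hc.2.2
    | Wle m b =>
      simp only [JK.cond, JK.tri, Bool.and_eq_true, decide_eq_true_eq, Prod.mk.injEq] at hc ht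
      obtain ⟨rfl, rfl, rfl⟩ := ht
      exact .Wle m b x y hc.1 hc.2.1 hc.2.2
    | YU m β =>
      simp only [JK.cond, JK.tri, Bool.and_eq_true, decide_eq_true_eq, Prod.mk.injEq] at hc ht
      obtain ⟨rfl, rfl, rfl⟩ := ht
      exact .YU m β x hc.1
    | YD m β s =>
      cases β with
      | none =>
        simp only [JK.cond, JK.tri, Bool.and_eq_true, decide_eq_true_eq, Prod.mk.injEq] at hc ht
        obtain ⟨rfl, rfl, rfl⟩ := ht
        obtain ⟨h1, -, h2⟩ := hc
        have h := Sys.Jn.YD (S := S) m none x h1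
        simp only [Sys.bD, h2] at h
        exact h
      | some ω =>
        simp only [JK.cond, JK.tri, Bool.and_eq_true, decide_eq_true_eq, Prod.mk.injEq] at hc ht
        obtain ⟨rfl, rfl, rfl⟩ := ht
        obtain ⟨h1, -, h2⟩ := hc
        have h := Sys.Jn.YD (S := S) m (some ω) x h1
        simp only [Sys.bD, h2] at h
        exact h
    | J m =>
      simp only [JK.cond, JK.tri, Bool.and_eq_true, decide_eq_true_eq, Prod.mk.injEq] at hc ht
      obtain ⟨rfl, rfl, rfl⟩ := ht
      exact .J m x hc.1
    | Wp m s =>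
      simp only [JK.cond, JK.tri, Bool.and_eq_true, decide_eq_true_eq, Prod.mk.injEq] at hc ht
      obtain ⟨rfl, rfl, rfl⟩ := ht
      obtain ⟨h1, -, h2⟩ := hc
      have h := Sys.Jn.Wp (S := S) m x h1
      rw [h2] at h
      exact h
    | We m i s =>
      simp only [JK.cond, JK.tri, Bool.and_eq_true, decide_eq_true_eq, Prod.mk.injEq] at hc ht
      obtain ⟨rfl, rfl, rfl⟩ := ht
      obtain ⟨h1, -, h2⟩ := hc
      have h := Sys.Jn.We (S := S) m i x h1
      rw [h2] at h
      exact h
    | con m v s =>
      simp only [JK.cond, JK.tri, Bool.and_eq_true, decide_eq_true_eq, Prod.mk.injEq] at hc ht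
      obtain ⟨rfl, rfl, rfl⟩ := ht
      obtain ⟨h1, -, h2, h3⟩ := hc
      have h := Sys.Jn.con (S := S) m x h1
      rw [h2, h3] at h
      exact h

/-- n3. The parameters of the elements of joins are below `Bd`. -/
theorem jn_lt (S : Sys q) (Bd : ℕ) (hB : BdOk S Bd) {A B C : El q} (h : S.Jn A B C) (e : El q)
    (he : e = A ∨ e = B ∨ e = C) : e.par.2.1 < Bd ∧ e.par.2.2 < Bd := by
  have hN := hB.N
  have hP := hB.nP
  have hq := hB.qq
  have hPd : S.nP = 2 * S.nW + S.nC := rfl
  have hidx : ∀ ω : Fin q × Fin q, idx ω + 1 ≤ q * q := by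
    intro ω
    have h1 : (ω.1.val + 1) * q ≤ q * q := Nat.mul_le_mul_right _ ω.1.isLt
    have h2 := ω.2.isLt
    rw [Nat.add_mul, Nat.one_mul] at h1
    unfold idx
    omega
  cases h with
  | top j hj => rcases he with rfl | rfl | rfl <;> simp only [El.par] <;> omega
  | lit2 b i j hi hj hij => rcases he with rfl | rfl | rfl <;> simp only [El.par] <;> omega
  | lit2le b i b' j hi hj hij => rcases he with rfl | rfl | rfl <;> simp only [El.par] <;> omega
  | eb ω j hj => rcases he with rfl | rfl | rfl <;> simp only [El.par] <;> omega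
  | eble ω b j hj => rcases he with rfl | rfl | rfl <;> simp only [El.par] <;> omega
  | ch ω =>
    have := hidx ω
    rcases he with rfl | rfl | rfl <;> simp only [El.par] <;> omega
  | pch s k =>
    have := k.isLt
    rcases he with rfl | rfl | rfl <;> simp only [El.par] <;> omega
  | tt s => rcases he with rfl | rfl | rfl <;> simp only [El.par] <;> omega
  | cmpS c i b hc hi h => rcases he with rfl | rfl | rfl <;> simp only [El.par] <;> omega
  | cmpN c i hc hi h => rcases he with rfl | rfl | rfl <;> simp only [El.par] <;> omega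
  | part β c hc => rcases he with rfl | rfl | rfl <;> simp only [El.par] <;> omega
  | corle β c hc => rcases he with rfl | rfl | rfl <;> simp only [El.par] <;> omega
  | resle β c j b hc hj h => rcases he with rfl | rfl | rfl <;> simp only [El.par] <;> omega
  | Ksh m w j hw hj h => rcases he with rfl | rfl | rfl <;> simp only [El.par] <;> omega
  | Kle m b w j hw hj h => rcases he with rfl | rfl | rfl <;> simp only [El.par] <;> omega
  | Wsh m w j hw hj h => rcases he with rfl | rfl | rfl <;> simp only [El.par] <;> omega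
  | Wle m b w j hw hj h => rcases he with rfl | rfl | rfl <;> simp only [El.par] <;> omega
  | YU m β w hw => rcases he with rfl | rfl | rfl <;> simp only [El.par] <;> omega
  | YD m β w hw => rcases he with rfl | rfl | rfl <;> simp only [El.par] <;> omega
  | J m w hw => rcases he with rfl | rfl | rfl <;> simp only [El.par] <;> omega
  | Wp m w hw => rcases he with rfl | rfl | rfl <;> simp only [El.par] <;> omega
  | We m i w hw => rcases he with rfl | rfl | rfl <;> simp only [El.par] <;> omega
  | con m c hc => rcases he with rfl | rfl | rfl <;> simp only [El.par] <;> omega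

/-- the join data of a wire system: the join number `i` has kind number `i % nJK` and parameters
`i / nJK % Bd`, `i / nJK / Bd` -/
noncomputable def Sys.jd (S : Sys q) (Bd : ℕ) : JD where
  m := nK q * (Bd * Bd)
  nJ := nJK q * (Bd * Bd)
  ok i := (un (JK.top : JK q) (i % nJK q)).cond S (i / nJK q % Bd) (i / nJK q / Bd)
  A i := code Bd ((un (JK.top : JK q) (i % nJK q)).tri S (i / nJK q % Bd) (i / nJK q / Bd)).1
  B i := code Bd ((un (JK.top : JK q) (i % nJK q)).tri S (i / nJK q % Bd) (i / nJK q / Bd)).2.1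
  C i := code Bd ((un (JK.top : JK q) (i % nJK q)).tri S (i / nJK q % Bd) (i / nJK q / Bd)).2.2
  r u := S.rk (dec Bd u)

/-! ### module n4: the join data of a wire system -/

section n4

private theorem n4_comap {E F : Type} [DecidableEq E] [DecidableEq F] (f : Finset F → ℝ)
    (hf : Polymatroid f) (g : E → F) : Polymatroid (fun T : Finset E => f (T.image g)) := by
  constructor
  · simpa using hf.empty
  · intro T T' h
    exact hf.mono _ _ (Finset.image_subset_image h)
  · intro T T'
    have h1 := hf.submod (T.image g) (T'.image g)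
    have h2 := hf.mono _ _ (Finset.image_inter_subset g T T')
    change f ((T ∪ T').image g) + f ((T ∩ T').image g) ≤ _
    rw [Finset.image_union]
    linarith

variable (S : Sys q) (Bd : ℕ) (hB : BdOk S Bd)
include hB

/-- n4. The numbers of joins and the joins (`jn_iff`): `i = nm κ + nJK * (x + Bd * y)`. -/
theorem jd_joins (A B C : El q) : S.Jn A B C ↔ ∃ i < (S.jd Bd).nJ, (S.jd Bd).ok i = true ∧
    ((un (JK.top : JK q) (i % nJK q)).tri S (i / nJK q % Bd) (i / nJK q / Bd)) = (A, B, C) := by
  have hB0 : 0 < Bd := lt_of_le_of_lt (Nat.zero_le _) hB.N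
  have hJ0 : 0 < nJK q := lt_of_le_of_lt (Nat.zero_le _) (nm_lt (JK.top : JK q))
  rw [jn_iff S Bd hB]
  constructor
  · rintro ⟨κ, x, y, hx, hy, hc, ht⟩
    have hk : nm κ < nJK q := nm_lt κ
    have e1 : (nm κ + nJK q * (x + Bd * y)) % nJK q = nm κ := by
      rw [Nat.add_mul_mod_self_left, Nat.mod_eq_of_lt hk]
    have e2 : (nm κ + nJK q * (x + Bd * y)) / nJK q = x + Bd * y := by
      rw [Nat.add_mul_div_left _ _ hJ0, Nat.div_eq_of_lt hk, Nat.zero_add]
    have e3 : (x + Bd * y) % Bd = x := by rw [Nat.add_mul_mod_self_left, Nat.mod_eq_of_lt hx]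
    have e4 : (x + Bd * y) / Bd = y := by
      rw [Nat.add_mul_div_left _ _ hB0, Nat.div_eq_of_lt hx, Nat.zero_add]
    refine ⟨nm κ + nJK q * (x + Bd * y), ?_, ?_, ?_⟩
    · change nm κ + nJK q * (x + Bd * y) < nJK q * (Bd * Bd)
      have h1 : x + Bd * y + 1 ≤ Bd * Bd := by
        have h2 : Bd * (y + 1) ≤ Bd * Bd := Nat.mul_le_mul_left _ hy
        rw [Nat.mul_add, Nat.mul_one] at h2
        omega
      have h3 : nJK q * (x + Bd * y + 1) ≤ nJK q * (Bd * Bd) := Nat.mul_le_mul_left _ h1
      rw [Nat.mul_add, Nat.mul_one] at h3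
      omega
    · change (un (JK.top : JK q) ((nm κ + nJK q * (x + Bd * y)) % nJK q)).cond S
        ((nm κ + nJK q * (x + Bd * y)) / nJK q % Bd)
        ((nm κ + nJK q * (x + Bd * y)) / nJK q / Bd) = true
      rw [e1, e2, e3, e4, un_nm]
      exact hc
    · rw [e1, e2, e3, e4, un_nm]
      exact ht
  · rintro ⟨i, hi, hok, ht⟩
    have hi' : i < nJK q * (Bd * Bd) := hi
    refine ⟨_, _, _, Nat.mod_lt _ hB0, ?_, hok, ht⟩
    rw [Nat.div_div_eq_div_mul]
    refine Nat.div_lt_of_lt_mul ?_
    rw [Nat.mul_assoc]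
    exact hi'

private theorem n4_dec (A B C : El q) (h : S.Jn A B C) (e : El q) (he : e = A ∨ e = B ∨ e = C) :
    dec Bd (code Bd e) = e :=
  dec_code Bd e (jn_lt S Bd hB h e he).1

private theorem n4_ok (i : ℕ) (hi : i < (S.jd Bd).nJ) (hok : (S.jd Bd).ok i = true) :
    ∃ A B C : El q, S.Jn A B C ∧ (S.jd Bd).A i = code Bd A ∧ (S.jd Bd).B i = code Bd B ∧
      (S.jd Bd).C i = code Bd C :=
  ⟨_, _, _, (jd_joins S Bd hB _ _ _).mpr ⟨i, hi, hok, rfl⟩, rfl, rfl, rfl⟩

private theorem n4_ents (A B C : El q) (h : S.Jn A B C) (p : Finset ℕ × ℕ)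
    (hp : p ∈ ents (S.jd Bd).r (code Bd A) (code Bd B) (code Bd C)) :
    (p.1.image (dec Bd), p.2) ∈ ents S.rk A B C := by
  have dA := n4_dec S Bd hB A B C h A (Or.inl rfl)
  have dB := n4_dec S Bd hB A B C h B (Or.inr (Or.inl rfl))
  have dC := n4_dec S Bd hB A B C h C (Or.inr (Or.inr rfl))
  have r : ∀ u, (S.jd Bd).r u = S.rk (dec Bd u) := fun _ => rfl
  simp only [ents, List.mem_cons, List.not_mem_nil, or_false] at hp
  rcases hp with rfl | rfl | rfl | rfl | rfl | rfl | rfl | rfl <;>
    simp [ents, r, dA, dB, dC, Finset.image_insert]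

/-- n4. `code_lt`, `jn_lt`; the entries of the join `(A, B, C)` with ranks `S.rk` correspond to
those of the codes (images under `code Bd`, injective on the elements with small parameters by
`dec_code`; ranks by `dec_code`). -/
theorem jd_adm (hc : ∀ {A B C A' B' C' : El q}, S.Jn A B C → S.Jn A' B' C' →
    ∀ p p' : Finset (El q) × ℕ, p ∈ ents S.rk A B C → p' ∈ ents S.rk A' B' C' → p.1 = p'.1 →
      p.2 = p'.2) : (S.jd Bd).Adm := by
  constructor
  · intro i hi hok
    obtain ⟨A, B, C, hJ, eA, eB, eC⟩ := n4_ok S Bd hB i hi hok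
    rw [eA, eB, eC]
    have h1 := jn_lt S Bd hB hJ A (Or.inl rfl)
    have h2 := jn_lt S Bd hB hJ B (Or.inr (Or.inl rfl))
    have h3 := jn_lt S Bd hB hJ C (Or.inr (Or.inr rfl))
    exact ⟨code_lt Bd A h1.1 h1.2, code_lt Bd B h2.1 h2.2, code_lt Bd C h3.1 h3.2⟩
  · intro i hi hok i' hi' hok' p hp p' hp' he
    obtain ⟨A, B, C, hJ, eA, eB, eC⟩ := n4_ok S Bd hB i hi hok
    obtain ⟨A', B', C', hJ', eA', eB', eC'⟩ := n4_ok S Bd hB i' hi' hok'
    rw [eA, eB, eC] at hp
    rw [eA', eB', eC'] at hp'
    exact hc hJ hJ' _ _ (n4_ents S Bd hB A B C hJ p hp) (n4_ents S Bd hB A' B' C' hJ' p' hp')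
      (by rw [he])

/-- n4. From `f` on `El q` to `T ↦ f (T.image (dec Bd))`, from `f` on `ℕ` to
`T ↦ f (T.image (code Bd))`: both are polymatroids, and joins are preserved (`dec_code`). -/
theorem jd_iff : (∃ f : Finset ℕ → ℝ, Polymatroid f ∧ ∀ i < (S.jd Bd).nJ, (S.jd Bd).ok i = true →
      IsJoin f (S.jd Bd).r ((S.jd Bd).A i) ((S.jd Bd).B i) ((S.jd Bd).C i)) ↔
    ∃ f : Finset (El q) → ℝ, Polymatroid f ∧ AllJ S f := by
  have r : ∀ u, (S.jd Bd).r u = S.rk (dec Bd u) := fun _ => rfl
  constructor
  · rintro ⟨f, hf, hj⟩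
    refine ⟨fun T => f (T.image (code Bd)), n4_comap f hf (code Bd), ?_⟩
    intro A B C h
    obtain ⟨i, hi, hok, ht⟩ := (jd_joins S Bd hB A B C).mp h
    have dA := n4_dec S Bd hB A B C h A (Or.inl rfl)
    have dB := n4_dec S Bd hB A B C h B (Or.inr (Or.inl rfl))
    have dC := n4_dec S Bd hB A B C h C (Or.inr (Or.inr rfl))
    have eA : (S.jd Bd).A i = code Bd A := congrArg (fun t : El q × El q × El q => code Bd t.1) ht
    have eB : (S.jd Bd).B i = code Bd B := congrArg (fun t : El q × El q × El q => code Bd t.2.1) ht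
    have eC : (S.jd Bd).C i = code Bd C := congrArg (fun t : El q × El q × El q => code Bd t.2.2) ht
    have hI := hj i hi hok
    rw [eA, eB, eC] at hI
    obtain ⟨a, b, c, ab, ac, bc, abc⟩ := hI
    rw [r, dA] at a ab ac bc abc
    rw [r, dB] at b
    rw [r, dC] at c
    constructor <;> simpa [Finset.image_insert]
  · rintro ⟨f, hf, hj⟩
    refine ⟨fun T => f (T.image (dec Bd)), n4_comap f hf (dec Bd), ?_⟩
    intro i hi hok
    obtain ⟨A, B, C, h, eA, eB, eC⟩ := n4_ok S Bd hB i hi hok
    have dA := n4_dec S Bd hB A B C h A (Or.inl rfl)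
    have dB := n4_dec S Bd hB A B C h B (Or.inr (Or.inl rfl))
    have dC := n4_dec S Bd hB A B C h C (Or.inr (Or.inr rfl))
    obtain ⟨a, b, c, ab, ac, bc, abc⟩ := hj A B C h
    rw [eA, eB, eC]
    constructor <;> simpa [Finset.image_insert, r, dA, dB, dC]

end n4

end Pool.PmX
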