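import Pool.Agent.PmX.Num
import Pool.Agent.NPC.More

/-!
# The grid instance is computed in polynomial time
-/

namespace Pool.PmX

open Pool.NPC Pool.Agent.PRT

/-- grid data depending on `x : α`; alphabet, local rule and the symbols `bt`, `ac` are fixed -/
structure GP (α : Type) (q : ℕ) where
  δ : Fin q → Fin q → Fin q
  bt : Fin q
  ac : Fin q
  n : α → ℕ
  a : α → ℕ
  D : α → ℕ
  Bd : α → ℕ
  ini : α → ℕ → Fin q

namespace GP

variable {α : Type} {q : ℕ} (G : GP α q)

/-- the wire system at `x` -/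
def S (x : α) : Sys q := gsys G.δ G.bt G.ac (G.ini x) (G.n x) (G.a x) (G.D x)

/-- polynomial time -/
structure Ok [Enc α] : Prop where
  n : PT G.n
  a : PT G.a
  D : PT G.D
  Bd : PT G.Bd
  ini : PT (fun x : α × ℕ => (G.ini x.1 x.2).val)

end GP

/-! ### module p1: dispatch on kinds -/

section p1

variable {α β : Type} [Enc α] [Enc β]

/-- p1. Induction on a bound `F` for `i` as in `PT.table`: beyond `Fintype.card κ` the function
`un d` is constant. -/
theorem PT_un {κ : Type} [Fintype κ] (d : κ) (f : κ → α → β) (hf : ∀ k, PT (f k)) {i : α → ℕ}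
    (hi : PT i) : PT (fun x => f (un d (i x)) x) := by
  have key : ∀ F : ℕ, PT (fun x => if i x < F then f (un d (i x)) x else f d x) := by
    intro F
    induction F with
    | zero => exact (hf d).congr fun x => by simp
    | succ F ih =>
      refine (PT.ite (PT.eq hi (PT.const F)) (hf (un d F)) ih).congr fun x => ?_
      by_cases h : i x = F
      · have h1 : i x < F + 1 := by omega
        rw [if_pos h1, if_pos h, h]
      · by_cases h2 : i x < F
        · have h3 : i x < F + 1 := by omega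
          rw [if_pos h3, if_neg h, if_pos h2]
        · have h3 : ¬ i x < F + 1 := by omega
          rw [if_neg h3, if_neg h, if_neg h2]
  refine (key (Fintype.card κ)).congr fun x => ?_
  by_cases h : i x < Fintype.card κ
  · rw [if_pos h]
  · rw [if_neg h]
    have h1 : un d (i x) = d := by
      unfold un
      rw [dif_neg h]
    rw [h1]

/-- p1. -/
theorem BT_un {κ : Type} [Fintype κ] (d : κ) (f : κ → α → ℕ) (hf : ∀ k, BT (f k)) {i : α → ℕ}
    (hi : PT i) : BT (fun x => f (un d (i x)) x) := by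
  exact PT_un (β := Bin) d (fun k x => (⟨f k x⟩ : Bin)) hf hi

end p1

/-! ### module p2: patterns, sides, values -/

section p2aux

variable {β : Type} [Enc β]

/-- an optional bit in polynomial time -/
private def p2_PO (f : β → Option Bool) : Prop := ∀ o, PT (fun b => decide (f b = o))

private theorem p2_PO.ite {p : β → Prop} [DecidablePred p] {f g : β → Option Bool}
    (hp : PT (fun b => decide (p b))) (hf : p2_PO f) (hg : p2_PO g) :
    p2_PO (fun b => if p b then f b else g b) := by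
  intro o
  refine (PT.ite hp (hf o) (hg o)).congr fun b => ?_
  by_cases h : p b
  · simp only [if_pos h]
  · simp only [if_neg h]

private theorem p2_PO.const (v : Option Bool) : p2_PO (fun _ : β => v) :=
  fun o => PT.const (decide (v = o))

private theorem p2_decEq (f : β → Bool) (hf : PT f) (s : Bool) : PT (fun b => decide (f b = s)) := by
  cases s
  · refine (PT.not hf).congr fun b => ?_
    cases f b <;> rfl
  · refine hf.congr fun b => ?_
    cases f b <;> rfl

private theorem p2_PO.some {f : β → Bool} (hf : PT f) : p2_PO (fun b => some (f b)) := by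
  intro o
  rcases o with _ | v
  · refine (PT.const false).congr fun b => ?_
    simp
  · refine (p2_decEq f hf v).congr fun b => ?_
    simp only [Option.some.injEq]

private theorem p2_wpat {n w j : β → ℕ} (hn : PT n) (hw : PT w) (hj : PT j) (v : Bool) :
    p2_PO (fun b => wpat (n b) v (w b) (j b)) := by
  unfold wpat
  refine p2_PO.ite ?_ (p2_PO.ite (PT.lt hj hw) (p2_PO.const _)
    (p2_PO.ite (PT.eq hj hw) (p2_PO.const _) (p2_PO.const _))) (p2_PO.const _)
  refine (PT.beqBool (PT.lt hw hn) (PT.lt hj hn)).congr fun b => ?_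
  cases decide (w b < n b) <;> cases decide (j b < n b) <;> rfl

private theorem p2_cpat {n a D c j : β → ℕ} (hn : PT n) (ha : PT a) (hD : PT D) (hc : PT c)
    (hj : PT j) : p2_PO (fun b => cpat (n b) (a b) (D b) (c b) (j b)) := by
  unfold cpat
  refine p2_PO.ite (PT.eq hc (PT.const 0)) (p2_PO.ite (PT.lt hj hn) (p2_PO.const _)
    (p2_PO.const _)) ?_
  refine p2_PO.ite (PT.le hc hD) (p2_PO.ite (PT.lt hj hn) (p2_PO.some ?_) (p2_PO.const _)) ?_
  · exact BT.testBit (BT.ofUnary (PT.pred hc)) hj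
  · refine p2_PO.ite (PT.le hc (PT.add hD (PT.sub hn ha))) ?_ (p2_PO.const _)
    refine p2_PO.ite (PT.le hn hj) (p2_PO.const _) (p2_PO.ite ?_ (p2_PO.const _) (p2_PO.const _))
    exact PT.eq hj (PT.add ha (PT.pred (PT.sub hc hD)))

end p2aux

section p2

variable {α β : Type} [Enc α] [Enc β] {q : ℕ} {G : GP α q} (hG : G.Ok)
  {x : β → α} (hx : PT x) {c j : β → ℕ} (hc : PT c) (hj : PT j)
include hG hx hc hj

/-- p2. `wpat`, `cpat` by `PT.ite`, `PT.lt`, ...; the digit of the unary number `c - 1` by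
`BT.ofUnary`, `BT.testBit`.  For an `if` inside `decide` rewrite with `apply_ite`. -/
theorem PT_pat (o : Option Bool) : PT (fun b => decide ((G.S (x b)).pat (c b) (j b) = o)) := by
  have hn : PT (fun b => G.n (x b)) := PT.comp hG.n hx
  have ha : PT (fun b => G.a (x b)) := PT.comp hG.a hx
  have hD : PT (fun b => G.D (x b)) := PT.comp hG.D hx
  have key : p2_PO (fun b => if c b < 2 * G.n (x b) then wpat (G.n (x b)) true (c b) (j b)
      else if c b < 4 * G.n (x b) then wpat (G.n (x b)) false (c b - 2 * G.n (x b)) (j b)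
      else cpat (G.n (x b)) (G.a (x b)) (G.D (x b)) (c b - 4 * G.n (x b)) (j b)) := by
    refine p2_PO.ite (PT.lt hc (PT.mul (PT.const 2) hn)) (p2_wpat hn hc hj true) ?_
    refine p2_PO.ite (PT.lt hc (PT.mul (PT.const 4) hn))
      (p2_wpat hn (PT.sub hc (PT.mul (PT.const 2) hn)) hj false) ?_
    exact p2_cpat hn ha hD (PT.sub hc (PT.mul (PT.const 4) hn)) hj
  exact key o

/-- p2. `PT.count`. -/
theorem PT_dn : PT (fun b => (G.S (x b)).dn (c b) (j b)) := by
  have h1 : PT (fun y : β × ℕ => !decide ((G.S (x y.1)).pat (c y.1) y.2 = none)) :=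
    PT.not (PT_pat (β := β × ℕ) hG (PT.comp hx PT.fst) (PT.comp hc PT.fst) PT.snd none)
  refine (PT.count (p := fun y : β × ℕ => !decide ((G.S (x y.1)).pat (c y.1) y.2 = none))
    hj h1).congr fun b => ?_
  unfold Sys.dn
  apply List.countP_congr
  intro i _
  cases (G.S (x b)).pat (c b) i <;> simp

omit hj in
/-- p2. -/
theorem PT_sW (s : Bool) : PT (fun b => decide ((G.S (x b)).sW (c b) = s)) := by
  exact p2_decEq (fun b => decide (c b < G.n (x b))) (PT.lt hc (PT.comp hG.n hx)) s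

omit hj in
/-- p2. -/
theorem PT_sC (s : Bool) : PT (fun b => decide ((G.S (x b)).sC (c b) = s)) := by
  have hn : PT (fun b => G.n (x b)) := PT.comp hG.n hx
  have ha : PT (fun b => G.a (x b)) := PT.comp hG.a hx
  have hD : PT (fun b => G.D (x b)) := PT.comp hG.D hx
  exact p2_decEq (fun b => decide (c b = 0) ||
    decide (G.D (x b) + (G.n (x b) - G.a (x b)) < c b))
    (PT.or (PT.eq hc (PT.const 0)) (PT.lt (PT.add hD (PT.sub hn ha)) hc)) s

omit hj in
/-- p2. Compare the numbers `(vC ..).val`, `v.val`. -/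
theorem PT_vC (v : Fin q) : PT (fun b => decide ((G.S (x b)).vC (c b) = v)) := by
  have hn : PT (fun b => G.n (x b)) := PT.comp hG.n hx
  have ha : PT (fun b => G.a (x b)) := PT.comp hG.a hx
  have hD : PT (fun b => G.D (x b)) := PT.comp hG.D hx
  have hini : ∀ {p : β → ℕ}, PT p → PT (fun b => (G.ini (x b) (p b)).val) := fun hp =>
    PT.comp (g := fun y : α × ℕ => (G.ini y.1 y.2).val) hG.ini (PT.pair hx hp)
  have key : PT (fun b => if c b = 0 then G.bt.val else if c b ≤ G.D (x b) then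
      (G.ini (x b) (c b - 1)).val else if c b ≤ G.D (x b) + (G.n (x b) - G.a (x b)) then
      (G.ini (x b) (G.D (x b))).val else G.ac.val) := by
    refine PT.ite (PT.eq hc (PT.const 0)) (PT.const _) ?_
    refine PT.ite (PT.le hc hD) (hini (PT.pred hc)) ?_
    exact PT.ite (PT.le hc (PT.add hD (PT.sub hn ha))) (hini hD) (PT.const _)
  refine (PT.eq key (PT.const v.val)).congr fun b => ?_
  have h1 : ((G.S (x b)).vC (c b)).val = (if c b = 0 then G.bt.val else if c b ≤ G.D (x b) then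
      (G.ini (x b) (c b - 1)).val else if c b ≤ G.D (x b) + (G.n (x b) - G.a (x b)) then
      (G.ini (x b) (G.D (x b))).val else G.ac.val) := by
    show (if c b = 0 then G.bt else if c b ≤ G.D (x b) then G.ini (x b) (c b - 1)
      else if c b ≤ G.D (x b) + (G.n (x b) - G.a (x b)) then G.ini (x b) (G.D (x b))
      else G.ac).val = _
    split_ifs <;> rfl
  rw [← h1]
  simp only [Fin.ext_iff]

end p2

/-! ### module p3: joins and ranks -/

section p3

variable {α β : Type} [Enc α] [Enc β] {q : ℕ} {G : GP α q} (hG : G.Ok)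
  {x : β → α} (hx : PT x) {u v : β → ℕ} (hu : PT u) (hv : PT v)
include hG hx hu hv

/-- p3. Cases on `κ`. -/
theorem PT_cond (κ : JK q) : PT (fun b => κ.cond (G.S (x b)) (u b) (v b)) := by
  have hn : PT (fun b => G.n (x b)) := PT.comp hG.n hx
  have ha : PT (fun b => G.a (x b)) := PT.comp hG.a hx
  have hD : PT (fun b => G.D (x b)) := PT.comp hG.D hx
  have hN : PT (fun b => (G.S (x b)).N) := PT.mul (PT.const 2) hn
  have hW : PT (fun b => (G.S (x b)).nW) := PT.mul (PT.const 2) hn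
  have hC : PT (fun b => (G.S (x b)).nC) :=
    PT.succ (PT.add (PT.add (PT.const 1) hD) (PT.sub hn ha))
  have hP : PT (fun b => (G.S (x b)).nP) := PT.add (PT.mul (PT.const 2) hW) hC
  have uN := PT.lt hu hN
  have uP := PT.lt hu hP
  have uW := PT.lt hu hW
  have uC := PT.lt hu hC
  have vN := PT.lt hv hN
  have u0 := PT.eq hu (PT.const 0)
  have v0 := PT.eq hv (PT.const 0)
  have uv := PT.not (PT.eq hu hv)
  have hpat := PT_pat hG hx hu hv
  have hsW := PT_sW hG hx hu
  have hsC := PT_sC hG hx hu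
  have hvC := PT_vC hG hx hu
  cases κ with
  | top => exact PT.and uN v0
  | lit2 b => exact PT.and uN (PT.and vN uv)
  | lit2le b b' => exact PT.and uN (PT.and vN uv)
  | eb ω => exact PT.and uN v0
  | eble ω b => exact PT.and uN v0
  | ch ω => exact PT.and u0 v0
  | pch s k => exact PT.and u0 v0
  | tt s => exact PT.and u0 v0
  | cmpS b => exact PT.and uP (PT.and vN (hpat (some b)))
  | cmpN => exact PT.and uP (PT.and vN (hpat none))
  | part β => exact PT.and uP v0
  | corle β => exact PT.and uP v0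
  | resle β b => exact PT.and uP (PT.and vN (hpat (some b)))
  | Ksh m => exact PT.and uW (PT.and vN (hpat none))
  | Kle m b => exact PT.and uW (PT.and vN (hpat none))
  | Wsh m => exact PT.and uW (PT.and vN (hpat none))
  | Wle m b => exact PT.and uW (PT.and vN (hpat none))
  | YU m β => exact PT.and uW v0
  | YD m β s => exact PT.and uW (PT.and v0 (hsW s))
  | J m => exact PT.and uW v0
  | Wp m s => exact PT.and uW (PT.and v0 (hsW s))
  | We m i s => exact PT.and uW (PT.and v0 (hsW s))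
  | con m w s => exact PT.and uC (PT.and v0 (PT.and (hsC s) (hvC w)))

/-- p3. Cases on `κ`: kind number constant, parameters polynomial time; the three components. -/
theorem PT_tri (κ : JK q) : PT (fun b => code (G.Bd (x b)) (κ.tri (G.S (x b)) (u b) (v b)).1) ∧
    PT (fun b => code (G.Bd (x b)) (κ.tri (G.S (x b)) (u b) (v b)).2.1) ∧
    PT (fun b => code (G.Bd (x b)) (κ.tri (G.S (x b)) (u b) (v b)).2.2) := by
  have pc : ∀ (k : Kd q) {a c : β → ℕ}, PT a → PT c →
      PT (fun b => nm k + nK q * (a b + G.Bd (x b) * c b)) := by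
    intro k a c ha hc
    exact PT.add (PT.const _) (PT.mul (PT.const _) (PT.add ha (PT.mul (PT.comp hG.Bd hx) hc)))
  have p1 : ∀ (k : Kd q) {a : β → ℕ}, PT a →
      PT (fun b => nm k + nK q * (a b + G.Bd (x b) * 0)) := fun k a ha => pc k ha (PT.const 0)
  have hN : PT (fun b => (G.S (x b)).N) := PT.mul (PT.const 2) (PT.comp hG.n hx)
  have hW : PT (fun b => (G.S (x b)).nW + u b) :=
    PT.add (PT.mul (PT.const 2) (PT.comp hG.n hx)) hu
  have hC : PT (fun b => 2 * (G.S (x b)).nW + u b) :=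
    PT.add (PT.mul (PT.const 2) (PT.mul (PT.const 2) (PT.comp hG.n hx))) hu
  cases κ with
  | top => exact ⟨p1 .ch (PT.const (q * q)), p1 (.lit true) hu, p1 (.lit false) hu⟩
  | lit2 b => exact ⟨p1 (.lit b) hu, pc (.lit2 b true) hu hv, pc (.lit2 b false) hu hv⟩
  | lit2le b b' => exact ⟨p1 (.lit b') hv, p1 (.lit b') hv, pc (.lit2 b b') hu hv⟩
  | eb ω => exact ⟨p1 (.base (.e ω)) (PT.const 0), p1 (.eb ω true) hu, p1 (.eb ω false) hu⟩
  | eble ω b => exact ⟨p1 (.lit b) hu, p1 (.lit b) hu, p1 (.eb ω b) hu⟩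
  | ch ω => exact ⟨p1 .ch (PT.const (idx ω + 1)), p1 .ch (PT.const (idx ω)),
      p1 (.base (.e ω)) (PT.const 0)⟩
  | pch s k => exact ⟨p1 (.pch s) (PT.const ((k : ℕ) + 1)), p1 (.pch s) (PT.const (k : ℕ)),
      p1 (.base (.port s k)) (PT.const 0)⟩
  | tt s => exact ⟨p1 (.pch s) (PT.const q), p1 (.pch s) (PT.const q),
      p1 (.base .tt) (PT.const 0)⟩
  | cmpS b => exact ⟨pc .cmp hu (PT.succ hv), pc .cmp hu hv, p1 (.lit (!b)) hv⟩
  | cmpN => exact ⟨pc .cmp hu hv, pc .cmp hu hv, pc .cmp hu (PT.succ hv)⟩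
  | part β' => exact ⟨p1 (.base β') (PT.const 0), p1 (.res β') hu, p1 (.cor β') hu⟩
  | corle β' => exact ⟨pc .cmp hu hN, pc .cmp hu hN, p1 (.cor β') hu⟩
  | resle β' b => exact ⟨p1 (.lit b) hv, p1 (.lit b) hv, p1 (.res β') hu⟩
  | Ksh m => exact ⟨p1 (.K m) hu, pc (.Ksh m true) hu hv, pc (.Ksh m false) hu hv⟩
  | Kle m b => exact ⟨p1 (.lit b) hv, p1 (.lit b) hv, pc (.Ksh m b) hu hv⟩
  | Wsh m => exact ⟨p1 (.W m) hu, pc (.Wsh m true) hu hv, pc (.Wsh m false) hu hv⟩
  | Wle m b => exact ⟨p1 (.lit b) hv, p1 (.lit b) hv, pc (.Wsh m b) hu hv⟩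
  | YU m β' => exact ⟨p1 (.Y m β') hu, p1 (.K m) hu, p1 (.res (bU β')) hu⟩
  | YD m β' s =>
    cases β' with
    | none => exact ⟨p1 (.Y m none) hu, p1 (.K m) hu, p1 (.res (.port s m)) hW⟩
    | some ω => exact ⟨p1 (.Y m (some ω)) hu, p1 (.K m) hu,
        p1 (.res (.e (pr s (G.δ ω.1 ω.2) m))) hW⟩
  | J m => exact ⟨p1 (.J m) hu, p1 (.K m) hu, p1 (.W m) hu⟩
  | Wp m s => exact ⟨p1 (.W m) hu, p1 (.W m) hu, p1 (.res (.port s m)) hW⟩
  | We m i s => exact ⟨p1 (.W m) hu, p1 (.W m) hu, p1 (.res (.e (pr s i m))) hW⟩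
  | con m v' s => exact ⟨p1 (.res (.e (pr s v' m))) hC, p1 (.res (.e (pr s v' m))) hC,
      p1 (.res (.port s m)) hC⟩

/-- p3. Cases on `κ`: `BT.mul`, `BT.powU`, `BT.sub`, `BT.const`, `BT.ofUnary`, `PT_dn`. -/
theorem BT_rk (κ : Kd q) : BT (fun b => (G.S (x b)).rk (mk κ (u b) (v b))) := by
  have hN : PT (fun b => (G.S (x b)).N) := PT.mul (PT.const 2) (PT.comp hG.n hx)
  have hd : PT (fun b => (G.S (x b)).dn (u b) (v b)) := PT_dn hG hx hu hv
  have hD : PT (fun b => (G.S (x b)).dn (u b) (G.S (x b)).N) := PT_dn hG hx hu hN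
  have hp : ∀ {e : β → ℕ}, PT e → BT (fun b => 2 ^ e b) := fun he => BT.powU (BT.const 2) he
  have hND : PT (fun b => (G.S (x b)).N - (G.S (x b)).dn (u b) (G.S (x b)).N) := PT.sub hN hD
  cases κ with
  | lit b => exact BT.mul (BT.const (q * q)) (hp (PT.pred hN))
  | lit2 b b' => exact BT.mul (BT.const (q * q)) (hp (PT.sub hN (PT.const 2)))
  | base β' => exact hp hN
  | eb ω b => exact hp (PT.pred hN)
  | ch => exact BT.mul (BT.ofUnary hu) (hp hN)
  | pch s => exact BT.mul (BT.ofUnary hu) (hp hN)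
  | cmp => exact BT.mul (BT.const (q * q)) (BT.sub (hp hN) (hp (PT.sub hN hd)))
  | res β' => exact hp hND
  | cor β' => exact BT.sub (hp hN) (hp hND)
  | K m => exact BT.mul (BT.const (q * q)) (hp hND)
  | Ksh m b => exact BT.mul (BT.const (q * q)) (hp (PT.pred hND))
  | W m => exact BT.mul (BT.const q) (hp hND)
  | Wsh m b => exact BT.mul (BT.const q) (hp (PT.pred hND))
  | Y m β' => exact BT.mul (BT.const (q * q + 1)) (hp hND)
  | J m => exact BT.mul (BT.const (q * q + q)) (hp hND)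

end p3

/-! ### module p4: the join data -/

section p4

variable {α : Type} [Enc α] {q : ℕ} {G : GP α q} (hG : G.Ok)
include hG

/-- p4. `PT_un`, `BT_un`, `PT_cond`, `PT_tri`, `BT_rk`; `PT.mod`, `PT.div`. -/
theorem PTJ_grid : PTJ (fun x => (G.S x).jd (G.Bd x)) := by
  have hB : PT (fun a : α × ℕ => G.Bd a.1) := PT.comp hG.Bd PT.fst
  have hi : ∀ m : ℕ, PT (fun a : α × ℕ => a.2 % m) := fun m => PT.mod PT.snd (PT.const m)
  have hu : ∀ m : ℕ, PT (fun a : α × ℕ => a.2 / m % G.Bd a.1) :=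
    fun m => PT.mod (PT.div PT.snd (PT.const m)) hB
  have hv : ∀ m : ℕ, PT (fun a : α × ℕ => a.2 / m / G.Bd a.1) :=
    fun m => PT.div (PT.div PT.snd (PT.const m)) hB
  have h1 : PT (fun a : α × ℕ => (un (JK.top : JK q) (a.2 % nJK q)).cond (G.S a.1)
      (a.2 / nJK q % G.Bd a.1) (a.2 / nJK q / G.Bd a.1)) :=
    PT_un (α := α × ℕ) (β := Bool) (JK.top : JK q)
      (fun κ (a : α × ℕ) => κ.cond (G.S a.1) (a.2 / nJK q % G.Bd a.1) (a.2 / nJK q / G.Bd a.1))
      (fun κ => PT_cond hG PT.fst (hu _) (hv _) κ) (hi (nJK q))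
  have h2 : PT (fun a : α × ℕ => code (G.Bd a.1) ((un (JK.top : JK q) (a.2 % nJK q)).tri (G.S a.1)
      (a.2 / nJK q % G.Bd a.1) (a.2 / nJK q / G.Bd a.1)).1) :=
    PT_un (α := α × ℕ) (β := ℕ) (JK.top : JK q)
      (fun κ (a : α × ℕ) => code (G.Bd a.1) (κ.tri (G.S a.1) (a.2 / nJK q % G.Bd a.1)
        (a.2 / nJK q / G.Bd a.1)).1)
      (fun κ => (PT_tri hG PT.fst (hu _) (hv _) κ).1) (hi (nJK q))
  have h3 : PT (fun a : α × ℕ => code (G.Bd a.1) ((un (JK.top : JK q) (a.2 % nJK q)).tri (G.S a.1)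
      (a.2 / nJK q % G.Bd a.1) (a.2 / nJK q / G.Bd a.1)).2.1) :=
    PT_un (α := α × ℕ) (β := ℕ) (JK.top : JK q)
      (fun κ (a : α × ℕ) => code (G.Bd a.1) (κ.tri (G.S a.1) (a.2 / nJK q % G.Bd a.1)
        (a.2 / nJK q / G.Bd a.1)).2.1)
      (fun κ => (PT_tri hG PT.fst (hu _) (hv _) κ).2.1) (hi (nJK q))
  have h4 : PT (fun a : α × ℕ => code (G.Bd a.1) ((un (JK.top : JK q) (a.2 % nJK q)).tri (G.S a.1)
      (a.2 / nJK q % G.Bd a.1) (a.2 / nJK q / G.Bd a.1)).2.2) :=
    PT_un (α := α × ℕ) (β := ℕ) (JK.top : JK q)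
      (fun κ (a : α × ℕ) => code (G.Bd a.1) (κ.tri (G.S a.1) (a.2 / nJK q % G.Bd a.1)
        (a.2 / nJK q / G.Bd a.1)).2.2)
      (fun κ => (PT_tri hG PT.fst (hu _) (hv _) κ).2.2) (hi (nJK q))
  have h5 : BT (fun a : α × ℕ => (G.S a.1).rk (mk (un (Kd.ch : Kd q) (a.2 % nK q))
      (a.2 / nK q % G.Bd a.1) (a.2 / nK q / G.Bd a.1))) :=
    BT_un (α := α × ℕ) (Kd.ch : Kd q)
      (fun κ (a : α × ℕ) => (G.S a.1).rk (mk κ (a.2 / nK q % G.Bd a.1) (a.2 / nK q / G.Bd a.1)))
      (fun κ => BT_rk hG PT.fst (hu _) (hv _) κ) (hi (nK q))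
  exact ⟨PT.mul (PT.const (nK q)) (PT.mul hG.Bd hG.Bd),
    PT.mul (PT.const (nJK q)) (PT.mul hG.Bd hG.Bd), h1, h2, h3, h4, h5⟩

end p4

end Pool.PmX
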