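import Pool.Agent.PmX.Abs

/-!
# Soundness: a polymatroid with the joins of a wire system evaluates the system
-/

namespace Pool.PmX

variable {q : ℕ} {S : Sys q} {f : Finset (El q) → ℝ}

/-- the literals -/
def lt (S : Sys q) (b : Bool) (j : Fin S.N) : El q := .lit b j

/-- the literals false at `x`, at the bits in `J` -/
abbrev T (S : Sys q) (x : Fin S.N → Bool) (J : Finset (Fin S.N)) : Finset (El q) := TT (lt S) x J

/-- the bits not fixed by the pattern `c` -/
def fr (S : Sys q) (c : ℕ) : Finset (Fin S.N) := Finset.univ.filter (fun j => S.pat c j = none)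

/-- all joins hold -/
def AllJ (S : Sys q) (f : Finset (El q) → ℝ) : Prop := ∀ A B C, S.Jn A B C → IsJoin f S.rk A B C

/-! ### module s1 -/

section s1

variable (hf : Polymatroid f) (hJ : AllJ S f)
include hf hJ

/-- s1. `ind`: join `top`: `f {lit true j, lit false j} = q q 2^N = 2 (q q 2^(N-1))` (`N ≥ 1` since
`j : Fin S.N`).  `split`: joins `lit2`, `lit2le` and `Split.of_join`. -/
theorem lits : Lits f (lt S) := by

  refine ⟨fun j => ?_, fun b i j hij => ?_⟩
  · have h := hJ _ _ _ (Sys.Jn.top (j : ℕ) j.2)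
    have h1 : 2 ^ S.N = 2 * 2 ^ (S.N - 1) := by
      rw [← pow_succ']
      congr 1
      have := j.2
      omega
    have hb : f {El.lit true (j : ℕ)} = ((q * q * 2 ^ (S.N - 1) : ℕ) : ℝ) := h.b
    have hc : f {El.lit false (j : ℕ)} = ((q * q * 2 ^ (S.N - 1) : ℕ) : ℝ) := h.c
    have hbc : f {El.lit true (j : ℕ), El.lit false (j : ℕ)} = ((q * q * 2 ^ S.N : ℕ) : ℝ) := h.bc
    show f {El.lit true (j : ℕ), El.lit false (j : ℕ)} =
      f {El.lit true (j : ℕ)} + f {El.lit false (j : ℕ)}
    rw [hb, hc, hbc, h1, ← Nat.cast_add]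
    congr 1
    ring
  · have hne : (i : ℕ) ≠ (j : ℕ) := fun h => hij (Fin.ext h)
    exact Split.of_join hf (hJ _ _ _ (Sys.Jn.lit2 b i j i.2 j.2 hne))
      ((hJ _ _ _ (Sys.Jn.lit2le b i true j i.2 j.2 hne)).cl_c hf)
      ((hJ _ _ _ (Sys.Jn.lit2le b i false j i.2 j.2 hne)).cl_c hf)

/-- s1. Joins `eb`, `eble`. -/
theorem split_e (ω : Fin q × Fin q) (j : Fin S.N) :
    Split f (lt S true j) (lt S false j) {El.base (.e ω)} := by

  exact Split.of_join hf (hJ _ _ _ (Sys.Jn.eb ω j j.2))
    ((hJ _ _ _ (Sys.Jn.eble ω true j j.2)).cl_c hf)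
    ((hJ _ _ _ (Sys.Jn.eble ω false j j.2)).cl_c hf)

/-- s1. Joins `Ksh`, `Kle`. -/
theorem split_K (m : Fin q) (w : ℕ) (hw : w < S.nW) (j : Fin S.N) (h : S.pat w j = none) :
    Split f (lt S true j) (lt S false j) {El.K m w} := by

  exact Split.of_join hf (hJ _ _ _ (Sys.Jn.Ksh m w j hw j.2 h))
    ((hJ _ _ _ (Sys.Jn.Kle m true w j hw j.2 h)).cl_c hf)
    ((hJ _ _ _ (Sys.Jn.Kle m false w j hw j.2 h)).cl_c hf)

/-- s1. Joins `Wsh`, `Wle`. -/
theorem split_W (m : Fin q) (w : ℕ) (hw : w < S.nW) (j : Fin S.N) (h : S.pat w j = none) :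
    Split f (lt S true j) (lt S false j) {El.W m w} := by

  exact Split.of_join hf (hJ _ _ _ (Sys.Jn.Wsh m w j hw j.2 h))
    ((hJ _ _ _ (Sys.Jn.Wle m true w j hw j.2 h)).cl_c hf)
    ((hJ _ _ _ (Sys.Jn.Wle m false w j hw j.2 h)).cl_c hf)

end s1

/-! ### module s2: independence of the `e ω` -/

section s2

variable (hf : Polymatroid f) (hJ : AllJ S f)
include hf hJ

private theorem s2a_q : 0 < q := by
  rcases Nat.eq_zero_or_pos q with hq | hq
  · exfalso
    have h := hJ _ _ _ (Sys.Jn.tt (q := q) (S := S) true)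
    have h1 : f {El.base .tt} = ((2 ^ S.N : ℕ) : ℝ) := h.c
    have h2 : f {El.pch true q, El.base .tt} = ((q * 2 ^ S.N : ℕ) : ℝ) := h.ac
    have h3 : f {El.base .tt} ≤ f {El.pch true q, El.base .tt} := by
      apply hf.mono
      intro z hz
      rw [Finset.mem_singleton] at hz
      rw [hz]
      simp
    rw [h1, h2] at h3
    have h4 : 2 ^ S.N ≤ q * 2 ^ S.N := by exact_mod_cast h3
    have h5 : q * 2 ^ S.N = 0 := Nat.mul_eq_zero.2 (Or.inl hq)
    have h6 : 0 < 2 ^ S.N := Nat.two_pow_pos _
    omega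
  · exact hq

/-- s2. For `s ≤ q * q` the element `ch s` is in the closure of `{base (e ω) | idx ω < s}`:
induction on `s` with the join `ch`; `f {ch 0} = 0`.  Use: every `s < q * q` is `idx ω`. -/
theorem ch_le (s : ℕ) (hs : s ≤ q * q) :
    Cl f {El.ch s} ((Finset.univ : Finset (Fin q × Fin q)).image (fun ω => El.base (.e ω))) := by

  have hq := s2a_q hf hJ
  induction s with
  | zero =>
    have h0 : idx ((⟨0, hq⟩, ⟨0, hq⟩) : Fin q × Fin q) = 0 := by
      unfold idx
      simp
    have h := (hJ _ _ _ (Sys.Jn.ch ((⟨0, hq⟩, ⟨0, hq⟩) : Fin q × Fin q))).b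
    rw [h0] at h
    have h1 : f {El.ch 0} = 0 := by
      rw [h]
      show (((0 * 2 ^ S.N : ℕ)) : ℝ) = 0
      rw [zero_mul, Nat.cast_zero]
    exact cl_mono hf (cl_empty_of_zero hf h1) (Finset.empty_subset _)
  | succ s ih =>
    have hlt : s < q * q := hs
    have hdiv : s / q < q := Nat.div_lt_of_lt_mul hlt
    have hmod : s % q < q := Nat.mod_lt _ hq
    set ω : Fin q × Fin q := (⟨s / q, hdiv⟩, ⟨s % q, hmod⟩) with hω
    have hidx : idx ω = s := by
      show s / q * q + s % q = s
      exact Nat.div_add_mod' s q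
    have h := hJ _ _ _ (Sys.Jn.ch ω)
    rw [hidx] at h
    have h1 := h.cl_a hf
    refine cl_trans hf (cl_mono hf h1 Finset.subset_union_left) (cl_union hf (ih hlt.le) ?_)
    refine cl_of_subset hf ?_
    rw [Finset.singleton_subset_iff]
    exact Finset.mem_image_of_mem _ (Finset.mem_univ ω)

/-- s2. `≤` by subadditivity (`cr_le_sum` with `T = ∅`); `≥`: by `ch_le` the rank is at least
`f {ch (q * q)} = q q 2^N`, and `f {base (e ω)} = 2^N`.  (`q = 0`: both sides are `0`; if `q > 0`
the rank of `ch (q * q)` is given by the join `ch` for the last `ω`.) -/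
theorem fam_e0 : f ((Finset.univ : Finset (Fin q × Fin q)).image (fun ω => El.base (.e ω))) =
    ∑ ω : Fin q × Fin q, f {El.base (.e ω)} := by

  have hq := s2a_q hf hJ
  have hb : ∀ ω : Fin q × Fin q, f {El.base (.e ω)} = ((2 ^ S.N : ℕ) : ℝ) := fun ω =>
    (hJ _ _ _ (Sys.Jn.ch ω)).c
  apply le_antisymm
  · have h := cr_le_sum hf (T := ∅) (Finset.univ : Finset (Fin q × Fin q))
      (fun ω => (El.base (.e ω) : El q))
    unfold cr at h
    simp only [Finset.union_empty, hf.empty, sub_zero] at h
    exact h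
  · have h1 := ch_le hf hJ (q * q) le_rfl
    have h2 : idx ((⟨q - 1, by omega⟩, ⟨q - 1, by omega⟩) : Fin q × Fin q) + 1 = q * q := by
      show (q - 1) * q + (q - 1) + 1 = q * q
      obtain ⟨m, rfl⟩ : ∃ m, q = m + 1 := ⟨q - 1, by omega⟩
      rw [Nat.add_sub_cancel]
      ring
    have h3 := (hJ _ _ _ (Sys.Jn.ch ((⟨q - 1, by omega⟩, ⟨q - 1, by omega⟩) : Fin q × Fin q))).a
    rw [h2] at h3
    have h4 : f {El.ch (q * q)} = ((q * q * 2 ^ S.N : ℕ) : ℝ) := h3
    have h5 : f {El.ch (q * q)} ≤ f ({El.ch (q * q)} ∪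
        (Finset.univ : Finset (Fin q × Fin q)).image (fun ω => El.base (.e ω))) :=
      hf.mono _ _ Finset.subset_union_left
    rw [h1, h4] at h5
    refine le_trans (le_of_eq ?_) h5
    rw [Finset.sum_congr rfl fun ω _ => hb ω, Finset.sum_const, Finset.card_univ,
      Fintype.card_prod, Fintype.card_fin, nsmul_eq_mul, ← Nat.cast_mul]

/-- s2. `fam_TT`, `split_e`, `fam_e0`. -/
theorem fam_e (x : Fin S.N → Bool) (J : Finset (Fin S.N)) :
    cr f (T S x J) ((Finset.univ : Finset (Fin q × Fin q)).image (fun ω => El.base (.e ω))) =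
      ∑ ω : Fin q × Fin q, cr f (T S x J) {El.base (.e ω)} := by

  refine fam_TT hf (lits hf hJ) Finset.univ (fun ω => (El.base (.e ω) : El q)) x J ?_
    (fam_e0 hf hJ)
  intro ω _ j _
  exact split_e hf hJ ω j

/-- s2. The gate is in the closure of the ports of either side: joins `pch`, `tt`
(`f {pch s 0} = 0`; if `q = 0` then `f {pch s 0} = 0` by the join `tt`). -/
theorem tt_le (s : Bool) :
    Cl f {El.base .tt} ((Finset.univ : Finset (Fin q)).image (fun m => El.base (.port s m))) := by

  have hq := s2a_q hf hJ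
  have key : ∀ k, k ≤ q → Cl f {El.pch s k}
      ((Finset.univ : Finset (Fin q)).image (fun m => (El.base (.port s m) : El q))) := by
    intro k hk
    induction k with
    | zero =>
      have h := (hJ _ _ _ (Sys.Jn.pch s (⟨0, hq⟩ : Fin q))).b
      have h1 : f {El.pch s 0} = 0 := by
        have h2 : f {El.pch s 0} = ((0 * 2 ^ S.N : ℕ) : ℝ) := h
        rw [h2, zero_mul, Nat.cast_zero]
      exact cl_mono hf (cl_empty_of_zero hf h1) (Finset.empty_subset _)
    | succ k ih =>
      have h1 := (hJ _ _ _ (Sys.Jn.pch s (⟨k, hk⟩ : Fin q))).cl_a hf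
      refine cl_trans hf (cl_mono hf h1 Finset.subset_union_left)
        (cl_union hf (ih (by omega)) ?_)
      refine cl_of_subset hf ?_
      rw [Finset.singleton_subset_iff]
      exact Finset.mem_image_of_mem _ (Finset.mem_univ _)
  have h1 := (hJ _ _ _ (Sys.Jn.tt (q := q) (S := S) s)).cl_c hf
  exact cl_trans hf (cl_mono hf h1 Finset.subset_union_left) (key q le_rfl)

end s2

/-! ### module s3: restriction to patterns -/

section s3

variable (hf : Polymatroid f) (hJ : AllJ S f)
include hf hJ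

/-- s3. `f {cmp c 0} = 0` (rank formula; joins `cmpS`, `cmpN` or, if `N = 0`, `corle`), then
induction on `i`: if `pat c i = some b` then `x i = b`, so `lit (!b) i ∈ T S x univ`. -/
theorem cmp_le (c : ℕ) (hc : c < S.nP) (x : Fin S.N → Bool) (hx : S.In c x) (i : ℕ)
    (hi : i ≤ S.N) : Cl f {El.cmp c i} (T S x Finset.univ) := by

  induction i with
  | zero =>
    have h0 : f {El.cmp c 0} = (S.rk (.cmp c 0) : ℕ) := by
      rcases Nat.eq_zero_or_pos S.N with hN | hN
      · have h := (hJ _ _ _ (Sys.Jn.corle (S := S) (.tt : Base q) c hc)).a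
        rw [hN] at h
        exact h
      · rcases hp : S.pat c 0 with _ | b
        · exact (hJ _ _ _ (Sys.Jn.cmpN c 0 hc hN hp)).a
        · exact (hJ _ _ _ (Sys.Jn.cmpS c 0 b hc hN hp)).b
    have h1 : S.rk (.cmp c 0) = 0 := by
      show q * q * (2 ^ S.N - 2 ^ (S.N - S.dn c 0)) = 0
      have h2 : S.dn c 0 = 0 := by
        unfold Sys.dn
        rfl
      rw [h2, Nat.sub_zero, Nat.sub_self, mul_zero]
    rw [h1, Nat.cast_zero] at h0
    exact cl_mono hf (cl_empty_of_zero hf h0) (Finset.empty_subset _)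
  | succ i ih =>
    have hiN : i < S.N := hi
    rcases hp : S.pat c i with _ | b
    · have h1 := (hJ _ _ _ (Sys.Jn.cmpN c i hc hiN hp)).cl_c hf
      exact cl_trans hf (cl_mono hf h1 Finset.subset_union_left) (ih hiN.le)
    · have h1 := (hJ _ _ _ (Sys.Jn.cmpS c i b hc hiN hp)).cl_a hf
      refine cl_trans hf (cl_mono hf h1 Finset.subset_union_left) (cl_union hf (ih hiN.le) ?_)
      refine cl_of_subset hf ?_
      rw [Finset.singleton_subset_iff]
      have h2 : x ⟨i, hiN⟩ = b := hx ⟨i, hiN⟩ b hp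
      have h3 : (El.lit (!b) i : El q) = lt S (!(x ⟨i, hiN⟩)) ⟨i, hiN⟩ := by
        rw [h2]
        rfl
      rw [h3]
      exact Finset.mem_image_of_mem (fun j => lt S (!(x j)) j) (Finset.mem_univ _)

/-- s3. Joins `part`, `corle` and `cmp_le`. -/
theorem base_le (β : Base q) (c : ℕ) (hc : c < S.nP) (x : Fin S.N → Bool) (hx : S.In c x) :
    Cl f {El.base β} ({El.res β c} ∪ T S x Finset.univ) := by

  have h1 := (hJ _ _ _ (Sys.Jn.part (S := S) β c hc)).cl_a hf
  have h2 := (hJ _ _ _ (Sys.Jn.corle (S := S) β c hc)).cl_c hf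
  have h3 := cmp_le hf hJ c hc x hx S.N le_rfl
  have h4 : Cl f {El.cor β c} (T S x Finset.univ) :=
    cl_trans hf (cl_mono hf h2 Finset.subset_union_left) h3
  refine cl_trans hf (cl_mono hf h1 Finset.subset_union_left) (cl_union hf ?_ ?_)
  · exact cl_of_subset hf Finset.subset_union_left
  · exact cl_mono hf h4 Finset.subset_union_right

/-- s3. Join `part`. -/
theorem res_le (β : Base q) (c : ℕ) (hc : c < S.nP) : Cl f {El.res β c} {El.base β} := by

  exact (hJ _ _ _ (Sys.Jn.part (S := S) β c hc)).cl_b hf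

/-- s3. `one_TT` from `fr S c` to `univ`, with the joins `resle` (if `j ∉ fr S c` then
`pat c j = some (x j)`). -/
theorem one_res (β : Base q) (c : ℕ) (hc : c < S.nP) (x : Fin S.N → Bool) (hx : S.In c x)
    (Z : Finset (El q)) (hZ : ∀ z ∈ Z, ∃ β, z = El.res β c) :
    cr f (T S x Finset.univ) Z = cr f (T S x (fr S c)) Z := by

  refine one_TT hf (lits hf hJ) Z x (Finset.subset_univ _) fun j _ hj => ?_
  refine cl_of_forall hf fun z hz => ?_
  obtain ⟨β, rfl⟩ := hZ z hz
  rcases hp : S.pat c j with _ | b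
  · exfalso
    apply hj
    unfold fr
    rw [Finset.mem_filter]
    exact ⟨Finset.mem_univ _, hp⟩
  · have h1 := (hJ _ _ _ (Sys.Jn.resle β c j b hc j.2 hp)).cl_c hf
    rw [hx j b hp]
    exact h1

/-- s3. Closure passes down: from `res β c ≤ res β' c` given `T S x univ` to the same given
`T S x (fr S c)`; `one_res` for `{res β c} ∪ {res β' c}` and for `{res β' c}`. -/
theorem res_down (β β' : Base q) (c : ℕ) (hc : c < S.nP) (x : Fin S.N → Bool) (hx : S.In c x)
    (h : Cl f {El.res β c} ({El.res β' c} ∪ T S x Finset.univ)) :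
    Cl f {El.res β c} ({El.res β' c} ∪ T S x (fr S c)) := by

  have h1 := one_res hf hJ β c hc x hx ({El.res β c} ∪ {El.res β' c}) (fun z hz => by
    rw [Finset.mem_union, Finset.mem_singleton, Finset.mem_singleton] at hz
    rcases hz with hz | hz
    · exact ⟨β, hz⟩
    · exact ⟨β', hz⟩)
  have h2 := one_res hf hJ β c hc x hx {El.res β' c} (fun z hz => by
    rw [Finset.mem_singleton] at hz
    exact ⟨β', hz⟩)
  unfold cr at h1 h2
  unfold Cl at h ⊢
  rw [← Finset.union_assoc] at h ⊢
  linarith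

end s3

/-! ### module s4: the step -/

section s4

variable (hf : Polymatroid f) (hJ : AllJ S f)
include hf hJ

/-- s4. `fam_TT` for the two elements `K`, `W` (family over `Bool`), with `split_K`, `split_W`; start:
join `J`, `f {K, W} = (q q + q) 2^(N-d) = f {K} + f {W}`. -/
theorem ind_KW (m : Fin q) (w : ℕ) (hw : w < S.nW) (x : Fin S.N → Bool) :
    cr f (T S x (fr S w)) ({El.K m w} ∪ {El.W m w}) =
      cr f (T S x (fr S w)) {El.K m w} + cr f (T S x (fr S w)) {El.W m w} := by

  have hj := hJ _ _ _ (Sys.Jn.J (S := S) m w hw)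
  have hb : f {El.K m w} = ((q * q * 2 ^ (S.N - S.dn w S.N) : ℕ) : ℝ) := hj.b
  have hc : f {El.W m w} = ((q * 2 ^ (S.N - S.dn w S.N) : ℕ) : ℝ) := hj.c
  have hbc : f {El.K m w, El.W m w} = (((q * q + q) * 2 ^ (S.N - S.dn w S.N) : ℕ) : ℝ) := hj.bc
  have him : (Finset.univ : Finset Bool).image
      (fun b => if b then (El.K m w : El q) else El.W m w) = {El.K m w} ∪ {El.W m w} := by
    ext z
    simp only [Finset.mem_image, Finset.mem_univ, true_and, Finset.mem_union,
      Finset.mem_singleton]
    constructor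
    · rintro ⟨b, hb⟩
      cases b
      · right
        exact hb.symm
      · left
        exact hb.symm
    · rintro (hz | hz)
      · exact ⟨true, hz.symm⟩
      · exact ⟨false, hz.symm⟩
  have h := fam_TT hf (lits hf hJ) (Finset.univ : Finset Bool)
    (fun b => if b then (El.K m w : El q) else El.W m w) x (fr S w) (by
      intro b _ j hj'
      have hp : S.pat w j = none := by
        unfold fr at hj'
        rw [Finset.mem_filter] at hj'
        exact hj'.2
      cases b
      · exact split_W hf hJ m w hw j hp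
      · exact split_K hf hJ m w hw j hp) (by
      rw [him, Fintype.sum_bool]
      show f ({El.K m w} ∪ {El.W m w}) = f {El.K m w} + f {El.W m w}
      have h1 : ({El.K m w} ∪ {El.W m w} : Finset (El q)) = {El.K m w, El.W m w} := rfl
      rw [h1, hb, hc, hbc, ← Nat.cast_add]
      congr 1
      ring)
  rw [him, Fintype.sum_bool] at h
  exact h

/-- the invariant at the cell `x` for the side `s` -/
def Inv (S : Sys q) (f : Finset (El q) → ℝ) (val : Bool → (Fin S.N → Bool) → Fin q) (s : Bool)
    (x : Fin S.N → Bool) : Prop :=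
  ∀ m, Cl f {El.base (.port s m)} ({El.base (.e (pr s (val s x) m))} ∪ T S x Finset.univ)

/-- s4. `tt_le` for both sides, the invariants, and `fam_inter` for the row
`{(val true x, m)}` and the column `{(i, val false x)}`. -/
theorem gate (val : Bool → (Fin S.N → Bool) → Fin q) (x : Fin S.N → Bool)
    (h : ∀ s, Inv S f val s x) :
    Cl f {El.base .tt} ({El.base (.e (val true x, val false x))} ∪ T S x Finset.univ) := by

  have h1 := fam_e hf hJ x Finset.univ
  set s₁ : Finset (Fin q × Fin q) := Finset.univ.filter (fun ω => ω.1 = val true x) with hs1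
  set s₂ : Finset (Fin q × Fin q) := Finset.univ.filter (fun ω => ω.2 = val false x) with hs2
  have key : ∀ (s : Bool) (s' : Finset (Fin q × Fin q)),
      (∀ m, pr s (val s x) m ∈ s') → Cl f {(El.base .tt : El q)}
        (s'.image (fun ω => (El.base (.e ω) : El q)) ∪ T S x Finset.univ) := by
    intro s s' hs'
    have h2 := tt_le hf hJ s
    refine cl_trans hf (cl_mono hf h2 Finset.subset_union_left) (cl_of_forall hf fun z hz => ?_)
    rw [Finset.mem_image] at hz
    obtain ⟨m, _, rfl⟩ := hz
    refine cl_trans hf (cl_mono hf (h s m) Finset.subset_union_left) (cl_union hf ?_ ?_)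
    · refine cl_of_subset hf ?_
      rw [Finset.singleton_subset_iff, Finset.mem_union]
      exact Or.inl (Finset.mem_image_of_mem _ (hs' m))
    · exact cl_of_subset hf Finset.subset_union_right
  have h2 := key true s₁ (fun m => by
    rw [hs1, Finset.mem_filter]
    exact ⟨Finset.mem_univ _, rfl⟩)
  have h3 := key false s₂ (fun m => by
    rw [hs2, Finset.mem_filter]
    exact ⟨Finset.mem_univ _, rfl⟩)
  have h4 := fam_inter hf (fun ω => (El.base (.e ω) : El q)) h1 (Finset.subset_univ s₁)
    (Finset.subset_univ s₂) h2 h3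
  have h5 : s₁ ∩ s₂ = {(val true x, val false x)} := by
    ext ω
    rw [Finset.mem_inter, hs1, hs2, Finset.mem_filter, Finset.mem_filter, Finset.mem_singleton]
    constructor
    · rintro ⟨⟨_, h6⟩, ⟨_, h7⟩⟩
      exact Prod.ext h6 h7
    · rintro rfl
      exact ⟨⟨Finset.mem_univ _, rfl⟩, ⟨Finset.mem_univ _, rfl⟩⟩
  rw [h5, Finset.image_singleton] at h4
  exact h4

/-- s4. With `U = w`, `D = nW + w`, `ω = (val true x, val false x)`, `F = T S x (fr S w)`:
`res tt U ≤ tt ≤ e ω ≤ res (e ω) U` given `T S x univ` (`gate`, `res_le`, `base_le`), so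
`res tt U ≤ res (e ω) U` given `F` (`res_down`).  Joins `YD none`, `YU none`, `YU (some ω)`,
`YD (some ω)`: `res (port (sW w) m) D ≤ Y none ≤ {K, res tt U} ≤ {K, res (e ω) U} ∪ F ≤
Y (some ω) ∪ F ≤ {K, res (e ω') D} ∪ F`, `ω' = pr (sW w) (δ ω) m`. -/
theorem wire1 (val : Bool → (Fin S.N → Bool) → Fin q) (w : ℕ) (hw : w < S.nW)
    (x : Fin S.N → Bool) (hx : S.In w x) (h : ∀ s, Inv S f val s x) (m : Fin q) :
    Cl f {El.res (.port (S.sW w) m) (S.nW + w)}
      ({El.K m w} ∪ ({El.res (.e (pr (S.sW w) (S.δ (val true x) (val false x)) m)) (S.nW + w)} ∪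
        T S x (fr S w))) := by

  have hU : w < S.nP := by
    unfold Sys.nP
    omega
  set ω : Fin q × Fin q := (val true x, val false x) with hω
  -- `res tt U ≤ res (e ω) U` given `F`
  have h1 : Cl f {(El.res .tt w : El q)} ({El.res (.e ω) w} ∪ T S x (fr S w)) := by
    refine res_down hf hJ .tt (.e ω) w hU x hx ?_
    have h2 := res_le hf hJ (.tt : Base q) w hU
    have h3 := gate hf hJ val x h
    have h4 := base_le hf hJ (.e ω) w hU x hx
    have h5 : Cl f {(El.base .tt : El q)} ({El.res (.e ω) w} ∪ T S x Finset.univ) := by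
      refine cl_trans hf (cl_mono hf h3 Finset.subset_union_left) (cl_union hf h4 ?_)
      exact cl_of_subset hf Finset.subset_union_right
    exact cl_trans hf (cl_mono hf h2 Finset.subset_union_left) h5
  set F := T S x (fr S w) with hF
  set D := S.nW + w with hD
  have hYD0 := (hJ _ _ _ (Sys.Jn.YD (S := S) m none w hw)).cl_c hf
  have hYU0 := (hJ _ _ _ (Sys.Jn.YU (S := S) m none w hw)).cl_a hf
  have hYU1 := (hJ _ _ _ (Sys.Jn.YU (S := S) m (some ω) w hw)).cl_c hf
  have hYD1 := (hJ _ _ _ (Sys.Jn.YD (S := S) m (some ω) w hw)).cl_a hf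
  have e1 : Cl f {(El.res (.port (S.sW w) m) D : El q)} {El.Y m none w} := hYD0
  have e2 : Cl f {(El.Y m none w : El q)} ({El.K m w} ∪ {El.res .tt w}) := hYU0
  have e3 : Cl f {(El.res (.e ω) w : El q)} {El.Y m (some ω) w} := hYU1
  have e4 : Cl f {(El.Y m (some ω) w : El q)}
    ({El.K m w} ∪ {El.res (.e (pr (S.sW w) (S.δ ω.1 ω.2) m)) D}) := hYD1
  set G : Finset (El q) := {El.K m w} ∪
    ({El.res (.e (pr (S.sW w) (S.δ (val true x) (val false x)) m)) D} ∪ F) with hG
  have g1 : Cl f {(El.Y m (some ω) w : El q)} G := by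
    refine cl_mono hf e4 ?_
    rw [hG]
    intro z hz
    rw [Finset.mem_union] at hz ⊢
    rcases hz with hz | hz
    · exact Or.inl hz
    · exact Or.inr (Finset.mem_union_left _ hz)
  have g2 : Cl f {(El.res (.e ω) w : El q)} G :=
    cl_trans hf (cl_mono hf e3 Finset.subset_union_left) g1
  have g3 : Cl f F G := by
    refine cl_of_subset hf ?_
    rw [hG]
    exact (Finset.subset_union_right).trans Finset.subset_union_right
  have g4 : Cl f {(El.res .tt w : El q)} G :=
    cl_trans hf (cl_mono hf h1 Finset.subset_union_left) (cl_union hf g2 g3)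
  have g5 : Cl f {(El.K m w : El q)} G := by
    refine cl_of_subset hf ?_
    rw [hG]
    exact Finset.subset_union_left
  have g6 : Cl f {(El.Y m none w : El q)} G :=
    cl_trans hf (cl_mono hf e2 Finset.subset_union_left) (cl_union hf g5 g4)
  exact cl_trans hf (cl_mono hf e1 Finset.subset_union_left) g6

/-- s4. `wire_abs` with `wire1`, the joins `Wp`, `We` and `ind_KW`; then at `move w x`: the sets
`T S x (fr S w)` and `T S (move w x) (fr S w)` agree (a bit free in `pat w` is free in
`pat (nW + w)` by `Good`), `base_le` for `port` at the pattern `nW + w`, and `res_le` for `e ω'`. -/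
theorem wire2 (hg : S.Good) (val : Bool → (Fin S.N → Bool) → Fin q) (w : ℕ) (hw : w < S.nW)
    (x : Fin S.N → Bool) (hx : S.In w x) (h : ∀ s, Inv S f val s x)
    (hv : val (S.sW w) (S.move w x) = S.δ (val true x) (val false x)) :
    Inv S f val (S.sW w) (S.move w x) := by

  intro m
  have hD : S.nW + w < S.nP := by
    unfold Sys.nP
    omega
  have h1 := wire1 hf hJ val w hw x hx h m
  have hl := (hJ _ _ _ (Sys.Jn.Wp (S := S) m w hw)).cl_c hf
  have he := (hJ _ _ _ (Sys.Jn.We (S := S) m (S.δ (val true x) (val false x)) w hw)).cl_c hf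
  have h2 := wire_abs hf (T S x (fr S w)) (El.K m w) (El.W m w)
    (El.res (.port (S.sW w) m) (S.nW + w))
    (El.res (.e (pr (S.sW w) (S.δ (val true x) (val false x)) m)) (S.nW + w)) h1 hl he
    (ind_KW hf hJ m w hw x)
  set y := S.move w x with hy
  have hIn : S.In (S.nW + w) y := by
    intro j b hp
    rw [hy]
    unfold Sys.move
    rw [hp]
    rfl
  have hT : T S x (fr S w) = T S y (fr S w) := by
    unfold T TT
    refine Finset.image_congr ?_
    intro j hj
    have hp : S.pat w j = none := by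
      have hj' : j ∈ fr S w := hj
      unfold fr at hj'
      rw [Finset.mem_filter] at hj'
      exact hj'.2
    have h3 := hg.dom w hw j j.2
    rw [hp] at h3
    have h4 : S.pat (S.nW + w) j = none := by
      rcases h5 : S.pat (S.nW + w) j with _ | b
      · rfl
      · rw [h5] at h3
        exact absurd h3 (by simp)
    have h5 : y j = x j := by
      rw [hy]
      unfold Sys.move
      rw [h4]
      rfl
    show lt S (!(x j)) j = lt S (!(y j)) j
    rw [h5]
  have hsub : T S y (fr S w) ⊆ T S y Finset.univ := Finset.image_subset_image (Finset.subset_univ _)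
  have h6 := base_le hf hJ (.port (S.sW w) m) (S.nW + w) hD y hIn
  have h7 := res_le hf hJ (.e (pr (S.sW w) (S.δ (val true x) (val false x)) m)) (S.nW + w) hD
  rw [hv]
  refine cl_trans hf (cl_mono hf h6 Finset.subset_union_left) (cl_union hf ?_ ?_)
  · refine cl_trans hf (cl_mono hf h2 Finset.subset_union_left) (cl_union hf ?_ ?_)
    · exact cl_mono hf h7 Finset.subset_union_left
    · refine cl_of_subset hf ?_
      rw [hT]
      exact hsub.trans Finset.subset_union_right
  · exact cl_of_subset hf Finset.subset_union_right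

/-- s4. `base_le`, join `con`, `res_le`. -/
theorem const1 (val : Bool → (Fin S.N → Bool) → Fin q) (c : ℕ) (hc : c < S.nC)
    (x : Fin S.N → Bool) (hx : S.In (2 * S.nW + c) x) (hv : val (S.sC c) x = S.vC c) :
    Inv S f val (S.sC c) x := by

  intro m
  have hP : 2 * S.nW + c < S.nP := by
    unfold Sys.nP
    omega
  have h1 := base_le hf hJ (.port (S.sC c) m) (2 * S.nW + c) hP x hx
  have h2 := (hJ _ _ _ (Sys.Jn.con (S := S) m c hc)).cl_c hf
  have h3 := res_le hf hJ (.e (pr (S.sC c) (S.vC c) m)) (2 * S.nW + c) hP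
  rw [hv]
  refine cl_trans hf (cl_mono hf h1 Finset.subset_union_left) (cl_union hf ?_ ?_)
  · refine cl_mono hf ?_ Finset.subset_union_left
    exact cl_trans hf (cl_mono hf h2 Finset.subset_union_left) h3
  · exact cl_of_subset hf Finset.subset_union_right

/-- s4. Strong induction on the height from `Cov`. -/
theorem inv_all (hg : S.Good) (n : ℕ) (hn : n ≤ S.nC) (hcov : S.Cov n)
    (val : Bool → (Fin S.N → Bool) → Fin q) (hs : S.Sol n val) (s : Bool) (x : Fin S.N → Bool) :
    Inv S f val s x := by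

  obtain ⟨h, hh⟩ := hcov
  suffices H : ∀ k : ℕ, ∀ x, h x ≤ k → ∀ s, Inv S f val s x from H (h x) x le_rfl s
  intro k
  induction k with
  | zero =>
    intro x hx s
    rcases hh s x with ⟨c, hc, h1, h2⟩ | ⟨w, hw, h1, x0, h2, h3, h4⟩
    · rw [← h1]
      exact const1 hf hJ val c (by omega) x h2 (hs.con c hc x h2)
    · omega
  | succ k ih =>
    intro x hx s
    rcases hh s x with ⟨c, hc, h1, h2⟩ | ⟨w, hw, h1, x0, h2, h3, h4⟩
    · rw [← h1]
      exact const1 hf hJ val c (by omega) x h2 (hs.con c hc x h2)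
    · rw [← h1, ← h3]
      exact wire2 hf hJ hg val w hw x0 h2 (ih x0 (by omega)) (hs.wire w hw x0 h2)

/-- s4. **Soundness.**  Suppose `val (sC n) x ≠ vC n`.  Let `s = sC n`, `c = 2 nW + n`, `m = vC n`,
`Φ = res (port s m) c`; `f {Φ} = 2^(N - dn c N) = 1` since the pattern is full, and
`cr f (T S x univ) {Φ} = cr f ∅ {Φ} = 1` (`one_res`, `fr S c = ∅`).  But `Φ ≤ port s m ≤
e (pr s (val s x) m)` (`res_le`, `inv_all`) and `Φ ≤ res (e (pr s (vC n) m)) c ≤ e (pr s (vC n) m)`
(join `con`), so `Φ ≤ ∅` given `T S x univ` by `fam_inter` for two different one-point sets. -/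
theorem sound (hg : S.Good) (n : ℕ) (hn : n < S.nC) (hcov : S.Cov n)
    (val : Bool → (Fin S.N → Bool) → Fin q) (hs : S.Sol n val) (x : Fin S.N → Bool)
    (hx : S.In (2 * S.nW + n) x) (hfull : ∀ j < S.N, (S.pat (2 * S.nW + n) j).isSome) :
    val (S.sC n) x = S.vC n := by

  by_contra hne
  set s := S.sC n with hsd
  set c := 2 * S.nW + n with hcd
  have hP : c < S.nP := by
    unfold Sys.nP
    omega
  set m := S.vC n with hm
  have hfr : fr S c = ∅ := by
    unfold fr
    rw [Finset.filter_eq_empty_iff]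
    intro j _ hj
    have h1 := hfull j j.2
    rw [hj] at h1
    exact absurd h1 (by simp)
  have hdn : S.dn c S.N = S.N := by
    unfold Sys.dn
    rw [List.countP_eq_length.2, List.length_range]
    intro j hj
    exact hfull j (List.mem_range.1 hj)
  -- the rank of `Φ`
  have h1 : f {(El.res (.port s m) c : El q)} = 1 := by
    have h2 : f {(El.res (.port s m) c : El q)} = ((2 ^ (S.N - S.dn c S.N) : ℕ) : ℝ) :=
      (hJ _ _ _ (Sys.Jn.part (S := S) (.port s m) c hP)).b
    rw [h2, hdn, Nat.sub_self, pow_zero, Nat.cast_one]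
  have h2 : cr f (T S x Finset.univ) {(El.res (.port s m) c : El q)} = 1 := by
    rw [one_res hf hJ (.port s m) c hP x hx _ (fun z hz => ⟨_, Finset.mem_singleton.1 hz⟩), hfr]
    unfold cr T TT
    rw [Finset.image_empty, Finset.union_empty, h1, hf.empty, sub_zero]
  -- two closures
  have h3 : Cl f {(El.res (.port s m) c : El q)}
      ({El.base (.e (pr s (val s x) m))} ∪ T S x Finset.univ) := by
    have h4 := res_le hf hJ (.port s m) c hP
    have h5 := inv_all hf hJ hg n hn.le hcov val hs s x m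
    exact cl_trans hf (cl_mono hf h4 Finset.subset_union_left) h5
  have h4 : Cl f {(El.res (.port s m) c : El q)}
      ({El.base (.e (pr s m m))} ∪ T S x Finset.univ) := by
    have h5 : Cl f {(El.res (.port s m) c : El q)} {El.res (.e (pr s m m)) c} :=
      (hJ _ _ _ (Sys.Jn.con (S := S) m n hn)).cl_c hf
    have h6 := res_le hf hJ (.e (pr s m m)) c hP
    exact cl_mono hf (cl_trans hf (cl_mono hf h5 Finset.subset_union_left) h6)
      Finset.subset_union_left
  have h5 := fam_inter hf (fun ω => (El.base (.e ω) : El q)) (fam_e hf hJ x Finset.univ)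
    (Finset.subset_univ {pr s (val s x) m}) (Finset.subset_univ {pr s m m})
    (by rw [Finset.image_singleton]; exact h3) (by rw [Finset.image_singleton]; exact h4)
  have h6 : ({pr s (val s x) m} ∩ {pr s m m} : Finset (Fin q × Fin q)) = ∅ := by
    rw [← Finset.disjoint_iff_inter_eq_empty, Finset.disjoint_singleton]
    intro h7
    unfold pr at h7
    apply hne
    rcases hsb : s with _ | _
    · rw [hsb] at h7
      simp only [Bool.false_eq_true, if_false, Prod.mk.injEq, true_and] at h7
      exact h7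
    · rw [hsb] at h7
      simp only [if_true, Prod.mk.injEq, and_true] at h7
      exact h7
  rw [h6, Finset.image_empty, Finset.empty_union] at h5
  unfold cr at h2
  unfold Cl at h5
  rw [h5] at h2
  linarith

end s4

end Pool.PmX
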